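import Pool.Agent.Run7.h905.SM.Pr

/-!
The choice of the parameters.
-/

set_option autoImplicit false

open Finset

namespace Run7.h905.SM

open Pool.Agent.H398R2.BV (Prim card_prim_le prim_ne_one)
open Pool.Agent.H441R3.BV (kap GS)

/-- the relations between the parameters -/
structure Rel (x L s R J H W : ℝ) : Prop where
  hx : R ^ 2 = x
  hR : 1 ≤ R
  hL : 1 ≤ L
  hs : 10 ^ 5 * L ^ 6 ≤ s
  hW1 : s ^ 12 ≤ W
  hW2 : W ≤ 2 * s ^ 12
  hH : R * s ^ 48 ≤ H
  hJ : 1 ≤ J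
  hJH : J ^ 2 * H * s ^ 48 ≤ x

namespace Rel

variable {x L s R J H W F I : ℝ}

lemma s1 (h : Rel x L s R J H W) : 10 ^ 5 ≤ s := by
  have h1 : 1 ≤ L ^ 6 := one_le_pow₀ h.hL
  have := h.hs
  nlinarith

lemma s0 (h : Rel x L s R J H W) : 0 < s := by
  have := h.s1
  linarith

lemma W0 (h : Rel x L s R J H W) : 0 < W := lt_of_lt_of_le (pow_pos h.s0 12) h.hW1

lemma Lpow (h : Rel x L s R J H W) (c : ℝ) (n : ℕ) (hn : n ≤ 6) (hc0 : 0 ≤ c) (hc : c ≤ 10 ^ 5) :
    c * L ^ n ≤ s := by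
  refine le_trans ?_ h.hs
  have h1 : L ^ n ≤ L ^ 6 := pow_le_pow_right₀ h.hL hn
  have h2 : 0 ≤ L ^ n := by
    have := h.hL
    positivity
  calc c * L ^ n ≤ 10 ^ 5 * L ^ n := by gcongr
    _ ≤ _ := by gcongr

lemma x0 (h : Rel x L s R J H W) : 0 < x := by
  have := h.hR
  rw [← h.hx]
  positivity

lemma J2 (h : Rel x L s R J H W) : J ^ 2 * s ^ 96 ≤ R := by
  have hR0 : 0 < R := lt_of_lt_of_le one_pos h.hR
  have h1 : J ^ 2 * (R * s ^ 48) * s ^ 48 ≤ x := by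
    refine le_trans ?_ h.hJH
    have := h.hH
    have := h.s0
    gcongr
  rw [← h.hx] at h1
  have h2 : J ^ 2 * (R * s ^ 48) * s ^ 48 = R * (J ^ 2 * s ^ 96) := by ring
  rw [h2, sq R] at h1
  exact le_of_mul_le_mul_left h1 hR0

lemma FJ (h : Rel x L s R J H W) (hF : 1 ≤ F) (hFJ : F * (J * H) ≤ 2 * x) : F * J * s ^ 48 ≤ 2 * R := by
  have hR0 : 0 < R := lt_of_lt_of_le one_pos h.hR
  have hJ := h.hJ
  have h1 : F * (J * (R * s ^ 48)) ≤ 2 * x := by
    refine le_trans ?_ hFJ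
    have := h.hH
    gcongr
  rw [← h.hx] at h1
  have h2 : F * (J * (R * s ^ 48)) = R * (F * J * s ^ 48) := by ring
  rw [h2, show 2 * R ^ 2 = R * (2 * R) by ring] at h1
  exact le_of_mul_le_mul_left h1 hR0

lemma Rs (h : Rel x L s R J H W) : s ^ 96 ≤ R := by
  refine le_trans ?_ h.J2
  have h1 : 1 ≤ J ^ 2 := one_le_pow₀ h.hJ
  have := h.s0
  nlinarith [pow_pos this 96]

lemma spow (h : Rel x L s R J H W) {m n : ℕ} (hmn : m ≤ n) : s ^ m ≤ s ^ n := by
  apply pow_le_pow_right₀ _ hmn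
  have := h.s1
  linarith

lemma R2 (h : Rel x L s R J H W) : 2 * R ≤ x := by
  have h1 := h.Rs
  have h2 := h.s1
  have h3 : s ^ 1 ≤ s ^ 96 := h.spow (by norm_num)
  rw [pow_one] at h3
  have hR : 2 ≤ R := by linarith
  rw [← h.hx]
  nlinarith

/-- U ^ 3 ≤ x -/
lemma U3 (h : Rel x L s R J H W) : (3 * J * W ^ 3) ^ 3 ≤ x := by
  have h0 := h.s0
  have hJ := h.hJ
  have hJ0 : 0 < J := by linarith
  have hW0 := h.W0
  have h1 := h.J2
  have h2 : (3 * J * W ^ 3) ^ 3 ≤ 27 * J ^ 4 * (512 * s ^ 108) := by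
    calc (3 * J * W ^ 3) ^ 3 = 27 * J ^ 3 * W ^ 9 := by ring
      _ ≤ 27 * J ^ 4 * (2 * s ^ 12) ^ 9 := by
          have := h.hW2
          gcongr
          norm_num
      _ = _ := by ring
  have h3 : (J ^ 2 * s ^ 96) ^ 2 ≤ R ^ 2 := pow_le_pow_left₀ (by positivity) h1 2
  rw [h.hx] at h3
  refine h2.trans (le_trans ?_ h3)
  have h4 : (27 * 512 : ℝ) ≤ s := by
    have := h.s1
    linarith
  have h5 : s ^ 109 ≤ s ^ 192 := h.spow (by norm_num)
  calc 27 * J ^ 4 * (512 * s ^ 108) = J ^ 4 * ((27 * 512) * s ^ 108) := by ring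
    _ ≤ J ^ 4 * (s * s ^ 108) := by gcongr
    _ = J ^ 4 * s ^ 109 := by ring
    _ ≤ J ^ 4 * s ^ 192 := by gcongr
    _ = (J ^ 2 * s ^ 96) ^ 2 := by ring

lemma ta (h : Rel x L s R J H W) (hF : 1 ≤ F) (hFJ : F * (J * H) ≤ 2 * x) :
    F * (3 * J * W ^ 3 * L) ≤ x / s ^ 4 := by
  have h0 := h.s0
  have hJ := h.hJ
  have hW0 := h.W0
  have hL := h.hL
  have h1 := h.FJ hF hFJ
  have h2 := h.Lpow 24 1 (by norm_num) (by norm_num) (by norm_num)
  rw [pow_one] at h2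
  rw [le_div_iff₀ (by positivity)]
  refine le_trans ?_ h.R2
  refine le_trans ?_ h1
  calc F * (3 * J * W ^ 3 * L) * s ^ 4 ≤ F * (3 * J * (2 * s ^ 12) ^ 3 * L) * s ^ 4 := by
        have := h.hW2
        gcongr
    _ = F * J * (24 * L) * s ^ 40 := by ring
    _ ≤ F * J * s * s ^ 40 := by gcongr
    _ = F * J * s ^ 41 := by ring
    _ ≤ F * J * s ^ 48 := by
        have := h.spow (show 41 ≤ 48 by norm_num)
        gcongr

lemma tb (h : Rel x L s R J H W) (hF : 1 ≤ F) (hFJ : F * (J * H) ≤ 2 * x) (hI0 : 0 ≤ I)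
    (hI : I ≤ J * W * L) : F * (12 * F * I * (3 * J * W ^ 3) * L) ≤ x / s ^ 4 := by
  have h0 := h.s0
  have hJ := h.hJ
  have hW0 := h.W0
  have hL := h.hL
  have h1 := h.FJ hF hFJ
  have h2 := h.Lpow 576 2 (by norm_num) (by norm_num) (by norm_num)
  rw [le_div_iff₀ (by positivity)]
  have h3 : (F * J * s ^ 48) ^ 2 ≤ (2 * R) ^ 2 := pow_le_pow_left₀ (by positivity) h1 2
  have h4 : (4:ℝ) ≤ s := by
    have := h.s1
    linarith
  have h5 : 4 * ((F * J) ^ 2 * s ^ 95) ≤ 4 * x := by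
    calc 4 * ((F * J) ^ 2 * s ^ 95) ≤ s * ((F * J) ^ 2 * s ^ 95) := by gcongr
      _ = (F * J * s ^ 48) ^ 2 := by ring
      _ ≤ (2 * R) ^ 2 := h3
      _ = 4 * x := by rw [← h.hx]; ring
  calc F * (12 * F * I * (3 * J * W ^ 3) * L) * s ^ 4
      ≤ F * (12 * F * (J * (2 * s ^ 12) * L) * (3 * J * (2 * s ^ 12) ^ 3) * L) * s ^ 4 := by
        have := h.hW2
        have h6 : I ≤ J * (2 * s ^ 12) * L := hI.trans (by gcongr)
        gcongr
    _ = (F * J) ^ 2 * (576 * L ^ 2) * s ^ 52 := by ring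
    _ ≤ (F * J) ^ 2 * s * s ^ 52 := by gcongr
    _ = (F * J) ^ 2 * s ^ 53 := by ring
    _ ≤ (F * J) ^ 2 * s ^ 95 := by
        have := h.spow (show 53 ≤ 95 by norm_num)
        gcongr
    _ ≤ x := by linarith

lemma sqrtL (h : Rel x L s R J H W) : Real.sqrt (L * x) ≤ L * R := by
  have hL := h.hL
  have hR := h.hR
  rw [Real.sqrt_le_left (by positivity), ← h.hx]
  nlinarith [sq_nonneg R, mul_nonneg (by linarith : (0:ℝ) ≤ L) (sq_nonneg R)]

lemma tc (h : Rel x L s R J H W) (hF : 1 ≤ F) (hFJ : F * (J * H) ≤ 2 * x) :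
    60 * L ^ 4 * (3 * x / F + 11 * x * Real.sqrt (L * (J * W * W) / (3 * J * W ^ 3)) +
      10 * F * (J * W * W) * Real.sqrt (L * x)) ≤ 180 * L ^ 4 * x / F + x / s ^ 4 + x / s ^ 4 := by
  have h0 := h.s0
  have hJ := h.hJ
  have hJ0 : 0 < J := by linarith
  have hW0 := h.W0
  have hL := h.hL
  have hx0 := h.x0
  have hR0 : 0 < R := lt_of_lt_of_le one_pos h.hR
  have h1 := h.FJ hF hFJ
  have c1 : Real.sqrt (L * (J * W * W) / (3 * J * W ^ 3)) ≤ L / s ^ 6 := by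
    have e : L * (J * W * W) / (3 * J * W ^ 3) = L / (3 * W) := by
      field_simp
    rw [e, Real.sqrt_le_left (by positivity)]
    have e2 : (L / s ^ 6) ^ 2 = L ^ 2 / s ^ 12 := by
      rw [div_pow]
      ring
    rw [e2]
    have h5 : s ^ 12 ≤ 3 * W := by
      have := h.hW1
      linarith
    calc L / (3 * W) ≤ L / s ^ 12 := by gcongr
      _ ≤ L ^ 2 / s ^ 12 := by
          gcongr
          nlinarith
  have c2 : 60 * L ^ 4 * (11 * x * Real.sqrt (L * (J * W * W) / (3 * J * W ^ 3))) ≤ x / s ^ 4 := by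
    have h2 := h.Lpow 660 5 (by norm_num) (by norm_num) (by norm_num)
    calc 60 * L ^ 4 * (11 * x * Real.sqrt (L * (J * W * W) / (3 * J * W ^ 3))) ≤
        60 * L ^ 4 * (11 * x * (L / s ^ 6)) := by gcongr
      _ = (660 * L ^ 5) * (x / s ^ 6) := by ring
      _ ≤ s * (x / s ^ 6) := by gcongr
      _ = x / s ^ 5 := by field_simp
      _ ≤ x / s ^ 4 := by
          have := h.spow (show 4 ≤ 5 by norm_num)
          gcongr
  have c3 : 60 * L ^ 4 * (10 * F * (J * W * W) * Real.sqrt (L * x)) ≤ x / s ^ 4 := by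
    have h2 := h.Lpow 2400 5 (by norm_num) (by norm_num) (by norm_num)
    rw [le_div_iff₀ (by positivity)]
    calc 60 * L ^ 4 * (10 * F * (J * W * W) * Real.sqrt (L * x)) * s ^ 4 ≤
        60 * L ^ 4 * (10 * F * (J * (2 * s ^ 12) * (2 * s ^ 12)) * (L * R)) * s ^ 4 := by
          have := h.hW2
          have := h.sqrtL
          gcongr
      _ = (2400 * L ^ 5) * (F * J) * R * s ^ 28 := by ring
      _ ≤ s * (F * J) * R * s ^ 28 := by gcongr
      _ = F * J * s ^ 29 * R := by ring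
      _ ≤ F * J * s ^ 47 * R := by
          have := h.spow (show 29 ≤ 47 by norm_num)
          gcongr
      _ ≤ R * R := by
          have h4 : (2:ℝ) ≤ s := by
            have := h.s1
            linarith
          have h5 : 2 * (F * J * s ^ 47) ≤ 2 * R := by
            calc 2 * (F * J * s ^ 47) ≤ s * (F * J * s ^ 47) := by gcongr
              _ = F * J * s ^ 48 := by ring
              _ ≤ _ := h1
          gcongr
          linarith
      _ = x := by rw [← h.hx]; ring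
  have e3 : 60 * L ^ 4 * (3 * x / F) = 180 * L ^ 4 * x / F := by ring
  rw [mul_add, mul_add, e3]
  linarith

lemma FI (h : Rel x L s R J H W) (hF : 1 ≤ F) (hFJ : F * (J * H) ≤ 2 * x) (hI0 : 0 ≤ I)
    (hI : I ≤ J * W * L) : Real.sqrt (x + 4 * F ^ 2 * I) ≤ 2 * R := by
  have h0 := h.s0
  have hJ := h.hJ
  have hW0 := h.W0
  have hL := h.hL
  have hR0 : 0 < R := lt_of_lt_of_le one_pos h.hR
  have h1 := h.FJ hF hFJ
  have h2 := h.Lpow 8 1 (by norm_num) (by norm_num) (by norm_num)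
  rw [pow_one] at h2
  rw [Real.sqrt_le_left (by positivity)]
  have h3 : (F * J * s ^ 48) ^ 2 ≤ (2 * R) ^ 2 := pow_le_pow_left₀ (by positivity) h1 2
  have h4 : (4:ℝ) ≤ s := by
    have := h.s1
    linarith
  have h5 : 4 * ((F * J) ^ 2 * s ^ 95) ≤ 4 * x := by
    calc 4 * ((F * J) ^ 2 * s ^ 95) ≤ s * ((F * J) ^ 2 * s ^ 95) := by gcongr
      _ = (F * J * s ^ 48) ^ 2 := by ring
      _ ≤ (2 * R) ^ 2 := h3
      _ = 4 * x := by rw [← h.hx]; ring
  have h6 : 4 * F ^ 2 * I ≤ x := by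
    calc 4 * F ^ 2 * I ≤ 4 * F ^ 2 * (J * (2 * s ^ 12) * L) := by
          have := h.hW2
          have h6 : I ≤ J * (2 * s ^ 12) * L := hI.trans (by gcongr)
          gcongr
      _ = F ^ 2 * J * (8 * L) * s ^ 12 := by ring
      _ ≤ F ^ 2 * J * s * s ^ 12 := by gcongr
      _ = F ^ 2 * (J * 1) * s ^ 13 := by ring
      _ ≤ F ^ 2 * (J * J) * s ^ 95 := by
          have := h.spow (show 13 ≤ 95 by norm_num)
          gcongr
      _ = (F * J) ^ 2 * s ^ 95 := by ring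
      _ ≤ x := by linarith
  have h7 : (2 * R) ^ 2 = 4 * x := by rw [← h.hx]; ring
  have := h.x0
  linarith

lemma Ibd (h : Rel x L s R J H W) (hI0 : 0 ≤ I) (hI : I ≤ J * W * L) : 2 * I * s ^ 12 ≤ x * L := by
  have h0 := h.s0
  have hJ := h.hJ
  have hW0 := h.W0
  have hL := h.hL
  have hR0 : 0 < R := lt_of_lt_of_le one_pos h.hR
  have h1 := h.J2
  have h4 : (4:ℝ) ≤ s := by
    have := h.s1
    linarith
  calc 2 * I * s ^ 12 ≤ 2 * (J * (2 * s ^ 12) * L) * s ^ 12 := by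
        have := h.hW2
        have h6 : I ≤ J * (2 * s ^ 12) * L := hI.trans (by gcongr)
        gcongr
    _ = 4 * (J * 1) * s ^ 24 * L := by ring
    _ ≤ s * (J * J) * s ^ 24 * L := by gcongr
    _ = J ^ 2 * s ^ 25 * L := by ring
    _ ≤ J ^ 2 * s ^ 96 * L := by
        have := h.spow (show 25 ≤ 96 by norm_num)
        gcongr
    _ ≤ R * L := by gcongr
    _ ≤ x * L := by
        have := h.R2
        gcongr
        linarith

lemma td (h : Rel x L s R J H W) (hF : 1 ≤ F) (hFJ : F * (J * H) ≤ 2 * x) (hI0 : 0 ≤ I)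
    (hI : I ≤ J * W * L) :
    2 * (5 * (Real.sqrt (x + 4 * F ^ 2 * I) * Real.sqrt ((s * L) ^ 2 * (8 * x * L / W + 2 * I)))) ≤
      x / s ^ 4 := by
  have h0 := h.s0
  have hJ := h.hJ
  have hW0 := h.W0
  have hL := h.hL
  have hx0 := h.x0
  have hR0 : 0 < R := lt_of_lt_of_le one_pos h.hR
  have c1 := h.FI hF hFJ hI0 hI
  have c2 : Real.sqrt ((s * L) ^ 2 * (8 * x * L / W + 2 * I)) ≤ 3 * L ^ 2 * R / s ^ 5 := by
    rw [Real.sqrt_le_left (by positivity)]
    have h1 : 8 * x * L / W ≤ 8 * x * L / s ^ 12 := by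
      have := h.hW1
      gcongr
    have h2 : 2 * I ≤ x * L / s ^ 12 := by
      rw [le_div_iff₀ (by positivity)]
      exact h.Ibd hI0 hI
    calc (s * L) ^ 2 * (8 * x * L / W + 2 * I) ≤
        (s * L) ^ 2 * (8 * x * L / s ^ 12 + x * L / s ^ 12) := by gcongr
      _ = 9 * (L ^ 3 * 1) * R ^ 2 / s ^ 10 := by
          rw [h.hx]
          field_simp
          ring
      _ ≤ 9 * (L ^ 3 * L) * R ^ 2 / s ^ 10 := by gcongr
      _ = (3 * L ^ 2 * R / s ^ 5) ^ 2 := by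
          field_simp
          ring
  have h3 := h.Lpow 60 2 (by norm_num) (by norm_num) (by norm_num)
  calc 2 * (5 * (Real.sqrt (x + 4 * F ^ 2 * I) * Real.sqrt ((s * L) ^ 2 * (8 * x * L / W + 2 * I)))) ≤
      2 * (5 * ((2 * R) * (3 * L ^ 2 * R / s ^ 5))) := by gcongr
    _ = (60 * L ^ 2) * (x / s ^ 5) := by
        rw [← h.hx]
        ring
    _ ≤ s * (x / s ^ 5) := by gcongr
    _ = x / s ^ 4 := by field_simp

lemma te (h : Rel x L s R J H W) (hF : 1 ≤ F) (hFJ : F * (J * H) ≤ 2 * x) (hI0 : 0 ≤ I)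
    (hI : I ≤ J * W * L) :
    5 * (Real.sqrt (x + 4 * F ^ 2 * I) * Real.sqrt (x / (J * W) ^ 2 + 2 * R * L ^ 2)) ≤ x / s ^ 4 := by
  have h0 := h.s0
  have hJ := h.hJ
  have hJ0 : 0 < J := by linarith
  have hW0 := h.W0
  have hL := h.hL
  have hx0 := h.x0
  have hR0 : 0 < R := lt_of_lt_of_le one_pos h.hR
  have c1 := h.FI hF hFJ hI0 hI
  have c2 : Real.sqrt (x / (J * W) ^ 2 + 2 * R * L ^ 2) ≤ 2 * R / s ^ 12 := by
    rw [Real.sqrt_le_left (by positivity)]
    have h1 : x / (J * W) ^ 2 ≤ x / s ^ 24 := by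
      have h2 : s ^ 12 ≤ J * W := by
        have := h.hW1
        nlinarith
      have h3 : s ^ 24 ≤ (J * W) ^ 2 := by
        calc s ^ 24 = (s ^ 12) ^ 2 := by ring
          _ ≤ _ := by gcongr
      gcongr
    have h4 : 2 * R * L ^ 2 ≤ x / s ^ 24 := by
      rw [le_div_iff₀ (by positivity), ← h.hx]
      have h5 := h.Lpow 2 2 (by norm_num) (by norm_num) (by norm_num)
      calc 2 * R * L ^ 2 * s ^ 24 = R * (2 * L ^ 2) * s ^ 24 := by ring
        _ ≤ R * s * s ^ 24 := by gcongr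
        _ = R * s ^ 25 := by ring
        _ ≤ R * s ^ 96 := by
            have := h.spow (show 25 ≤ 96 by norm_num)
            gcongr
        _ ≤ R * R := by
            have := h.Rs
            gcongr
        _ = R ^ 2 := by ring
    calc x / (J * W) ^ 2 + 2 * R * L ^ 2 ≤ x / s ^ 24 + x / s ^ 24 := by gcongr
      _ ≤ 4 * (x / s ^ 24) := by
          have : 0 ≤ x / s ^ 24 := by positivity
          linarith
      _ = (2 * R / s ^ 12) ^ 2 := by
          rw [← h.hx]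
          field_simp
          ring
  have h20 : (20:ℝ) ≤ s := by
    have := h.s1
    linarith
  calc 5 * (Real.sqrt (x + 4 * F ^ 2 * I) * Real.sqrt (x / (J * W) ^ 2 + 2 * R * L ^ 2)) ≤
      5 * ((2 * R) * (2 * R / s ^ 12)) := by gcongr
    _ = 20 * (x / s ^ 12) := by
        rw [← h.hx]
        ring
    _ ≤ s * (x / s ^ 12) := by gcongr
    _ = x / s ^ 11 := by field_simp
    _ ≤ x / s ^ 4 := by
        have := h.spow (show 4 ≤ 11 by norm_num)
        gcongr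

lemma tf (h : Rel x L s R J H W) (hF : 1 ≤ F) (hFJ : F * (J * H) ≤ 2 * x) : 3 * F ≤ x / s ^ 4 := by
  have h0 := h.s0
  have hJ := h.hJ
  have hR0 : 0 < R := lt_of_lt_of_le one_pos h.hR
  have h1 := h.FJ hF hFJ
  rw [le_div_iff₀ (by positivity)]
  refine le_trans ?_ h.R2
  refine le_trans ?_ h1
  have h4 : (3:ℝ) ≤ s := by
    have := h.s1
    linarith
  calc 3 * F * s ^ 4 ≤ s * (F * J) * s ^ 4 := by
        have : 3 * F ≤ s * (F * J) := by
          calc 3 * F ≤ s * F := by gcongr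
            _ = s * (F * 1) := by ring
            _ ≤ s * (F * J) := by gcongr
        gcongr
    _ = F * J * s ^ 5 := by ring
    _ ≤ F * J * s ^ 48 := by
        have := h.spow (show 5 ≤ 48 by norm_num)
        gcongr

end Rel

/-- the average over the characters, with the parameters -/
theorem pr_par {x J H W F : ℕ} {s : ℝ}
    (hR : Rel (x : ℝ) (Real.log x) s (Real.sqrt x) J H W) (hF : 0 < F)
    (hFJ : (F : ℝ) * (J * H) ≤ 2 * x)
    (hT : ∀ n : ℕ, 1 ≤ n → n ≤ x → (n.divisors.card : ℝ) ≤ s) :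
    Av F (fun f ψ => ∑ k ∈ range (kap (J * W) x), ‖CS pr (J * W) k f ψ‖) ≤
      180 * Real.log x ^ 4 * x / F + x / s ^ 3 := by
  have hJ1 : 1 ≤ J := by exact_mod_cast hR.hJ
  have hF1 : (1:ℝ) ≤ F := by exact_mod_cast hF
  have hs1 := hR.s1
  have hs0 := hR.s0
  have hW2 : 2 ≤ W := by
    have h1 := hR.hW1
    have h2 : s ^ 1 ≤ s ^ 12 := hR.spow (by norm_num)
    rw [pow_one] at h2
    have : (2:ℝ) ≤ W := by linarith
    exact_mod_cast this
  have hK : 0 < J * W := Nat.mul_pos hJ1 (by omega)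
  have hx1 : 1 ≤ x := by
    have h1 := hR.x0
    have : 0 < x := by exact_mod_cast h1
    omega
  have hU : 3 * (J * W * W) ≤ 3 * J * W ^ 3 := by
    have : W ^ 3 = W * W * W := by ring
    rw [this]
    calc 3 * (J * W * W) = 3 * J * (W * W) * 1 := by ring
      _ ≤ 3 * J * (W * W) * W := Nat.mul_le_mul_left _ (by omega)
      _ = _ := by ring
  have hU3 : (3 * J * W ^ 3) ^ 3 ≤ x := by exact_mod_cast hR.U3
  have hmain := pr_av (F := F) (K := J * W) (W := W) (U := 3 * J * W ^ 3) (I := kap (J * W) x)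
    (T := s) hF hK hW2 hx1 hR.hL hU hU3 le_rfl hT
  have hI0 : (0:ℝ) ≤ kap (J * W) x := Nat.cast_nonneg _
  have hI : (kap (J * W) x : ℝ) ≤ J * W * Real.log x := by
    have := I_le hK hx1 le_rfl
    push_cast at this
    exact this
  have a1 := hR.ta hF1 hFJ
  have a2 := hR.tb hF1 hFJ hI0 hI
  have a3 := hR.tc hF1 hFJ
  have a4 := hR.td hF1 hFJ hI0 hI
  have a5 := hR.te hF1 hFJ hI0 hI
  have a6 := hR.tf hF1 hFJ
  have hx0 := hR.x0
  have hX : XX x (J * W) W (3 * J * W ^ 3) F = 3 * x / F +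
      11 * x * Real.sqrt (Real.log x * ((J:ℝ) * W * W) / (3 * J * W ^ 3)) +
      10 * F * ((J:ℝ) * W * W) * Real.sqrt (Real.log x * x) := by
    unfold XX
    push_cast
    rfl
  have h7 : 7 * (x / s ^ 4) ≤ x / s ^ 3 := by
    have : (7:ℝ) ≤ s := by linarith
    calc 7 * (x / s ^ 4) ≤ s * (x / s ^ 4) := by gcongr
      _ = x / s ^ 3 := by field_simp
  rw [hX] at hmain
  unfold YY ZZ at hmain
  push_cast at hmain
  refine hmain.trans ?_
  have a1' : (F:ℝ) * (3 * ↑J * ↑W ^ 3 * Real.log x) ≤ x / s ^ 4 := a1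
  linarith

end Run7.h905.SM
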