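import Pool.Agent.Run7.h905.SM.LS

/-!
Cells: the integers `n` with `⌊K log n⌋ = k`.
-/

set_option autoImplicit false

open Finset

namespace Run7.h905.SM

open Pool.Agent.H441R3.BV (kap)

/-- the last integer before `exp (k / K)` -/
noncomputable def gg (K k : ℕ) : ℕ := ⌈Real.exp ((k : ℝ) / K)⌉₊ - 1

lemma gg_lt_iff (K k n : ℕ) : gg K k < n ↔ Real.exp ((k : ℝ) / K) ≤ n := by
  unfold gg
  have h : 1 ≤ ⌈Real.exp ((k : ℝ) / K)⌉₊ := Nat.one_le_ceil_iff.2 (Real.exp_pos _)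
  rw [← Nat.ceil_le]
  omega

lemma gg_lt (K k : ℕ) : (gg K k : ℝ) < Real.exp ((k : ℝ) / K) := by
  by_contra h
  rw [not_lt, ← gg_lt_iff] at h
  exact lt_irrefl _ h

lemma le_gg (K k : ℕ) : Real.exp ((k : ℝ) / K) - 1 ≤ gg K k := by
  unfold gg
  have h : 1 ≤ ⌈Real.exp ((k : ℝ) / K)⌉₊ := Nat.one_le_ceil_iff.2 (Real.exp_pos _)
  rw [Nat.cast_sub h]
  have := Nat.le_ceil (Real.exp ((k : ℝ) / K))
  push_cast
  linarith

lemma gg_zero (K : ℕ) : gg K 0 = 0 := by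
  unfold gg
  simp

lemma gg_mono (K : ℕ) {k l : ℕ} (h : k ≤ l) : gg K k ≤ gg K l := by
  unfold gg
  apply Nat.sub_le_sub_right
  apply Nat.ceil_le_ceil
  apply Real.exp_le_exp.2
  gcongr

lemma le_kap {K n k : ℕ} (hK : 0 < K) (hn : 1 ≤ n) :
    k ≤ kap K n ↔ Real.exp ((k : ℝ) / K) ≤ n := by
  have hK0 : (0:ℝ) < K := by exact_mod_cast hK
  have hn0 : (0:ℝ) < n := by exact_mod_cast hn
  unfold kap
  rw [Nat.le_floor_iff (mul_nonneg hK0.le (Real.log_natCast_nonneg n)),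
    ← Real.le_log_iff_exp_le hn0, div_le_iff₀ hK0, mul_comm]

lemma le_kap' {K n k : ℕ} (hK : 0 < K) (hn : 1 ≤ n) : k ≤ kap K n ↔ gg K k < n := by
  rw [le_kap hK hn, gg_lt_iff]

/-- the `k`-th cell -/
noncomputable def cell (K k : ℕ) : Finset ℕ := Ioc (gg K k) (gg K (k + 1))

lemma mem_cell {K k n : ℕ} (hK : 0 < K) : n ∈ cell K k ↔ 1 ≤ n ∧ kap K n = k := by
  unfold cell
  rw [mem_Ioc]
  constructor
  · rintro ⟨h1, h2⟩
    have hn : 1 ≤ n := by omega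
    refine ⟨hn, ?_⟩
    have h3 := (le_kap' hK hn).2 h1
    have h4 : ¬ (k + 1 ≤ kap K n) := by
      rw [le_kap' hK hn]
      omega
    omega
  · rintro ⟨hn, h⟩
    have h3 := (le_kap' hK hn (k := k)).1 (by omega)
    have h4 : ¬ (k + 1 ≤ kap K n) := by omega
    rw [le_kap' hK hn] at h4
    omega

lemma cell_one {K k n : ℕ} (h : n ∈ cell K k) : 1 ≤ n := by
  unfold cell at h
  rw [mem_Ioc] at h
  omega

lemma cell_lower {K k n : ℕ} (h : n ∈ cell K k) : Real.exp ((k : ℝ) / K) ≤ n := by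
  unfold cell at h
  rw [mem_Ioc, gg_lt_iff] at h
  exact h.1

lemma cell_upper {K k n : ℕ} (h : n ∈ cell K k) : (n : ℝ) < Real.exp (((k + 1 : ℕ) : ℝ) / K) := by
  unfold cell at h
  rw [mem_Ioc] at h
  refine lt_of_le_of_lt ?_ (gg_lt K (k + 1))
  exact_mod_cast h.2

/-- the length of the `k`-th cell -/
noncomputable def len (K k : ℕ) : ℕ := gg K (k + 1) - gg K k

lemma cell_sub (K k : ℕ) : cell K k ⊆ Ioc (gg K k) (gg K k + len K k) := by
  unfold cell len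
  intro n hn
  rw [mem_Ioc] at hn ⊢
  omega

lemma len_cast (K k : ℕ) : (len K k : ℝ) = gg K (k + 1) - gg K k := by
  unfold len
  rw [Nat.cast_sub (gg_mono K (Nat.le_succ k))]

lemma exp_sub_one_le {t : ℝ} (h0 : 0 ≤ t) (h1 : t ≤ 1) : Real.exp t - 1 ≤ 2 * t := by
  have h := Real.abs_exp_sub_one_sub_id_le (x := t) (by rw [abs_of_nonneg h0]; exact h1)
  rw [abs_le] at h
  nlinarith [h.2]

lemma len_le (K k : ℕ) (hK : 0 < K) : (len K k : ℝ) ≤ 2 * Real.exp ((k : ℝ) / K) / K + 1 := by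
  have hK0 : (0:ℝ) < K := by exact_mod_cast hK
  have hK1 : (1:ℝ) ≤ K := by exact_mod_cast hK
  rw [len_cast]
  have h1 := gg_lt K (k + 1)
  have h2 := le_gg K k
  have h3 : Real.exp (((k + 1 : ℕ) : ℝ) / K) = Real.exp ((k : ℝ) / K) * Real.exp (1 / (K : ℝ)) := by
    rw [← Real.exp_add]
    congr 1
    push_cast
    ring
  have h4 := exp_sub_one_le (t := 1 / (K : ℝ)) (by positivity) (by rw [div_le_one hK0]; exact hK1)
  have h5 : Real.exp ((k : ℝ) / K) * (Real.exp (1 / (K : ℝ)) - 1) ≤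
      Real.exp ((k : ℝ) / K) * (2 * (1 / (K : ℝ))) :=
    mul_le_mul_of_nonneg_left h4 (Real.exp_pos _).le
  have h6 : Real.exp ((k : ℝ) / K) * (2 * (1 / (K : ℝ))) = 2 * Real.exp ((k : ℝ) / K) / K := by ring
  rw [h3] at h1
  nlinarith

lemma sum_len (K m : ℕ) : ∑ k ∈ range m, (len K k : ℝ) = gg K m := by
  simp_rw [len_cast]
  rw [sum_range_sub (fun k => (gg K k : ℝ)), gg_zero]
  simp

lemma sum_cells {M : Type*} [AddCommMonoid M] (K m : ℕ) (h : ℕ → M) :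
    ∑ n ∈ Icc 1 (gg K m), h n = ∑ k ∈ range m, ∑ n ∈ cell K k, h n := by
  induction m with
  | zero => rw [gg_zero]; simp
  | succ m ih =>
    rw [sum_range_succ, ← ih]
    unfold cell
    have h1 := gg_mono K (Nat.le_succ m)
    have h2 : Icc 1 (gg K (m + 1)) = Icc 1 (gg K m) ∪ Ioc (gg K m) (gg K (m + 1)) := by
      ext n
      simp only [mem_union, mem_Icc, mem_Ioc]
      have : gg K m ≤ gg K (m + 1) := h1
      omega
    rw [h2, sum_union]
    rw [disjoint_left]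
    intro n hn hn'
    rw [mem_Icc] at hn
    rw [mem_Ioc] at hn'
    omega

lemma sum_cell_eq_sub (K k : ℕ) (h : ℕ → ℂ) :
    ∑ n ∈ cell K k, h n = ∑ n ∈ Icc 1 (gg K (k + 1)), h n - ∑ n ∈ Icc 1 (gg K k), h n := by
  rw [sum_cells, sum_cells, sum_range_succ]
  ring

lemma kap_mul (K W n : ℕ) (hW : 0 < W) : kap (K * W) n / W = kap K n := by
  unfold kap
  have hW0 : (W:ℝ) ≠ 0 := by exact_mod_cast hW.ne'
  rw [← Nat.floor_div_natCast]
  congr 1
  push_cast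
  field_simp

lemma kap_prod {K n m : ℕ} (hn : 1 ≤ n) (hm : 1 ≤ m) :
    kap K n + kap K m ≤ kap K (n * m) ∧ kap K (n * m) ≤ kap K n + kap K m + 1 := by
  have hn0 : (0:ℝ) < n := by exact_mod_cast hn
  have hm0 : (0:ℝ) < m := by exact_mod_cast hm
  unfold kap
  have h1 : (K:ℝ) * Real.log ((n * m : ℕ) : ℝ) = K * Real.log n + K * Real.log m := by
    push_cast
    rw [Real.log_mul hn0.ne' hm0.ne']
    ring
  have g1 : 0 ≤ (K:ℝ) * Real.log n := mul_nonneg (Nat.cast_nonneg _) (Real.log_natCast_nonneg n)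
  have g2 : 0 ≤ (K:ℝ) * Real.log m := mul_nonneg (Nat.cast_nonneg _) (Real.log_natCast_nonneg m)
  rw [h1]
  have a1 := Nat.floor_le g1
  have a2 := Nat.floor_le g2
  have b1 := Nat.lt_floor_add_one ((K:ℝ) * Real.log n)
  have b2 := Nat.lt_floor_add_one ((K:ℝ) * Real.log m)
  constructor
  · apply Nat.le_floor
    push_cast
    linarith
  · have c1 := Nat.floor_le (add_nonneg g1 g2)
    have : (⌊(K:ℝ) * Real.log n + K * Real.log m⌋₊ : ℝ) <
        ((⌊(K:ℝ) * Real.log n⌋₊ + ⌊(K:ℝ) * Real.log m⌋₊ + 1 + 1 : ℕ) : ℝ) := by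
      push_cast
      linarith
    have h3 : ⌊(K:ℝ) * Real.log n + K * Real.log m⌋₊ <
        ⌊(K:ℝ) * Real.log n⌋₊ + ⌊(K:ℝ) * Real.log m⌋₊ + 1 + 1 := by exact_mod_cast this
    omega

end Run7.h905.SM
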