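import Pool.Agent.Run7.h905.SM.Alg
import Pool.Agent.TH926.EH.Par

/-!
Expansion over the conductors.
-/

set_option autoImplicit false

open Finset

namespace Run7.h905.SM

open Pool.Agent.H398R2.BV (Prim card_prim_le prim_ne_one)
open Pool.Agent.H441R3.BV (kap GS)
open DirichletCharacter (changeLevel)
open Classical

lemma mem_prim {f : ℕ} {ψ : DirichletCharacter ℂ f} : ψ ∈ Prim f ↔ ψ.conductor = f := by
  unfold Prim
  rw [mem_filter]
  simp only [mem_univ, true_and]
  rfl

/-- a function of the character of level `n`, evaluated at the lift of a character of level `f` -/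
noncomputable def lift {M : Type*} [AddCommMonoid M] (n : ℕ) (G : DirichletCharacter ℂ n → M) (f : ℕ)
    (ψ : DirichletCharacter ℂ f) : M :=
  if h : f ∣ n then G (changeLevel h ψ) else 0

theorem char_expand {M : Type*} [AddCommMonoid M] (n : ℕ) [NeZero n]
    (G : DirichletCharacter ℂ n → M) :
    ∑ χ : DirichletCharacter ℂ n, G χ =
      ∑ f ∈ n.divisors, ∑ ψ ∈ Prim f, lift n G f ψ := by
  have h1 : ∀ χ ∈ (univ : Finset (DirichletCharacter ℂ n)), χ.conductor ∈ n.divisors := by
    intro χ _
    exact Nat.mem_divisors.mpr ⟨χ.conductor_dvd_level, NeZero.ne n⟩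
  rw [← sum_fiberwise_of_maps_to h1]
  apply sum_congr rfl
  intro f hf
  rw [Nat.mem_divisors] at hf
  have hfm := hf.1
  have h2 : (univ : Finset (DirichletCharacter ℂ n)).filter (fun χ => χ.conductor = f) =
      (Prim f).image (changeLevel hfm) := by
    ext χ
    rw [mem_filter, mem_image]
    constructor
    · rintro ⟨_, hc⟩
      subst hc
      exact ⟨χ.primitiveCharacter, mem_prim.2 χ.primitiveCharacter_isPrimitive,
        χ.changeLevel_primitiveCharacter⟩
    · rintro ⟨ψ, hψ, rfl⟩
      refine ⟨mem_univ _, ?_⟩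
      rw [DirichletCharacter.conductor_changeLevel]
      exact mem_prim.1 hψ
  rw [h2, sum_image]
  · apply sum_congr rfl
    intro ψ _
    unfold lift
    rw [dif_pos hfm]
  · intro a _ b _ hab
    exact DirichletCharacter.changeLevel_injective hfm hab

/-- characters of large conductor -/
noncomputable def hi (n R : ℕ) : Finset (DirichletCharacter ℂ n) :=
  univ.filter (fun χ => R < χ.conductor)

/-- characters of small conductor -/
noncomputable def lo (n R : ℕ) : Finset (DirichletCharacter ℂ n) :=
  univ.filter (fun χ => ¬ R < χ.conductor)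

theorem hi_expand {M : Type*} [AddCommMonoid M] (n R : ℕ) [NeZero n]
    (G : DirichletCharacter ℂ n → M) :
    ∑ χ ∈ hi n R, G χ =
      ∑ f ∈ n.divisors.filter (fun f => R < f), ∑ ψ ∈ Prim f, lift n G f ψ := by
  unfold hi
  rw [sum_filter, char_expand, sum_filter]
  apply sum_congr rfl
  intro f _
  split_ifs with h
  · apply sum_congr rfl
    intro ψ hψ
    unfold lift
    split_ifs with h1
    · beta_reduce
      rw [DirichletCharacter.conductor_changeLevel, mem_prim.1 hψ, if_pos h]
    · rfl
  · apply sum_eq_zero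
    intro ψ hψ
    unfold lift
    split_ifs with h1
    · beta_reduce
      rw [DirichletCharacter.conductor_changeLevel, mem_prim.1 hψ, if_neg h]
    · rfl

theorem lo_expand {M : Type*} [AddCommMonoid M] (n R : ℕ) [NeZero n]
    (G : DirichletCharacter ℂ n → M) :
    ∑ χ ∈ lo n R, G χ =
      ∑ f ∈ n.divisors.filter (fun f => f ≤ R), ∑ ψ ∈ Prim f, lift n G f ψ := by
  unfold lo
  rw [sum_filter, char_expand, sum_filter]
  apply sum_congr rfl
  intro f _
  split_ifs with h
  · apply sum_congr rfl
    intro ψ hψ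
    unfold lift
    split_ifs with h1
    · beta_reduce
      rw [DirichletCharacter.conductor_changeLevel, mem_prim.1 hψ, if_pos (by omega)]
    · rfl
  · apply sum_eq_zero
    intro ψ hψ
    unfold lift
    split_ifs with h1
    · beta_reduce
      rw [DirichletCharacter.conductor_changeLevel, mem_prim.1 hψ, if_neg (by omega)]
    · rfl

lemma card_char (n : ℕ) [NeZero n] : (univ : Finset (DirichletCharacter ℂ n)).card = Nat.totient n := by
  have h6 := DirichletCharacter.card_eq_totient_of_hasEnoughRootsOfUnity ℂ n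
  rw [← h6, Nat.card_eq_fintype_card]
  rfl

lemma sum_ncop (n I K : ℕ) (hn : n ≠ 0) :
    ∑ k ∈ range I, ∑ p ∈ cell K k, (if p.Prime ∧ ¬ p.Coprime n then (1:ℝ) else 0) ≤
      n.primeFactors.card := by
  rw [← sum_cells K I (fun p => if p.Prime ∧ ¬ p.Coprime n then (1:ℝ) else 0), sum_boole]
  have : (Icc 1 (gg K I)).filter (fun p => p.Prime ∧ ¬ p.Coprime n) ⊆ n.primeFactors := by
    intro p hp
    rw [mem_filter] at hp
    rw [Nat.mem_primeFactors]
    refine ⟨hp.2.1, ?_, hn⟩
    by_contra hcon
    exact hp.2.2 ((Nat.Prime.coprime_iff_not_dvd hp.2.1).2 hcon)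
  exact_mod_cast card_le_card this

lemma change_val {n f : ℕ} (h : f ∣ n) (ψ : DirichletCharacter ℂ f) (p : ℕ) :
    (changeLevel h ψ) (p : ZMod n) = if p.Coprime n then ψ (p : ZMod f) else 0 := by
  split_ifs with hc
  · have h1 := DirichletCharacter.changeLevel_eq_cast_of_dvd' ψ h (a := (p : ℤ))
      (by exact_mod_cast Nat.isCoprime_iff_coprime.mpr hc)
    push_cast at h1
    exact h1
  · exact MulChar.map_nonunit _ (by rwa [ZMod.isUnit_iff_coprime])

lemma cs_change (I K n f : ℕ) (hn : n ≠ 0) (h : f ∣ n) (ψ : DirichletCharacter ℂ f) :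
    ∑ k ∈ range I, ‖CS pr K k n (changeLevel h ψ)‖ ≤ ∑ k ∈ range I, ‖CS pr K k f ψ‖ +
      n.primeFactors.card := by
  have h1 : ∀ k ∈ range I, ‖CS pr K k n (changeLevel h ψ)‖ ≤ ‖CS pr K k f ψ‖ +
      ∑ p ∈ cell K k, (if p.Prime ∧ ¬ p.Coprime n then (1:ℝ) else 0) := by
    intro k _
    have e1 : CS pr K k n (changeLevel h ψ) = CS pr K k f ψ -
        ∑ p ∈ cell K k, (if p.Prime ∧ ¬ p.Coprime n then ψ (p : ZMod f) else 0) := by
      unfold CS
      rw [← sum_sub_distrib]
      apply sum_congr rfl
      intro p _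
      rw [change_val]
      unfold pr
      by_cases hp : p.Prime <;> by_cases hc : p.Coprime n <;> simp [hp, hc]
    rw [e1]
    refine (norm_sub_le _ _).trans ?_
    gcongr
    refine (norm_sum_le _ _).trans (sum_le_sum ?_)
    intro p _
    split_ifs
    · exact ψ.norm_le_one _
    · simp
  refine (sum_le_sum h1).trans ?_
  rw [sum_add_distrib]
  gcongr
  exact sum_ncop n I K hn

/-- the sum over the primitive characters modulo `f` of the sums over the cells -/
noncomputable def GP (I K f : ℕ) : ℝ := ∑ ψ ∈ Prim f, ∑ k ∈ range I, ‖CS pr K k f ψ‖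

lemma GP_nonneg (I K f : ℕ) : 0 ≤ GP I K f :=
  sum_nonneg fun _ _ => sum_nonneg fun _ _ => norm_nonneg _

theorem hi_sum (I K n R : ℕ) (hn : 1 ≤ n) :
    ∑ χ ∈ hi n R, ∑ k ∈ range I, ‖CS pr K k n χ‖ ≤
      ∑ f ∈ n.divisors.filter (fun f => R < f), GP I K f + Nat.totient n * n.primeFactors.card := by
  have : NeZero n := ⟨by omega⟩
  have h1 : ∑ χ ∈ hi n R, ∑ k ∈ range I, ‖CS pr K k n χ‖ ≤
      ∑ χ ∈ hi n R, (max (∑ k ∈ range I, ‖CS pr K k n χ‖ - n.primeFactors.card) 0 +
        n.primeFactors.card) := by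
    apply sum_le_sum
    intro χ _
    have := le_max_left (∑ k ∈ range I, ‖CS pr K k n χ‖ - n.primeFactors.card) 0
    linarith
  refine h1.trans ?_
  rw [sum_add_distrib, sum_const, nsmul_eq_mul]
  apply add_le_add
  · rw [hi_expand]
    apply sum_le_sum
    intro f hf
    rw [mem_filter, Nat.mem_divisors] at hf
    unfold GP
    apply sum_le_sum
    intro ψ _
    unfold lift
    rw [dif_pos hf.1.1]
    apply max_le
    · have := cs_change I K n f (by omega) hf.1.1 ψ
      linarith
    · exact sum_nonneg fun _ _ => norm_nonneg _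
  · have h2 : (hi n R).card ≤ Nat.totient n := by
      unfold hi
      rw [← card_char n]
      exact card_filter_le _ _
    have : ((hi n R).card : ℝ) ≤ Nat.totient n := by exact_mod_cast h2
    gcongr

end Run7.h905.SM
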