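import Pool.Agent.Run7.h905.SM.Low5

/-!
The switch to the complementary variable.
-/

set_option autoImplicit false

open Finset

namespace Run7.h905.SM

open Pool.Agent.H441R3.BV (kap)

/-- first count -/
def Sset (H j d : ℕ) (a : ℤ) (p : ℕ) : Finset ℕ :=
  (Ioc (j * H) ((j + 1) * H)).filter (fun q => q.Coprime a.natAbs ∧ ((d * q : ℕ) : ℤ) ∣ (p : ℤ) - a)

/-- second count -/
def Tset (H j d M : ℕ) (a : ℤ) (p : ℕ) : Finset ℕ :=
  (Icc 1 M).filter (fun m => m.Coprime a.natAbs ∧ ((d * m : ℕ) : ℤ) ∣ (p : ℤ) - a ∧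
    a + (d * m * j * H : ℕ) < p ∧ (p : ℤ) ≤ a + (d * m * (j + 1) * H : ℕ))

lemma cop_of_prime {p k : ℕ} {a : ℤ} (hp : p.Prime) (hpa : ¬ (p : ℤ) ∣ a) (hk : (k : ℤ) ∣ (p : ℤ) - a) :
    k.Coprime a.natAbs := by
  rw [Nat.coprime_iff_gcd_eq_one]
  by_contra hne
  obtain ⟨l, hl, hld⟩ := Nat.exists_prime_and_dvd hne
  have h1 : (l : ℤ) ∣ a := Int.natCast_dvd.2 (hld.trans (Nat.gcd_dvd_right _ _))
  have h2 : (l : ℤ) ∣ (k : ℤ) := Int.natCast_dvd_natCast.2 (hld.trans (Nat.gcd_dvd_left _ _))
  have h3 : (l : ℤ) ∣ (p : ℤ) := by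
    have := dvd_add (h2.trans hk) h1
    simpa using this
  have h4 : l ∣ p := Int.natCast_dvd_natCast.1 h3
  have h5 : l = p := (Nat.prime_dvd_prime_iff_eq hl hp).1 h4
  rw [h5] at h1
  exact hpa h1

/-- the two counts agree for the primes not dividing `a` -/
theorem card_eq {H j d M x p : ℕ} {a : ℤ} (hd : 1 ≤ d) (hp : p.Prime) (hpx : p ≤ x)
    (hpa : ¬ (p : ℤ) ∣ a) (haj : a.natAbs ≤ j * H) (hax : a.natAbs ≤ x)
    (hM : 2 * x < (M + 1) * (d * (j * H + 1))) :
    (Sset H j d a p).card = (Tset H j d M a p).card := by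
  have hp1 := hp.one_lt
  have hne : (p : ℤ) - a ≠ 0 := by
    intro h
    apply hpa
    have : (p : ℤ) = a := by omega
    rw [this]
  set P := ((Ioc (j * H) ((j + 1) * H)) ×ˢ (Icc 1 M)).filter
    (fun i => (((d * i.1 * i.2 : ℕ)) : ℤ) = (p : ℤ) - a) with hP
  have hfst : Sset H j d a p = P.image Prod.fst := by
    ext q
    unfold Sset
    rw [mem_filter, mem_image, mem_Ioc]
    constructor
    · rintro ⟨⟨h1, h2⟩, h3, ⟨t, ht⟩⟩
      have hdq : (j * H : ℤ) < ((d * q : ℕ) : ℤ) := by
        have : j * H < d * q := lt_of_lt_of_le h1 (Nat.le_mul_of_pos_left q hd)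
        exact_mod_cast this
      have haj' : a ≤ (j * H : ℤ) := by
        have : (a.natAbs : ℤ) ≤ ((j * H : ℕ) : ℤ) := by exact_mod_cast haj
        push_cast at this
        have h5 := le_abs_self a
        linarith
      have ht1 : 1 ≤ t := by
        by_contra hcon
        have ht0 : t ≤ 0 := by omega
        rcases eq_or_lt_of_le ht0 with h | h
        · rw [h, mul_zero] at ht
          exact hne ht
        · have : ((d * q : ℕ) : ℤ) * t ≤ ((d * q : ℕ) : ℤ) * (-1) := by
            apply mul_le_mul_of_nonneg_left _ (Int.natCast_nonneg _)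
            omega
          have hp0 : (0:ℤ) ≤ p := Int.natCast_nonneg _
          linarith
      refine ⟨(q, t.toNat), ?_, rfl⟩
      rw [hP, mem_filter, mem_product, mem_Ioc, mem_Icc]
      have htt : ((t.toNat : ℕ) : ℤ) = t := Int.toNat_of_nonneg (by omega)
      refine ⟨⟨⟨h1, h2⟩, by omega, ?_⟩, ?_⟩
      · -- upper bound
        by_contra hcon
        have h6 : M + 1 ≤ t.toNat := by
          simp only at hcon
          omega
        have h7 : (M + 1) * (d * (j * H + 1)) ≤ t.toNat * (d * q) := by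
          apply Nat.mul_le_mul h6
          apply Nat.mul_le_mul_left
          omega
        have h8 : ((t.toNat * (d * q) : ℕ) : ℤ) = (p : ℤ) - a := by
          rw [ht, Nat.cast_mul, htt, mul_comm]
        have h9 : (p : ℤ) - a ≤ 2 * x := by
          have : -a ≤ (a.natAbs : ℤ) := by omega
          omega
        omega
      · simp only
        rw [Nat.cast_mul, htt]
        exact ht.symm
    · rintro ⟨⟨q', m⟩, h1, rfl⟩
      rw [hP, mem_filter, mem_product, mem_Ioc, mem_Icc] at h1
      obtain ⟨⟨h2, h3⟩, h4⟩ := h1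
      simp only at h2 h3 h4 ⊢
      have hdv : ((d * q' : ℕ) : ℤ) ∣ (p : ℤ) - a := ⟨m, by rw [← h4]; push_cast; ring⟩
      refine ⟨h2, ?_, hdv⟩
      apply cop_of_prime hp hpa
      refine dvd_trans ?_ hdv
      push_cast
      exact dvd_mul_left _ _
  have hsnd : Tset H j d M a p = P.image Prod.snd := by
    ext m
    unfold Tset
    rw [mem_filter, mem_image, mem_Icc]
    constructor
    · rintro ⟨h1, h3, ⟨t, ht⟩, h4, h5⟩
      have hdm : (0 : ℤ) < ((d * m : ℕ) : ℤ) := by
        have : 0 < d * m := Nat.mul_pos hd h1.1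
        exact_mod_cast this
      have e4 : ((d * m : ℕ) : ℤ) * ((j * H : ℕ) : ℤ) < ((d * m : ℕ) : ℤ) * t := by
        rw [← ht]
        have : ((d * m * j * H : ℕ) : ℤ) = ((d * m : ℕ) : ℤ) * ((j * H : ℕ) : ℤ) := by
          push_cast
          ring
        rw [← this]
        linarith
      have e5 : ((d * m : ℕ) : ℤ) * t ≤ ((d * m : ℕ) : ℤ) * (((j + 1) * H : ℕ) : ℤ) := by
        rw [← ht]
        have : ((d * m * (j + 1) * H : ℕ) : ℤ) = ((d * m : ℕ) : ℤ) * (((j + 1) * H : ℕ) : ℤ) := by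
          push_cast
          ring
        rw [← this]
        linarith
      have f4 : ((j * H : ℕ) : ℤ) < t := lt_of_mul_lt_mul_left e4 hdm.le
      have f5 : t ≤ (((j + 1) * H : ℕ) : ℤ) := le_of_mul_le_mul_left e5 hdm
      have ht0 : 0 ≤ t := le_trans (Int.natCast_nonneg _) f4.le
      have htt : ((t.toNat : ℕ) : ℤ) = t := Int.toNat_of_nonneg ht0
      refine ⟨(t.toNat, m), ?_, rfl⟩
      rw [hP, mem_filter, mem_product, mem_Ioc, mem_Icc]
      refine ⟨⟨⟨?_, ?_⟩, h1⟩, ?_⟩
      · simp only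
        rw [← htt] at f4
        exact_mod_cast f4
      · simp only
        rw [← htt] at f5
        exact_mod_cast f5
      · simp only
        rw [ht]
        push_cast
        rw [htt]
        ring
    · rintro ⟨⟨q, m'⟩, h1, rfl⟩
      rw [hP, mem_filter, mem_product, mem_Ioc, mem_Icc] at h1
      obtain ⟨⟨h2, h3⟩, h4⟩ := h1
      simp only at h2 h3 h4 ⊢
      have hdv : ((d * m' : ℕ) : ℤ) ∣ (p : ℤ) - a := ⟨q, by rw [← h4]; push_cast; ring⟩
      refine ⟨h3, ?_, hdv, ?_, ?_⟩
      · apply cop_of_prime hp hpa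
        refine dvd_trans ?_ hdv
        push_cast
        exact dvd_mul_left _ _
      · have : d * m' * j * H < d * q * m' := by
          calc d * m' * j * H = d * m' * (j * H) := by ring
            _ < d * m' * q := Nat.mul_lt_mul_of_pos_left h2.1 (Nat.mul_pos hd h3.1)
            _ = _ := by ring
        have : ((d * m' * j * H : ℕ) : ℤ) < ((d * q * m' : ℕ) : ℤ) := by exact_mod_cast this
        rw [h4] at this
        linarith
      · have : d * q * m' ≤ d * m' * (j + 1) * H := by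
          calc d * q * m' = d * m' * q := by ring
            _ ≤ d * m' * ((j + 1) * H) := Nat.mul_le_mul_left _ h2.2
            _ = _ := by ring
        have : ((d * q * m' : ℕ) : ℤ) ≤ ((d * m' * (j + 1) * H : ℕ) : ℤ) := by exact_mod_cast this
        rw [h4] at this
        linarith
  rw [hfst, hsnd, card_image_of_injOn, card_image_of_injOn]
  · rintro ⟨q, m⟩ h1 ⟨q', m'⟩ h2 h
    simp only at h
    subst h
    rw [hP, mem_coe, mem_filter, mem_product, mem_Ioc, mem_Icc] at h1 h2
    simp only at h1 h2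
    have h3 : d * q * m = d * q' * m := by
      have := h1.2.trans h2.2.symm
      exact_mod_cast this
    have h4 : q = q' := by
      have hm : 0 < m := h1.1.2.1
      have h5 := Nat.eq_of_mul_eq_mul_right hm h3
      exact Nat.eq_of_mul_eq_mul_left hd h5
    rw [h4]
  · rintro ⟨q, m⟩ h1 ⟨q', m'⟩ h2 h
    simp only at h
    subst h
    rw [hP, mem_coe, mem_filter, mem_product, mem_Ioc, mem_Icc] at h1 h2
    simp only at h1 h2
    have h3 : d * q * m = d * q * m' := by
      have := h1.2.trans h2.2.symm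
      exact_mod_cast this
    have h4 : m = m' := by
      have hq : 0 < q := lt_of_le_of_lt (Nat.zero_le _) h1.1.1.1
      exact Nat.eq_of_mul_eq_mul_left (Nat.mul_pos hd hq) h3
    rw [h4]

/-- a bound for the number of divisors counted -/
lemma card_dvd_le {x : ℕ} {s : ℝ} {z : ℤ} (hz : z ≠ 0) (hzx : z.natAbs ≤ x) (d : ℕ)
    (hT : ∀ n : ℕ, 1 ≤ n → n ≤ x → (n.divisors.card : ℝ) ≤ s) (S : Finset ℕ)
    (hS : ∀ q ∈ S, ((d * q : ℕ) : ℤ) ∣ z) : (S.card : ℝ) ≤ s := by
  have hz1 : 1 ≤ z.natAbs := Int.natAbs_pos.2 hz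
  refine le_trans ?_ (hT z.natAbs hz1 hzx)
  have : S ⊆ z.natAbs.divisors := by
    intro q hq
    rw [Nat.mem_divisors]
    refine ⟨?_, by omega⟩
    have h1 := hS q hq
    have h2 : (q : ℤ) ∣ z := by
      refine dvd_trans ?_ h1
      push_cast
      exact dvd_mul_left _ _
    exact Int.natCast_dvd.1 h2
  exact_mod_cast card_le_card this

end Run7.h905.SM
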