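import Pool.Agent.Run7.h905.SM.Count1

/-!
The switch to the complementary variable: the sums.
-/

set_option autoImplicit false

open Finset

namespace Run7.h905.SM

open Pool.Agent.H441R3.BV (kap)

lemma modEq_iff {p n : ℕ} {a : ℤ} : (p : ℤ) ≡ a [ZMOD n] ↔ ((n : ℕ) : ℤ) ∣ (p : ℤ) - a := by
  rw [Int.modEq_comm, Int.modEq_iff_dvd]

lemma S_eq (x H j d : ℕ) (a : ℤ) :
    ∑ q ∈ (Ioc (j * H) ((j + 1) * H)).filter (fun q => q.Coprime a.natAbs), pc (d * q) a (Icc 1 x) =
      ∑ p ∈ Icc 1 x, pr p * ((Sset H j d a p).card : ℝ) := by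
  unfold pc Sset
  rw [sum_comm]
  apply sum_congr rfl
  intro p _
  rw [← sum_boole, mul_sum, sum_filter]
  apply sum_congr rfl
  intro q _
  by_cases h1 : q.Coprime a.natAbs
  · rw [if_pos h1]
    by_cases h2 : ((d * q : ℕ) : ℤ) ∣ (p : ℤ) - a
    · rw [if_pos (modEq_iff.2 h2), if_pos ⟨h1, h2⟩, mul_one]
    · rw [if_neg (fun h => h2 (modEq_iff.1 h)), if_neg (fun h => h2 h.2), mul_zero]
  · rw [if_neg h1, if_neg (fun h => h1 h.1), mul_zero]

lemma T_eq (x H j d M : ℕ) (a : ℤ) :
    ∑ m ∈ (Icc 1 M).filter (fun m => m.Coprime a.natAbs), pc (d * m) a (blk x H j (d * m) a) =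
      ∑ p ∈ Icc 1 x, pr p * ((Tset H j d M a p).card : ℝ) := by
  unfold pc Tset blk
  simp_rw [sum_filter]
  have h0 : ∀ m ∈ Icc 1 M, (if m.Coprime a.natAbs then ∑ p ∈ Icc 1 x,
      (if a + (d * m * j * H : ℕ) < (p : ℤ) ∧ (p : ℤ) ≤ a + (d * m * (j + 1) * H : ℕ) then
        (if (p : ℤ) ≡ a [ZMOD (d * m : ℕ)] then pr p else 0) else 0) else 0) =
      ∑ p ∈ Icc 1 x, pr p * (if m.Coprime a.natAbs ∧ ((d * m : ℕ) : ℤ) ∣ (p : ℤ) - a ∧
        a + (d * m * j * H : ℕ) < (p : ℤ) ∧ (p : ℤ) ≤ a + (d * m * (j + 1) * H : ℕ) then (1:ℝ) else 0) := by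
    intro m _
    by_cases h1 : m.Coprime a.natAbs
    · rw [if_pos h1]
      apply sum_congr rfl
      intro p _
      by_cases h2 : (a + (d * m * j * H : ℕ) < (p : ℤ) ∧ (p : ℤ) ≤ a + (d * m * (j + 1) * H : ℕ))
      · rw [if_pos h2]
        by_cases h3 : ((d * m : ℕ) : ℤ) ∣ (p : ℤ) - a
        · rw [if_pos (modEq_iff.2 h3), if_pos ⟨h1, h3, h2⟩, mul_one]
        · rw [if_neg (fun h => h3 (modEq_iff.1 h)), if_neg (fun h => h3 h.2.1), mul_zero]
      · rw [if_neg h2, if_neg (fun h => h2 h.2.2), mul_zero]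
    · rw [if_neg h1]
      symm
      apply sum_eq_zero
      intro p _
      rw [if_neg (fun h => h1 h.1), mul_zero]
  rw [sum_congr rfl h0, sum_comm]
  apply sum_congr rfl
  intro p _
  rw [← mul_sum, sum_boole]

/-- **the switch** -/
theorem S_T {x H j d M : ℕ} {a : ℤ} {s : ℝ} (hd : 1 ≤ d) (ha : a ≠ 0)
    (haj : a.natAbs ≤ j * H) (hjx : 2 * (j * H) ≤ x)
    (hM : 2 * x < (M + 1) * (d * (j * H + 1)))
    (hT : ∀ n : ℕ, 1 ≤ n → n ≤ x → (n.divisors.card : ℝ) ≤ s) :
    |∑ q ∈ (Ioc (j * H) ((j + 1) * H)).filter (fun q => q.Coprime a.natAbs), pc (d * q) a (Icc 1 x) -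
      ∑ m ∈ (Icc 1 M).filter (fun m => m.Coprime a.natAbs), pc (d * m) a (blk x H j (d * m) a)| ≤
    H + s ^ 2 := by
  have ha1 : 1 ≤ a.natAbs := Int.natAbs_pos.2 ha
  have hax : a.natAbs ≤ x := by omega
  have hs0 : 0 ≤ s := le_trans (Nat.cast_nonneg _) (hT 1 le_rfl (by omega))
  rw [S_eq, T_eq, ← sum_sub_distrib]
  have h1 : ∑ p ∈ Icc 1 x, (pr p * ((Sset H j d a p).card : ℝ) - pr p * ((Tset H j d M a p).card : ℝ)) =
      ∑ p ∈ a.natAbs.primeFactors,
        (((Sset H j d a p).card : ℝ) - ((Tset H j d M a p).card : ℝ)) := by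
    symm
    have hsub : a.natAbs.primeFactors ⊆ Icc 1 x := by
      intro p hp
      rw [mem_Icc]
      have hpp := Nat.prime_of_mem_primeFactors hp
      exact ⟨hpp.one_le, (Nat.le_of_dvd ha1 (Nat.dvd_of_mem_primeFactors hp)).trans hax⟩
    have h2 : ∀ p ∈ a.natAbs.primeFactors,
        (((Sset H j d a p).card : ℝ) - ((Tset H j d M a p).card : ℝ)) =
        (pr p * ((Sset H j d a p).card : ℝ) - pr p * ((Tset H j d M a p).card : ℝ)) := by
      intro p hp
      have hpp := Nat.prime_of_mem_primeFactors hp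
      have : pr p = 1 := by
        unfold pr
        rw [if_pos hpp]
      rw [this]
      ring
    rw [sum_congr rfl h2]
    apply sum_subset hsub
    intro p hp hp'
    rw [mem_Icc] at hp
    by_cases hpp : p.Prime
    · have hpa : ¬ (p : ℤ) ∣ a := by
        intro h
        apply hp'
        rw [Nat.mem_primeFactors]
        exact ⟨hpp, Int.natCast_dvd.1 h, by omega⟩
      rw [card_eq (x := x) (M := M) hd hpp hp.2 hpa haj hax hM]
      ring
    · have : pr p = 0 := by
        unfold pr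
        rw [if_neg hpp]
      rw [this]
      ring
  rw [h1]
  refine (abs_sum_le_sum_abs _ _).trans ?_
  have h3 : ∀ p ∈ a.natAbs.primeFactors,
      |(((Sset H j d a p).card : ℝ) - ((Tset H j d M a p).card : ℝ))| ≤
      (if (p : ℤ) = a then (H : ℝ) else 0) + s := by
    intro p hp
    have hpp := Nat.prime_of_mem_primeFactors hp
    have hpa : p ≤ a.natAbs := Nat.le_of_dvd ha1 (Nat.dvd_of_mem_primeFactors hp)
    have c1 : (0:ℝ) ≤ ((Sset H j d a p).card : ℝ) := Nat.cast_nonneg _
    have c2 : (0:ℝ) ≤ ((Tset H j d M a p).card : ℝ) := Nat.cast_nonneg _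
    split_ifs with h
    · have h4 : (Tset H j d M a p).card = 0 := by
        rw [card_eq_zero]
        unfold Tset
        rw [filter_eq_empty_iff]
        rintro m _ ⟨_, _, h5, _⟩
        have : (0:ℤ) ≤ ((d * m * j * H : ℕ) : ℤ) := Int.natCast_nonneg _
        omega
      have h5 : ((Sset H j d a p).card : ℝ) ≤ H := by
        have : (Sset H j d a p).card ≤ H := by
          unfold Sset
          refine (card_filter_le _ _).trans ?_
          rw [Nat.card_Ioc]
          have : (j + 1) * H = j * H + H := by ring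
          omega
        exact_mod_cast this
      rw [h4, abs_of_nonneg (by simp)]
      simp only [Nat.cast_zero, sub_zero]
      linarith
    · have hz : (p : ℤ) - a ≠ 0 := by omega
      have hzx : ((p : ℤ) - a).natAbs ≤ x := by omega
      have h5 : ((Sset H j d a p).card : ℝ) ≤ s := by
        apply card_dvd_le hz hzx d hT
        intro q hq
        unfold Sset at hq
        rw [mem_filter] at hq
        exact hq.2.2
      have h6 : ((Tset H j d M a p).card : ℝ) ≤ s := by
        apply card_dvd_le hz hzx d hT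
        intro q hq
        unfold Tset at hq
        rw [mem_filter] at hq
        exact hq.2.2.1
      rw [zero_add, abs_le]
      constructor <;> linarith
  refine (sum_le_sum h3).trans ?_
  rw [sum_add_distrib, sum_const, nsmul_eq_mul]
  have h7 : ∑ p ∈ a.natAbs.primeFactors, (if (p : ℤ) = a then (H : ℝ) else 0) ≤ H := by
    calc ∑ p ∈ a.natAbs.primeFactors, (if (p : ℤ) = a then (H : ℝ) else 0) ≤
        ∑ p ∈ a.natAbs.primeFactors, (if p = a.toNat then (H : ℝ) else 0) := by
          apply sum_le_sum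
          intro p _
          split_ifs with h1 h2 h2
          · exact le_rfl
          · exfalso
            apply h2
            omega
          · exact Nat.cast_nonneg _
          · exact le_rfl
      _ ≤ H := by
          rw [sum_ite_eq']
          split_ifs
          · exact le_rfl
          · exact Nat.cast_nonneg _
  have h8 : (a.natAbs.primeFactors.card : ℝ) ≤ s := (om_le_ta _).trans (hT _ ha1 hax)
  have h9 : (a.natAbs.primeFactors.card : ℝ) * s ≤ s * s := by gcongr
  rw [sq]
  linarith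

end Run7.h905.SM
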