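import Pool.Agent.Run7.h905.SM.Count2

/-!
Decomposition into cells.
-/

set_option autoImplicit false

open Finset

namespace Run7.h905.SM

open Pool.Agent.H441R3.BV (kap inv_tot_le)

lemma HC_sum (n R : ℕ) (a : ℤ) (S : Finset ℕ) : HC n R a S = ∑ p ∈ S, HC n R a {p} := by
  unfold HC PSS
  simp_rw [sum_singleton, mul_sum]
  rw [sum_comm]

/-- number of integers in a class -/
lemma pc_le {n u l : ℕ} (hn : 1 ≤ n) (a : ℤ) {S : Finset ℕ} (hS : S ⊆ Ioc u (u + l)) :
    pc n a S ≤ (l : ℝ) / n + 1 := by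
  have hn0 : (0:ℝ) < n := by exact_mod_cast hn
  have h1 : pc n a S ≤ (((Ioc u (u + l)).filter (fun p : ℕ => (p : ℤ) ≡ a [ZMOD n])).card : ℝ) := by
    unfold pc
    rw [← sum_boole]
    calc ∑ p ∈ S, (if (p : ℤ) ≡ a [ZMOD n] then pr p else 0) ≤
        ∑ p ∈ S, (if (p : ℤ) ≡ a [ZMOD n] then (1:ℝ) else 0) := by
          apply sum_le_sum
          intro p _
          split_ifs
          · exact pr_le_one p
          · exact le_rfl
      _ ≤ _ := by
          apply sum_le_sum_of_subset_of_nonneg hS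
          intro _ _ _
          split_ifs <;> norm_num
  refine h1.trans ?_
  have h2 : ((Ioc u (u + l)).filter (fun p : ℕ => (p : ℤ) ≡ a [ZMOD n])).card ≤
      ((Ioc (u : ℤ) ((u + l : ℕ) : ℤ)).filter (fun z : ℤ => z ≡ a [ZMOD n])).card := by
    apply card_le_card_of_injOn (fun p : ℕ => (p : ℤ))
    · intro p hp
      rw [mem_coe, mem_filter, mem_Ioc] at hp
      rw [mem_coe, mem_filter, mem_Ioc]
      refine ⟨⟨?_, ?_⟩, hp.2⟩
      · exact Int.ofNat_lt.2 hp.1.1
      · exact Int.ofNat_le.2 hp.1.2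
    · intro p _ q _ h
      exact Int.ofNat_inj.1 h
  have hn1 : (0:ℤ) < n := by exact_mod_cast hn
  have h3 := Int.Ioc_filter_modEq_card (u : ℤ) ((u + l : ℕ) : ℤ) hn1 a
  have hnq : (0:ℚ) < n := by exact_mod_cast hn
  have h4 : ((((Ioc (u : ℤ) ((u + l : ℕ) : ℤ)).filter (fun z : ℤ => z ≡ a [ZMOD n])).card : ℤ) : ℚ) ≤
      (l : ℚ) / n + 1 := by
    rw [h3, Int.cast_max]
    apply max_le
    · have a1 := Int.floor_le ((((u + l : ℕ) : ℤ) - a : ℚ) / ((n : ℤ) : ℚ))
      have a2 := Int.lt_floor_add_one (((u : ℤ) - a : ℚ) / ((n : ℤ) : ℚ))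
      have e1 : ((((u + l : ℕ) : ℤ) - a : ℚ) / ((n : ℤ) : ℚ)) - (((u : ℤ) - a : ℚ) / ((n : ℤ) : ℚ)) =
          (l : ℚ) / n := by
        push_cast
        field_simp
        ring
      rw [Int.cast_sub]
      linarith
    · simp only [Int.cast_zero]
      positivity
  have h5 : ((((Ioc (u : ℤ) ((u + l : ℕ) : ℤ)).filter (fun z : ℤ => z ≡ a [ZMOD n])).card : ℚ)) ≤
      (l : ℚ) / n + 1 := by
    rw [Int.cast_natCast] at h4
    exact h4
  have h6 : ((((Ioc (u : ℤ) ((u + l : ℕ) : ℤ)).filter (fun z : ℤ => z ≡ a [ZMOD n])).card : ℝ)) ≤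
      (l : ℝ) / n + 1 := by
    have h7 := (Rat.cast_le (K := ℝ)).2 h5
    push_cast at h7
    exact h7
  refine le_trans ?_ h6
  exact_mod_cast h2

/-- the trivial bound for the large conductors -/
lemma HC_triv {n R u l : ℕ} (hn : 1 ≤ n) {a : ℤ} (ha : IsCoprime a n) {S : Finset ℕ}
    (hS : S ⊆ Ioc u (u + l)) :
    ‖HC n R a S‖ ≤ (l : ℝ) / n + 1 + (R : ℝ) ^ 2 * l / Nat.totient n := by
  have hφ : (0 : ℝ) < Nat.totient n := by exact_mod_cast Nat.totient_pos.2 hn
  have e1 : HC n R a S = ((pc n a S : ℝ) : ℂ) - LC n R a S := by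
    rw [pc_eq hn ha S]
    ring
  rw [e1]
  refine (norm_sub_le _ _).trans ?_
  have h1 := pc_le hn a hS
  have h0 : 0 ≤ pc n a S := by
    unfold pc
    apply sum_nonneg
    intro p _
    split_ifs
    · exact pr_nonneg p
    · exact le_rfl
  rw [Complex.norm_real, Real.norm_eq_abs, abs_of_nonneg h0]
  have h2 := LC_triv n R hn a S
  have h3 : (S.card : ℝ) ≤ l := by
    have := card_le_card hS
    rw [Nat.card_Ioc, Nat.add_sub_cancel_left] at this
    exact_mod_cast this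
  have h4 : (R : ℝ) ^ 2 * S.card / Nat.totient n ≤ (R : ℝ) ^ 2 * l / Nat.totient n := by gcongr
  linarith

/-- the decomposition into cells for an interval -/
theorem HC_cells {n R u v K : ℕ} (hn : 1 ≤ n) (hK : 0 < K) {a : ℤ} (ha : IsCoprime a n)
    (huv : u < v) :
    ‖HC n R a (Ioc u v)‖ ≤ ∑ k ∈ Ioo (kap K (u + 1)) (kap K v), ‖HC n R a (cell K k)‖ +
      2 * ((2 * v / K + 1) / n + 1 + (R : ℝ) ^ 2 * (2 * v / K + 1) / Nat.totient n) := by
  have hφ : (0 : ℝ) < Nat.totient n := by exact_mod_cast Nat.totient_pos.2 hn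
  have hn0 : (0:ℝ) < n := by exact_mod_cast hn
  set k1 := kap K (u + 1) with hk1
  set k2 := kap K v with hk2
  have hmono : ∀ {p q : ℕ}, 1 ≤ p → p ≤ q → kap K p ≤ kap K q := by
    intro p q hp hpq
    rw [le_kap hK (by omega)]
    have h := (le_kap hK hp (k := kap K p)).1 le_rfl
    refine h.trans ?_
    exact_mod_cast hpq
  have hmaps : ∀ p ∈ Ioc u v, kap K p ∈ Icc k1 k2 := by
    intro p hp
    rw [mem_Ioc] at hp
    rw [mem_Icc]
    exact ⟨hmono (by omega) (by omega), hmono (by omega) hp.2⟩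
  have e1 : HC n R a (Ioc u v) = ∑ k ∈ Icc k1 k2, HC n R a ((Ioc u v).filter (fun p => kap K p = k)) := by
    rw [HC_sum, ← sum_fiberwise_of_maps_to hmaps]
    apply sum_congr rfl
    intro k _
    rw [← HC_sum]
  rw [e1]
  refine (norm_sum_le _ _).trans ?_
  have hsub : Icc k1 k2 ⊆ Ioo k1 k2 ∪ {k1, k2} := by
    intro k hk
    rw [mem_Icc] at hk
    rw [mem_union, mem_Ioo, mem_insert, mem_singleton]
    omega
  refine (sum_le_sum_of_subset_of_nonneg hsub (fun _ _ _ => norm_nonneg _)).trans ?_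
  have hun : ∀ g : ℕ → ℝ, (∀ k, 0 ≤ g k) → ∑ k ∈ Ioo k1 k2 ∪ {k1, k2}, g k ≤
      ∑ k ∈ Ioo k1 k2, g k + ∑ k ∈ {k1, k2}, g k := by
    intro g hg
    have h := sum_union_inter (s₁ := Ioo k1 k2) (s₂ := {k1, k2}) (f := g)
    have h0 : 0 ≤ ∑ k ∈ Ioo k1 k2 ∩ {k1, k2}, g k := sum_nonneg fun k _ => hg k
    linarith
  refine (hun _ (fun k => norm_nonneg _)).trans ?_
  apply add_le_add
  · apply le_of_eq
    apply sum_congr rfl
    intro k hk
    rw [mem_Ioo] at hk
    congr 2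
    ext p
    rw [mem_filter, mem_Ioc, mem_cell hK]
    constructor
    · rintro ⟨⟨h1, h2⟩, h3⟩
      exact ⟨by omega, h3⟩
    · rintro ⟨h1, h2⟩
      refine ⟨⟨?_, ?_⟩, h2⟩
      · by_contra hcon
        have := hmono h1 (show p ≤ u + 1 by omega)
        omega
      · by_contra hcon
        have := hmono (show 1 ≤ v by omega) (show v ≤ p by omega)
        omega
  · -- the edges
    have hedge : ∀ k ∈ ({k1, k2} : Finset ℕ), ‖HC n R a ((Ioc u v).filter (fun p => kap K p = k))‖ ≤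
        (2 * v / K + 1) / n + 1 + (R : ℝ) ^ 2 * (2 * v / K + 1) / Nat.totient n := by
      intro k hk
      rw [mem_insert, mem_singleton] at hk
      have hkv : Real.exp ((k : ℝ) / K) ≤ v := by
        rcases hk with h | h
        · have h1 := (le_kap hK (show 1 ≤ u + 1 by omega) (k := k)).1 (by omega)
          refine h1.trans ?_
          exact_mod_cast huv
        · exact (le_kap hK (show 1 ≤ v by omega) (k := k)).1 (by omega)
      have hsub2 : (Ioc u v).filter (fun p => kap K p = k) ⊆ Ioc (gg K k) (gg K k + len K k) := by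
        refine subset_trans ?_ (cell_sub K k)
        intro p hp
        rw [mem_filter, mem_Ioc] at hp
        rw [mem_cell hK]
        exact ⟨by omega, hp.2⟩
      refine (HC_triv hn ha hsub2).trans ?_
      have hlen : (len K k : ℝ) ≤ 2 * v / K + 1 := by
        refine (len_le K k hK).trans ?_
        gcongr
      gcongr
    refine (sum_le_card_nsmul _ _ _ hedge).trans ?_
    rw [nsmul_eq_mul]
    have hc : ((({k1, k2} : Finset ℕ).card : ℕ) : ℝ) ≤ 2 := by
      exact_mod_cast card_le_two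
    have : (0:ℝ) ≤ (2 * v / K + 1) / n + 1 + (R : ℝ) ^ 2 * (2 * v / K + 1) / Nat.totient n := by
      positivity
    gcongr

/-- the set is an interval -/
lemma blk_eq {x H j n : ℕ} {a : ℤ} (hn : 1 ≤ n) (haj : a.natAbs ≤ j * H) :
    blk x H j n a = Ioc (a + (n * j * H : ℕ)).toNat (min x (a + (n * (j + 1) * H : ℕ)).toNat) := by
  have h0 : 0 ≤ a + (n * j * H : ℕ) := by
    have h1 : j * H ≤ n * (j * H) := Nat.le_mul_of_pos_left _ hn
    have h2 : n * j * H = n * (j * H) := by ring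
    have h3 : -a ≤ (a.natAbs : ℤ) := by omega
    have h4 : (a.natAbs : ℤ) ≤ ((n * j * H : ℕ) : ℤ) := by
      rw [h2]
      exact_mod_cast haj.trans h1
    linarith
  unfold blk
  ext p
  rw [mem_filter, mem_Icc, mem_Ioc, le_min_iff]
  constructor
  · rintro ⟨⟨h1, h2⟩, h3, h4⟩
    refine ⟨?_, h2, ?_⟩
    · omega
    · omega
  · rintro ⟨h1, h2, h3⟩
    refine ⟨⟨by omega, h2⟩, ?_, ?_⟩
    · omega
    · omega

end Run7.h905.SM
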