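import Pool.Agent.Run7.h905.SM.Count3

/-!
The large conductors: sum over the blocks.
-/

set_option autoImplicit false

open Finset

namespace Run7.h905.SM

open Pool.Agent.H441R3.BV (kap inv_tot_le)
open Classical

lemma nphi {x n : ℕ} {s : ℝ} (hT : ∀ n : ℕ, 1 ≤ n → n ≤ x → (n.divisors.card : ℝ) ≤ s)
    (hn : 1 ≤ n) (hnx : n ≤ x) : (n : ℝ) / Nat.totient n ≤ s := by
  have h1 := inv_tot_le n hn
  have hd0 : (0:ℝ) < n := by exact_mod_cast hn
  have h2 := hT n hn hnx
  calc (n : ℝ) / Nat.totient n = n * (1 / (Nat.totient n : ℝ)) := by ring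
    _ ≤ n * ((n.divisors.card : ℝ) / n) := by gcongr
    _ = n.divisors.card := by field_simp
    _ ≤ s := h2

/-- one block, trivial bound -/
theorem blk_triv {x H j n R : ℕ} {a : ℤ} {s : ℝ} (hn : 1 ≤ n) (hnx : n ≤ x) (hH : 1 ≤ H) (hR : 1 ≤ R)
    (ha : IsCoprime a n) (haj : a.natAbs ≤ j * H)
    (hT : ∀ n : ℕ, 1 ≤ n → n ≤ x → (n.divisors.card : ℝ) ≤ s) :
    ‖HC n R a (blk x H j n a)‖ ≤ 3 * R ^ 2 * s * H := by
  have hn0 : (0:ℝ) < n := by exact_mod_cast hn
  have hφ : (0 : ℝ) < Nat.totient n := by exact_mod_cast Nat.totient_pos.2 hn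
  have hH1 : (1:ℝ) ≤ H := by exact_mod_cast hH
  have hR1 : (1:ℝ) ≤ R := by exact_mod_cast hR
  have hR2 : (1:ℝ) ≤ (R:ℝ) ^ 2 := one_le_pow₀ hR1
  have hs1 : 1 ≤ s := by
    have h1 := hT 1 le_rfl (by omega)
    simpa using h1
  rw [blk_eq hn haj]
  set u := (a + (n * j * H : ℕ)).toNat with hu
  have hsub : Ioc u (min x (a + (n * (j + 1) * H : ℕ)).toNat) ⊆ Ioc u (u + n * H) := by
    apply Ioc_subset_Ioc_right
    refine (min_le_right _ _).trans ?_
    have h0 : 0 ≤ a + (n * j * H : ℕ) := by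
      have h1 : j * H ≤ n * (j * H) := Nat.le_mul_of_pos_left _ hn
      have h2 : n * j * H = n * (j * H) := by ring
      have h3 : -a ≤ (a.natAbs : ℤ) := by omega
      have h4 : (a.natAbs : ℤ) ≤ ((n * j * H : ℕ) : ℤ) := by
        rw [h2]
        exact_mod_cast haj.trans h1
      linarith
    have h5 : n * (j + 1) * H = n * j * H + n * H := by ring
    rw [h5]
    omega
  refine (HC_triv hn ha hsub).trans ?_
  have h1 := nphi hT hn hnx
  push_cast
  calc (n * H : ℝ) / n + 1 + (R:ℝ) ^ 2 * (n * H) / Nat.totient n =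
      H + 1 + (R:ℝ) ^ 2 * ((n : ℝ) / Nat.totient n) * H := by field_simp
    _ ≤ H + H + (R:ℝ) ^ 2 * s * H := by gcongr
    _ = 2 * (1 * 1 * H) + (R:ℝ) ^ 2 * s * H := by ring
    _ ≤ 2 * ((R:ℝ) ^ 2 * s * H) + (R:ℝ) ^ 2 * s * H := by gcongr
    _ = _ := by ring

/-- the cells inside a block -/
noncomputable def Fc (x H K j n : ℕ) (a : ℤ) : Finset ℕ :=
  if (a + (n * j * H : ℕ)).toNat < min x (a + (n * (j + 1) * H : ℕ)).toNat then
    Ioo (kap K ((a + (n * j * H : ℕ)).toNat + 1)) (kap K (min x (a + (n * (j + 1) * H : ℕ)).toNat))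
  else ∅

lemma kap_mono {K : ℕ} (hK : 0 < K) {p q : ℕ} (hp : 1 ≤ p) (hpq : p ≤ q) : kap K p ≤ kap K q := by
  rw [le_kap hK (by omega)]
  have h := (le_kap hK hp (k := kap K p)).1 le_rfl
  refine h.trans ?_
  exact_mod_cast hpq

lemma Fc_lt {x H K j n k : ℕ} {a : ℤ} (hK : 0 < K) (h : k ∈ Fc x H K j n a) : k < kap K x := by
  unfold Fc at h
  split_ifs at h with h1
  · rw [mem_Ioo] at h
    refine lt_of_lt_of_le h.2 (kap_mono hK ?_ (min_le_left _ _))
    omega
  · simp at h

lemma Fc_cell {x H K j n k p : ℕ} {a : ℤ} (hK : 0 < K) (hn : 1 ≤ n) (haj : a.natAbs ≤ j * H)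
    (h : k ∈ Fc x H K j n a) (hp : p ∈ cell K k) :
    a + (n * j * H : ℕ) < p ∧ (p : ℤ) ≤ a + (n * (j + 1) * H : ℕ) := by
  unfold Fc at h
  split_ifs at h with h1
  · rw [mem_Ioo] at h
    rw [mem_cell hK] at hp
    have hmem : p ∈ blk x H j n a := by
      rw [blk_eq hn haj, mem_Ioc]
      constructor
      · by_contra hcon
        have := kap_mono hK hp.1 (show p ≤ (a + (n * j * H : ℕ)).toNat + 1 by omega)
        omega
      · by_contra hcon
        have := kap_mono hK (show 1 ≤ min x (a + (n * (j + 1) * H : ℕ)).toNat by omega)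
          (show min x (a + (n * (j + 1) * H : ℕ)).toNat ≤ p by omega)
        omega
    unfold blk at hmem
    rw [mem_filter] at hmem
    exact hmem.2
  · simp at h

/-- one block -/
theorem blk_cells {x H J W j n R : ℕ} {a : ℤ} {s : ℝ} (hJ : 1 ≤ J) (hW : 1 ≤ W) (hn : 1 ≤ n) (hnx : n ≤ x)
    (hR : 1 ≤ R) (ha : IsCoprime a n) (haj : a.natAbs ≤ j * H) (hj : j < 2 * J)
    (hT : ∀ n : ℕ, 1 ≤ n → n ≤ x → (n.divisors.card : ℝ) ≤ s) :
    ‖HC n R a (blk x H j n a)‖ ≤ ∑ k ∈ Fc x H (J * W) j n a, ‖HC n R a (cell (J * W) k)‖ +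
      (32 * R ^ 2 * s * (H / W) + 6 * R ^ 2) := by
  have hn0 : (0:ℝ) < n := by exact_mod_cast hn
  have hn1 : (1:ℝ) ≤ n := by exact_mod_cast hn
  have hJ0 : (0:ℝ) < J := by exact_mod_cast hJ
  have hW0 : (0:ℝ) < W := by exact_mod_cast hW
  have hφ : (0 : ℝ) < Nat.totient n := by exact_mod_cast Nat.totient_pos.2 hn
  have hφ1 : (1 : ℝ) ≤ Nat.totient n := by exact_mod_cast Nat.totient_pos.2 hn
  have hR1 : (1:ℝ) ≤ R := by exact_mod_cast hR
  have hR2 : (1:ℝ) ≤ (R:ℝ) ^ 2 := one_le_pow₀ hR1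
  have hs1 : 1 ≤ s := by
    have h1 := hT 1 le_rfl (by omega)
    simpa using h1
  have hHW : (0:ℝ) ≤ (H:ℝ) / W := by positivity
  rw [blk_eq hn haj]
  set u := (a + (n * j * H : ℕ)).toNat with hu
  set v := min x (a + (n * (j + 1) * H : ℕ)).toNat with hv
  have hnn := nphi hT hn hnx
  by_cases huv : u < v
  · have hF : Fc x H (J * W) j n a = Ioo (kap (J * W) (u + 1)) (kap (J * W) v) := by
      unfold Fc
      rw [if_pos huv]
    rw [hF]
    refine (HC_cells hn (Nat.mul_pos hJ hW) ha huv).trans ?_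
    apply add_le_add_right
    have hvb : (v:ℝ) ≤ 4 * n * J * H := by
      have h1 : v ≤ (a + (n * (j + 1) * H : ℕ)).toNat := min_le_right _ _
      have h2 : (a + (n * (j + 1) * H : ℕ)).toNat ≤ 4 * n * J * H := by
        have h3 : n * (j + 1) * H ≤ n * (2 * J) * H :=
          Nat.mul_le_mul_right _ (Nat.mul_le_mul_left _ (by omega))
        have h4 : j * H ≤ n * (2 * J) * H := by
          apply Nat.mul_le_mul_right
          calc j ≤ 2 * J := by omega
            _ ≤ n * (2 * J) := Nat.le_mul_of_pos_left _ hn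
        have h5 : a ≤ (a.natAbs : ℤ) := by omega
        have h6 : 4 * n * J * H = n * (2 * J) * H + n * (2 * J) * H := by ring
        omega
      exact_mod_cast h1.trans h2
    have h1 : 2 * (v:ℝ) / ((J * W : ℕ) : ℝ) ≤ 8 * n * (H / W) := by
      push_cast
      rw [div_le_iff₀ (by positivity)]
      calc 2 * (v:ℝ) ≤ 2 * (4 * n * J * H) := by gcongr
        _ = 8 * n * (H / W) * (J * W) := by field_simp; ring
    have h2 : (2 * (v:ℝ) / ((J * W : ℕ) : ℝ) + 1) / n ≤ 8 * (H / W) + 1 := by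
      rw [div_le_iff₀ hn0]
      nlinarith
    have h3 : (R : ℝ) ^ 2 * (2 * (v:ℝ) / ((J * W : ℕ) : ℝ) + 1) / Nat.totient n ≤
        (R:ℝ) ^ 2 * (8 * s * (H / W) + 1) := by
      calc (R : ℝ) ^ 2 * (2 * (v:ℝ) / ((J * W : ℕ) : ℝ) + 1) / Nat.totient n ≤
          (R : ℝ) ^ 2 * (8 * n * (H / W) + 1) / Nat.totient n := by gcongr
        _ = (R : ℝ) ^ 2 * (8 * ((n:ℝ) / Nat.totient n) * (H / W) + 1 / Nat.totient n) := by
            field_simp
        _ ≤ (R : ℝ) ^ 2 * (8 * s * (H / W) + 1) := by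
            have h4 : 1 / (Nat.totient n : ℝ) ≤ 1 := by
              rw [div_le_one hφ]
              exact hφ1
            gcongr
    have h4 : 8 * ((H:ℝ) / W) ≤ R ^ 2 * (8 * s * (H / W)) := by
      calc 8 * ((H:ℝ) / W) = 1 * (8 * 1 * (H / W)) := by ring
        _ ≤ R ^ 2 * (8 * s * (H / W)) := by gcongr
    nlinarith
  · rw [Ioc_eq_empty huv]
    have h1 : HC n R a ∅ = 0 := by
      rw [HC_sum, sum_empty]
    rw [h1, norm_zero]
    have h2 : 0 ≤ ∑ k ∈ Fc x H (J * W) j n a, ‖HC n R a (cell (J * W) k)‖ :=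
      sum_nonneg fun _ _ => norm_nonneg _
    positivity

/-- the sum over the characters of large conductor for one cell -/
noncomputable def GH (K n R k : ℕ) : ℝ :=
  (1 / (Nat.totient n : ℝ)) * ∑ χ ∈ hi n R, ‖CS pr K k n χ‖

lemma GH_nonneg (K n R k : ℕ) : 0 ≤ GH K n R k :=
  mul_nonneg (by positivity) (sum_nonneg fun _ _ => norm_nonneg _)

lemma HC_GH (K n R k : ℕ) (a : ℤ) : ‖HC n R a (cell K k)‖ ≤ GH K n R k := HC_le n R a _

/-- **the sum over the blocks, moduli at least `2 J`** -/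
theorem sum_blocks {x H J W n R : ℕ} {a : ℕ → ℤ} {s : ℝ} (hJ : 1 ≤ J) (hW : 1 ≤ W) (hH : 1 ≤ H)
    (hnx : n ≤ x) (hR : 1 ≤ R) (hnJ : 2 * J ≤ n)
    (ha : ∀ j ∈ Ico J (2 * J), (a j).natAbs ≤ j * H)
    (hT : ∀ n : ℕ, 1 ≤ n → n ≤ x → (n.divisors.card : ℝ) ≤ s) :
    ∑ j ∈ (Ico J (2 * J)).filter (fun j => IsCoprime (a j) n), ‖HC n R (a j) (blk x H j n (a j))‖ ≤
      3 * ∑ k ∈ range (kap (J * W) x), GH (J * W) n R k + J * (32 * R ^ 2 * s * (H / W) + 6 * R ^ 2) := by
  have hn : 1 ≤ n := by omega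
  have hK : 0 < J * W := Nat.mul_pos hJ hW
  have hs1 : 1 ≤ s := by
    have h1 := hT 1 le_rfl (by omega)
    simpa using h1
  set Js := (Ico J (2 * J)).filter (fun j => IsCoprime (a j) n) with hJs
  have h1 : ∀ j ∈ Js, ‖HC n R (a j) (blk x H j n (a j))‖ ≤
      ∑ k ∈ range (kap (J * W) x), (if k ∈ Fc x H (J * W) j n (a j) then GH (J * W) n R k else 0) +
      (32 * R ^ 2 * s * (H / W) + 6 * R ^ 2) := by
    intro j hj
    rw [hJs, mem_filter] at hj
    have hj2 := mem_Ico.1 hj.1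
    refine (blk_cells hJ hW hn hnx hR hj.2 (ha j hj.1) hj2.2 hT).trans ?_
    apply add_le_add_left
    rw [← sum_filter]
    have e1 : (range (kap (J * W) x)).filter (fun k => k ∈ Fc x H (J * W) j n (a j)) =
        Fc x H (J * W) j n (a j) := by
      ext k
      rw [mem_filter, mem_range]
      constructor
      · rintro ⟨_, h⟩
        exact h
      · intro h
        exact ⟨Fc_lt hK h, h⟩
    rw [e1]
    exact sum_le_sum fun k _ => HC_GH _ _ _ _ _
  refine (sum_le_sum h1).trans ?_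
  rw [sum_add_distrib, sum_const, nsmul_eq_mul]
  apply add_le_add
  · rw [sum_comm, mul_sum]
    apply sum_le_sum
    intro k _
    rw [← sum_filter, sum_const, nsmul_eq_mul]
    by_cases hne : (cell (J * W) k).Nonempty
    · apply mul_le_mul_of_nonneg_right _ (GH_nonneg _ _ _ _)
      obtain ⟨p, hp⟩ := hne
      set S := Js.filter (fun j => k ∈ Fc x H (J * W) j n (a j)) with hS
      have hcard : S.card ≤ 3 := by
        rcases S.eq_empty_or_nonempty with h | h
        · rw [h]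
          simp
        · have hmin := S.min'_mem h
          set j0 := S.min' h with hj0
          have hsub : S ⊆ Icc j0 (j0 + 2) := by
            intro j hj
            rw [mem_Icc]
            refine ⟨S.min'_le j hj, ?_⟩
            rw [hS, mem_filter, hJs, mem_filter] at hj hmin
            have a1 := Fc_cell hK hn (ha j hj.1.1) hj.2 hp
            have a2 := Fc_cell hK hn (ha j0 hmin.1.1) hmin.2 hp
            have b1 := ha j hj.1.1
            have b2 := ha j0 hmin.1.1
            have c1 := mem_Ico.1 hj.1.1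
            have c2 := mem_Ico.1 hmin.1.1
            have d1 : (a j).natAbs < n * H := by
              calc (a j).natAbs ≤ j * H := b1
                _ < n * H := Nat.mul_lt_mul_of_pos_right (by omega) hH
            have d2 : (a j0).natAbs < n * H := by
              calc (a j0).natAbs ≤ j0 * H := b2
                _ < n * H := Nat.mul_lt_mul_of_pos_right (by omega) hH
            have e1 : n * j * H < n * (j0 + 1) * H + n * H + n * H := by omega
            have e2 : n * (j0 + 1) * H + n * H + n * H = n * H * (j0 + 3) := by ring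
            have e3 : n * j * H = n * H * j := by ring
            rw [e2, e3] at e1
            have e4 := Nat.lt_of_mul_lt_mul_left e1
            omega
          have := card_le_card hsub
          rw [Nat.card_Icc] at this
          omega
      exact_mod_cast hcard
    · rw [not_nonempty_iff_eq_empty] at hne
      have : GH (J * W) n R k = 0 := by
        unfold GH CS
        rw [hne]
        simp
      rw [this]
      simp
  · have hc : (Js.card : ℝ) ≤ J := by
      have h2 : Js.card ≤ J := by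
        rw [hJs]
        refine (card_filter_le _ _).trans ?_
        rw [Nat.card_Ico]
        omega
      exact_mod_cast h2
    have : (0:ℝ) ≤ 32 * R ^ 2 * s * (H / W) + 6 * R ^ 2 := by positivity
    gcongr

end Run7.h905.SM
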