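import Pool.Agent.Run7.h905.SM.Count4

/-!
The large conductors: total.
-/

set_option autoImplicit false

open Finset

namespace Run7.h905.SM

open Pool.Agent.H441R3.BV (kap inv_tot_le)
open Classical

lemma GH_sum (K n R I : ℕ) : ∑ k ∈ range I, GH K n R k =
    (1 / (Nat.totient n : ℝ)) * ∑ χ ∈ hi n R, ∑ k ∈ range I, ‖CS pr K k n χ‖ := by
  unfold GH
  rw [← mul_sum, sum_comm]

/-- consequences of the relations -/
lemma Rel.Hs {x L s R J H W : ℝ} (h : Rel x L s R J H W) : s ^ 144 ≤ H := by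
  refine le_trans ?_ h.hH
  have h1 := h.Rs
  have h2 := h.s0
  calc s ^ 144 = s ^ 96 * s ^ 48 := by ring
    _ ≤ R * s ^ 48 := by gcongr

lemma small1 {x L s R J H W N : ℝ} (h : Rel x L s R J H W) (hN0 : 0 ≤ N) (hN : N * (J * H) ≤ 2 * x) :
    N * s ^ 4 ≤ x / s := by
  have h0 := h.s0
  have h1 := h.s1
  have h2 := h.Hs
  have h3 := h.hJ
  rw [le_div_iff₀ h0]
  have h4 : (2:ℝ) ≤ s := by linarith
  have h5 : 2 * (N * s ^ 4 * s) ≤ 2 * x := by
    refine le_trans ?_ hN
    calc 2 * (N * s ^ 4 * s) ≤ s * (N * s ^ 4 * s) := by gcongr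
      _ = N * (1 * s ^ 6) := by ring
      _ ≤ N * (J * s ^ 144) := by
          have := h.spow (show 6 ≤ 144 by norm_num)
          gcongr
      _ ≤ N * (J * H) := by gcongr
  linarith

/-- **the large conductors** -/
theorem high_total {x D H J W N i0 : ℕ} {a : ℕ → ℕ → ℤ} {s B : ℝ}
    (hR : Rel (x : ℝ) (Real.log x) s (Real.sqrt x) J H W)
    (hN : (N : ℝ) * (J * H) ≤ 2 * x) (hNx : N ≤ x)
    (hT : ∀ n : ℕ, 1 ≤ n → n ≤ x → (n.divisors.card : ℝ) ≤ s)
    (hB : ∀ n : ℕ, 1 ≤ n → ta n ≤ B * Real.sqrt n) (hB0 : 0 ≤ B)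
    (hRs : 10 ^ 6 * ((2:ℝ) ^ i0) ^ 3 * Real.log x ^ 6 ≤ s)
    (ha : ∀ d ∈ Icc 1 D, ∀ j ∈ Ico J (2 * J), (a d j).natAbs ≤ j * H) :
    ∑ d ∈ Icc 1 D, ∑ j ∈ (Ico J (2 * J)).filter (fun j => d.Coprime (a d j).natAbs),
      ∑ m ∈ (Icc 1 (N / d)).filter (fun m => m.Coprime (a d j).natAbs),
        ‖HC (d * m) (2 ^ i0) (a d j) (blk x H j (d * m) (a d j))‖ ≤
    51840 * B * Real.log x ^ 9 * x / Real.sqrt (2 ^ i0) + 4 * (x / s) := by
  have hs0 := hR.s0
  have hs1 := hR.s1
  have hL := hR.hL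
  have hJ1 : 1 ≤ J := by exact_mod_cast hR.hJ
  have hxr := hR.x0
  have hHs := hR.Hs
  have hH1' : (1:ℝ) ≤ H := by
    refine le_trans ?_ hHs
    apply one_le_pow₀
    linarith
  have hH1 : 1 ≤ H := by exact_mod_cast hH1'
  have hW1' : (1:ℝ) ≤ W := by
    refine le_trans ?_ hR.hW1
    apply one_le_pow₀
    linarith
  have hW1 : 1 ≤ W := by exact_mod_cast hW1'
  set R : ℕ := 2 ^ i0 with hRdef
  have hR1 : 1 ≤ R := Nat.one_le_two_pow
  have hRr : (R : ℝ) = (2:ℝ) ^ i0 := by rw [hRdef]; push_cast; rfl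
  have hR1r : (1:ℝ) ≤ R := by exact_mod_cast hR1
  have hR3 : (10:ℝ) ^ 6 * R ^ 3 * Real.log x ^ 6 ≤ s := by
    rw [hRr]
    exact hRs
  have hL1 : (1:ℝ) ≤ Real.log x ^ 6 := one_le_pow₀ hL
  have hR3' : (10:ℝ) ^ 6 * R ^ 3 ≤ s := by
    refine le_trans ?_ hR3
    have : (0:ℝ) ≤ 10 ^ 6 * (R:ℝ) ^ 3 := by positivity
    nlinarith
  have hR2 : (10:ℝ) ^ 6 * R ^ 2 ≤ s := by
    refine le_trans ?_ hR3'
    have : (R:ℝ) ^ 2 ≤ R ^ 3 := pow_le_pow_right₀ hR1r (by norm_num)
    gcongr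
  set e1 : ℝ := 32 * R ^ 2 * s * (H / W) + 6 * R ^ 2 with he1
  have he10 : 0 ≤ e1 := by positivity
  set Bn : ℕ → ℝ := fun n => 3 * ∑ k ∈ range (kap (J * W) x), GH (J * W) n R k + J * e1 +
    (if n < 2 * J then J * (3 * R ^ 2 * s * H) else 0) with hBn
  have hBn0 : ∀ n, 0 ≤ Bn n := by
    intro n
    have h1 : 0 ≤ ∑ k ∈ range (kap (J * W) x), GH (J * W) n R k := sum_nonneg fun k _ => GH_nonneg _ _ _ _
    simp only [hBn]
    split_ifs <;> positivity
  -- one modulus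
  have hone : ∀ d ∈ Icc 1 D, ∀ m ∈ Icc 1 (N / d),
      ∑ j ∈ (Ico J (2 * J)).filter (fun j => IsCoprime (a d j) ((d * m : ℕ) : ℤ)),
        ‖HC (d * m) R (a d j) (blk x H j (d * m) (a d j))‖ ≤ Bn (d * m) := by
    intro d hd m hm
    rw [mem_Icc] at hm
    have hd1 := (mem_Icc.1 hd).1
    have hn : 1 ≤ d * m := Nat.mul_pos hd1 hm.1
    have hnN : d * m ≤ N := by
      rw [mul_comm]
      exact (Nat.le_div_iff_mul_le hd1).1 hm.2
    have hnx : d * m ≤ x := hnN.trans hNx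
    by_cases hnJ : 2 * J ≤ d * m
    · have h1 := sum_blocks (W := W) (a := a d) hJ1 hW1 hH1 hnx hR1 hnJ (ha d hd) hT
      simp only [hBn]
      rw [if_neg (by omega), add_zero]
      exact h1
    · have h1 : ∑ j ∈ (Ico J (2 * J)).filter (fun j => IsCoprime (a d j) ((d * m : ℕ) : ℤ)),
          ‖HC (d * m) R (a d j) (blk x H j (d * m) (a d j))‖ ≤
          ∑ _j ∈ (Ico J (2 * J)).filter (fun j => IsCoprime (a d j) ((d * m : ℕ) : ℤ)),
          3 * (R:ℝ) ^ 2 * s * H := by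
        apply sum_le_sum
        intro j hj
        rw [mem_filter] at hj
        exact blk_triv hn hnx hH1 hR1 hj.2 (ha d hd j hj.1) hT
      refine h1.trans ?_
      rw [sum_const, nsmul_eq_mul]
      have hc : (((Ico J (2 * J)).filter (fun j => IsCoprime (a d j) ((d * m : ℕ) : ℤ))).card : ℝ) ≤ J := by
        have h2 : ((Ico J (2 * J)).filter (fun j => IsCoprime (a d j) ((d * m : ℕ) : ℤ))).card ≤ J := by
          refine (card_filter_le _ _).trans ?_
          rw [Nat.card_Ico]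
          omega
        exact_mod_cast h2
      simp only [hBn]
      rw [if_pos (by omega)]
      have h3 : 0 ≤ ∑ k ∈ range (kap (J * W) x), GH (J * W) (d * m) R k :=
        sum_nonneg fun k _ => GH_nonneg _ _ _ _
      have h4 : (((Ico J (2 * J)).filter (fun j => IsCoprime (a d j) ((d * m : ℕ) : ℤ))).card : ℝ) *
          (3 * (R:ℝ) ^ 2 * s * H) ≤ J * (3 * (R:ℝ) ^ 2 * s * H) := by gcongr
      have h5 : (0:ℝ) ≤ J * e1 := by positivity
      linarith
  -- rearrangement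
  have hre : ∑ d ∈ Icc 1 D, ∑ j ∈ (Ico J (2 * J)).filter (fun j => d.Coprime (a d j).natAbs),
      ∑ m ∈ (Icc 1 (N / d)).filter (fun m => m.Coprime (a d j).natAbs),
        ‖HC (d * m) R (a d j) (blk x H j (d * m) (a d j))‖ ≤
      ∑ d ∈ Icc 1 D, ∑ m ∈ Icc 1 (N / d), Bn (d * m) := by
    apply sum_le_sum
    intro d hd
    have e2 : ∑ j ∈ (Ico J (2 * J)).filter (fun j => d.Coprime (a d j).natAbs),
      ∑ m ∈ (Icc 1 (N / d)).filter (fun m => m.Coprime (a d j).natAbs),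
        ‖HC (d * m) R (a d j) (blk x H j (d * m) (a d j))‖ ≤
      ∑ m ∈ Icc 1 (N / d), ∑ j ∈ (Ico J (2 * J)).filter (fun j => IsCoprime (a d j) ((d * m : ℕ) : ℤ)),
        ‖HC (d * m) R (a d j) (blk x H j (d * m) (a d j))‖ := by
      simp_rw [sum_filter]
      rw [sum_comm' (s := Icc 1 (N / d)) (t := fun _ => Ico J (2 * J)) (t' := Ico J (2 * J))
        (s' := fun _ => Icc 1 (N / d)) (by intro x y; tauto)]
      apply sum_le_sum
      intro j _
      split_ifs with h1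
      · apply sum_le_sum
        intro m _
        split_ifs with h2 h3 h3
        · exact le_rfl
        · exfalso
          apply h3
          rw [Int.isCoprime_iff_gcd_eq_one]
          have : Nat.Coprime (d * m) (a d j).natAbs := Nat.Coprime.mul_left h1 h2
          rw [Int.gcd, Int.natAbs_natCast, Nat.gcd_comm]
          exact this
        · exact norm_nonneg _
        · exact le_rfl
      · apply sum_nonneg
        intro m _
        split_ifs
        · exact norm_nonneg _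
        · exact le_rfl
    exact e2.trans (sum_le_sum fun m hm => hone d hd m hm)
  have hre2 : ∑ d ∈ Icc 1 D, ∑ m ∈ Icc 1 (N / d), Bn (d * m) ≤ ∑ n ∈ Icc 1 N, ta n * Bn n := by
    have e3 : ∑ n ∈ Icc 1 N, ta n * Bn n = ∑ d ∈ Icc 1 N, ∑ m ∈ Icc 1 (N / d), Bn (d * m) := by
      rw [← hyperM N (fun d m => Bn (d * m))]
      apply sum_congr rfl
      intro n _
      have : ∀ i ∈ n.divisorsAntidiagonal, Bn (i.1 * i.2) = Bn n := by
        intro i hi
        rw [Nat.mem_divisorsAntidiagonal] at hi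
        rw [hi.1]
      rw [sum_congr rfl this, sum_const, nsmul_eq_mul, card_antidiag]
      rfl
    rw [e3]
    have e4 : ∑ d ∈ Icc 1 D, ∑ m ∈ Icc 1 (N / d), Bn (d * m) ≤
        ∑ d ∈ Icc 1 D ∪ Icc 1 N, ∑ m ∈ Icc 1 (N / d), Bn (d * m) := by
      apply sum_le_sum_of_subset_of_nonneg subset_union_left
      intro d _ _
      exact sum_nonneg fun m _ => hBn0 _
    refine e4.trans (le_of_eq ?_)
    symm
    apply sum_subset subset_union_right
    intro d hd hd'
    rw [mem_union, mem_Icc, mem_Icc] at hd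
    rw [mem_Icc] at hd'
    have : N / d = 0 := Nat.div_eq_of_lt (by omega)
    rw [this]
    simp
  refine hre.trans (hre2.trans ?_)
  -- the three parts
  have hsplit : ∑ n ∈ Icc 1 N, ta n * Bn n ≤
      3 * ∑ n ∈ Icc 1 N, (ta n / (Nat.totient n : ℝ)) * ∑ χ ∈ hi n R,
        ∑ k ∈ range (kap (J * W) x), ‖CS pr (J * W) k n χ‖ +
      N * (s * (J * e1)) + 2 * J * (s * (J * (3 * R ^ 2 * s * H))) := by
    have h1 : ∀ n ∈ Icc 1 N, ta n * Bn n ≤
        3 * ((ta n / (Nat.totient n : ℝ)) * ∑ χ ∈ hi n R,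
          ∑ k ∈ range (kap (J * W) x), ‖CS pr (J * W) k n χ‖) + s * (J * e1) +
        (if n < 2 * J then s * (J * (3 * R ^ 2 * s * H)) else 0) := by
      intro n hn
      rw [mem_Icc] at hn
      have ht : ta n ≤ s := hT n hn.1 (hn.2.trans hNx)
      have ht0 := ta_nonneg n
      simp only [hBn]
      rw [GH_sum]
      have h2 : ta n * (J * e1) ≤ s * (J * e1) := by gcongr
      have h3 : ta n * (if n < 2 * J then (J:ℝ) * (3 * R ^ 2 * s * H) else 0) ≤
          (if n < 2 * J then s * (J * (3 * R ^ 2 * s * H)) else 0) := by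
        split_ifs
        · gcongr
        · simp
      have e5 : ta n * (3 * (1 / (Nat.totient n : ℝ) * ∑ χ ∈ hi n R,
          ∑ k ∈ range (kap (J * W) x), ‖CS pr (J * W) k n χ‖)) =
          3 * ((ta n / (Nat.totient n : ℝ)) * ∑ χ ∈ hi n R,
          ∑ k ∈ range (kap (J * W) x), ‖CS pr (J * W) k n χ‖) := by ring
      rw [mul_add, mul_add, e5]
      linarith
    refine (sum_le_sum h1).trans ?_
    rw [sum_add_distrib, sum_add_distrib, ← mul_sum, sum_const, Nat.card_Icc, nsmul_eq_mul,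
      Nat.add_sub_cancel]
    apply add_le_add_right
    rw [← sum_filter, sum_const, nsmul_eq_mul]
    have hc : (((Icc 1 N).filter (fun n => n < 2 * J)).card : ℝ) ≤ 2 * J := by
      have h2 : ((Icc 1 N).filter (fun n => n < 2 * J)).card ≤ 2 * J := by
        have : (Icc 1 N).filter (fun n => n < 2 * J) ⊆ range (2 * J) := by
          intro n hn
          rw [mem_filter] at hn
          exact mem_range.2 hn.2
        have := card_le_card this
        rwa [card_range] at this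
      exact_mod_cast h2
    have : (0:ℝ) ≤ s * (J * (3 * R ^ 2 * s * H)) := by positivity
    gcongr
  refine hsplit.trans ?_
  have hav := high_av (i0 := i0) hR hN hT hB hB0
  rw [← hRdef] at hav
  have hlogN : Real.log N ≤ Real.log x := by
    rcases Nat.eq_zero_or_pos N with h | h
    · rw [h]
      simp only [Nat.cast_zero, Real.log_zero]
      linarith
    · apply Real.log_le_log
      · exact_mod_cast h
      · exact_mod_cast hNx
  have hlogN0 : 0 ≤ Real.log N := Real.log_natCast_nonneg N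
  have hlog2 : (Nat.log 2 N : ℝ) + 1 ≤ 3 * Real.log x := by
    have h1 : (Nat.log 2 N : ℝ) ≤ 2 * Real.log x := by
      rcases Nat.eq_zero_or_pos N with h | h
      · rw [h]
        simp only [Nat.log_zero_right, Nat.cast_zero]
        linarith
      · have h2 : 2 ^ Nat.log 2 N ≤ N := Nat.pow_log_le_self 2 (by omega)
        have h3 : ((2:ℝ) ^ Nat.log 2 N) ≤ N := by exact_mod_cast h2
        have h4 : Real.log ((2:ℝ) ^ Nat.log 2 N) ≤ Real.log N :=
          Real.log_le_log (by positivity) h3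
        rw [Real.log_pow] at h4
        have h5 := Real.log_two_gt_d9
        have h6 : (0:ℝ) ≤ (Nat.log 2 N : ℝ) := Nat.cast_nonneg _
        nlinarith
    linarith
  set Q := ∑ n ∈ Icc 1 N, (ta n / (Nat.totient n : ℝ)) * ∑ χ ∈ hi n R,
        ∑ k ∈ range (kap (J * W) x), ‖CS pr (J * W) k n χ‖ with hQ
  have hsq0 : 0 < Real.sqrt ((2:ℝ) ^ i0) := Real.sqrt_pos.2 (by positivity)
  have hQ1 : Q ≤ 17280 * B * Real.log x ^ 9 * x / Real.sqrt (2 ^ i0) + 48 * Real.log x ^ 5 * (x / s ^ 2) +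
      N * s ^ 2 := by
    refine hav.trans ?_
    apply add_le_add_left
    calc (1 + Real.log N) ^ 4 * (((Nat.log 2 N : ℝ) + 1) *
          (360 * B * Real.log x ^ 4 * x / Real.sqrt (2 ^ i0) + x / s ^ 2)) ≤
        (2 * Real.log x) ^ 4 * ((3 * Real.log x) *
          (360 * B * Real.log x ^ 4 * x / Real.sqrt (2 ^ i0) + x / s ^ 2)) := by
          have h1 : 1 + Real.log N ≤ 2 * Real.log x := by linarith
          gcongr
      _ = _ := by ring
  -- small terms
  have q1 : 3 * (48 * Real.log x ^ 5 * (x / s ^ 2)) ≤ x / s := by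
    have h1 := hR.Lpow 144 5 (by norm_num) (by norm_num) (by norm_num)
    calc 3 * (48 * Real.log x ^ 5 * (x / s ^ 2)) = (144 * Real.log x ^ 5) * (x / s ^ 2) := by ring
      _ ≤ s * (x / s ^ 2) := by gcongr
      _ = x / s := by field_simp
  have hN0 : (0:ℝ) ≤ N := Nat.cast_nonneg _
  have hsm := small1 hR hN0 hN
  have q2 : 3 * ((N:ℝ) * s ^ 2) ≤ x / s := by
    refine le_trans ?_ hsm
    have : 3 * s ^ 2 ≤ s ^ 4 := by
      have h1 : (3:ℝ) ≤ s := by linarith
      have h2 : 3 * s ^ 2 ≤ s * s ^ 2 := by gcongr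
      have h3 : s ^ 3 ≤ s ^ 4 := hR.spow (by norm_num)
      nlinarith
    nlinarith
  have q3 : (N:ℝ) * (s * (J * e1)) ≤ x / s := by
    have h1 : (N:ℝ) * (s * (J * e1)) = 32 * R ^ 2 * s ^ 2 * (N * (J * H)) / W + 6 * R ^ 2 * s * (N * J) := by
      rw [he1]
      have : (W:ℝ) ≠ 0 := by positivity
      field_simp
    rw [h1]
    have h2 : 32 * (R:ℝ) ^ 2 * s ^ 2 * (N * (J * H)) / W ≤ (x / s) / 2 := by
      have hW := hR.hW1
      calc 32 * (R:ℝ) ^ 2 * s ^ 2 * (N * (J * H)) / W ≤ 32 * (R:ℝ) ^ 2 * s ^ 2 * (2 * x) / s ^ 12 := by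
            gcongr
        _ = (128 * (R:ℝ) ^ 2) * (x / s ^ 10) / 2 := by field_simp; ring
        _ ≤ s * (x / s ^ 10) / 2 := by
            have : 128 * (R:ℝ) ^ 2 ≤ s := by nlinarith [sq_nonneg (R:ℝ)]
            gcongr
        _ = (x / s ^ 9) / 2 := by field_simp
        _ ≤ (x / s) / 2 := by
            have h3 : s ^ 1 ≤ s ^ 9 := hR.spow (by norm_num)
            rw [pow_one] at h3
            gcongr
    have h3 : 6 * (R:ℝ) ^ 2 * s * (N * J) ≤ (x / s) / 2 := by
      have h4 : (N:ℝ) * J ≤ 2 * x / H := by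
        rw [le_div_iff₀ (by linarith)]
        linarith
      calc 6 * (R:ℝ) ^ 2 * s * (N * J) ≤ 6 * (R:ℝ) ^ 2 * s * (2 * x / H) := by gcongr
        _ = (24 * (R:ℝ) ^ 2) * s * (x / H) / 2 := by ring
        _ ≤ s * s * (x / s ^ 144) / 2 := by
            have : 24 * (R:ℝ) ^ 2 ≤ s := by nlinarith [sq_nonneg (R:ℝ)]
            gcongr
        _ = x / s ^ 142 / 2 := by field_simp
        _ ≤ (x / s) / 2 := by
            have h3 : s ^ 1 ≤ s ^ 142 := hR.spow (by norm_num)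
            rw [pow_one] at h3
            gcongr
    linarith
  have q4 : 2 * (J:ℝ) * (s * (J * (3 * R ^ 2 * s * H))) ≤ x / s := by
    have h1 := hR.hJH
    rw [le_div_iff₀ hs0]
    calc 2 * (J:ℝ) * (s * (J * (3 * R ^ 2 * s * H))) * s = (6 * R ^ 2) * (J ^ 2 * H) * s ^ 3 := by ring
      _ ≤ s * (J ^ 2 * H) * s ^ 3 := by
          have : 6 * (R:ℝ) ^ 2 ≤ s := by nlinarith [sq_nonneg (R:ℝ)]
          gcongr
      _ = J ^ 2 * H * s ^ 4 := by ring
      _ ≤ J ^ 2 * H * s ^ 48 := by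
          have := hR.spow (show 4 ≤ 48 by norm_num)
          gcongr
      _ ≤ x := h1
  have e6 : 51840 * B * Real.log x ^ 9 * x / Real.sqrt (2 ^ i0) =
      3 * (17280 * B * Real.log x ^ 9 * x / Real.sqrt (2 ^ i0)) := by ring
  rw [e6]
  linarith

end Run7.h905.SM
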