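import Pool.Agent.Run7.h905.SM.High

/-!
Sums of `1 / φ(d m)` over `m` in an interval, in a residue class `0` modulo `g` and coprime to `a`.
-/

set_option autoImplicit false

open Finset

namespace Run7.h905.SM

/-! ### harmonic sums -/

/-- harmonic sum -/
noncomputable def hs (n : ℕ) : ℝ := ∑ l ∈ range n, 1 / ((l + 1 : ℕ) : ℝ)

lemma hs_step (m k : ℕ) (hm : 1 ≤ m) : Real.log ((m + k : ℕ) : ℝ) - Real.log m ≤
    hs (m + k - 1) - hs (m - 1) ∧ hs (m + k - 1) - hs (m - 1) ≤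
      Real.log ((m + k : ℕ) : ℝ) - Real.log m + 1 / m - 1 / ((m + k : ℕ) : ℝ) := by
  induction k with
  | zero => simp
  | succ k ih =>
    have hm0 : (0:ℝ) < ((m + k : ℕ) : ℝ) := by
      have : 0 < m + k := by omega
      exact_mod_cast this
    have e1 : m + (k + 1) - 1 = (m + k - 1) + 1 := by omega
    have e2 : hs ((m + k - 1) + 1) = hs (m + k - 1) + 1 / ((m + k : ℕ) : ℝ) := by
      unfold hs
      rw [sum_range_succ]
      congr 3
      omega
    rw [e1, e2]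
    have e3 : ((m + (k + 1) : ℕ) : ℝ) = ((m + k : ℕ) : ℝ) + 1 := by
      push_cast
      ring
    rw [e3]
    set u := ((m + k : ℕ) : ℝ) with hu
    have h1 : Real.log (u + 1) - Real.log u ≤ 1 / u := by
      rw [← Real.log_div (by positivity) hm0.ne']
      have : Real.log ((u + 1) / u) ≤ (u + 1) / u - 1 := Real.log_le_sub_one_of_pos (by positivity)
      have e : (u + 1) / u - 1 = 1 / u := by field_simp; ring
      linarith
    have h2 : 1 / (u + 1) ≤ Real.log (u + 1) - Real.log u := by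
      have : Real.log (u / (u + 1)) ≤ u / (u + 1) - 1 := Real.log_le_sub_one_of_pos (by positivity)
      rw [Real.log_div hm0.ne' (by positivity)] at this
      have e : u / (u + 1) - 1 = - (1 / (u + 1)) := by field_simp; ring
      linarith
    constructor
    · linarith [ih.1]
    · linarith [ih.2]

lemma sum_Ico_hs {a b : ℕ} (ha : 1 ≤ a) (hab : a ≤ b) :
    ∑ l ∈ Ico a b, 1 / (l : ℝ) = hs (b - 1) - hs (a - 1) := by
  induction b, hab using Nat.le_induction with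
  | base => simp
  | succ b hb ih =>
    rw [sum_Ico_succ_top hb, ih]
    have e1 : b + 1 - 1 = (b - 1) + 1 := by omega
    rw [e1]
    have e2 : hs ((b - 1) + 1) = hs (b - 1) + 1 / (b : ℝ) := by
      unfold hs
      rw [sum_range_succ]
      congr 3
      omega
    rw [e2]
    ring

/-- the harmonic sum over a real interval -/
lemma harm_int {z1 z2 : ℝ} {M : ℕ} (h0 : 0 < z1) (h12 : z1 ≤ z2) (hM : z2 ≤ M + 1) :
    |∑ l ∈ Icc 1 M, (if z1 ≤ l ∧ (l : ℝ) < z2 then 1 / (l : ℝ) else 0) - Real.log (z2 / z1)| ≤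
      2 / z1 := by
  have hz2 : 0 < z2 := by linarith
  set a := ⌈z1⌉₊ with ha
  set b := ⌈z2⌉₊ with hb
  have ha1 : 1 ≤ a := Nat.one_le_ceil_iff.2 h0
  have hab : a ≤ b := Nat.ceil_le_ceil h12
  have hbM : b ≤ M + 1 := by
    rw [hb, Nat.ceil_le]
    exact_mod_cast hM
  have e1 : ∑ l ∈ Icc 1 M, (if z1 ≤ l ∧ (l : ℝ) < z2 then 1 / (l : ℝ) else 0) =
      ∑ l ∈ Ico a b, 1 / (l : ℝ) := by
    rw [← sum_filter]
    apply sum_congr _ fun _ _ => rfl
    ext l
    rw [mem_filter, mem_Icc, mem_Ico, ha, hb, Nat.ceil_le, Nat.lt_ceil]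
    constructor
    · rintro ⟨_, h⟩
      exact h
    · rintro ⟨h, h'⟩
      refine ⟨⟨?_, ?_⟩, h, h'⟩
      · have : 0 < (l : ℝ) := lt_of_lt_of_le h0 h
        exact_mod_cast this
      · have : l < b := Nat.lt_ceil.2 h'
        omega
  rw [e1, sum_Ico_hs ha1 hab]
  obtain ⟨k, hk⟩ : ∃ k, b = a + k := ⟨b - a, by omega⟩
  have h3 := hs_step a k ha1
  rw [← hk] at h3
  have har : (0:ℝ) < a := by exact_mod_cast ha1
  have hbr : (0:ℝ) < b := by
    have : 0 < b := by omega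
    exact_mod_cast this
  have a1 : z1 ≤ a := Nat.le_ceil z1
  have a2 : (a:ℝ) < z1 + 1 := Nat.ceil_lt_add_one h0.le
  have b1 : z2 ≤ b := Nat.le_ceil z2
  have b2 : (b:ℝ) < z2 + 1 := Nat.ceil_lt_add_one hz2.le
  have la1 : Real.log z1 ≤ Real.log a := Real.log_le_log h0 a1
  have la2 : Real.log a ≤ Real.log z1 + 1 / z1 := by
    have h4 : Real.log (a / z1) ≤ a / z1 - 1 := Real.log_le_sub_one_of_pos (by positivity)
    rw [Real.log_div har.ne' h0.ne'] at h4
    have h5 : (a:ℝ) / z1 - 1 ≤ 1 / z1 := by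
      rw [div_sub_one h0.ne']
      gcongr
      linarith
    linarith
  have lb1 : Real.log z2 ≤ Real.log b := Real.log_le_log hz2 b1
  have lb2 : Real.log b ≤ Real.log z2 + 1 / z2 := by
    have h4 : Real.log (b / z2) ≤ b / z2 - 1 := Real.log_le_sub_one_of_pos (by positivity)
    rw [Real.log_div hbr.ne' hz2.ne'] at h4
    have h5 : (b:ℝ) / z2 - 1 ≤ 1 / z2 := by
      rw [div_sub_one hz2.ne']
      gcongr
      linarith
    linarith
  have i1 : 1 / z2 ≤ 1 / z1 := by gcongr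
  have i2 : 1 / (a:ℝ) ≤ 1 / z1 := by gcongr
  have i3 : 0 ≤ 1 / (b:ℝ) := by positivity
  have i4 : 0 ≤ 1 / z1 := by positivity
  have i5 : 2 / z1 = 1 / z1 + 1 / z1 := by ring
  rw [Real.log_div hz2.ne' h0.ne', abs_le, i5]
  constructor
  · linarith [h3.1]
  · linarith [h3.2]

/-! ### the coprimality condition -/

/-- the density of the integers coprime to `a` -/
noncomputable def rho (a : ℕ) : ℝ := ∑ t ∈ a.divisors, (ArithmeticFunction.moebius t : ℝ) / t

lemma sum_moebius (n : ℕ) (hn : n ≠ 0) :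
    ∑ t ∈ n.divisors, (ArithmeticFunction.moebius t : ℝ) = if n = 1 then 1 else 0 := by
  have h := ArithmeticFunction.coe_moebius_mul_coe_zeta (R := ℝ)
  have h1 := congrArg (fun f : ArithmeticFunction ℝ => f n) h
  simp only [ArithmeticFunction.coe_mul_zeta_apply, ArithmeticFunction.one_apply] at h1
  rw [← h1]
  apply sum_congr rfl
  intro t _
  simp

lemma cop_ind {a l : ℕ} (ha : 1 ≤ a) :
    (if l.Coprime a then (1:ℝ) else 0) =
      ∑ t ∈ a.divisors, (if t ∣ l then (ArithmeticFunction.moebius t : ℝ) else 0) := by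
  have hg : Nat.gcd l a ≠ 0 := Nat.gcd_ne_zero_right (by omega)
  rw [← sum_filter]
  have h1 : a.divisors.filter (fun t => t ∣ l) = (Nat.gcd l a).divisors := by
    ext t
    rw [mem_filter, Nat.mem_divisors, Nat.mem_divisors, Nat.dvd_gcd_iff]
    constructor
    · rintro ⟨⟨h1, _⟩, h3⟩
      exact ⟨⟨h3, h1⟩, hg⟩
    · rintro ⟨⟨h1, h2⟩, _⟩
      exact ⟨⟨h2, by omega⟩, h1⟩
  rw [h1, sum_moebius _ hg]

/-- multiples -/
lemma sum_mult (M t : ℕ) (ht : 1 ≤ t) (h : ℕ → ℝ) :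
    ∑ l ∈ Icc 1 M, (if t ∣ l then h l else 0) = ∑ k ∈ Icc 1 (M / t), h (t * k) := by
  rw [← sum_filter]
  symm
  apply sum_bij (fun k _ => t * k)
  · intro k hk
    rw [mem_Icc] at hk
    rw [mem_filter, mem_Icc]
    refine ⟨⟨Nat.mul_pos ht hk.1, ?_⟩, dvd_mul_right t k⟩
    rw [mul_comm]
    exact (Nat.le_div_iff_mul_le ht).1 hk.2
  · intro a _ b _ h
    exact Nat.eq_of_mul_eq_mul_left ht h
  · intro l hl
    rw [mem_filter, mem_Icc] at hl
    obtain ⟨k, rfl⟩ := hl.2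
    refine ⟨k, ?_, rfl⟩
    rw [mem_Icc]
    refine ⟨Nat.pos_of_mul_pos_left hl.1.1 |>.bot_lt, ?_⟩
    rw [Nat.le_div_iff_mul_le ht, mul_comm]
    exact hl.1.2
  · intro k _
    rfl

lemma floor_cond {M t : ℕ} (ht : 1 ≤ t) {z : ℝ} (h : z ≤ M + 1) : z / t ≤ ((M / t : ℕ) : ℝ) + 1 := by
  have ht0 : (0:ℝ) < t := by exact_mod_cast ht
  rw [div_le_iff₀ ht0]
  have h1 : M < t * (M / t + 1) := by
    have := Nat.lt_mul_div_succ M ht
    exact this
  have h2 : M + 1 ≤ (M / t + 1) * t := by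
    rw [mul_comm]
    omega
  have h3 : ((M + 1 : ℕ) : ℝ) ≤ (((M / t + 1) * t : ℕ) : ℝ) := by exact_mod_cast h2
  push_cast at h3
  linarith

lemma harm_cop {z1 z2 : ℝ} {M a : ℕ} (ha : 1 ≤ a) (h0 : 0 < z1) (h12 : z1 ≤ z2) (hM : z2 ≤ M + 1) :
    |∑ l ∈ Icc 1 M, (if l.Coprime a ∧ z1 ≤ l ∧ (l : ℝ) < z2 then 1 / (l : ℝ) else 0) -
      rho a * Real.log (z2 / z1)| ≤ 2 * ta a / z1 := by
  have hz2 : 0 < z2 := by linarith
  have e1 : ∑ l ∈ Icc 1 M, (if l.Coprime a ∧ z1 ≤ l ∧ (l : ℝ) < z2 then 1 / (l : ℝ) else 0) =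
      ∑ t ∈ a.divisors, ((ArithmeticFunction.moebius t : ℝ) / t) *
        ∑ k ∈ Icc 1 (M / t), (if z1 / t ≤ k ∧ (k : ℝ) < z2 / t then 1 / (k : ℝ) else 0) := by
    have h1 : ∀ l ∈ Icc 1 M, (if l.Coprime a ∧ z1 ≤ l ∧ (l : ℝ) < z2 then 1 / (l : ℝ) else 0) =
        ∑ t ∈ a.divisors, (if t ∣ l then (ArithmeticFunction.moebius t : ℝ) *
          (if z1 ≤ l ∧ (l : ℝ) < z2 then 1 / (l : ℝ) else 0) else 0) := by
      intro l _
      have h2 := cop_ind (l := l) ha
      have h3 : ∀ t ∈ a.divisors, (if t ∣ l then (ArithmeticFunction.moebius t : ℝ) *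
          (if z1 ≤ l ∧ (l : ℝ) < z2 then 1 / (l : ℝ) else 0) else 0) =
          (if t ∣ l then (ArithmeticFunction.moebius t : ℝ) else 0) *
          (if z1 ≤ l ∧ (l : ℝ) < z2 then 1 / (l : ℝ) else 0) := by
        intro t _
        split_ifs <;> simp
      rw [sum_congr rfl h3, ← sum_mul, ← h2]
      by_cases h4 : l.Coprime a <;> by_cases h5 : z1 ≤ l ∧ (l : ℝ) < z2 <;> simp [h4, h5]
    rw [sum_congr rfl h1, sum_comm]
    apply sum_congr rfl
    intro t ht
    have ht1 : 1 ≤ t := Nat.pos_of_mem_divisors ht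
    have ht0 : (0:ℝ) < t := by exact_mod_cast ht1
    rw [sum_mult M t ht1, mul_sum]
    apply sum_congr rfl
    intro k hk
    have c1 : (z1 ≤ ((t * k : ℕ) : ℝ)) ↔ z1 / t ≤ k := by
      rw [div_le_iff₀ ht0]
      push_cast
      rw [mul_comm]
    have c2 : (((t * k : ℕ) : ℝ) < z2) ↔ (k : ℝ) < z2 / t := by
      rw [lt_div_iff₀ ht0]
      push_cast
      rw [mul_comm]
    simp only [c1, c2]
    split_ifs
    · push_cast
      rw [mem_Icc] at hk
      have hk0 : (0:ℝ) < k := by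
        have : 0 < k := by omega
        exact_mod_cast this
      field_simp
    · simp
  rw [e1]
  unfold rho
  rw [sum_mul, ← sum_sub_distrib]
  refine (abs_sum_le_sum_abs _ _).trans ?_
  have h2 : ∀ t ∈ a.divisors, |((ArithmeticFunction.moebius t : ℝ) / t) *
        ∑ k ∈ Icc 1 (M / t), (if z1 / t ≤ k ∧ (k : ℝ) < z2 / t then 1 / (k : ℝ) else 0) -
        ((ArithmeticFunction.moebius t : ℝ) / t) * Real.log (z2 / z1)| ≤ 2 / z1 := by
    intro t ht
    have ht1 : 1 ≤ t := Nat.pos_of_mem_divisors ht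
    have ht0 : (0:ℝ) < t := by exact_mod_cast ht1
    have h3 := harm_int (M := M / t) (div_pos h0 ht0) (div_le_div_of_nonneg_right h12 ht0.le)
      (floor_cond ht1 hM)
    have e2 : z2 / t / (z1 / t) = z2 / z1 := by field_simp
    rw [e2] at h3
    rw [← mul_sub, abs_mul]
    have h4 : |(ArithmeticFunction.moebius t : ℝ) / t| ≤ 1 / t := by
      rw [abs_div, abs_of_pos ht0]
      gcongr
      have := ArithmeticFunction.abs_moebius_le_one (n := t)
      exact_mod_cast this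
    calc |(ArithmeticFunction.moebius t : ℝ) / t| * _ ≤ (1 / t) * (2 / (z1 / t)) := by
          apply mul_le_mul h4 h3 (abs_nonneg _) (by positivity)
      _ = 2 / z1 := by field_simp
  refine (sum_le_sum h2).trans ?_
  rw [sum_const, nsmul_eq_mul]
  unfold ta
  apply le_of_eq
  ring

end Run7.h905.SM
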