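import Pool.Agent.Run7.h905.SM.Dens

/-!
Sums of `1 / φ(d m)`.
-/

set_option autoImplicit false

open Finset

namespace Run7.h905.SM

open Pool.Agent.H441R3.BV (sum_inv_tot)

lemma totient_prod (s : Finset ℕ) (hs : ∀ p ∈ s, p.Prime) :
    Nat.totient (∏ p ∈ s, p) = ∏ p ∈ s, (p - 1) := by
  classical
  induction s using Finset.induction_on with
  | empty => simp
  | insert a s ha ih =>
    rw [prod_insert ha, prod_insert ha, Nat.totient_mul, ih (fun p hp => hs p (mem_insert_of_mem hp)),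
      Nat.totient_prime (hs a (mem_insert_self _ _))]
    apply Nat.Coprime.prod_right
    intro p hp
    rw [Nat.coprime_primes (hs a (mem_insert_self _ _)) (hs p (mem_insert_of_mem hp))]
    rintro rfl
    exact ha hp

/-- the quotient of the values of the totient function -/
lemma tot_quot (D k : ℕ) (hD : 1 ≤ D) (hk : 1 ≤ k) :
    (k : ℝ) * Nat.totient D / Nat.totient (D * k) =
      ∏ p ∈ k.primeFactors \ D.primeFactors, (1 + 1 / ((p : ℝ) - 1)) := by
  have hDk : 1 ≤ D * k := Nat.mul_pos hD hk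
  have htD : (0 : ℝ) < Nat.totient D := by exact_mod_cast Nat.totient_pos.2 hD
  have htDk : (0 : ℝ) < Nat.totient (D * k) := by exact_mod_cast Nat.totient_pos.2 hDk
  have hpm : ∀ n : ℕ, (Nat.totient n : ℝ) * ∏ p ∈ n.primeFactors, (p : ℝ) =
      n * ∏ p ∈ n.primeFactors, ((p : ℝ) - 1) := by
    intro n
    have h2 := Nat.totient_mul_prod_primeFactors n
    have : ((Nat.totient n * ∏ p ∈ n.primeFactors, p : ℕ) : ℝ) =
        ((n * ∏ p ∈ n.primeFactors, (p - 1) : ℕ) : ℝ) := by rw [h2]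
    push_cast at this
    rw [this]
    congr 1
    apply prod_congr rfl
    intro p hp
    have := (Nat.prime_of_mem_primeFactors hp).one_le
    push_cast [Nat.cast_sub this]
    ring
  have hpos : ∀ s : Finset ℕ, (∀ p ∈ s, p.Prime) → (0 : ℝ) < ∏ p ∈ s, (p : ℝ) := by
    intro s hs
    apply prod_pos
    intro p hp
    exact_mod_cast (hs p hp).pos
  have hpos1 : ∀ s : Finset ℕ, (∀ p ∈ s, p.Prime) → (0 : ℝ) < ∏ p ∈ s, ((p : ℝ) - 1) := by
    intro s hs
    apply prod_pos
    intro p hp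
    have : (1 : ℝ) < p := by exact_mod_cast (hs p hp).one_lt
    linarith
  have hpf : (D * k).primeFactors = D.primeFactors ∪ (k.primeFactors \ D.primeFactors) := by
    rw [Nat.primeFactors_mul (by omega) (by omega), union_sdiff_self_eq_union]
  have hdisj : Disjoint D.primeFactors (k.primeFactors \ D.primeFactors) := disjoint_sdiff
  have hP1 : ∀ p ∈ D.primeFactors, p.Prime := fun p hp => Nat.prime_of_mem_primeFactors hp
  have hP2 : ∀ p ∈ k.primeFactors \ D.primeFactors, p.Prime := fun p hp =>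
    Nat.prime_of_mem_primeFactors (mem_sdiff.1 hp).1
  have e1 := hpm (D * k)
  have e2 := hpm D
  rw [hpf, prod_union hdisj, prod_union hdisj] at e1
  set A := ∏ p ∈ D.primeFactors, (p : ℝ) with hA
  set A1 := ∏ p ∈ D.primeFactors, ((p : ℝ) - 1) with hA1
  set B := ∏ p ∈ k.primeFactors \ D.primeFactors, (p : ℝ) with hB
  set B1 := ∏ p ∈ k.primeFactors \ D.primeFactors, ((p : ℝ) - 1) with hB1
  have hA0 : 0 < A := hpos _ hP1
  have hA10 : 0 < A1 := hpos1 _ hP1
  have hB0 : 0 < B := hpos _ hP2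
  have hB10 : 0 < B1 := hpos1 _ hP2
  have h5 : ∏ p ∈ k.primeFactors \ D.primeFactors, (1 + 1 / ((p : ℝ) - 1)) = B / B1 := by
    rw [hB, hB1, ← prod_div_distrib]
    apply prod_congr rfl
    intro p hp
    have : (1 : ℝ) < p := by exact_mod_cast (hP2 p hp).one_lt
    have h6 : (p : ℝ) - 1 ≠ 0 := by linarith
    field_simp
    ring
  rw [h5, div_eq_div_iff htDk.ne' hB10.ne']
  push_cast at e1
  have h7 : (Nat.totient (D * k) : ℝ) * B * A = k * B1 * (D * A1) := by
    linarith [e1]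
  rw [← e2] at h7
  have h8 : ((Nat.totient (D * k) : ℝ) * B) * A = (k * Nat.totient D * B1) * A := by
    rw [h7]; ring
  have h9 := mul_right_cancel₀ hA0.ne' h8
  linarith

/-- `1 / φ(D k)` -/
theorem tot_id (D k : ℕ) (hD : 1 ≤ D) (hk : 1 ≤ k) :
    (k : ℝ) * Nat.totient D / Nat.totient (D * k) =
      ∑ e ∈ k.divisors, (if Squarefree e ∧ e.Coprime D then 1 / (Nat.totient e : ℝ) else 0) := by
  classical
  have hk0 : k ≠ 0 := by omega
  rw [tot_quot D k hD hk, prod_one_add]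
  have hpf : (UniqueFactorizationMonoid.normalizedFactors k).toFinset = k.primeFactors := by
    rw [Nat.factors_eq]
    ext p
    simp [Nat.mem_primeFactorsList, Nat.mem_primeFactors]
  have e1 : ∑ e ∈ k.divisors, (if Squarefree e ∧ e.Coprime D then 1 / (Nat.totient e : ℝ) else 0) =
      ∑ e ∈ k.divisors.filter Squarefree, (if e.Coprime D then 1 / (Nat.totient e : ℝ) else 0) := by
    rw [sum_filter]
    apply sum_congr rfl
    intro e _
    by_cases h1 : Squarefree e <;> by_cases h2 : e.Coprime D <;> simp [h1, h2]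
  rw [e1, Nat.sum_divisors_filter_squarefree hk0, hpf]
  have e2 : ∀ s ∈ k.primeFactors.powerset, (if (s.val.prod).Coprime D then
      1 / (Nat.totient (s.val.prod) : ℝ) else 0) =
      if s ⊆ k.primeFactors \ D.primeFactors then ∏ p ∈ s, (1 / ((p : ℝ) - 1)) else 0 := by
    intro s hs
    rw [mem_powerset] at hs
    have hp : ∀ p ∈ s, p.Prime := fun p hp => Nat.prime_of_mem_primeFactors (hs hp)
    have e3 : s.val.prod = ∏ p ∈ s, p := by
      rw [Finset.prod_val]
      rfl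
    rw [e3]
    have hiff : (∏ p ∈ s, p).Coprime D ↔ s ⊆ k.primeFactors \ D.primeFactors := by
      rw [Nat.coprime_prod_left_iff]
      constructor
      · intro h p hp'
        rw [mem_sdiff]
        refine ⟨hs hp', ?_⟩
        intro hpD
        rw [Nat.mem_primeFactors] at hpD
        exact ((Nat.Prime.coprime_iff_not_dvd (hp p hp')).1 (h p hp')) hpD.2.1
      · intro h p hp'
        rw [Nat.Prime.coprime_iff_not_dvd (hp p hp')]
        intro hpD
        have := (mem_sdiff.1 (h hp')).2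
        rw [Nat.mem_primeFactors] at this
        exact this ⟨hp p hp', hpD, by omega⟩
    by_cases h : s ⊆ k.primeFactors \ D.primeFactors
    · rw [if_pos h, if_pos (hiff.2 h), totient_prod s hp]
      push_cast
      rw [one_div, ← prod_inv_distrib]
      apply prod_congr rfl
      intro p hpp
      have := (hp p hpp).one_le
      rw [Nat.cast_sub this]
      simp
    · rw [if_neg h, if_neg (fun h' => h (hiff.1 h'))]
  rw [sum_congr rfl e2, ← sum_filter]
  apply sum_congr _ fun _ _ => rfl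
  ext s
  rw [mem_powerset, mem_filter, mem_powerset]
  constructor
  · intro h
    exact ⟨h.trans sdiff_subset, h⟩
  · rintro ⟨_, h⟩
    exact h

/-- the weights -/
noncomputable def we (D a e : ℕ) : ℝ :=
  if Squarefree e ∧ e.Coprime D ∧ e.Coprime a then 1 / (Nat.totient e : ℝ) else 0

lemma we_nonneg (D a e : ℕ) : 0 ≤ we D a e := by
  unfold we
  split_ifs
  · positivity
  · exact le_rfl

lemma we_le (D a e : ℕ) : we D a e ≤ 1 / (Nat.totient e : ℝ) := by
  unfold we
  split_ifs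
  · exact le_rfl
  · positivity

/-- the constant in the asymptotic formula -/
noncomputable def cst (E D a : ℕ) : ℝ :=
  (1 / (Nat.totient D : ℝ)) * (∑ e ∈ Icc 1 E, we D a e / e) * rho a

lemma rho_abs (a : ℕ) (ha : 1 ≤ a) : |rho a| ≤ 1 + Real.log a := by
  unfold rho
  refine (abs_sum_le_sum_abs _ _).trans ?_
  have h1 : ∀ t ∈ a.divisors, |(ArithmeticFunction.moebius t : ℝ) / t| ≤ 1 / (t : ℝ) := by
    intro t ht
    have ht1 : 1 ≤ t := Nat.pos_of_mem_divisors ht
    have ht0 : (0:ℝ) < t := by exact_mod_cast ht1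
    rw [abs_div, abs_of_pos ht0]
    gcongr
    have := ArithmeticFunction.abs_moebius_le_one (n := t)
    exact_mod_cast this
  refine (sum_le_sum h1).trans ?_
  have h2 : ∑ t ∈ a.divisors, 1 / (t : ℝ) ≤ ∑ t ∈ Icc 1 a, 1 / (t : ℝ) := by
    apply sum_le_sum_of_subset_of_nonneg
    · intro t ht
      rw [mem_Icc]
      exact ⟨Nat.pos_of_mem_divisors ht, Nat.divisor_le ht⟩
    · intro _ _ _
      positivity
  exact h2.trans (Pool.Agent.Helper112.harm_le a ha)

lemma cst_abs (E D a : ℕ) (ha : 1 ≤ a) :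
    |cst E D a| ≤ (1 / (Nat.totient D : ℝ)) * (1 + Real.log E) ^ 2 * (1 + Real.log a) := by
  unfold cst
  rw [abs_mul, abs_mul]
  have h1 : 0 ≤ ∑ e ∈ Icc 1 E, we D a e / e :=
    sum_nonneg fun e _ => div_nonneg (we_nonneg D a e) (Nat.cast_nonneg _)
  have h2 : ∑ e ∈ Icc 1 E, we D a e / e ≤ (1 + Real.log E) ^ 2 := by
    refine le_trans (sum_le_sum fun e he => ?_) (sum_inv_tot E)
    rw [mem_Icc] at he
    have he1 : (1:ℝ) ≤ e := by exact_mod_cast he.1
    exact (div_le_self (we_nonneg D a e) he1).trans (we_le D a e)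
  rw [abs_of_nonneg h1, abs_of_nonneg (show (0:ℝ) ≤ 1 / (Nat.totient D : ℝ) by positivity)]
  have h3 := rho_abs a ha
  gcongr

/-- **the density lemma** -/
theorem dens {d g a M E : ℕ} (hd : 1 ≤ d) (hg : 1 ≤ g) (ha : 1 ≤ a) (hga : g.Coprime a)
    (hM : M ≤ E) {y1 y2 : ℝ} (h0 : 0 < y1) (h12 : y1 ≤ y2) (hy : y2 ≤ M + 1) :
    |∑ m ∈ Icc 1 M, (if g ∣ m ∧ m.Coprime a ∧ y1 ≤ m ∧ (m : ℝ) < y2 then
        1 / (Nat.totient (d * m) : ℝ) else 0) - cst E (d * g) a * Real.log (y2 / y1)| ≤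
      (2 * g * ta a * (1 + Real.log E) ^ 2 / (Nat.totient (d * g) : ℝ)) / y1 := by
  have hg0 : (0:ℝ) < g := by exact_mod_cast hg
  have hy2 : 0 < y2 := by linarith
  have hD : 1 ≤ d * g := Nat.mul_pos hd hg
  set D := d * g with hDdef
  have hφD : (0 : ℝ) < Nat.totient D := by exact_mod_cast Nat.totient_pos.2 hD
  set M' := M / g with hM'
  set z1 := y1 / g with hz1
  set z2 := y2 / g with hz2
  have hz10 : 0 < z1 := by positivity
  have hz12 : z1 ≤ z2 := by
    rw [hz1, hz2]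
    gcongr
  have hz2M : z2 ≤ M' + 1 := floor_cond hg hy
  have eA : ∑ m ∈ Icc 1 M, (if g ∣ m ∧ m.Coprime a ∧ y1 ≤ m ∧ (m : ℝ) < y2 then
        1 / (Nat.totient (d * m) : ℝ) else 0) =
      ∑ k ∈ Icc 1 M', (if k.Coprime a ∧ z1 ≤ k ∧ (k : ℝ) < z2 then
        1 / (Nat.totient (D * k) : ℝ) else 0) := by
    have h1 : ∀ m ∈ Icc 1 M, (if g ∣ m ∧ m.Coprime a ∧ y1 ≤ m ∧ (m : ℝ) < y2 then
        1 / (Nat.totient (d * m) : ℝ) else 0) = (if g ∣ m then (if m.Coprime a ∧ y1 ≤ m ∧ (m : ℝ) < y2 then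
        1 / (Nat.totient (d * m) : ℝ) else 0) else 0) := by
      intro m _
      by_cases h1 : g ∣ m <;> simp [h1]
    rw [sum_congr rfl h1, sum_mult M g hg]
    apply sum_congr rfl
    intro k _
    have c1 : (y1 ≤ ((g * k : ℕ) : ℝ)) ↔ z1 ≤ k := by
      rw [hz1, div_le_iff₀ hg0]
      push_cast
      rw [mul_comm]
    have c2 : (((g * k : ℕ) : ℝ) < y2) ↔ (k : ℝ) < z2 := by
      rw [hz2, lt_div_iff₀ hg0]
      push_cast
      rw [mul_comm]
    have c3 : (g * k).Coprime a ↔ k.Coprime a := by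
      rw [Nat.coprime_mul_iff_left]
      tauto
    simp only [c1, c2, c3]
    rw [hDdef, mul_assoc]
  have eB : ∑ k ∈ Icc 1 M', (if k.Coprime a ∧ z1 ≤ k ∧ (k : ℝ) < z2 then
        1 / (Nat.totient (D * k) : ℝ) else 0) =
      ∑ k ∈ Icc 1 M', ∑ i ∈ k.divisorsAntidiagonal, (1 / (Nat.totient D : ℝ)) *
        (we D a i.1 / i.1 * (if i.2.Coprime a ∧ z1 / i.1 ≤ i.2 ∧ (i.2 : ℝ) < z2 / i.1 then
          1 / (i.2 : ℝ) else 0)) := by
    apply sum_congr rfl
    intro k hk
    rw [mem_Icc] at hk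
    have hk0 : (0:ℝ) < k := by exact_mod_cast hk.1
    have hφ : (0 : ℝ) < Nat.totient (D * k) := by
      exact_mod_cast Nat.totient_pos.2 (Nat.mul_pos hD hk.1)
    have h1 : ∀ i ∈ k.divisorsAntidiagonal, (1 / (Nat.totient D : ℝ)) *
        (we D a i.1 / i.1 * (if i.2.Coprime a ∧ z1 / i.1 ≤ i.2 ∧ (i.2 : ℝ) < z2 / i.1 then
          1 / (i.2 : ℝ) else 0)) =
        (if k.Coprime a ∧ z1 ≤ k ∧ (k : ℝ) < z2 then 1 / ((Nat.totient D : ℝ) * k) else 0) *
        (if Squarefree i.1 ∧ i.1.Coprime D then 1 / (Nat.totient i.1 : ℝ) else 0) := by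
      intro i hi
      rw [Nat.mem_divisorsAntidiagonal] at hi
      have hk1 : k ≠ 0 := by omega
      have hi1 : i.1 ≠ 0 := fun h => hi.2 (by rw [← hi.1, h, zero_mul])
      have hi2 : i.2 ≠ 0 := fun h => hi.2 (by rw [← hi.1, h, mul_zero])
      have hi10 : (0:ℝ) < i.1 := by
        have : 0 < i.1 := by omega
        exact_mod_cast this
      have hi20 : (0:ℝ) < i.2 := by
        have : 0 < i.2 := by omega
        exact_mod_cast this
      have hkr : (k : ℝ) = i.1 * i.2 := by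
        rw [← hi.1]
        push_cast
        ring
      have c1 : (z1 / i.1 ≤ i.2) ↔ z1 ≤ k := by
        rw [div_le_iff₀ hi10, hkr, mul_comm]
      have c2 : ((i.2 : ℝ) < z2 / i.1) ↔ (k : ℝ) < z2 := by
        rw [lt_div_iff₀ hi10, hkr, mul_comm]
      have c3 : k.Coprime a ↔ i.1.Coprime a ∧ i.2.Coprime a := by
        rw [← hi.1, Nat.coprime_mul_iff_left]
      unfold we
      simp only [c1, c2, c3]
      by_cases h1 : Squarefree i.1 ∧ i.1.Coprime D
      · by_cases h2 : i.1.Coprime a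
        · by_cases h3 : i.2.Coprime a ∧ z1 ≤ k ∧ (k:ℝ) < z2
          · rw [if_pos ⟨h1.1, h1.2, h2⟩, if_pos h3, if_pos ⟨⟨h2, h3.1⟩, h3.2⟩, if_pos h1, hkr]
            field_simp
          · rw [if_neg h3, if_neg (c := (i.1.Coprime a ∧ i.2.Coprime a) ∧ z1 ≤ k ∧ (k:ℝ) < z2)
              (by tauto)]
            simp
        · rw [if_neg (by tauto), if_neg (c := (i.1.Coprime a ∧ i.2.Coprime a) ∧ z1 ≤ k ∧ (k:ℝ) < z2)
            (by tauto)]
          simp
      · rw [if_neg (by tauto), if_neg h1]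
        simp
    rw [sum_congr rfl h1, ← mul_sum,
      Nat.sum_divisorsAntidiagonal (fun e _ => if Squarefree e ∧ e.Coprime D then
        1 / (Nat.totient e : ℝ) else 0), ← tot_id D k hD hk.1]
    split_ifs
    · field_simp
    · simp
  have eC : ∑ m ∈ Icc 1 M, (if g ∣ m ∧ m.Coprime a ∧ y1 ≤ m ∧ (m : ℝ) < y2 then
        1 / (Nat.totient (d * m) : ℝ) else 0) =
      (1 / (Nat.totient D : ℝ)) * ∑ e ∈ Icc 1 E, we D a e / e *
        ∑ l ∈ Icc 1 (M' / e), (if l.Coprime a ∧ z1 / e ≤ l ∧ (l : ℝ) < z2 / e then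
          1 / (l : ℝ) else 0) := by
    rw [eA, eB, hyperM M' (fun e l => (1 / (Nat.totient D : ℝ)) *
        (we D a e / e * (if l.Coprime a ∧ z1 / e ≤ l ∧ (l : ℝ) < z2 / e then
          1 / (l : ℝ) else 0)))]
    simp_rw [← mul_sum]
    congr 1
    apply sum_subset
    · apply Icc_subset_Icc_right
      rw [hM']
      exact (Nat.div_le_self _ _).trans hM
    · intro e he he'
      rw [mem_Icc] at he he'
      have : M' / e = 0 := Nat.div_eq_of_lt (by omega)
      rw [this]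
      simp
  rw [eC]
  unfold cst
  have e3 : (1 / (Nat.totient D : ℝ)) * ∑ e ∈ Icc 1 E, we D a e / e *
        ∑ l ∈ Icc 1 (M' / e), (if l.Coprime a ∧ z1 / e ≤ l ∧ (l : ℝ) < z2 / e then
          1 / (l : ℝ) else 0) -
      (1 / (Nat.totient D : ℝ)) * (∑ e ∈ Icc 1 E, we D a e / e) * rho a * Real.log (y2 / y1) =
      (1 / (Nat.totient D : ℝ)) * ∑ e ∈ Icc 1 E, we D a e / e *
        (∑ l ∈ Icc 1 (M' / e), (if l.Coprime a ∧ z1 / e ≤ l ∧ (l : ℝ) < z2 / e then
          1 / (l : ℝ) else 0) - rho a * Real.log (y2 / y1)) := by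
    simp_rw [mul_sub]
    rw [sum_sub_distrib, ← sum_mul]
    ring
  rw [e3, abs_mul, abs_of_pos (show (0:ℝ) < 1 / (Nat.totient D : ℝ) by positivity)]
  have h5 : |∑ e ∈ Icc 1 E, we D a e / e *
        (∑ l ∈ Icc 1 (M' / e), (if l.Coprime a ∧ z1 / e ≤ l ∧ (l : ℝ) < z2 / e then
          1 / (l : ℝ) else 0) - rho a * Real.log (y2 / y1))| ≤
      ∑ e ∈ Icc 1 E, (2 * ta a / z1) * (1 / (Nat.totient e : ℝ)) := by
    refine (abs_sum_le_sum_abs _ _).trans (sum_le_sum ?_)
    intro e he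
    rw [mem_Icc] at he
    have he0 : (0:ℝ) < e := by exact_mod_cast he.1
    have h6 := harm_cop (M := M' / e) ha (div_pos hz10 he0) (div_le_div_of_nonneg_right hz12 he0.le)
      (floor_cond he.1 hz2M)
    have e4 : z2 / e / (z1 / e) = y2 / y1 := by
      rw [hz1, hz2]
      field_simp
    rw [e4] at h6
    rw [abs_mul, abs_of_nonneg (div_nonneg (we_nonneg D a e) he0.le)]
    have h7 := we_le D a e
    have h8 := we_nonneg D a e
    have h9 := ta_nonneg a
    calc we D a e / e * _ ≤ (1 / (Nat.totient e : ℝ)) / e * (2 * ta a / (z1 / e)) := by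
          apply mul_le_mul _ h6 (abs_nonneg _) (by positivity)
          gcongr
      _ = _ := by field_simp
  calc (1 / (Nat.totient D : ℝ)) * _ ≤ (1 / (Nat.totient D : ℝ)) *
        ((2 * ta a / z1) * (1 + Real.log E) ^ 2) := by
        apply mul_le_mul_of_nonneg_left _ (by positivity)
        refine h5.trans ?_
        rw [← mul_sum]
        apply mul_le_mul_of_nonneg_left (sum_inv_tot E)
        exact div_nonneg (mul_nonneg (by norm_num) (ta_nonneg a)) hz10.le
    _ = _ := by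
        rw [hz1]
        field_simp

end Run7.h905.SM
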