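import Pool.Agent.Run7.h905.SM.Count5

/-!
The dyadic theorem.
-/

set_option autoImplicit false

open Finset

namespace Run7.h905.SM

open Pool.Agent.H398R2.BV (Prim card_prim_le prim_ne_one)
open Pool.Agent.H441R3.BV (kap PS MX le_MX MX_nonneg inv_tot_le sum_inv_tot)

/-- the quantity in question -/
noncomputable def EE (x H d j : ℕ) (a : ℤ) : ℝ :=
  ∑ q ∈ (Ioc (j * H) ((j + 1) * H)).filter (fun q => q.Coprime a.natAbs ∧ d.Coprime a.natAbs),
    (pc (d * q) a (Icc 1 x) - piN x / (Nat.totient (d * q) : ℝ))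

lemma EE_zero {x H d j : ℕ} {a : ℤ} (h : ¬ d.Coprime a.natAbs) : EE x H d j a = 0 := by
  unfold EE
  apply sum_eq_zero
  intro q hq
  rw [mem_filter] at hq
  exact absurd hq.2.2 h

/-- one block -/
theorem EE_one {x H d j M R : ℕ} {a : ℤ} {L s : ℝ} (h : LP x d j H M R a L s) (hdx : d ≤ x)
    (hne : (Icc 2 x).Nonempty) (hjx : 2 * (j * H) ≤ x) (hM : 2 * x < (M + 1) * (d * (j * H + 1))) :
    |EE x H d j a| ≤ (H + s ^ 2) +
      ∑ m ∈ (Icc 1 M).filter (fun m => m.Coprime a.natAbs), ‖HC (d * m) R a (blk x H j (d * m) a)‖ +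
      (M * (R ^ 2 * s) + (16 * L ^ 3 / (Nat.totient d * j)) *
        ∑ f ∈ Icc 2 R, ∑ ψ ∈ Prim f, MX (Icc 2 x) hne f ψ +
        56 * R ^ 3 * s ^ 2 * L ^ 3 * ((j + 1) * H) + 16 * x * s * L ^ 3 / (j * H)) := by
  have h1 := S_T h.hd h.ha h.haj hjx hM h.hT
  have h2 := h.low_total hdx hne
  set S := ∑ q ∈ (Ioc (j * H) ((j + 1) * H)).filter (fun q => q.Coprime a.natAbs), pc (d * q) a (Icc 1 x) with hS
  set T := ∑ m ∈ (Icc 1 M).filter (fun m => m.Coprime a.natAbs), pc (d * m) a (blk x H j (d * m) a) with hT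
  have e1 : EE x H d j a = S - piN x * MT H j d a := by
    unfold EE MT
    rw [hS, mul_sum, ← sum_sub_distrib]
    have : (Ioc (j * H) ((j + 1) * H)).filter (fun q => q.Coprime a.natAbs ∧ d.Coprime a.natAbs) =
        (Ioc (j * H) ((j + 1) * H)).filter (fun q => q.Coprime a.natAbs) := by
      ext q
      rw [mem_filter, mem_filter]
      have := h.hda
      tauto
    rw [this]
    apply sum_congr rfl
    intro q _
    ring
  have e2 : ((T : ℝ) : ℂ) = ∑ m ∈ (Icc 1 M).filter (fun m => m.Coprime a.natAbs), LC (d * m) R a (blk x H j (d * m) a) +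
      ∑ m ∈ (Icc 1 M).filter (fun m => m.Coprime a.natAbs), HC (d * m) R a (blk x H j (d * m) a) := by
    rw [hT, Complex.ofReal_sum, ← sum_add_distrib]
    apply sum_congr rfl
    intro m hm
    rw [mem_filter, mem_Icc] at hm
    apply pc_eq (Nat.mul_pos h.hd hm.1.1)
    rw [Int.isCoprime_iff_gcd_eq_one]
    have : Nat.Coprime (d * m) a.natAbs := Nat.Coprime.mul_left h.hda hm.2
    rw [Int.gcd, Int.natAbs_natCast, Nat.gcd_comm]
    exact this
  set L1 := ∑ m ∈ (Icc 1 M).filter (fun m => m.Coprime a.natAbs), LC (d * m) R a (blk x H j (d * m) a) with hL1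
  set H1 := ∑ m ∈ (Icc 1 M).filter (fun m => m.Coprime a.natAbs), HC (d * m) R a (blk x H j (d * m) a) with hH1
  have e3 : |T - piN x * MT H j d a| ≤ ‖H1‖ + ‖L1 - ((piN x * MT H j d a : ℝ) : ℂ)‖ := by
    rw [← Real.norm_eq_abs, ← Complex.norm_real]
    have : ((T - piN x * MT H j d a : ℝ) : ℂ) = H1 + (L1 - ((piN x * MT H j d a : ℝ) : ℂ)) := by
      rw [Complex.ofReal_sub, e2]
      ring
    rw [this]
    exact norm_add_le _ _
  have e4 : ‖H1‖ ≤ ∑ m ∈ (Icc 1 M).filter (fun m => m.Coprime a.natAbs),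
      ‖HC (d * m) R a (blk x H j (d * m) a)‖ := norm_sum_le _ _
  rw [e1]
  have e5 : S - piN x * MT H j d a = (S - T) + (T - piN x * MT H j d a) := by ring
  rw [e5]
  have e6 := abs_add_le (S - T) (T - piN x * MT H j d a)
  linarith

/-- **the dyadic theorem** -/
theorem dyadic_final {x D H J W i0 : ℕ} {a : ℕ → ℕ → ℤ} {s B V : ℝ}
    (hR : Rel (x : ℝ) (Real.log x) s (Real.sqrt x) J H W) (hD1 : 1 ≤ D)
    (hD : (D : ℝ) * J ^ 2 * H * s ^ 48 ≤ x) (hx2 : 2 ≤ x)
    (hT : ∀ n : ℕ, 1 ≤ n → n ≤ x → (n.divisors.card : ℝ) ≤ s)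
    (hB : ∀ n : ℕ, 1 ≤ n → ta n ≤ B * Real.sqrt n) (hB0 : 0 ≤ B)
    (hRs : 10 ^ 6 * ((2:ℝ) ^ i0) ^ 3 * Real.log x ^ 6 ≤ s)
    (ha : ∀ d ∈ Icc 1 D, ∀ j ∈ Ico J (2 * J), a d j ≠ 0 ∧ (a d j).natAbs ≤ j * H)
    (hne : (Icc 2 x).Nonempty)
    (hV : ∑ f ∈ Icc 2 (2 ^ i0), ∑ ψ ∈ Prim f, MX (Icc 2 x) hne f ψ ≤ V) :
    ∑ d ∈ Icc 1 D, ∑ j ∈ Ico J (2 * J), |EE x H d j (a d j)| ≤
      51840 * B * Real.log x ^ 9 * x / Real.sqrt (2 ^ i0) + 64 * Real.log x ^ 5 * V + 9 * (x / s) := by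
  have hs0 := hR.s0
  have hs1 := hR.s1
  have hL := hR.hL
  have hJ1 : 1 ≤ J := by exact_mod_cast hR.hJ
  have hJr : (1:ℝ) ≤ J := hR.hJ
  have hxr := hR.x0
  have hHs := hR.Hs
  have hDr : (1:ℝ) ≤ D := by exact_mod_cast hD1
  have hH1' : (1:ℝ) ≤ H := by
    refine le_trans ?_ hHs
    apply one_le_pow₀
    linarith
  have hH0 : (0:ℝ) < H := by linarith
  have hH1 : 1 ≤ H := by exact_mod_cast hH1'
  set R : ℕ := 2 ^ i0 with hRdef
  have hR1 : 1 ≤ R := Nat.one_le_two_pow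
  have hRr : (R : ℝ) = (2:ℝ) ^ i0 := by rw [hRdef]; push_cast; rfl
  have hR1r : (1:ℝ) ≤ R := by exact_mod_cast hR1
  have hR3 : (10:ℝ) ^ 6 * R ^ 3 * Real.log x ^ 6 ≤ s := by
    rw [hRr]
    exact hRs
  -- sizes
  have hJH : (J:ℝ) * H * s ≤ x := by
    refine le_trans ?_ hR.hJH
    have h1 : s ≤ s ^ 48 := le_self_pow₀ (by linarith) (by norm_num)
    calc (J:ℝ) * H * s ≤ J ^ 2 * H * s ^ 48 := by
          have : (J:ℝ) ≤ J ^ 2 := le_self_pow₀ hJr (by norm_num)
          gcongr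
      _ ≤ _ := le_rfl
  have h4JH : 4 * (J * H) ≤ x := by
    have : (4:ℝ) * (J * H) ≤ x := by
      refine le_trans ?_ hJH
      have h4 : (4:ℝ) ≤ s := by linarith
      have : (0:ℝ) ≤ J * H := by positivity
      nlinarith
    exact_mod_cast this
  have hDx : D ≤ x := by
    have : (D:ℝ) ≤ x := by
      refine le_trans ?_ hD
      have h1 : (1:ℝ) ≤ J ^ 2 := one_le_pow₀ hJr
      have h2 : (1:ℝ) ≤ s ^ 48 := one_le_pow₀ (by linarith)
      calc (D:ℝ) = D * 1 * 1 * 1 := by ring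
        _ ≤ D * J ^ 2 * H * s ^ 48 := by gcongr
    exact_mod_cast this
  have hDH : (D:ℝ) * s ^ 144 ≤ H := by
    have h1 : Real.sqrt x * s ^ 48 ≤ H := hR.hH
    have hsq : Real.sqrt x ^ 2 = x := hR.hx
    have hsq0 : (0:ℝ) < Real.sqrt x := lt_of_lt_of_le one_pos hR.hR
    have h2 : (D:ℝ) * s ^ 144 * H ≤ H * H := by
      have h3 : (D:ℝ) * H * s ^ 48 ≤ x := by
        refine le_trans ?_ hD
        have : (1:ℝ) ≤ J ^ 2 := one_le_pow₀ hJr
        calc (D:ℝ) * H * s ^ 48 = D * 1 * H * s ^ 48 := by ring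
          _ ≤ _ := by gcongr
      calc (D:ℝ) * s ^ 144 * H = (D * H * s ^ 48) * s ^ 96 := by ring
        _ ≤ x * s ^ 96 := by gcongr
        _ = (Real.sqrt x * s ^ 48) ^ 2 := by rw [mul_pow, hsq]; ring
        _ ≤ (H:ℝ) ^ 2 := by gcongr
        _ = H * H := by ring
    exact le_of_mul_le_mul_right h2 hH0
  -- the parameter N
  set N : ℕ := 2 * x / (J * H) with hNdef
  have hJH0 : 0 < J * H := Nat.mul_pos hJ1 hH1
  have hN1 : N * (J * H) ≤ 2 * x := Nat.div_mul_le_self _ _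
  have hN2 : 2 * x < (N + 1) * (J * H) := by
    have := Nat.lt_mul_div_succ (2 * x) hJH0
    rw [mul_comm (N + 1)]
    exact this
  have hN : (N : ℝ) * (J * H) ≤ 2 * x := by exact_mod_cast hN1
  have hNx : N ≤ x := by
    have h2 : 2 ≤ J * H := by
      have : (2:ℝ) ≤ J * H := by
        have h3 : (2:ℝ) ≤ H := by
          refine le_trans ?_ hHs
          have : s ^ 1 ≤ s ^ 144 := hR.spow (by norm_num)
          rw [pow_one] at this
          linarith
        nlinarith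
      exact_mod_cast this
    have h3 : N * 2 ≤ 2 * x := (Nat.mul_le_mul_left N h2).trans hN1
    omega
  have hMd : ∀ d, 1 ≤ d → N + 1 ≤ (N / d + 1) * d := by
    intro d hd
    have := Nat.lt_mul_div_succ N hd
    rw [mul_comm]
    omega
  have hhigh := high_total (D := D) (a := a) (N := N) (i0 := i0) hR hN hNx hT hB hB0 hRs
    (fun d hd j hj => (ha d hd j hj).2)
  rw [← hRdef] at hhigh
  set MXt := ∑ f ∈ Icc 2 R, ∑ ψ ∈ Prim f, MX (Icc 2 x) hne f ψ with hMXt
  have hMXt0 : 0 ≤ MXt := sum_nonneg fun f _ => sum_nonneg fun ψ _ => MX_nonneg _ _ _ _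
  -- one block
  set L := Real.log x with hLdef
  set cl : ℝ := N * (R ^ 2 * s) + 56 * R ^ 3 * s ^ 2 * L ^ 3 * (2 * J * H) +
    16 * x * s * L ^ 3 / (J * H) + (H + s ^ 2) with hcl
  have hcl0 : 0 ≤ cl := by positivity
  have hone : ∀ d ∈ Icc 1 D, ∀ j ∈ Ico J (2 * J), |EE x H d j (a d j)| ≤
      (if d.Coprime (a d j).natAbs then ∑ m ∈ (Icc 1 (N / d)).filter (fun m => m.Coprime (a d j).natAbs),
        ‖HC (d * m) R (a d j) (blk x H j (d * m) (a d j))‖ else 0) +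
      (16 * L ^ 3 * MXt) * (1 / (Nat.totient d : ℝ)) * (1 / J) + cl := by
    intro d hd j hj
    have hd1 := mem_Icc.1 hd
    have hj1 := mem_Ico.1 hj
    have hφ : (0:ℝ) < Nat.totient d := by exact_mod_cast Nat.totient_pos.2 hd1.1
    split_ifs with hc
    · have hjr : (J:ℝ) ≤ j := by exact_mod_cast hj1.1
      have hj0 : (0:ℝ) < j := by linarith
      have hd0 : (0:ℝ) < d := by exact_mod_cast hd1.1
      have hjH : (j + 1) * H ≤ x := by
        refine le_trans ?_ h4JH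
        calc (j + 1) * H ≤ (2 * J) * H := Nat.mul_le_mul_right _ (by omega)
          _ ≤ 4 * (J * H) := by
              have : 2 * J * H = 2 * (J * H) := by ring
              omega
      have hjx : 2 * (j * H) ≤ x := by
        refine le_trans ?_ h4JH
        calc 2 * (j * H) ≤ 2 * (2 * J * H) := Nat.mul_le_mul_left _ (Nat.mul_le_mul_right _ (by omega))
          _ = 4 * (J * H) := by ring
      have hMM : 2 * x < (N / d + 1) * (d * (j * H)) := by
        calc 2 * x < (N + 1) * (J * H) := hN2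
          _ ≤ ((N / d + 1) * d) * (j * H) :=
              Nat.mul_le_mul (hMd d hd1.1) (Nat.mul_le_mul_right _ hj1.1)
          _ = _ := by ring
      have hlp : LP x d j H (N / d) R (a d j) L s := by
        refine ⟨hd1.1, by omega, hH1, hR1, (ha d hd j hj).1, hc, hx2, hjH, (ha d hd j hj).2,
          (Nat.mul_div_le N d).trans hNx, hL, by linarith, ?_, hT, ?_⟩
        · have : Real.log ((2 * x : ℕ) : ℝ) = Real.log 2 + L := by
            push_cast
            rw [Real.log_mul (by norm_num) hxr.ne']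
          rw [this]
          have := Real.log_two_lt_d9
          linarith
        · rw [div_le_iff₀ (by positivity)]
          have : ((2 * x : ℕ) : ℝ) ≤ (((N / d + 1) * (d * (j * H)) : ℕ) : ℝ) := by exact_mod_cast hMM.le
          push_cast at this ⊢
          linarith
      have hM' : 2 * x < (N / d + 1) * (d * (j * H + 1)) := by
        refine lt_of_lt_of_le hMM ?_
        apply Nat.mul_le_mul_left
        apply Nat.mul_le_mul_left
        omega
      refine (EE_one hlp (hd1.2.trans hDx) hne hjx hM').trans ?_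
      rw [← hMXt]
      have t1 : ((N / d : ℕ) : ℝ) * (R ^ 2 * s) ≤ N * (R ^ 2 * s) := by
        have : ((N / d : ℕ) : ℝ) ≤ N := by exact_mod_cast Nat.div_le_self N d
        gcongr
      have t2 : (16 * L ^ 3 / (Nat.totient d * j)) * MXt ≤
          (16 * L ^ 3 * MXt) * (1 / (Nat.totient d : ℝ)) * (1 / J) := by
        calc (16 * L ^ 3 / (Nat.totient d * j)) * MXt ≤ (16 * L ^ 3 / (Nat.totient d * J)) * MXt := by
              gcongr
          _ = _ := by field_simp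
      have t3 : 56 * (R:ℝ) ^ 3 * s ^ 2 * L ^ 3 * ((j + 1) * H) ≤
          56 * (R:ℝ) ^ 3 * s ^ 2 * L ^ 3 * (2 * J * H) := by
        have : (j:ℝ) + 1 ≤ 2 * J := by exact_mod_cast hj1.2
        gcongr
      have t4 : 16 * (x:ℝ) * s * L ^ 3 / (j * H) ≤ 16 * x * s * L ^ 3 / (J * H) := by
        gcongr
      rw [hcl]
      linarith
    · rw [EE_zero hc, abs_zero]
      positivity
  -- sum
  refine (sum_le_sum fun d hd => sum_le_sum fun j hj => hone d hd j hj).trans ?_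
  have hsum : ∑ d ∈ Icc 1 D, ∑ j ∈ Ico J (2 * J),
      ((if d.Coprime (a d j).natAbs then ∑ m ∈ (Icc 1 (N / d)).filter (fun m => m.Coprime (a d j).natAbs),
        ‖HC (d * m) R (a d j) (blk x H j (d * m) (a d j))‖ else 0) +
      (16 * L ^ 3 * MXt) * (1 / (Nat.totient d : ℝ)) * (1 / J) + cl) =
      ∑ d ∈ Icc 1 D, ∑ j ∈ (Ico J (2 * J)).filter (fun j => d.Coprime (a d j).natAbs),
      ∑ m ∈ (Icc 1 (N / d)).filter (fun m => m.Coprime (a d j).natAbs),
        ‖HC (d * m) R (a d j) (blk x H j (d * m) (a d j))‖ +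
      (16 * L ^ 3 * MXt) * (∑ d ∈ Icc 1 D, 1 / (Nat.totient d : ℝ)) + D * (J * cl) := by
    have h1 : ∀ d ∈ Icc 1 D, ∑ j ∈ Ico J (2 * J),
      ((if d.Coprime (a d j).natAbs then ∑ m ∈ (Icc 1 (N / d)).filter (fun m => m.Coprime (a d j).natAbs),
        ‖HC (d * m) R (a d j) (blk x H j (d * m) (a d j))‖ else 0) +
      (16 * L ^ 3 * MXt) * (1 / (Nat.totient d : ℝ)) * (1 / J) + cl) =
      ∑ j ∈ (Ico J (2 * J)).filter (fun j => d.Coprime (a d j).natAbs),
      ∑ m ∈ (Icc 1 (N / d)).filter (fun m => m.Coprime (a d j).natAbs),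
        ‖HC (d * m) R (a d j) (blk x H j (d * m) (a d j))‖ +
      (16 * L ^ 3 * MXt) * (1 / (Nat.totient d : ℝ)) + J * cl := by
      intro d _
      rw [sum_add_distrib, sum_add_distrib, sum_const, sum_const, Nat.card_Ico, ← sum_filter]
      have e1 : ((2 * J - J : ℕ)) = J := by omega
      rw [e1, nsmul_eq_mul, nsmul_eq_mul]
      have : (J:ℝ) ≠ 0 := by positivity
      field_simp
    rw [sum_congr rfl h1, sum_add_distrib, sum_add_distrib, ← mul_sum, sum_const, Nat.card_Icc,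
      nsmul_eq_mul, Nat.add_sub_cancel]
  rw [hsum]
  have hφs : ∑ d ∈ Icc 1 D, 1 / (Nat.totient d : ℝ) ≤ (2 * L) ^ 2 := by
    refine (sum_inv_tot D).trans ?_
    have h1 : Real.log D ≤ L := by
      apply Real.log_le_log (by linarith)
      exact_mod_cast hDx
    have h2 : 0 ≤ Real.log D := Real.log_nonneg hDr
    have : 1 + Real.log D ≤ 2 * L := by linarith
    gcongr
  have p1 : (16 * L ^ 3 * MXt) * (∑ d ∈ Icc 1 D, 1 / (Nat.totient d : ℝ)) ≤ 64 * L ^ 5 * V := by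
    calc (16 * L ^ 3 * MXt) * (∑ d ∈ Icc 1 D, 1 / (Nat.totient d : ℝ)) ≤
        (16 * L ^ 3 * V) * (2 * L) ^ 2 := by
          have hV0 : 0 ≤ V := hMXt0.trans hV
          gcongr
      _ = _ := by ring
  -- the small terms
  have hRs2 : 10 ^ 6 * (R:ℝ) ^ 3 * L ^ 3 ≤ s := by
    refine le_trans ?_ hR3
    have : L ^ 3 ≤ L ^ 6 := pow_le_pow_right₀ hL (by norm_num)
    gcongr
  have hRs3 : 10 ^ 6 * (R:ℝ) ^ 2 ≤ s := by
    refine le_trans ?_ hRs2
    have h1 : (1:ℝ) ≤ L ^ 3 := one_le_pow₀ hL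
    have h2 : (R:ℝ) ^ 2 ≤ R ^ 3 := pow_le_pow_right₀ hR1r (by norm_num)
    calc 10 ^ 6 * (R:ℝ) ^ 2 = 10 ^ 6 * (R:ℝ) ^ 2 * 1 := by ring
      _ ≤ 10 ^ 6 * (R:ℝ) ^ 3 * L ^ 3 := by gcongr
  have p2 : (D:ℝ) * (J * (N * (R ^ 2 * s))) ≤ x / s := by
    have h1 : (J:ℝ) * N ≤ 2 * x / H := by
      rw [le_div_iff₀ hH0]
      linarith
    have h2 : (D:ℝ) ≤ H / s ^ 144 := by
      rw [le_div_iff₀ (by positivity)]
      exact hDH
    calc (D:ℝ) * (J * (N * (R ^ 2 * s))) = D * (J * N) * (R ^ 2 * s) := by ring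
      _ ≤ (H / s ^ 144) * (2 * x / H) * (R ^ 2 * s) := by gcongr
      _ = (2 * R ^ 2) * (x / s ^ 143) := by field_simp
      _ ≤ s * (x / s ^ 143) := by
          have : 2 * (R:ℝ) ^ 2 ≤ s := by nlinarith [sq_nonneg (R:ℝ)]
          gcongr
      _ = x / s ^ 142 := by field_simp
      _ ≤ x / s := by
          have h3 : s ^ 1 ≤ s ^ 142 := hR.spow (by norm_num)
          rw [pow_one] at h3
          gcongr
  have p3 : (D:ℝ) * (J * (56 * R ^ 3 * s ^ 2 * L ^ 3 * (2 * J * H))) ≤ x / s := by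
    rw [le_div_iff₀ hs0]
    calc (D:ℝ) * (J * (56 * R ^ 3 * s ^ 2 * L ^ 3 * (2 * J * H))) * s =
        (112 * R ^ 3 * L ^ 3) * (D * J ^ 2 * H * s ^ 3) := by ring
      _ ≤ s * (D * J ^ 2 * H * s ^ 3) := by
          have : 112 * (R:ℝ) ^ 3 * L ^ 3 ≤ s := by
            have h1 : (0:ℝ) ≤ (R:ℝ) ^ 3 * L ^ 3 := by positivity
            nlinarith
          gcongr
      _ = D * J ^ 2 * H * s ^ 4 := by ring
      _ ≤ D * J ^ 2 * H * s ^ 48 := by
          have := hR.spow (show 4 ≤ 48 by norm_num)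
          gcongr
      _ ≤ x := hD
  have p4 : (D:ℝ) * (J * (16 * x * s * L ^ 3 / (J * H))) ≤ x / s := by
    have h2 : (D:ℝ) ≤ H / s ^ 144 := by
      rw [le_div_iff₀ (by positivity)]
      exact hDH
    have hJ0 : (0:ℝ) < J := by linarith
    calc (D:ℝ) * (J * (16 * x * s * L ^ 3 / (J * H))) = D * (16 * x * s * L ^ 3 / H) := by
          field_simp
      _ ≤ (H / s ^ 144) * (16 * x * s * L ^ 3 / H) := by gcongr
      _ = (16 * L ^ 3) * (x / s ^ 143) := by field_simp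
      _ ≤ s * (x / s ^ 143) := by
          have h3 := hR.Lpow 16 3 (by norm_num) (by norm_num) (by norm_num)
          gcongr
      _ = x / s ^ 142 := by field_simp
      _ ≤ x / s := by
          have h3 : s ^ 1 ≤ s ^ 142 := hR.spow (by norm_num)
          rw [pow_one] at h3
          gcongr
  have p5 : (D:ℝ) * (J * (H + s ^ 2)) ≤ 2 * (x / s) := by
    have h1 : s ^ 2 ≤ H := by
      refine le_trans ?_ hHs
      exact hR.spow (by norm_num)
    have h2 : (D:ℝ) * (J * H) ≤ x / s := by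
      rw [le_div_iff₀ hs0]
      refine le_trans ?_ hD
      have h3 : s ≤ s ^ 48 := le_self_pow₀ (by linarith) (by norm_num)
      calc (D:ℝ) * (J * H) * s = D * J * H * s := by ring
        _ ≤ D * J ^ 2 * H * s ^ 48 := by
          have : (J:ℝ) ≤ J ^ 2 := le_self_pow₀ hJr (by norm_num)
          gcongr
    calc (D:ℝ) * (J * (H + s ^ 2)) ≤ D * (J * (H + H)) := by gcongr
      _ = 2 * (D * (J * H)) := by ring
      _ ≤ _ := by linarith
  have p6 : (D:ℝ) * (J * cl) = D * (J * (N * (R ^ 2 * s))) +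
      D * (J * (56 * R ^ 3 * s ^ 2 * L ^ 3 * (2 * J * H))) +
      D * (J * (16 * x * s * L ^ 3 / (J * H))) + D * (J * (H + s ^ 2)) := by
    rw [hcl]
    ring
  rw [p6]
  linarith

end Run7.h905.SM
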