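import Pool.Agent.Run7.h905.SM.Fin1

/-!
The choice of the parameters and the sum over the dyadic ranges.
-/

set_option autoImplicit false

open Finset

namespace Run7.h905.SM

open Pool.Agent.H398R2.BV (Prim card_prim_le prim_ne_one ev_log)
open Pool.Agent.H441R3.BV (kap PS MX le_MX MX_nonneg inv_tot_le sum_inv_tot small_total)

/-- a dyadic block of blocks, for large `x` -/
theorem dyadic_large (ε : ℝ) (hε : 0 < ε) (A : ℕ) : ∃ C : ℝ, 0 < C ∧ ∃ x0 : ℕ, ∀ x : ℕ, x0 ≤ x →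
    1 ≤ Real.log x ∧ ∀ D H J : ℕ, 1 ≤ D → 1 ≤ J →
    (x : ℝ) ^ (1 / 2 + ε) ≤ H → (D : ℝ) * J ^ 2 * H * (x : ℝ) ^ ε ≤ x →
    ∀ a : ℕ → ℕ → ℤ, (∀ d ∈ Icc 1 D, ∀ j ∈ Ico J (2 * J), a d j ≠ 0 ∧ (a d j).natAbs ≤ j * H) →
    ∑ d ∈ Icc 1 D, ∑ j ∈ Ico J (2 * J), |EE x H d j (a d j)| ≤ C * (x / Real.log x ^ (A + 1)) := by
  set b : ℕ := 2 * (A + 10) with hb
  obtain ⟨x1, hx1⟩ := small_total (b + A + 6) b
  obtain ⟨C1, hC1, hdiv1⟩ := Pool.Agent.Helper112.divisor_bound (1 / 2) (by norm_num)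
  obtain ⟨C2, hC2, hdiv2⟩ := Pool.Agent.Helper112.divisor_bound (ε / 96) (by positivity)
  have ev1 : ∀ᶠ X : ℝ in Filter.atTop, (10 ^ 6 : ℝ) * Real.log X ^ (3 * b + 6) ≤ X ^ (ε / 48) := by
    have := ev_log (10 ^ 6) (3 * b + 6) (ε / 48) (by positivity)
    filter_upwards [this] with X hX
    linarith
  have ev2 : ∀ᶠ X : ℝ in Filter.atTop, (9 : ℝ) * Real.log X ^ (A + 1) ≤ X ^ (ε / 48) := by
    have := ev_log 9 (A + 1) (ε / 48) (by positivity)
    filter_upwards [this] with X hX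
    linarith
  have ev3 : ∀ᶠ X : ℝ in Filter.atTop, (1 : ℝ) ≤ Real.log X :=
    Real.tendsto_log_atTop.eventually (Filter.eventually_ge_atTop 1)
  have ev4 : ∀ᶠ X : ℝ in Filter.atTop, C2 ≤ X ^ (ε / 96) :=
    (tendsto_rpow_atTop (by positivity)).eventually (Filter.eventually_ge_atTop C2)
  obtain ⟨Y, hY⟩ := Filter.eventually_atTop.mp (ev1.and (ev2.and (ev3.and ev4)))
  refine ⟨103680 * C1 + 65, by positivity, max x1 (max ⌈Y⌉₊ 2), fun x hx => ?_⟩
  have hx1' : x1 ≤ x := (le_max_left _ _).trans hx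
  have hxY : Y ≤ x := (Nat.le_ceil Y).trans (by exact_mod_cast ((le_max_left _ _).trans (le_max_right _ _)).trans hx)
  have hx2 : 2 ≤ x := ((le_max_right _ _).trans (le_max_right _ _)).trans hx
  have hxr : (0:ℝ) < x := by
    have : 0 < x := by omega
    exact_mod_cast this
  have hxr1 : (1:ℝ) ≤ x := by
    have : 1 ≤ x := by omega
    exact_mod_cast this
  obtain ⟨g1, g2, g3, g4⟩ := hY x hxY
  refine ⟨g3, ?_⟩
  intro D H J hD1 hJ1 hH hD a ha
  set L := Real.log x with hL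
  have hL0 : 0 < L := by linarith
  set s : ℝ := (x:ℝ) ^ (ε / 48) with hs
  have hs0 : 0 < s := by positivity
  have hs48 : s ^ 48 = (x:ℝ) ^ ε := by
    rw [hs, ← Real.rpow_natCast, ← Real.rpow_mul hxr.le]
    congr 1
    push_cast
    ring
  set W : ℕ := ⌈s ^ 12⌉₊ with hW
  have hs1 : 1 ≤ s := by
    rw [hs]
    exact Real.one_le_rpow hxr1 (by positivity)
  have hs12 : (1:ℝ) ≤ s ^ 12 := one_le_pow₀ hs1
  -- the parameter `i0`
  have hLb : 1 ≤ L ^ b := one_le_pow₀ g3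
  set F : ℕ := ⌊L ^ b⌋₊ with hF
  have hF1 : 1 ≤ F := Nat.le_floor (by exact_mod_cast hLb)
  have hFle : (F:ℝ) ≤ L ^ b := Nat.floor_le (by positivity)
  have hFlt : L ^ b < F + 1 := Nat.lt_floor_add_one _
  set i0 := Nat.log 2 F with hi0
  have hi1 : 2 ^ i0 ≤ F := Nat.pow_log_le_self 2 (by omega)
  have hi2 : F < 2 ^ (i0 + 1) := Nat.lt_pow_succ_log_self (by norm_num) F
  have hi1' : ((2:ℝ) ^ i0) ≤ L ^ b := by
    have : ((2 ^ i0 : ℕ) : ℝ) ≤ F := by exact_mod_cast hi1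
    push_cast at this
    linarith
  have hi2' : L ^ b ≤ 2 * (2:ℝ) ^ i0 := by
    have h1 : F + 1 ≤ 2 ^ (i0 + 1) := hi2
    have h2 : ((F + 1 : ℕ) : ℝ) ≤ ((2 ^ (i0 + 1) : ℕ) : ℝ) := by exact_mod_cast h1
    push_cast at h2
    rw [pow_succ] at h2
    linarith
  have hRs : 10 ^ 6 * ((2:ℝ) ^ i0) ^ 3 * L ^ 6 ≤ s := by
    refine le_trans ?_ g1
    calc 10 ^ 6 * ((2:ℝ) ^ i0) ^ 3 * L ^ 6 ≤ 10 ^ 6 * (L ^ b) ^ 3 * L ^ 6 := by gcongr
      _ = _ := by
          rw [← pow_mul, mul_assoc, ← pow_add]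
          congr 2
          ring
  have hH' : Real.sqrt x * s ^ 48 ≤ H := by
    rw [hs48, Real.sqrt_eq_rpow, ← Real.rpow_add hxr]
    exact hH
  have hJr : (1:ℝ) ≤ J := by exact_mod_cast hJ1
  have hDr : (1:ℝ) ≤ D := by exact_mod_cast hD1
  have hH0 : (0:ℝ) < H := by
    refine lt_of_lt_of_le ?_ hH'
    have : 0 < Real.sqrt x := Real.sqrt_pos.2 hxr
    positivity
  rw [← hs48] at hD
  have hrel : Rel (x:ℝ) L s (Real.sqrt x) J H W := by
    refine ⟨Real.sq_sqrt hxr.le, ?_, g3, ?_, Nat.le_ceil _, ?_, hH', hJr, ?_⟩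
    · exact Real.one_le_sqrt.2 hxr1
    · refine le_trans ?_ hRs
      have h1 : (1:ℝ) ≤ ((2:ℝ) ^ i0) ^ 3 := one_le_pow₀ (one_le_pow₀ (by norm_num))
      calc (10:ℝ) ^ 5 * L ^ 6 = 10 ^ 5 * 1 * L ^ 6 := by ring
        _ ≤ 10 ^ 6 * ((2:ℝ) ^ i0) ^ 3 * L ^ 6 := by
            gcongr <;> norm_num
    · have := Nat.ceil_lt_add_one (show (0:ℝ) ≤ s ^ 12 by positivity)
      rw [← hW] at this
      linarith
    · refine le_trans ?_ hD
      calc (J:ℝ) ^ 2 * H * s ^ 48 = 1 * (J:ℝ) ^ 2 * H * s ^ 48 := by ring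
        _ ≤ D * J ^ 2 * H * s ^ 48 := by gcongr
  have hT : ∀ n : ℕ, 1 ≤ n → n ≤ x → (n.divisors.card : ℝ) ≤ s := by
    intro n hn hnx
    refine (hdiv2 n hn).trans ?_
    have h1 : (n:ℝ) ^ (ε / 96) ≤ (x:ℝ) ^ (ε / 96) := by
      apply Real.rpow_le_rpow (Nat.cast_nonneg _) (by exact_mod_cast hnx) (by positivity)
    calc C2 * (n:ℝ) ^ (ε / 96) ≤ (x:ℝ) ^ (ε / 96) * (x:ℝ) ^ (ε / 96) := by gcongr
      _ = s := by
          rw [← Real.rpow_add hxr, hs]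
          congr 1
          ring
  have hB : ∀ n : ℕ, 1 ≤ n → ta n ≤ C1 * Real.sqrt n := by
    intro n hn
    rw [Real.sqrt_eq_rpow]
    exact hdiv1 n hn
  have hne : (Icc 2 x).Nonempty := ⟨2, mem_Icc.2 ⟨le_rfl, hx2⟩⟩
  -- small conductors
  have hV : ∑ f ∈ Icc 2 (2 ^ i0), ∑ ψ ∈ Prim f, MX (Icc 2 x) hne f ψ ≤ x / L ^ (A + 6) := by
    have h1 := hx1 x hx1' (2 ^ i0) (by push_cast; exact hi1') (Icc 2 x) hne
      (fun N hN => mem_Icc.1 hN)
    calc ∑ f ∈ Icc 2 (2 ^ i0), ∑ ψ ∈ Prim f, MX (Icc 2 x) hne f ψ ≤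
        ∑ f ∈ Icc 2 (2 ^ i0), L ^ b * ((1 / (Nat.totient f : ℝ)) * ∑ ψ ∈ Prim f, MX (Icc 2 x) hne f ψ) := by
          apply sum_le_sum
          intro f hf
          rw [mem_Icc] at hf
          have hφ : (0:ℝ) < Nat.totient f := by exact_mod_cast Nat.totient_pos.2 (by omega)
          have h2 : (Nat.totient f : ℝ) ≤ L ^ b := by
            refine le_trans ?_ hi1'
            exact_mod_cast (Nat.totient_le f).trans hf.2
          have h3 : 0 ≤ ∑ ψ ∈ Prim f, MX (Icc 2 x) hne f ψ := sum_nonneg fun ψ _ => MX_nonneg _ _ _ _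
          calc ∑ ψ ∈ Prim f, MX (Icc 2 x) hne f ψ =
              Nat.totient f * ((1 / (Nat.totient f : ℝ)) * ∑ ψ ∈ Prim f, MX (Icc 2 x) hne f ψ) := by
                field_simp
            _ ≤ _ := by gcongr
      _ = L ^ b * ∑ f ∈ Icc 2 (2 ^ i0), ((1 / (Nat.totient f : ℝ)) * ∑ ψ ∈ Prim f, MX (Icc 2 x) hne f ψ) := by
          rw [mul_sum]
      _ ≤ L ^ b * (x / L ^ (b + A + 6)) := by gcongr
      _ = x / L ^ (A + 6) := by
          rw [add_assoc, pow_add]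
          field_simp
  have hmain := dyadic_final (i0 := i0) (a := a) hrel hD1 hD hx2 hT hB hC1.le hRs ha hne hV
  refine hmain.trans ?_
  -- final bounds
  have hsq : L ^ (A + 10) ≤ 2 * Real.sqrt (2 ^ i0) := by
    have h1 : (L ^ (A + 10)) ^ 2 ≤ (2 * Real.sqrt (2 ^ i0)) ^ 2 := by
      rw [mul_pow, Real.sq_sqrt (by positivity), ← pow_mul, mul_comm (A + 10) 2, ← hb]
      linarith
    exact (pow_le_pow_iff_left₀ (by positivity) (by positivity) (by norm_num)).1 h1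
  have hsq0 : 0 < Real.sqrt ((2:ℝ) ^ i0) := Real.sqrt_pos.2 (by positivity)
  have t1 : 51840 * C1 * L ^ 9 * x / Real.sqrt (2 ^ i0) ≤ 103680 * C1 * (x / L ^ (A + 1)) := by
    rw [div_le_iff₀ hsq0]
    calc 51840 * C1 * L ^ 9 * x = 51840 * C1 * (x / L ^ (A + 1)) * (L ^ (A + 10)) := by
          have : L ^ (A + 10) = L ^ (A + 1) * L ^ 9 := by rw [← pow_add]
          rw [this]
          field_simp
      _ ≤ 51840 * C1 * (x / L ^ (A + 1)) * (2 * Real.sqrt (2 ^ i0)) := by gcongr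
      _ = _ := by ring
  have t2 : 64 * L ^ 5 * (x / L ^ (A + 6)) = 64 * (x / L ^ (A + 1)) := by
    have : L ^ (A + 6) = L ^ (A + 1) * L ^ 5 := by rw [← pow_add]
    rw [this]
    field_simp
  have t3 : 9 * (x / s) ≤ x / L ^ (A + 1) := by
    rw [mul_div_assoc', div_le_div_iff₀ hs0 (by positivity)]
    calc 9 * (x:ℝ) * L ^ (A + 1) = x * (9 * L ^ (A + 1)) := by ring
      _ ≤ x * s := by gcongr
  have t4 : 0 ≤ x / L ^ (A + 1) := by positivity
  rw [t2]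
  linarith

/-- all blocks -/
theorem all_large (ε : ℝ) (hε : 0 < ε) (A : ℕ) : ∃ x0 : ℕ, ∀ x : ℕ, x0 ≤ x →
    ∀ D H J : ℕ, (x : ℝ) ^ (1 / 2 + ε) ≤ H → (D : ℝ) * J ^ 2 * H * (x : ℝ) ^ ε ≤ x →
    ∀ a : ℕ → ℕ → ℤ, (∀ d ∈ Icc 1 D, ∀ j ∈ Ico 1 J, a d j ≠ 0 ∧ (a d j).natAbs ≤ j * H) →
    ∑ d ∈ Icc 1 D, ∑ j ∈ Ico 1 J, |EE x H d j (a d j)| ≤ x / Real.log x ^ A := by
  obtain ⟨C, hC, x0, h0⟩ := dyadic_large ε hε (A + 1)
  have ev1 : ∀ᶠ X : ℝ in Filter.atTop, 4 * C ≤ Real.log X :=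
    Real.tendsto_log_atTop.eventually (Filter.eventually_ge_atTop _)
  obtain ⟨Y, hY⟩ := Filter.eventually_atTop.mp ev1
  refine ⟨max x0 (max ⌈Y⌉₊ 2), fun x hx D H J hH hD a ha => ?_⟩
  have hx0 : x0 ≤ x := (le_max_left _ _).trans hx
  have hxY : Y ≤ x := (Nat.le_ceil Y).trans (by exact_mod_cast ((le_max_left _ _).trans (le_max_right _ _)).trans hx)
  have hx2 : 2 ≤ x := ((le_max_right _ _).trans (le_max_right _ _)).trans hx
  have hxr : (0:ℝ) < x := by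
    have : 0 < x := by omega
    exact_mod_cast this
  have hxr1 : (1:ℝ) ≤ x := by
    have : 1 ≤ x := by omega
    exact_mod_cast this
  obtain ⟨hL1, hdy⟩ := h0 x hx0
  have hLC := hY x hxY
  set L := Real.log x with hL
  have hL0 : 0 < L := by linarith
  have hrhs : 0 ≤ (x:ℝ) / L ^ A := by positivity
  rcases Nat.eq_zero_or_pos D with hD0 | hD1
  · rw [hD0]
    simpa using hrhs
  have hH1' : (1:ℝ) ≤ H := le_trans (Real.one_le_rpow hxr1 (by positivity)) hH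
  have hH1 : 1 ≤ H := by exact_mod_cast hH1'
  have hDr : (1:ℝ) ≤ D := by exact_mod_cast hD1
  have hxe : (1:ℝ) ≤ (x:ℝ) ^ ε := Real.one_le_rpow hxr1 hε.le
  have hJx : (J:ℝ) ^ 2 ≤ x := by
    refine le_trans ?_ hD
    calc (J:ℝ) ^ 2 = 1 * (J:ℝ) ^ 2 * 1 * 1 := by ring
      _ ≤ D * (J:ℝ) ^ 2 * H * (x:ℝ) ^ ε := by gcongr
  set a' : ℕ → ℕ → ℤ := fun d j => if j < J then a d j else 1 with ha'
  have hcov : ∀ d ∈ Icc 1 D, ∑ j ∈ Ico 1 J, |EE x H d j (a d j)| ≤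
      ∑ i ∈ (range (Nat.log 2 J + 1)).filter (fun i => 2 ^ i < J),
        ∑ j ∈ Ico (2 ^ i) (2 * 2 ^ i), |EE x H d j (a' d j)| := by
    intro d _
    have hmaps : ∀ j ∈ Ico 1 J, Nat.log 2 j ∈ (range (Nat.log 2 J + 1)).filter (fun i => 2 ^ i < J) := by
      intro j hj
      rw [mem_Ico] at hj
      rw [mem_filter, mem_range]
      have h1 : 2 ^ Nat.log 2 j ≤ j := Nat.pow_log_le_self 2 (by omega)
      exact ⟨Nat.lt_succ_of_le (Nat.log_mono_right (by omega)), by omega⟩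
    rw [← sum_fiberwise_of_maps_to hmaps]
    apply sum_le_sum
    intro i _
    have h1 : ∀ j ∈ (Ico 1 J).filter (fun j => Nat.log 2 j = i), |EE x H d j (a d j)| =
        |EE x H d j (a' d j)| := by
      intro j hj
      rw [mem_filter, mem_Ico] at hj
      simp only [ha']
      rw [if_pos hj.1.2]
    rw [sum_congr rfl h1]
    apply sum_le_sum_of_subset_of_nonneg
    · intro j hj
      rw [mem_filter, mem_Ico] at hj
      rw [mem_Ico]
      have h1 : 2 ^ Nat.log 2 j ≤ j := Nat.pow_log_le_self 2 (by omega)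
      have h2 : j < 2 ^ (Nat.log 2 j + 1) := Nat.lt_pow_succ_log_self (by norm_num) j
      rw [hj.2] at h1 h2
      rw [pow_succ] at h2
      exact ⟨h1, by omega⟩
    · intro _ _ _
      exact abs_nonneg _
  refine (sum_le_sum hcov).trans ?_
  rw [sum_comm]
  have hone : ∀ i ∈ (range (Nat.log 2 J + 1)).filter (fun i => 2 ^ i < J),
      ∑ d ∈ Icc 1 D, ∑ j ∈ Ico (2 ^ i) (2 * 2 ^ i), |EE x H d j (a' d j)| ≤
        C * (x / L ^ (A + 1 + 1)) := by
    intro i hi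
    rw [mem_filter] at hi
    have hiJ : ((2 ^ i : ℕ) : ℝ) ≤ J := by exact_mod_cast hi.2.le
    apply hdy D H (2 ^ i) hD1 Nat.one_le_two_pow hH
    · refine le_trans ?_ hD
      gcongr
    · intro d hd j hj
      rw [mem_Ico] at hj
      have hj1 : 1 ≤ j := Nat.one_le_two_pow.trans hj.1
      simp only [ha']
      split_ifs with h
      · exact ha d hd j (mem_Ico.2 ⟨hj1, h⟩)
      · refine ⟨by norm_num, ?_⟩
        exact Nat.mul_pos hj1 hH1
  refine (sum_le_sum hone).trans ?_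
  rw [sum_const, nsmul_eq_mul]
  have hcard : (((range (Nat.log 2 J + 1)).filter (fun i => 2 ^ i < J)).card : ℝ) ≤ 4 * L := by
    have h1 : ((range (Nat.log 2 J + 1)).filter (fun i => 2 ^ i < J)).card ≤ Nat.log 2 J + 1 := by
      refine (card_filter_le _ _).trans ?_
      rw [card_range]
    have h2 : (Nat.log 2 J : ℝ) ≤ 2 * L := by
      rcases Nat.eq_zero_or_pos J with hJ | hJ
      · rw [hJ]
        simp only [Nat.log_zero_right, Nat.cast_zero]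
        linarith
      · have h3 : 2 ^ Nat.log 2 J ≤ J := Nat.pow_log_le_self 2 (by omega)
        have h4 : ((2:ℝ) ^ Nat.log 2 J) ≤ J := by exact_mod_cast h3
        have hJ1 : (1:ℝ) ≤ J := by exact_mod_cast hJ
        have h5 : (2:ℝ) ^ Nat.log 2 J ≤ x := by
          refine h4.trans (le_trans ?_ hJx)
          exact le_self_pow₀ hJ1 (by norm_num)
        have h6 : Real.log ((2:ℝ) ^ Nat.log 2 J) ≤ Real.log x := Real.log_le_log (by positivity) h5
        rw [Real.log_pow] at h6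
        have h7 := Real.log_two_gt_d9
        have h8 : (0:ℝ) ≤ (Nat.log 2 J : ℝ) := Nat.cast_nonneg _
        nlinarith
    have h3 : (((range (Nat.log 2 J + 1)).filter (fun i => 2 ^ i < J)).card : ℝ) ≤ (Nat.log 2 J : ℝ) + 1 := by
      exact_mod_cast h1
    linarith
  calc (((range (Nat.log 2 J + 1)).filter (fun i => 2 ^ i < J)).card : ℝ) * (C * (x / L ^ (A + 1 + 1))) ≤
      (4 * L) * (C * (x / L ^ (A + 1 + 1))) := by gcongr
    _ = (4 * C) * (x / L ^ (A + 1)) := by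
        rw [pow_succ L (A + 1)]
        field_simp
    _ ≤ L * (x / L ^ (A + 1)) := by gcongr
    _ = x / L ^ A := by
        rw [pow_succ]
        field_simp

end Run7.h905.SM
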