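import Pool.Agent.Run7.h905.SM.Chars
import Pool.Agent.H441R3.BV.Dy

/-!
The average over the moduli of the contribution of the characters of large conductor.
-/

set_option autoImplicit false

open Finset

namespace Run7.h905.SM

open Pool.Agent.H398R2.BV (Prim card_prim_le prim_ne_one)
open Pool.Agent.H441R3.BV (kap GS inv_tot_le)

/-- the divisor function -/
noncomputable def ta (n : ℕ) : ℝ := (n.divisors.card : ℝ)

lemma ta_nonneg (n : ℕ) : 0 ≤ ta n := Nat.cast_nonneg _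

lemma ta_mul (a b : ℕ) : ta (a * b) ≤ ta a * ta b := by
  unfold ta
  exact_mod_cast card_divisors_mul_le a b

lemma om_le_ta (n : ℕ) : (n.primeFactors.card : ℝ) ≤ ta n := by
  unfold ta
  have : n.primeFactors ⊆ n.divisors := by
    intro p hp
    rw [Nat.mem_primeFactors] at hp
    exact Nat.mem_divisors.2 ⟨hp.2.1, hp.2.2⟩
  exact_mod_cast card_le_card this

lemma tphi_sum (y : ℕ) : ∑ k ∈ Icc 1 y, ta k / (Nat.totient k : ℝ) ≤ (1 + Real.log y) ^ 4 := by
  refine le_trans (sum_le_sum fun k hk => ?_) (tau_sq_sum y)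
  rw [mem_Icc] at hk
  have h1 := inv_tot_le k hk.1
  have h2 := ta_nonneg k
  calc ta k / (Nat.totient k : ℝ) = ta k * (1 / (Nat.totient k : ℝ)) := by ring
    _ ≤ ta k * ((k.divisors.card : ℝ) / k) := by gcongr
    _ = _ := by unfold ta; ring

theorem swapT (N R : ℕ) (G : ℕ → ℝ) (hG : ∀ f, 0 ≤ G f) :
    ∑ n ∈ Icc 1 N, (ta n / (Nat.totient n : ℝ)) * ∑ f ∈ n.divisors.filter (fun f => R < f), G f ≤
      (1 + Real.log N) ^ 4 * ∑ f ∈ (Icc 1 N).filter (fun f => R < f), (ta f / (Nat.totient f : ℝ)) * G f := by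
  have e1 : ∀ n ∈ Icc 1 N, (ta n / (Nat.totient n : ℝ)) * ∑ f ∈ n.divisors.filter (fun f => R < f), G f =
      ∑ p ∈ n.divisorsAntidiagonal, (if R < p.1 then ta (p.1 * p.2) / (Nat.totient (p.1 * p.2) : ℝ) * G p.1 else 0) := by
    intro n _
    rw [Nat.sum_divisorsAntidiagonal (fun a b => if R < a then ta (a * b) / (Nat.totient (a * b) : ℝ) * G a else 0),
      mul_sum, sum_filter]
    apply sum_congr rfl
    intro f hf
    rw [Nat.mem_divisors] at hf
    rw [Nat.mul_div_cancel' hf.1]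
  rw [sum_congr rfl e1, hyperM N (fun a b => if R < a then ta (a * b) / (Nat.totient (a * b) : ℝ) * G a else 0),
    mul_sum, sum_filter]
  apply sum_le_sum
  intro f hf
  rw [mem_Icc] at hf
  split_ifs with h
  · have hφf : (0:ℝ) < Nat.totient f := by exact_mod_cast Nat.totient_pos.mpr (by omega)
    have h1 : ∀ k ∈ Icc 1 (N / f), ta (f * k) / (Nat.totient (f * k) : ℝ) * G f ≤
        (ta f / (Nat.totient f : ℝ) * G f) * (ta k / (Nat.totient k : ℝ)) := by
      intro k hk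
      rw [mem_Icc] at hk
      have hφk : (0:ℝ) < Nat.totient k := by exact_mod_cast Nat.totient_pos.mpr (by omega)
      have h2 : (Nat.totient f : ℝ) * Nat.totient k ≤ Nat.totient (f * k) := by
        exact_mod_cast Nat.totient_super_multiplicative f k
      have h3 := ta_mul f k
      have h4 := hG f
      have h5 := ta_nonneg f
      have h6 := ta_nonneg k
      calc ta (f * k) / (Nat.totient (f * k) : ℝ) * G f ≤
          (ta f * ta k) / ((Nat.totient f : ℝ) * Nat.totient k) * G f := by gcongr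
        _ = _ := by field_simp
    refine (sum_le_sum h1).trans ?_
    rw [← mul_sum, mul_comm]
    have h3 : 0 ≤ ta f / (Nat.totient f : ℝ) * G f :=
      mul_nonneg (div_nonneg (ta_nonneg f) hφf.le) (hG f)
    apply mul_le_mul_of_nonneg_right _ h3
    refine (tphi_sum _).trans ?_
    have h4 : 1 ≤ N / f := (Nat.one_le_div_iff (by omega)).2 hf.2
    have h5 : Real.log ((N / f : ℕ) : ℝ) ≤ Real.log N := by
      apply Real.log_le_log
      · exact_mod_cast h4
      · exact_mod_cast Nat.div_le_self N f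
    have h6 : 0 ≤ Real.log ((N / f : ℕ) : ℝ) := Real.log_natCast_nonneg _
    gcongr
  · simp

lemma dyad (N i0 : ℕ) (g : ℕ → ℝ) (hg : ∀ f, 0 ≤ g f) :
    ∑ f ∈ (Icc 1 N).filter (fun f => 2 ^ i0 < f), g f ≤
      ∑ i ∈ (Ico i0 (Nat.log 2 N + 1)).filter (fun i => 2 ^ i < N), ∑ f ∈ Ioc (2 ^ i) (2 * 2 ^ i), g f := by
  have hlog : ∀ f, 2 ≤ f → 2 ^ Nat.log 2 (f - 1) < f ∧ f ≤ 2 * 2 ^ Nat.log 2 (f - 1) := by
    intro f hf
    have a1 := Nat.pow_log_le_self 2 (by omega : f - 1 ≠ 0)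
    have a2 := Nat.lt_pow_succ_log_self (b := 2) (by norm_num) (f - 1)
    rw [pow_succ] at a2
    omega
  have hmaps : ∀ f ∈ (Icc 1 N).filter (fun f => 2 ^ i0 < f),
      Nat.log 2 (f - 1) ∈ (Ico i0 (Nat.log 2 N + 1)).filter (fun i => 2 ^ i < N) := by
    intro f hf
    rw [mem_filter, mem_Icc] at hf
    have hp : 1 ≤ 2 ^ i0 := Nat.one_le_two_pow
    have h1 := hlog f (by omega)
    rw [mem_filter, mem_Ico]
    refine ⟨⟨?_, ?_⟩, by omega⟩
    · by_contra hcon
      push Not at hcon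
      have h2 : 2 ^ (Nat.log 2 (f - 1) + 1) ≤ 2 ^ i0 := Nat.pow_le_pow_right (by norm_num) (by omega)
      rw [pow_succ] at h2
      omega
    · apply Nat.lt_succ_of_le
      exact Nat.log_mono_right (by omega)
  rw [← sum_fiberwise_of_maps_to hmaps]
  apply sum_le_sum
  intro i _
  apply sum_le_sum_of_subset_of_nonneg
  · intro f hf
    rw [mem_filter, mem_filter, mem_Icc] at hf
    have hp : 1 ≤ 2 ^ i0 := Nat.one_le_two_pow
    have h1 := hlog f (by omega)
    rw [hf.2] at h1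
    rw [mem_Ioc]
    exact h1
  · intro f _ _
    exact hg f

/-- the contribution of the large conductors -/
theorem high_av {x J H W N i0 : ℕ} {s B : ℝ}
    (hR : Rel (x : ℝ) (Real.log x) s (Real.sqrt x) J H W)
    (hN : (N : ℝ) * (J * H) ≤ 2 * x)
    (hT : ∀ n : ℕ, 1 ≤ n → n ≤ x → (n.divisors.card : ℝ) ≤ s)
    (hB : ∀ n : ℕ, 1 ≤ n → ta n ≤ B * Real.sqrt n) (hB0 : 0 ≤ B) :
    ∑ n ∈ Icc 1 N, (ta n / (Nat.totient n : ℝ)) * ∑ χ ∈ hi n (2 ^ i0),
      ∑ k ∈ range (kap (J * W) x), ‖CS pr (J * W) k n χ‖ ≤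
    (1 + Real.log N) ^ 4 * ((Nat.log 2 N + 1) *
      (360 * B * Real.log x ^ 4 * x / Real.sqrt (2 ^ i0) + x / s ^ 2)) + N * s ^ 2 := by
  have hs0 := hR.s0
  have hJ := hR.hJ
  have hxr := hR.x0
  have hR0 : (0:ℝ) < Real.sqrt x := lt_of_lt_of_le one_pos hR.hR
  have hNx : N ≤ x := by
    have h1 := hR.hH
    have h2 : (1:ℝ) ≤ s ^ 48 := one_le_pow₀ (by have := hR.s1; linarith)
    have h2' : (2:ℝ) ≤ s ^ 48 := by
      have h3 := hR.s1
      have h4 : s ^ 1 ≤ s ^ 48 := hR.spow (by norm_num)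
      rw [pow_one] at h4
      linarith
    have h3 : (1:ℝ) ≤ Real.sqrt x := hR.hR
    have h4 : (2:ℝ) ≤ H := by nlinarith
    have h5 : (2:ℝ) ≤ J * H := by nlinarith
    have : (N:ℝ) * 2 ≤ 2 * x := by
      refine le_trans ?_ hN
      gcongr
    have : (N:ℝ) ≤ x := by linarith
    exact_mod_cast this
  have hL := hR.hL
  have hlogN : 0 ≤ Real.log N := Real.log_natCast_nonneg N
  set I := kap (J * W) x with hI
  have h1 : ∀ n ∈ Icc 1 N, (ta n / (Nat.totient n : ℝ)) * ∑ χ ∈ hi n (2 ^ i0),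
      ∑ k ∈ range I, ‖CS pr (J * W) k n χ‖ ≤
      (ta n / (Nat.totient n : ℝ)) * ∑ f ∈ n.divisors.filter (fun f => 2 ^ i0 < f), GP I (J * W) f + s ^ 2 := by
    intro n hn
    rw [mem_Icc] at hn
    have hφ : (0:ℝ) < Nat.totient n := by exact_mod_cast Nat.totient_pos.mpr (by omega)
    have h2 := hi_sum I (J * W) n (2 ^ i0) hn.1
    have h3 := ta_nonneg n
    calc (ta n / (Nat.totient n : ℝ)) * ∑ χ ∈ hi n (2 ^ i0), ∑ k ∈ range I, ‖CS pr (J * W) k n χ‖
        ≤ (ta n / (Nat.totient n : ℝ)) * (∑ f ∈ n.divisors.filter (fun f => 2 ^ i0 < f), GP I (J * W) f +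
          Nat.totient n * n.primeFactors.card) := by gcongr
      _ = (ta n / (Nat.totient n : ℝ)) * ∑ f ∈ n.divisors.filter (fun f => 2 ^ i0 < f), GP I (J * W) f +
          ta n * n.primeFactors.card := by field_simp
      _ ≤ _ := by
          have h4 : ta n ≤ s := hT n hn.1 (hn.2.trans hNx)
          have h5 := om_le_ta n
          have : ta n * n.primeFactors.card ≤ s * s := by
            apply mul_le_mul h4 (h5.trans h4) (Nat.cast_nonneg _) hs0.le
          rw [sq]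
          linarith
  refine (sum_le_sum h1).trans ?_
  rw [sum_add_distrib, sum_const, Nat.card_Icc, nsmul_eq_mul, Nat.add_sub_cancel]
  gcongr
  refine (swapT N (2 ^ i0) (GP I (J * W)) (GP_nonneg I (J * W))).trans ?_
  gcongr
  have hg : ∀ f, 0 ≤ ta f / (Nat.totient f : ℝ) * GP I (J * W) f := fun f =>
    mul_nonneg (div_nonneg (ta_nonneg f) (Nat.cast_nonneg _)) (GP_nonneg I (J * W) f)
  refine (dyad N i0 _ hg).trans ?_
  have h2 : ∀ i ∈ (Ico i0 (Nat.log 2 N + 1)).filter (fun i => 2 ^ i < N),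
      ∑ f ∈ Ioc (2 ^ i) (2 * 2 ^ i), ta f / (Nat.totient f : ℝ) * GP I (J * W) f ≤
      360 * B * Real.log x ^ 4 * x / Real.sqrt (2 ^ i0) + x / s ^ 2 := by
    intro i hi
    rw [mem_filter, mem_Ico] at hi
    have hF0 : 0 < 2 ^ i := by positivity
    have hFJ : ((2 ^ i : ℕ) : ℝ) * (J * H) ≤ 2 * x := by
      refine le_trans ?_ hN
      have : ((2 ^ i : ℕ) : ℝ) ≤ N := by exact_mod_cast hi.2.le
      gcongr
    have hav := pr_par hR hF0 hFJ hT
    have hFr : (0:ℝ) < ((2 ^ i : ℕ) : ℝ) := by exact_mod_cast hF0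
    have hav0 : 0 ≤ Av (2 ^ i) (fun f ψ => ∑ k ∈ range (kap (J * W) x), ‖CS pr (J * W) k f ψ‖) :=
      Av_nonneg fun f ψ => sum_nonneg fun _ _ => norm_nonneg _
    -- the divisor function
    set A := Av (2 ^ i) (fun f ψ => ∑ k ∈ range (kap (J * W) x), ‖CS pr (J * W) k f ψ‖) with hA
    have hbd : ∀ t : ℝ, 0 ≤ t → (∀ f ∈ Ioc (2 ^ i) (2 * 2 ^ i), ta f ≤ t) →
        ∑ f ∈ Ioc (2 ^ i) (2 * 2 ^ i), ta f / (Nat.totient f : ℝ) * GP I (J * W) f ≤ t * A := by
      intro t ht0 ht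
      rw [hA]
      unfold Av
      rw [mul_sum]
      apply sum_le_sum
      intro f hf
      have h3 := ht f hf
      have h4 := GP_nonneg I (J * W) f
      calc ta f / (Nat.totient f : ℝ) * GP I (J * W) f ≤ t / (Nat.totient f : ℝ) * GP I (J * W) f := by
            gcongr
        _ = t * (1 / (Nat.totient f : ℝ) * GP I (J * W) f) := by ring
        _ = _ := by
            unfold GP
            rw [hI]
    have hsF : (0:ℝ) < Real.sqrt ((2 ^ i : ℕ) : ℝ) := Real.sqrt_pos.2 hFr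
    have hss : Real.sqrt ((2 ^ i : ℕ) : ℝ) * Real.sqrt ((2 ^ i : ℕ) : ℝ) = ((2 ^ i : ℕ) : ℝ) :=
      Real.mul_self_sqrt hFr.le
    -- two bounds for the divisor function
    have t1 : ∀ f ∈ Ioc (2 ^ i) (2 * 2 ^ i), ta f ≤ 2 * B * Real.sqrt ((2 ^ i : ℕ) : ℝ) := by
      intro f hf
      rw [mem_Ioc] at hf
      refine (hB f (by omega)).trans ?_
      have h3 : Real.sqrt f ≤ 2 * Real.sqrt ((2 ^ i : ℕ) : ℝ) := by
        rw [Real.sqrt_le_left (by positivity), mul_pow, sq (Real.sqrt _), hss]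
        have : (f:ℝ) ≤ 2 * ((2 ^ i : ℕ) : ℝ) := by exact_mod_cast hf.2
        linarith
      calc B * Real.sqrt f ≤ B * (2 * Real.sqrt ((2 ^ i : ℕ) : ℝ)) := by gcongr
        _ = _ := by ring
    -- combine
    have t2 : ∀ f ∈ Ioc (2 ^ i) (2 * 2 ^ i), ta f ≤ s := by
      intro f hf
      rw [mem_Ioc] at hf
      apply hT f (by omega)
      -- f ≤ 2 * 2 ^ i ≤ 2 N ≤ x
      have h4 : (2:ℝ) * N ≤ x := by
        have h1 := hR.hH
        have h3 : (1:ℝ) ≤ Real.sqrt x := hR.hR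
        have h2' : (4:ℝ) ≤ s ^ 48 := by
          have h3 := hR.s1
          have h4 : s ^ 1 ≤ s ^ 48 := hR.spow (by norm_num)
          rw [pow_one] at h4
          linarith
        have h4 : (4:ℝ) ≤ H := by nlinarith
        have h5 : (4:ℝ) ≤ J * H := by nlinarith
        have : (N:ℝ) * 4 ≤ 2 * x := by
          refine le_trans ?_ hN
          gcongr
        linarith
      have h5 : 2 * N ≤ x := by exact_mod_cast h4
      omega
    have hp0 : (0:ℝ) < 2 ^ i0 := by positivity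
    have hcmp : Real.sqrt (2 ^ i0) ≤ Real.sqrt ((2 ^ i : ℕ) : ℝ) := by
      apply Real.sqrt_le_sqrt
      push_cast
      exact pow_le_pow_right₀ (by norm_num) hi.1.1
    have hsp0 : 0 < Real.sqrt ((2:ℝ) ^ i0) := Real.sqrt_pos.2 hp0
    have hmin : ∑ f ∈ Ioc (2 ^ i) (2 * 2 ^ i), ta f / (Nat.totient f : ℝ) * GP I (J * W) f ≤
        min (2 * B * Real.sqrt ((2 ^ i : ℕ) : ℝ)) s * A := by
      rcases le_total (2 * B * Real.sqrt ((2 ^ i : ℕ) : ℝ)) s with h | h
      · rw [min_eq_left h]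
        exact hbd _ (by positivity) t1
      · rw [min_eq_right h]
        exact hbd _ hs0.le t2
    refine hmin.trans ?_
    set m := min (2 * B * Real.sqrt ((2 ^ i : ℕ) : ℝ)) s with hm
    have hm0 : 0 ≤ m := le_min (by positivity) hs0.le
    have hm1 : m ≤ 2 * B * Real.sqrt ((2 ^ i : ℕ) : ℝ) := min_le_left _ _
    have hm2 : m ≤ s := min_le_right _ _
    calc m * A ≤ m * (180 * Real.log x ^ 4 * x / ((2 ^ i : ℕ) : ℝ) + x / s ^ 3) := by gcongr
      _ = m * (180 * Real.log x ^ 4 * x / ((2 ^ i : ℕ) : ℝ)) + m * (x / s ^ 3) := by ring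
      _ ≤ (2 * B * Real.sqrt ((2 ^ i : ℕ) : ℝ)) * (180 * Real.log x ^ 4 * x / ((2 ^ i : ℕ) : ℝ)) +
          s * (x / s ^ 3) := by gcongr
      _ = 360 * B * Real.log x ^ 4 * x / Real.sqrt ((2 ^ i : ℕ) : ℝ) + x / s ^ 2 := by
          have e1 : (2 * B * Real.sqrt ((2 ^ i : ℕ) : ℝ)) * (180 * Real.log x ^ 4 * x / ((2 ^ i : ℕ) : ℝ)) =
              360 * B * Real.log x ^ 4 * x / Real.sqrt ((2 ^ i : ℕ) : ℝ) := by
            rw [eq_div_iff hsF.ne', mul_assoc, mul_comm (180 * Real.log x ^ 4 * x / _) _]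
            rw [show 2 * B * Real.sqrt ((2 ^ i : ℕ) : ℝ) * (Real.sqrt ((2 ^ i : ℕ) : ℝ) *
              (180 * Real.log x ^ 4 * x / ((2 ^ i : ℕ) : ℝ))) =
              2 * B * (Real.sqrt ((2 ^ i : ℕ) : ℝ) * Real.sqrt ((2 ^ i : ℕ) : ℝ)) *
              (180 * Real.log x ^ 4 * x / ((2 ^ i : ℕ) : ℝ)) by ring, hss]
            field_simp
            ring
          have e2 : s * (x / s ^ 3) = x / s ^ 2 := by
            field_simp
          rw [e1, e2]
      _ ≤ 360 * B * Real.log x ^ 4 * x / Real.sqrt (2 ^ i0) + x / s ^ 2 := by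
          gcongr
  refine (sum_le_sum h2).trans ?_
  rw [sum_const, nsmul_eq_mul]
  have h3 : (((Ico i0 (Nat.log 2 N + 1)).filter (fun i => 2 ^ i < N)).card : ℝ) ≤ (Nat.log 2 N : ℝ) + 1 := by
    have : ((Ico i0 (Nat.log 2 N + 1)).filter (fun i => 2 ^ i < N)).card ≤ Nat.log 2 N + 1 := by
      refine (card_filter_le _ _).trans ?_
      rw [Nat.card_Ico]
      omega
    exact_mod_cast this
  have h4 : 0 ≤ 360 * B * Real.log x ^ 4 * x / Real.sqrt (2 ^ i0) + x / s ^ 2 := by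
    have : 0 ≤ Real.log x := by linarith
    positivity
  gcongr

end Run7.h905.SM
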