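import Pool.Agent.H441R3.BV.LSa

/-!
The multiplicative large sieve for sequences supported in a short interval, and mean square bounds.
-/

set_option autoImplicit false

open Finset

namespace Run7.h905.SM

open Pool.Agent.H398R2.BV (Prim card_prim_le)
open Pool.Agent.Helper112
open Pool.Agent.H441R3.BV (cs_char count_char)

/-- the multiplicative large sieve for the interval `(n0, n0 + N]` -/
theorem mls_shift (n0 N F : ℕ) (α : ℕ → ℂ) :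
    ∑ f ∈ Icc 1 F, ((f : ℝ) / (Nat.totient f : ℝ)) * ∑ ψ ∈ Prim f,
      ‖∑ n ∈ Ioc n0 (n0 + N), α n * ψ (n : ZMod f)‖ ^ 2 ≤
    6 * (N + (F : ℝ) ^ 2) * ∑ n ∈ Ioc n0 (n0 + N), ‖α n‖ ^ 2 := by
  classical
  set β : ℕ → ℂ := fun n => if n0 < n then α n else 0 with hβ
  have hsum : ∀ (M : Type) [AddCommMonoid M] (g : ℕ → M),
      ∑ n ∈ Icc 1 (n0 + N), (if n0 < n then g n else 0) = ∑ n ∈ Ioc n0 (n0 + N), g n := by
    intro M _ g
    rw [← sum_filter]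
    apply sum_congr _ fun _ _ => rfl
    ext n
    simp only [mem_filter, mem_Icc, mem_Ioc]
    omega
  have hre : ∀ (M : Type) [AddCommMonoid M] (g : ℕ → M),
      ∑ n ∈ Ioc n0 (n0 + N), g n = ∑ n ∈ Icc 1 N, g (n0 + n) := by
    intro M _ g
    symm
    apply sum_bij (fun n _ => n0 + n)
    · intro n hn
      rw [mem_Icc] at hn
      rw [mem_Ioc]
      omega
    · intro a _ b _ h
      omega
    · intro b hb
      rw [mem_Ioc] at hb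
      exact ⟨b - n0, by rw [mem_Icc]; omega, by omega⟩
    · intro n _
      rfl
  have hls := additive_large_sieve N F (fun n => α (n0 + n))
  rw [hre ℝ (fun n => ‖α n‖ ^ 2)]
  refine le_trans (sum_le_sum ?_) hls
  intro f hf
  rw [mem_Icc] at hf
  have : NeZero f := ⟨by omega⟩
  have h1 := MLS.prim_bound f (n0 + N) β
  rw [MLS.sum_units] at h1
  have h2 : ∀ ψ : DirichletCharacter ℂ f, ∑ n ∈ Icc 1 (n0 + N), β n * ψ (n : ZMod f) =
      ∑ n ∈ Ioc n0 (n0 + N), α n * ψ (n : ZMod f) := by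
    intro ψ
    rw [← hsum ℂ (fun n => α n * ψ (n : ZMod f))]
    apply sum_congr rfl
    intro n _
    simp only [hβ]
    split_ifs <;> simp
  have h3 : ∀ a : ℕ, ‖∑ n ∈ Icc 1 (n0 + N), β n * ee (n * a / f)‖ =
      ‖∑ n ∈ Icc 1 N, α (n0 + n) * ee (n * a / f)‖ := by
    intro a
    have e1 : ∑ n ∈ Icc 1 (n0 + N), β n * ee (n * a / f) =
        ∑ n ∈ Ioc n0 (n0 + N), α n * ee (n * a / f) := by
      rw [← hsum ℂ (fun n => α n * ee (n * a / f))]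
      apply sum_congr rfl
      intro n _
      simp only [hβ]
      split_ifs <;> simp
    rw [e1, hre ℂ (fun n => α n * ee (n * a / f))]
    have e2 : ∑ n ∈ Icc 1 N, α (n0 + n) * ee (((n0 + n : ℕ) : ℝ) * a / f) =
        ee (n0 * a / f) * ∑ n ∈ Icc 1 N, α (n0 + n) * ee (n * a / f) := by
      rw [mul_sum]
      apply sum_congr rfl
      intro n _
      have : (((n0 + n : ℕ) : ℝ) * a / f) = n0 * a / f + n * a / f := by
        push_cast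
        ring
      rw [this, ls_ee_add]
      ring
    rw [e2, norm_mul, ls_norm_ee, one_mul]
  simp_rw [h2, h3] at h1
  exact h1

/-- the same for subsets of an interval, real coefficients -/
theorem mls_set (n0 N F : ℕ) (S : Finset ℕ) (hS : S ⊆ Ioc n0 (n0 + N)) (α : ℕ → ℝ) :
    ∑ f ∈ Icc 1 F, ((f : ℝ) / (Nat.totient f : ℝ)) * ∑ ψ ∈ Prim f,
      ‖∑ n ∈ S, ((α n : ℝ) : ℂ) * ψ (n : ZMod f)‖ ^ 2 ≤
    6 * (N + (F : ℝ) ^ 2) * ∑ n ∈ S, α n ^ 2 := by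
  classical
  have h := mls_shift n0 N F (fun n => if n ∈ S then ((α n : ℝ) : ℂ) else 0)
  have h1 : ∑ n ∈ Ioc n0 (n0 + N), ‖(if n ∈ S then ((α n : ℝ) : ℂ) else 0)‖ ^ 2 =
      ∑ n ∈ S, α n ^ 2 := by
    have : ∀ n, ‖(if n ∈ S then ((α n : ℝ) : ℂ) else 0)‖ ^ 2 = if n ∈ S then α n ^ 2 else 0 := by
      intro n
      split_ifs
      · rw [Complex.norm_real, Real.norm_eq_abs, sq_abs]
      · simp
    simp_rw [this]
    rw [← sum_filter, filter_mem_eq_inter, inter_eq_right.2 hS]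
  have h2 : ∀ (f : ℕ) (ψ : DirichletCharacter ℂ f),
      ∑ n ∈ Ioc n0 (n0 + N), (if n ∈ S then ((α n : ℝ) : ℂ) else 0) * ψ (n : ZMod f) =
      ∑ n ∈ S, ((α n : ℝ) : ℂ) * ψ (n : ZMod f) := by
    intro f ψ
    simp_rw [ite_mul, zero_mul]
    rw [← sum_filter, filter_mem_eq_inter, inter_eq_right.2 hS]
  rw [h1] at h
  simp_rw [h2] at h
  exact h

/-- the average over the primitive characters of conductor in `(F, 2 F]` -/
noncomputable def Av (F : ℕ) (E : (f : ℕ) → DirichletCharacter ℂ f → ℝ) : ℝ :=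
  ∑ f ∈ Ioc F (2 * F), (1 / (Nat.totient f : ℝ)) * ∑ ψ ∈ Prim f, E f ψ

lemma Av_mono {F : ℕ} {E G : (f : ℕ) → DirichletCharacter ℂ f → ℝ}
    (h : ∀ f ∈ Ioc F (2 * F), ∀ ψ ∈ Prim f, E f ψ ≤ G f ψ) : Av F E ≤ Av F G := by
  unfold Av
  apply sum_le_sum
  intro f hf
  apply mul_le_mul_of_nonneg_left _ (by positivity)
  exact sum_le_sum fun ψ hψ => h f hf ψ hψ

lemma Av_nonneg {F : ℕ} {E : (f : ℕ) → DirichletCharacter ℂ f → ℝ}
    (h : ∀ f ψ, 0 ≤ E f ψ) : 0 ≤ Av F E :=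
  sum_nonneg fun f _ => mul_nonneg (by positivity) (sum_nonneg fun ψ _ => h f ψ)

lemma Av_add (F : ℕ) (E G : (f : ℕ) → DirichletCharacter ℂ f → ℝ) :
    Av F (fun f ψ => E f ψ + G f ψ) = Av F E + Av F G := by
  unfold Av
  rw [← sum_add_distrib]
  apply sum_congr rfl
  intro f _
  rw [sum_add_distrib, mul_add]

lemma Av_sum {ι : Type*} (F : ℕ) (s : Finset ι) (E : ι → (f : ℕ) → DirichletCharacter ℂ f → ℝ) :
    Av F (fun f ψ => ∑ i ∈ s, E i f ψ) = ∑ i ∈ s, Av F (E i) := by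
  unfold Av
  rw [sum_comm]
  apply sum_congr rfl
  intro f _
  rw [sum_comm, mul_sum]

lemma Av_const (F : ℕ) (c : ℝ) (hc : 0 ≤ c) : Av F (fun _ _ => c) ≤ F * c := by
  unfold Av
  calc ∑ f ∈ Ioc F (2 * F), (1 / (Nat.totient f : ℝ)) * ∑ _ψ ∈ Prim f, c
      ≤ ∑ _f ∈ Ioc F (2 * F), c := by
        apply sum_le_sum
        intro f hf
        rw [mem_Ioc] at hf
        have h1 := card_prim_le (f := f) (by omega)
        have h2 : 0 < Nat.totient f := Nat.totient_pos.2 (by omega)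
        have h3 : (0:ℝ) < Nat.totient f := by exact_mod_cast h2
        rw [sum_const, nsmul_eq_mul]
        calc (1 / (Nat.totient f : ℝ)) * (((Prim f).card : ℝ) * c) ≤
            (1 / (Nat.totient f : ℝ)) * ((Nat.totient f : ℝ) * c) := by gcongr
          _ = c := by field_simp
    _ = F * c := by
        rw [sum_const, Nat.card_Ioc, nsmul_eq_mul]
        congr 2
        omega

/-- bilinear large sieve for one pair of intervals -/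
theorem pair_ls (F : ℕ) (hF : 0 < F) (n0 N m0 M : ℕ) (S T : Finset ℕ) (hS : S ⊆ Ioc n0 (n0 + N))
    (hT : T ⊆ Ioc m0 (m0 + M)) (α β : ℕ → ℝ) :
    Av F (fun f ψ => ‖∑ n ∈ S, ((α n : ℝ) : ℂ) * ψ (n : ZMod f)‖ *
      ‖∑ n ∈ T, ((β n : ℝ) : ℂ) * ψ (n : ZMod f)‖) ≤
    6 / F * (Real.sqrt ((N + 4 * (F : ℝ) ^ 2) * ∑ n ∈ S, α n ^ 2) *
      Real.sqrt ((M + 4 * (F : ℝ) ^ 2) * ∑ n ∈ T, β n ^ 2)) := by
  have h1 := mls_set n0 N (2 * F) S hS α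
  have h2 := mls_set m0 M (2 * F) T hT β
  have h3 := cs_char F hF (fun f ψ => ‖∑ n ∈ S, ((α n : ℝ) : ℂ) * ψ (n : ZMod f)‖ ^ 2)
    (fun f ψ => ‖∑ n ∈ T, ((β n : ℝ) : ℂ) * ψ (n : ZMod f)‖ ^ 2) (fun _ _ => by positivity)
    (fun _ _ => by positivity) _ _ h1 h2
  have e1 : Av F (fun f ψ => ‖∑ n ∈ S, ((α n : ℝ) : ℂ) * ψ (n : ZMod f)‖ *
      ‖∑ n ∈ T, ((β n : ℝ) : ℂ) * ψ (n : ZMod f)‖) =
      ∑ f ∈ Ioc F (2 * F), (1 / (Nat.totient f : ℝ)) * ∑ ψ ∈ Prim f,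
      Real.sqrt (‖∑ n ∈ S, ((α n : ℝ) : ℂ) * ψ (n : ZMod f)‖ ^ 2) *
      Real.sqrt (‖∑ n ∈ T, ((β n : ℝ) : ℂ) * ψ (n : ZMod f)‖ ^ 2) := by
    unfold Av
    apply sum_congr rfl
    intro f _
    congr 1
    apply sum_congr rfl
    intro ψ _
    rw [Real.sqrt_sq (norm_nonneg _), Real.sqrt_sq (norm_nonneg _)]
  rw [e1]
  refine h3.trans (le_of_eq ?_)
  have e2 : 6 * ((N : ℝ) + ((2 * F : ℕ) : ℝ) ^ 2) * (∑ n ∈ S, α n ^ 2) *
      (6 * ((M : ℝ) + ((2 * F : ℕ) : ℝ) ^ 2) * (∑ n ∈ T, β n ^ 2)) =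
      6 ^ 2 * (((N + 4 * (F : ℝ) ^ 2) * ∑ n ∈ S, α n ^ 2) *
        ((M + 4 * (F : ℝ) ^ 2) * ∑ n ∈ T, β n ^ 2)) := by
    push_cast
    ring
  have hS0 : 0 ≤ (N + 4 * (F : ℝ) ^ 2) * ∑ n ∈ S, α n ^ 2 :=
    mul_nonneg (by positivity) (sum_nonneg fun _ _ => sq_nonneg _)
  rw [e2, Real.sqrt_mul (by norm_num), Real.sqrt_sq (by norm_num), Real.sqrt_mul hS0]
  ring

/-- mean square bound for one interval -/
theorem ms_set (F : ℕ) (hF : 0 < F) (n0 N : ℕ) (S : Finset ℕ) (hS : S ⊆ Ioc n0 (n0 + N))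
    (α : ℕ → ℝ) :
    Av F (fun f ψ => ‖∑ n ∈ S, ((α n : ℝ) : ℂ) * ψ (n : ZMod f)‖) ≤
    5 * Real.sqrt ((N + 4 * (F : ℝ) ^ 2) * ∑ n ∈ S, α n ^ 2) := by
  have hF0 : (0:ℝ) < F := by exact_mod_cast hF
  have h1 := mls_set n0 N (2 * F) S hS α
  have h3 := cs_char F hF (fun f ψ => ‖∑ n ∈ S, ((α n : ℝ) : ℂ) * ψ (n : ZMod f)‖ ^ 2)
    (fun _ _ => 1) (fun _ _ => by positivity) (fun _ _ => zero_le_one) _ _ h1 (count_char F)
  have e1 : Av F (fun f ψ => ‖∑ n ∈ S, ((α n : ℝ) : ℂ) * ψ (n : ZMod f)‖) =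
      ∑ f ∈ Ioc F (2 * F), (1 / (Nat.totient f : ℝ)) * ∑ ψ ∈ Prim f,
      Real.sqrt (‖∑ n ∈ S, ((α n : ℝ) : ℂ) * ψ (n : ZMod f)‖ ^ 2) * Real.sqrt 1 := by
    unfold Av
    apply sum_congr rfl
    intro f _
    congr 1
    apply sum_congr rfl
    intro ψ _
    rw [Real.sqrt_sq (norm_nonneg _), Real.sqrt_one, mul_one]
  rw [e1]
  refine h3.trans ?_
  have hS0 : 0 ≤ (N + 4 * (F : ℝ) ^ 2) * ∑ n ∈ S, α n ^ 2 :=
    mul_nonneg (by positivity) (sum_nonneg fun _ _ => sq_nonneg _)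
  have e2 : 6 * ((N : ℝ) + ((2 * F : ℕ) : ℝ) ^ 2) * (∑ n ∈ S, α n ^ 2) * (4 * (F:ℝ) ^ 2) =
      (F:ℝ) ^ 2 * (24 * ((N + 4 * (F:ℝ) ^ 2) * ∑ n ∈ S, α n ^ 2)) := by
    push_cast
    ring
  rw [e2, Real.sqrt_mul (by positivity), Real.sqrt_sq hF0.le, ← mul_assoc,
    one_div_mul_cancel hF0.ne', one_mul, Real.sqrt_mul (by norm_num)]
  apply mul_le_mul_of_nonneg_right _ (Real.sqrt_nonneg _)
  rw [Real.sqrt_le_left (by norm_num)]
  norm_num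

end Run7.h905.SM
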