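import Pool.Agent.Run7.h905.SM.Prime

/-!
The average over the primitive characters of conductor in `(F, 2 F]` of the sum over the cells of the
character sums over the primes.
-/

set_option autoImplicit false

open Finset

namespace Run7.h905.SM

open Pool.Agent.H398R2.BV (Prim card_prim_le prim_ne_one)
open Pool.Agent.H441R3.BV (kap GS)
open Pool.Agent.Helper112
open Pool.Agent.Helper112.TI
open Pool.Agent.Helper112.TII (L2 L2_nonneg L2_le betaV_abs betaV_zero)

lemma card_antidiag (n : ℕ) : n.divisorsAntidiagonal.card = n.divisors.card := by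
  rw [← Nat.image_fst_divisorsAntidiagonal, card_image_of_injOn]
  intro p hp q hq hpq
  rw [mem_coe, Nat.mem_divisorsAntidiagonal] at hp hq
  have h4 : p.1 ≠ 0 := fun h => hp.2 (by rw [← hp.1, h, zero_mul])
  ext
  · exact hpq
  · have : p.1 * p.2 = p.1 * q.2 := by
      have hpq' : p.1 = q.1 := hpq
      rw [hp.1, hpq', hq.1]
    exact Nat.eq_of_mul_eq_mul_left (Nat.pos_of_ne_zero h4) this

lemma tau_sum (y : ℕ) : ∑ n ∈ Icc 1 y, (n.divisors.card : ℝ) / n ≤ (1 + Real.log y) ^ 2 := by
  rcases Nat.eq_zero_or_pos y with h | h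
  · subst h; simp
  have h1 : ∑ n ∈ Icc 1 y, (n.divisors.card : ℝ) / n ≤
      (∑ n ∈ Icc 1 y, 1 / (n : ℝ)) * ∑ n ∈ Icc 1 y, 1 / (n : ℝ) := by
    have e1 : ∀ n ∈ Icc 1 y, (n.divisors.card : ℝ) / n =
        ∑ p ∈ n.divisorsAntidiagonal, (1 / (p.1 : ℝ)) * (1 / (p.2 : ℝ)) := by
      intro n hn
      have : ∀ p ∈ n.divisorsAntidiagonal, (1 / (p.1 : ℝ)) * (1 / (p.2 : ℝ)) = 1 / n := by
        intro p hp
        rw [Nat.mem_divisorsAntidiagonal] at hp
        rw [← hp.1]
        push_cast
        rw [div_mul_div_comm, one_mul]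
      rw [sum_congr rfl this, sum_const, nsmul_eq_mul]
      rw [card_antidiag]
      ring
    rw [sum_congr rfl e1, hyperM y (fun b c => (1 / (b : ℝ)) * (1 / (c : ℝ))), sum_mul]
    apply sum_le_sum
    intro b _
    rw [← mul_sum]
    apply mul_le_mul_of_nonneg_left _ (by positivity)
    apply sum_le_sum_of_subset_of_nonneg
    · exact Icc_subset_Icc_right (Nat.div_le_self y b)
    · intro _ _ _
      positivity
  have h2 := harm_le y h
  have h3 : 0 ≤ ∑ n ∈ Icc 1 y, 1 / (n : ℝ) := sum_nonneg fun _ _ => by positivity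
  refine h1.trans ?_
  rw [sq]
  exact mul_le_mul h2 h2 h3 (h3.trans h2)

lemma card_divisors_mul_le (a b : ℕ) : (a * b).divisors.card ≤ a.divisors.card * b.divisors.card := by
  rw [Nat.divisors_mul]
  exact card_mul_le

lemma tau_sq_sum (y : ℕ) : ∑ n ∈ Icc 1 y, (n.divisors.card : ℝ) ^ 2 / n ≤ (1 + Real.log y) ^ 4 := by
  have h1 : ∑ n ∈ Icc 1 y, (n.divisors.card : ℝ) ^ 2 / n ≤
      (∑ n ∈ Icc 1 y, (n.divisors.card : ℝ) / n) * ∑ n ∈ Icc 1 y, (n.divisors.card : ℝ) / n := by
    have e1 : ∀ n ∈ Icc 1 y, (n.divisors.card : ℝ) ^ 2 / n ≤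
        ∑ p ∈ n.divisorsAntidiagonal, ((p.1.divisors.card : ℝ) / p.1) * ((p.2.divisors.card : ℝ) / p.2) := by
      intro n hn
      rw [mem_Icc] at hn
      have hn0 : (0:ℝ) < n := by exact_mod_cast hn.1
      have h3 : ∀ p ∈ n.divisorsAntidiagonal, (n.divisors.card : ℝ) / n ≤
          ((p.1.divisors.card : ℝ) / p.1) * ((p.2.divisors.card : ℝ) / p.2) := by
        intro p hp
        rw [Nat.mem_divisorsAntidiagonal] at hp
        rw [div_mul_div_comm]
        have h4 : ((p.1 : ℝ) * p.2) = n := by exact_mod_cast hp.1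
        rw [h4]
        gcongr
        rw [← hp.1]
        exact_mod_cast card_divisors_mul_le p.1 p.2
      have h5 : (n.divisors.card : ℝ) ^ 2 / n = ∑ _p ∈ n.divisorsAntidiagonal, (n.divisors.card : ℝ) / n := by
        rw [sum_const, nsmul_eq_mul]
        rw [card_antidiag]
        ring
      rw [h5]
      exact sum_le_sum h3
    refine (sum_le_sum e1).trans ?_
    rw [hyperM y (fun b c => ((b.divisors.card : ℝ) / b) * ((c.divisors.card : ℝ) / c)), sum_mul]
    apply sum_le_sum
    intro b _
    rw [← mul_sum]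
    apply mul_le_mul_of_nonneg_left _ (by positivity)
    apply sum_le_sum_of_subset_of_nonneg
    · exact Icc_subset_Icc_right (Nat.div_le_self y b)
    · intro _ _ _
      positivity
  have h2 := tau_sum y
  have h3 : 0 ≤ ∑ n ∈ Icc 1 y, (n.divisors.card : ℝ) / n := sum_nonneg fun _ _ => by positivity
  refine h1.trans ?_
  calc _ ≤ (1 + Real.log y) ^ 2 * (1 + Real.log y) ^ 2 := mul_le_mul h2 h2 h3 (h3.trans h2)
    _ = _ := by ring

lemma betaV_sq_sum (U y : ℕ) (L : ℝ) (hy : Real.log y ≤ L) :
    ∑ n ∈ Icc 1 y, betaV U n ^ 2 ≤ (1 + L) ^ 4 * y := by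
  have h0 : 0 ≤ Real.log y := Real.log_natCast_nonneg y
  calc ∑ n ∈ Icc 1 y, betaV U n ^ 2 ≤ ∑ n ∈ Icc 1 y, (n.divisors.card : ℝ) ^ 2 / n * y := by
        apply sum_le_sum
        intro n hn
        rw [mem_Icc] at hn
        have hn0 : (0:ℝ) < n := by exact_mod_cast hn.1
        have h1 : betaV U n ^ 2 ≤ (n.divisors.card : ℝ) ^ 2 := by
          rw [← sq_abs]
          exact pow_le_pow_left₀ (abs_nonneg _) (betaV_abs U n) 2
        refine h1.trans ?_
        rw [div_mul_eq_mul_div, le_div_iff₀ hn0]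
        gcongr
        exact_mod_cast hn.2
    _ ≤ (1 + Real.log y) ^ 4 * y := by
        rw [← sum_mul]
        gcongr
        exact tau_sq_sum y
    _ ≤ _ := by gcongr

section main

variable {x K W U F I : ℕ} {T : ℝ}

/-- the main error term -/
noncomputable def XX (x K W U F : ℕ) : ℝ :=
  3 * x / F + 11 * x * Real.sqrt (Real.log x * (K * W) / U) +
    10 * F * (K * W) * Real.sqrt (Real.log x * x)

lemma XX_nonneg (x K W U F : ℕ) : 0 ≤ XX x K W U F := by
  unfold XX
  have := Real.sqrt_nonneg (Real.log x * (K * W) / U)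
  positivity

/-- the error term from the edges -/
noncomputable def YY (x W F I : ℕ) (T : ℝ) : ℝ :=
  5 * (Real.sqrt (x + 4 * (F : ℝ) ^ 2 * I) *
    Real.sqrt ((T * Real.log x) ^ 2 * (8 * x * Real.log x / W + 2 * I)))

lemma exp_I_le (hK : 0 < K) (hx : 1 ≤ x) (hI : I ≤ kap K x) :
    Real.exp ((I : ℝ) / K) ≤ x := (le_kap hK hx).1 hI

lemma I_le (hK : 0 < K) (hx : 1 ≤ x) (hI : I ≤ kap K x) : (I : ℝ) ≤ K * Real.log x := by
  have hK0 : (0:ℝ) < K := by exact_mod_cast hK
  have h := exp_I_le hK hx hI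
  have hx0 : (0:ℝ) < x := by exact_mod_cast hx
  rw [← Real.le_log_iff_exp_le hx0, div_le_iff₀ hK0] at h
  linarith

/-- bilinear part -/
theorem bil_av (hF : 0 < F) (hK : 0 < K) (hW : 2 ≤ W) (hx : 1 ≤ x) (hL : 1 ≤ Real.log x)
    (hKU : 3 * (K * W) ≤ U) (hI : I ≤ kap K x)
    (α β : ℕ → ℝ) (A2 : ℝ) (hA2 : 0 ≤ A2) (hα : ∀ n, |α n| ≤ Real.log x)
    (hs : ∀ n, α n ≠ 0 → (U : ℝ) ≤ n ∧ (n : ℝ) * U ≤ x)
    (hβ : ∀ y : ℕ, (y : ℝ) ≤ x → ∑ n ∈ Icc 1 y, β n ^ 2 ≤ A2 * y)
    (hT : ∀ n : ℕ, 1 ≤ n → (n : ℝ) ≤ x →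
      ∑ p ∈ n.divisorsAntidiagonal, |α p.1| * |β p.2| ≤ T * Real.log x) :
    Av F (fun f ψ => ∑ k ∈ range I, ‖CS (cv α β) K k f ψ‖) ≤
      12 * Real.log x ^ 2 * Real.sqrt A2 * XX x K W U F + YY x W F I T := by
  have hKW : 0 < K * W := Nat.mul_pos hK (by omega)
  have hK0 : (0:ℝ) < K := by exact_mod_cast hK
  have hW0 : (0:ℝ) < W := by
    have : 0 < W := by omega
    exact_mod_cast this
  have h1 : Av F (fun f ψ => ∑ k ∈ range I, ‖CS (cv α β) K k f ψ‖) ≤
      Av F (fun f ψ => ∑ i ∈ range (I * W), ∑ j ∈ range (I * W - i),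
        ‖CS α (K * W) i f ψ‖ * ‖CS β (K * W) j f ψ‖) +
      Av F (fun f ψ => ∑ k ∈ range I, ‖CS (bd K W α β) K k f ψ‖) := by
    rw [← Av_add]
    apply Av_mono
    intro f _ ψ _
    exact tc_conv K W I hK (by omega) α β f ψ
  have hexp := exp_I_le hK hx hI
  have hIL := I_le hK hx hI
  have h2 := pairs F (K * W) U (I * W) hF hKW hKU (x : ℝ) (Real.log x) (Real.log x) A2 (by
      refine le_trans (le_of_eq ?_) hexp
      congr 1
      push_cast
      field_simp) hL (by
      push_cast
      calc (I:ℝ) * W ≤ (K * Real.log x) * W := by gcongr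
        _ ≤ 2 * ((K:ℝ) * W) * Real.log x := by nlinarith [mul_pos hK0 hW0])
      α β (by linarith) hA2 hα hs hβ
  have h3 := edg F K I hF (bd K W α β)
  have h4 := bd_sq K W I hK hW (x : ℝ) (Real.log x) (T * Real.log x) hexp (by nlinarith) α β hT
  have hgx : (gg K I : ℝ) ≤ x := (gg_lt K I).le.trans hexp
  have h5 : Av F (fun f ψ => ∑ k ∈ range I, ‖CS (bd K W α β) K k f ψ‖) ≤ YY x W F I T := by
    refine h3.trans ?_
    unfold YY
    gcongr
  refine h1.trans (add_le_add (h2.trans (le_of_eq ?_)) h5)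
  unfold XX
  push_cast
  ring

/-- the von Mangoldt function -/
theorem lam_av (hF : 0 < F) (hK : 0 < K) (hW : 2 ≤ W) (hx : 1 ≤ x) (hL : 1 ≤ Real.log x)
    (hKU : 3 * (K * W) ≤ U) (hUx : U ^ 3 ≤ x) (hI : I ≤ kap K x)
    (hT : ∀ n : ℕ, 1 ≤ n → n ≤ x → (n.divisors.card : ℝ) ≤ T) :
    Av F (fun f ψ => ∑ k ∈ range I, ‖CS (fun n => ArithmeticFunction.vonMangoldt n) K k f ψ‖) ≤
      F * (U * Real.log x) + F * (12 * F * I * U * Real.log x) +
      60 * Real.log x ^ 4 * XX x K W U F + 2 * YY x W F I T := by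
  set L := Real.log x with hLdef
  have hKW : 0 < K * W := Nat.mul_pos hK (by omega)
  have hU : 1 ≤ U := by omega
  have hU0 : (0:ℝ) < U := by exact_mod_cast hU
  have hF0 : (0:ℝ) < F := by exact_mod_cast hF
  have hexp := exp_I_le hK hx hI
  have hgx : (gg K I : ℝ) ≤ x := (gg_lt K I).le.trans hexp
  have hgx' : gg K I ≤ x := by exact_mod_cast hgx
  have hUx1 : U ≤ x := le_trans (Nat.le_self_pow (by norm_num) U) hUx
  have hUx2 : U * U ≤ x := by
    refine le_trans ?_ hUx
    calc U * U = U * U * 1 := by ring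
      _ ≤ U * U * U := Nat.mul_le_mul_left _ hU
      _ = U ^ 3 := by ring
  have hlog : ∀ n : ℕ, n ≤ x → Real.log n ≤ L := by
    intro n hn
    rcases Nat.eq_zero_or_pos n with h | h
    · subst h
      simp
      linarith
    · exact Real.log_le_log (by exact_mod_cast h) (by exact_mod_cast hn)
  have hccL : ∀ n, |cc U n| ≤ L := by
    intro n
    by_cases h : U * U < n
    · rw [cc_zero U n h]
      simp
      linarith
    · exact (cc_le U n).trans (hlog n (by omega))
  -- splitting
  have hsplit : ∀ f ∈ Ioc F (2 * F), ∀ ψ ∈ Prim f,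
      ∑ k ∈ range I, ‖CS (fun n => ArithmeticFunction.vonMangoldt n) K k f ψ‖ ≤
      U * L + 12 * F * I * U * L +
      (∑ k ∈ range I, ‖CS (cv (cs2 U) (fun _ => 1)) K k f ψ‖ +
       ∑ k ∈ range I, ‖CS (cv (la U x) (betaV U)) K k f ψ‖) := by
    intro f hf ψ hψ
    rw [mem_Ioc] at hf
    have hf2 : 2 ≤ f := by omega
    have hψ1 : ψ ≠ 1 := prim_ne_one hf2 hψ
    have hfF : (f:ℝ) ≤ 2 * F := by exact_mod_cast hf.2
    have e1 : ∀ k ∈ range I, ‖CS (fun n => ArithmeticFunction.vonMangoldt n) K k f ψ‖ ≤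
        ‖CS (l1 U) K k f ψ‖ + ‖CS (cv (mu1 U) (fun b => Real.log b)) K k f ψ‖ +
        ‖CS (cv (cs1 U) (fun _ => 1)) K k f ψ‖ + ‖CS (cv (cs2 U) (fun _ => 1)) K k f ψ‖ +
        ‖CS (cv (la U x) (betaV U)) K k f ψ‖ := by
      intro k hk
      rw [mem_range] at hk
      have e2 : CS (fun n => ArithmeticFunction.vonMangoldt n) K k f ψ =
          CS (l1 U) K k f ψ + CS (cv (mu1 U) (fun b => Real.log b)) K k f ψ -
          CS (cv (cs1 U) (fun _ => 1)) K k f ψ - CS (cv (cs2 U) (fun _ => 1)) K k f ψ +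
          CS (cv (la U x) (betaV U)) K k f ψ := by
        unfold CS
        rw [← sum_add_distrib, ← sum_sub_distrib, ← sum_sub_distrib, ← sum_add_distrib]
        apply sum_congr rfl
        intro n hn
        have hn1 := cell_one hn
        unfold cell at hn
        rw [mem_Ioc] at hn
        have hnx : (n:ℝ) ≤ x := by
          have h1 := gg_mono K (show k + 1 ≤ I by omega)
          have : n ≤ x := by omega
          exact_mod_cast this
        have hd := decomp U x n hn1 hnx
        simp only [hd]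
        push_cast
        ring
      rw [e2]
      refine (norm_add_le _ _).trans ?_
      gcongr
      refine (norm_sub_le _ _).trans ?_
      gcongr
      refine (norm_sub_le _ _).trans ?_
      gcongr
      exact norm_add_le _ _
    refine (sum_le_sum e1).trans ?_
    rw [sum_add_distrib, sum_add_distrib, sum_add_distrib, sum_add_distrib]
    have b1 : ∑ k ∈ range I, ‖CS (l1 U) K k f ψ‖ ≤ U * L := by
      refine (cs_triv _ K I f ψ).trans ?_
      calc ∑ n ∈ Icc 1 (gg K I), |l1 U n| ≤ ∑ n ∈ Icc 1 (gg K I), (if n ≤ U then L else 0) := by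
            apply sum_le_sum
            intro n hn
            rw [mem_Icc] at hn
            rw [l1_apply]
            split_ifs
            · rw [abs_of_nonneg ArithmeticFunction.vonMangoldt_nonneg]
              exact ArithmeticFunction.vonMangoldt_le_log.trans (hlog n (by omega))
            · simp
        _ = ((((Icc 1 (gg K I)).filter (fun n => n ≤ U)).card : ℕ) : ℝ) * L := by
            rw [← sum_filter, sum_const, nsmul_eq_mul]
        _ ≤ U * L := by
            have : ((Icc 1 (gg K I)).filter (fun n => n ≤ U)).card ≤ (Icc 1 U).card := by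
              apply card_le_card
              intro n hn
              rw [mem_filter, mem_Icc] at hn
              rw [mem_Icc]
              exact ⟨hn.1.1, hn.2⟩
            rw [Nat.card_Icc] at this
            have h2 : ((((Icc 1 (gg K I)).filter (fun n => n ≤ U)).card : ℕ) : ℝ) ≤ U := by
              exact_mod_cast this
            gcongr
    have hsmall : ∀ (c : ℕ → ℝ) (A : ℝ), 0 ≤ A → (∀ n, |c n| ≤ if n ≤ U then A else 0) → ∀ N,
        ∑ d ∈ Icc 1 N, |c d| ≤ U * A := by
      intro c A hA hc N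
      calc ∑ d ∈ Icc 1 N, |c d| ≤ ∑ d ∈ Icc 1 N, (if d ≤ U then A else 0) := sum_le_sum fun d _ => hc d
        _ = ((((Icc 1 N).filter (fun n => n ≤ U)).card : ℕ) : ℝ) * A := by
            rw [← sum_filter, sum_const, nsmul_eq_mul]
        _ ≤ U * A := by
            have : ((Icc 1 N).filter (fun n => n ≤ U)).card ≤ (Icc 1 U).card := by
              apply card_le_card
              intro n hn
              rw [mem_filter, mem_Icc] at hn
              rw [mem_Icc]
              exact ⟨hn.1.1, hn.2⟩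
            rw [Nat.card_Icc] at this
            have h2 : ((((Icc 1 N).filter (fun n => n ≤ U)).card : ℕ) : ℝ) ≤ U := by
              exact_mod_cast this
            gcongr
    have b2 : ∑ k ∈ range I, ‖CS (cv (mu1 U) (fun b => Real.log b)) K k f ψ‖ ≤
        2 * I * (U * 1 * (4 * F * L)) := by
      apply cs_gs
      intro N hN
      refine (gs_conv _ _ N f ψ (4 * F * L) ?_).trans ?_
      · intro M hM
        refine (log_sum hf2 hψ1 M).trans ?_
        have h1 := hlog M (by omega)
        have h2 : 0 ≤ Real.log M := Real.log_natCast_nonneg M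
        calc 2 * (f:ℝ) * Real.log M ≤ 2 * (2 * F) * L := by gcongr
          _ = _ := by ring
      · apply mul_le_mul_of_nonneg_right _ (by positivity)
        apply hsmall _ 1 zero_le_one
        intro n
        rw [mu1_apply]
        split_ifs
        · exact_mod_cast ArithmeticFunction.abs_moebius_le_one
        · simp
    have b3 : ∑ k ∈ range I, ‖CS (cv (cs1 U) (fun _ => 1)) K k f ψ‖ ≤
        2 * I * (U * L * (2 * F)) := by
      apply cs_gs
      intro N hN
      refine (gs_conv _ _ N f ψ (2 * F) ?_).trans ?_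
      · intro M hM
        exact (one_sum hf2 hψ1 M).trans hfF
      · apply mul_le_mul_of_nonneg_right _ (by positivity)
        apply hsmall _ L (by linarith)
        intro n
        unfold cs1
        split_ifs
        · exact hccL n
        · simp
    have e3 : 2 * (I:ℝ) * (U * 1 * (4 * F * L)) + 2 * I * (U * L * (2 * F)) = 12 * F * I * U * L := by
      ring
    linarith
  refine (Av_mono hsplit).trans ?_
  rw [Av_add F (fun _ _ => (U:ℝ) * L + 12 * F * I * U * L) (fun f ψ =>
      ∑ k ∈ range I, ‖CS (cv (cs2 U) (fun _ => 1)) K k f ψ‖ +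
       ∑ k ∈ range I, ‖CS (cv (la U x) (betaV U)) K k f ψ‖),
    Av_add F (fun f ψ => ∑ k ∈ range I, ‖CS (cv (cs2 U) (fun _ => 1)) K k f ψ‖)
      (fun f ψ => ∑ k ∈ range I, ‖CS (cv (la U x) (betaV U)) K k f ψ‖)]
  have c1 : Av F (fun _ _ => (U:ℝ) * L + 12 * F * I * U * L) ≤
      F * (U * L) + F * (12 * F * I * U * L) := by
    refine (Av_const F _ (by positivity)).trans (le_of_eq (by ring))
  have c2 : Av F (fun f ψ => ∑ k ∈ range I, ‖CS (cv (cs2 U) (fun _ => 1)) K k f ψ‖) ≤
      12 * L ^ 2 * Real.sqrt 1 * XX x K W U F + YY x W F I T := by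
    apply bil_av hF hK hW hx hL hKU hI (cs2 U) (fun _ => 1) 1 zero_le_one
    · intro n
      unfold cs2
      split_ifs
      · exact hccL n
      · simp
        linarith
    · intro n hn
      unfold cs2 at hn
      split_ifs at hn with h
      · have h2 : ¬ (U * U < n) := fun h3 => hn (cc_zero U n h3)
        refine ⟨by exact_mod_cast h.le, ?_⟩
        have : n * U ≤ x := by
          calc n * U ≤ U * U * U := Nat.mul_le_mul_right _ (by omega)
            _ = U ^ 3 := by ring
            _ ≤ x := hUx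
        exact_mod_cast this
      · exact absurd rfl hn
    · intro y _
      simp
    · intro n hn hnx
      have hnx' : n ≤ x := by exact_mod_cast hnx
      calc ∑ p ∈ n.divisorsAntidiagonal, |cs2 U p.1| * |(1:ℝ)| ≤ ∑ _p ∈ n.divisorsAntidiagonal, L := by
            apply sum_le_sum
            intro p _
            rw [abs_one, mul_one]
            unfold cs2
            split_ifs
            · exact hccL _
            · simp
              linarith
        _ = (n.divisors.card : ℝ) * L := by rw [sum_const, card_antidiag, nsmul_eq_mul]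
        _ ≤ T * L := by
            have := hT n hn hnx'
            gcongr
  have c3 : Av F (fun f ψ => ∑ k ∈ range I, ‖CS (cv (la U x) (betaV U)) K k f ψ‖) ≤
      12 * L ^ 2 * Real.sqrt ((1 + L) ^ 4) * XX x K W U F + YY x W F I T := by
    apply bil_av hF hK hW hx hL hKU hI (la U x) (betaV U) ((1 + L) ^ 4) (by positivity)
    · intro n
      unfold la
      split_ifs with h
      · rw [abs_of_nonneg (L2_nonneg U n)]
        refine (L2_le U n).trans (ArithmeticFunction.vonMangoldt_le_log.trans (hlog n ?_))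
        have h1 : (n:ℝ) * 1 ≤ n * U := by
          gcongr
          exact_mod_cast hU
        have h2 : (n:ℝ) ≤ x := by linarith
        exact_mod_cast h2
      · simp
        linarith
    · intro n hn
      unfold la at hn
      split_ifs at hn with h
      · refine ⟨?_, h⟩
        unfold L2 at hn
        split_ifs at hn with h3
        · exact_mod_cast h3.le
        · exact absurd rfl hn
      · exact absurd rfl hn
    · intro y hy
      exact betaV_sq_sum U y L (hlog y (by exact_mod_cast hy))
    · intro n hn hnx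
      have hnx' : n ≤ x := by exact_mod_cast hnx
      have hn0 : n ≠ 0 := by omega
      calc ∑ p ∈ n.divisorsAntidiagonal, |la U x p.1| * |betaV U p.2| ≤
          ∑ p ∈ n.divisorsAntidiagonal, ArithmeticFunction.vonMangoldt p.1 * (n.divisors.card : ℝ) := by
            apply sum_le_sum
            intro p hp
            rw [Nat.mem_divisorsAntidiagonal] at hp
            apply mul_le_mul
            · unfold la
              split_ifs
              · rw [abs_of_nonneg (L2_nonneg U _)]
                exact L2_le U _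
              · simp [ArithmeticFunction.vonMangoldt_nonneg]
            · refine (betaV_abs U p.2).trans ?_
              have : p.2 ∣ n := ⟨p.1, by rw [← hp.1]; ring⟩
              exact_mod_cast card_le_card (Nat.divisors_subset_of_dvd hn0 this)
            · exact abs_nonneg _
            · exact ArithmeticFunction.vonMangoldt_nonneg
        _ = Real.log n * (n.divisors.card : ℝ) := by
            rw [← sum_mul, Nat.sum_divisorsAntidiagonal
              (fun b _ => ArithmeticFunction.vonMangoldt b), ArithmeticFunction.vonMangoldt_sum]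
        _ ≤ L * T := by
            apply mul_le_mul (hlog n hnx') (hT n hn hnx') (by positivity) (by linarith)
        _ = T * L := by ring
  have hs4 : Real.sqrt ((1 + L) ^ 4) = (1 + L) ^ 2 := by
    rw [show (1 + L) ^ 4 = ((1 + L) ^ 2) ^ 2 by ring, Real.sqrt_sq (by positivity)]
  rw [hs4] at c3
  rw [Real.sqrt_one] at c2
  have hX := XX_nonneg x K W U F
  have c4 : 12 * L ^ 2 * 1 * XX x K W U F + 12 * L ^ 2 * (1 + L) ^ 2 * XX x K W U F ≤
      60 * L ^ 4 * XX x K W U F := by
    have h1 : 12 * L ^ 2 * 1 + 12 * L ^ 2 * (1 + L) ^ 2 ≤ 60 * L ^ 4 := by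
      have h2 : (1 + L) ^ 2 ≤ (2 * L) ^ 2 := by gcongr; linarith
      have h3 : L ^ 2 * 1 ≤ L ^ 2 * L ^ 2 := by
        gcongr
        exact one_le_pow₀ hL
      nlinarith [sq_nonneg L]
    calc _ = (12 * L ^ 2 * 1 + 12 * L ^ 2 * (1 + L) ^ 2) * XX x K W U F := by ring
      _ ≤ _ := mul_le_mul_of_nonneg_right h1 hX
  linarith

end main

end Run7.h905.SM
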