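import Pool.Agent.Run7.h905.SM.Dens2

/-!
The count of the primes in a progression, split by the conductor of the characters.
-/

set_option autoImplicit false

open Finset

namespace Run7.h905.SM

open Pool.Agent.H398R2.BV (Prim card_prim_le prim_ne_one)
open Pool.Agent.H441R3.BV (kap)
open DirichletCharacter (changeLevel)
open Classical

/-- character sum over the primes in a set -/
noncomputable def PSS (S : Finset ℕ) (n : ℕ) (χ : DirichletCharacter ℂ n) : ℂ :=
  ∑ p ∈ S, ((pr p : ℝ) : ℂ) * χ (p : ZMod n)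

/-- the number of primes of a set in a progression -/
noncomputable def pc (n : ℕ) (a : ℤ) (S : Finset ℕ) : ℝ :=
  ∑ p ∈ S, if (p : ℤ) ≡ a [ZMOD n] then pr p else 0

/-- small conductors -/
noncomputable def LC (n R : ℕ) (a : ℤ) (S : Finset ℕ) : ℂ :=
  (1 / (Nat.totient n : ℂ)) * ∑ χ ∈ lo n R, χ⁻¹ (a : ZMod n) * PSS S n χ

/-- large conductors -/
noncomputable def HC (n R : ℕ) (a : ℤ) (S : Finset ℕ) : ℂ :=
  (1 / (Nat.totient n : ℂ)) * ∑ χ ∈ hi n R, χ⁻¹ (a : ZMod n) * PSS S n χ

lemma isUnit_int {n : ℕ} {a : ℤ} (h : IsCoprime a n) : IsUnit (a : ZMod n) := by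
  obtain ⟨u, v, huv⟩ := h
  have : ((u * a + v * n : ℤ) : ZMod n) = 1 := by rw [huv]; simp
  push_cast at this
  rw [ZMod.natCast_self, mul_zero, add_zero] at this
  exact IsUnit.of_mul_eq_one_right _ this

lemma pc_eq {n R : ℕ} (hn : 1 ≤ n) {a : ℤ} (ha : IsCoprime a n) (S : Finset ℕ) :
    ((pc n a S : ℝ) : ℂ) = LC n R a S + HC n R a S := by
  have : NeZero n := ⟨by omega⟩
  have hφ : (Nat.totient n : ℂ) ≠ 0 := by
    have := Nat.totient_pos.mpr (show 0 < n by omega)
    exact_mod_cast this.ne'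
  have hu := isUnit_int ha
  have e0 : LC n R a S + HC n R a S =
      (1 / (Nat.totient n : ℂ)) * ∑ χ : DirichletCharacter ℂ n, χ⁻¹ (a : ZMod n) * PSS S n χ := by
    unfold LC HC lo hi
    rw [← mul_add, add_comm]
    congr 1
    exact sum_filter_add_sum_filter_not _ _ _
  rw [e0]
  unfold pc PSS
  rw [Complex.ofReal_sum]
  have e1 : ∑ χ : DirichletCharacter ℂ n, χ⁻¹ (a : ZMod n) * ∑ p ∈ S, ((pr p : ℝ) : ℂ) * χ (p : ZMod n) =
      ∑ p ∈ S, ((pr p : ℝ) : ℂ) * ∑ χ : DirichletCharacter ℂ n, χ ((a : ZMod n)⁻¹) * χ (p : ZMod n) := by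
    simp_rw [mul_sum]
    rw [sum_comm]
    apply sum_congr rfl
    intro p _
    apply sum_congr rfl
    intro χ _
    have : χ⁻¹ (a : ZMod n) = χ ((a : ZMod n)⁻¹) := by
      rw [MulChar.inv_apply]
      congr 1
      obtain ⟨u, hu'⟩ := hu
      rw [← hu', ZMod.inv_coe_unit, Ring.inverse_unit]
    rw [this]
    ring
  rw [e1, mul_sum]
  apply sum_congr rfl
  intro p _
  have h1 := DirichletCharacter.sum_char_inv_mul_char_eq ℂ hu (p : ZMod n)
  rw [h1]
  have h2 : ((a : ZMod n) = (p : ZMod n)) ↔ (p : ℤ) ≡ a [ZMOD n] := by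
    rw [← ZMod.intCast_eq_intCast_iff]
    constructor
    · intro h
      rw [h]
      simp
    · intro h
      rw [← h]
      simp
  by_cases h3 : (p : ℤ) ≡ a [ZMOD n]
  · rw [if_pos h3, if_pos (h2.2 h3)]
    field_simp
  · rw [if_neg h3, if_neg (fun h => h3 (h2.1 h))]
    simp

/-- number of small conductors -/
lemma card_lo (n R : ℕ) (hn : 1 ≤ n) : ((lo n R).card : ℝ) ≤ (R : ℝ) ^ 2 := by
  have : NeZero n := ⟨by omega⟩
  have h1 : ((lo n R).card : ℝ) = ∑ χ ∈ lo n R, (1:ℝ) := by simp
  rw [h1, lo_expand]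
  calc ∑ f ∈ n.divisors.filter (fun f => f ≤ R), ∑ ψ ∈ Prim f, lift n (fun _ => (1:ℝ)) f ψ
      ≤ ∑ f ∈ n.divisors.filter (fun f => f ≤ R), (R : ℝ) := by
        apply sum_le_sum
        intro f hf
        rw [mem_filter] at hf
        have hf1 : 1 ≤ f := Nat.pos_of_mem_divisors hf.1
        calc ∑ ψ ∈ Prim f, lift n (fun _ => (1:ℝ)) f ψ ≤ ∑ _ψ ∈ Prim f, (1:ℝ) := by
              apply sum_le_sum
              intro ψ _
              unfold lift
              split_ifs
              · exact le_rfl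
              · norm_num
          _ = ((Prim f).card : ℝ) := by simp
          _ ≤ Nat.totient f := card_prim_le hf1
          _ ≤ f := by exact_mod_cast Nat.totient_le f
          _ ≤ R := by exact_mod_cast hf.2
    _ ≤ ∑ _f ∈ Icc 1 R, (R : ℝ) := by
        apply sum_le_sum_of_subset_of_nonneg
        · intro f hf
          rw [mem_filter] at hf
          rw [mem_Icc]
          exact ⟨Nat.pos_of_mem_divisors hf.1, hf.2⟩
        · intro _ _ _
          positivity
    _ = (R:ℝ) ^ 2 := by
        rw [sum_const, Nat.card_Icc, nsmul_eq_mul]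
        simp only [Nat.add_sub_cancel]
        ring

lemma PSS_le (S : Finset ℕ) (n : ℕ) (χ : DirichletCharacter ℂ n) : ‖PSS S n χ‖ ≤ S.card := by
  unfold PSS
  refine (norm_sum_le _ _).trans ?_
  calc ∑ p ∈ S, ‖((pr p : ℝ) : ℂ) * χ (p : ZMod n)‖ ≤ ∑ _p ∈ S, (1:ℝ) := by
        apply sum_le_sum
        intro p _
        rw [norm_mul, Complex.norm_real, Real.norm_eq_abs, abs_of_nonneg (pr_nonneg p)]
        have h1 := pr_le_one p
        have h2 := pr_nonneg p
        have h3 := χ.norm_le_one (p : ZMod n)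
        have h4 := norm_nonneg (χ (p : ZMod n))
        nlinarith
    _ = _ := by simp

/-- the trivial bound for the small conductors -/
lemma LC_triv (n R : ℕ) (hn : 1 ≤ n) (a : ℤ) (S : Finset ℕ) :
    ‖LC n R a S‖ ≤ (R : ℝ) ^ 2 * S.card / Nat.totient n := by
  unfold LC
  have hφ : (0 : ℝ) < Nat.totient n := by exact_mod_cast Nat.totient_pos.2 hn
  rw [norm_mul]
  have e1 : ‖(1 / (Nat.totient n : ℂ))‖ = 1 / (Nat.totient n : ℝ) := by
    rw [norm_div, norm_one, Complex.norm_natCast]
  rw [e1]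
  have h1 : ‖∑ χ ∈ lo n R, χ⁻¹ (a : ZMod n) * PSS S n χ‖ ≤ (R : ℝ) ^ 2 * S.card := by
    refine (norm_sum_le _ _).trans ?_
    calc ∑ χ ∈ lo n R, ‖χ⁻¹ (a : ZMod n) * PSS S n χ‖ ≤ ∑ _χ ∈ lo n R, (S.card : ℝ) := by
          apply sum_le_sum
          intro χ _
          rw [norm_mul]
          have h1 := (χ⁻¹).norm_le_one (a : ZMod n)
          have h2 := PSS_le S n χ
          calc ‖χ⁻¹ (a : ZMod n)‖ * ‖PSS S n χ‖ ≤ 1 * S.card := by gcongr
            _ = _ := one_mul _
      _ = (lo n R).card * (S.card : ℝ) := by rw [sum_const, nsmul_eq_mul]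
      _ ≤ _ := by
          have := card_lo n R hn
          gcongr
  calc 1 / (Nat.totient n : ℝ) * _ ≤ 1 / (Nat.totient n : ℝ) * ((R : ℝ) ^ 2 * S.card) := by gcongr
    _ = _ := by ring

/-- the large conductors -/
lemma HC_le (n R : ℕ) (a : ℤ) (S : Finset ℕ) :
    ‖HC n R a S‖ ≤ (1 / (Nat.totient n : ℝ)) * ∑ χ ∈ hi n R, ‖PSS S n χ‖ := by
  unfold HC
  rw [norm_mul]
  have e1 : ‖(1 / (Nat.totient n : ℂ))‖ = 1 / (Nat.totient n : ℝ) := by
    rw [norm_div, norm_one, Complex.norm_natCast]
  rw [e1]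
  apply mul_le_mul_of_nonneg_left _ (by positivity)
  refine (norm_sum_le _ _).trans (sum_le_sum ?_)
  intro χ _
  rw [norm_mul]
  have h1 := (χ⁻¹).norm_le_one (a : ZMod n)
  have h2 := norm_nonneg (PSS S n χ)
  calc ‖χ⁻¹ (a : ZMod n)‖ * ‖PSS S n χ‖ ≤ 1 * ‖PSS S n χ‖ := by gcongr
    _ = _ := one_mul _

lemma inv_change {n f : ℕ} (h : f ∣ n) (ψ : DirichletCharacter ℂ f) {a : ℤ} (ha : IsCoprime a n) :
    (changeLevel h ψ)⁻¹ (a : ZMod n) = ψ⁻¹ (a : ZMod f) := by
  rw [← map_inv]
  exact DirichletCharacter.changeLevel_eq_cast_of_dvd' ψ⁻¹ h ha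

/-- expansion over the primitive characters -/
noncomputable def LE (n R : ℕ) (a : ℤ) (S : Finset ℕ) : ℂ :=
  (1 / (Nat.totient n : ℂ)) * ∑ f ∈ (Icc 1 R).filter (fun f => f ∣ n),
    ∑ ψ ∈ Prim f, ψ⁻¹ (a : ZMod f) * PSS S f ψ

lemma LC_LE (n R : ℕ) (hn : 1 ≤ n) {a : ℤ} (ha : IsCoprime a n) (S : Finset ℕ) :
    ‖LC n R a S - LE n R a S‖ ≤ (R : ℝ) ^ 2 * n.primeFactors.card := by
  have : NeZero n := ⟨by omega⟩
  have hφ : (0 : ℝ) < Nat.totient n := by exact_mod_cast Nat.totient_pos.2 hn
  have hφ1 : (1 : ℝ) ≤ Nat.totient n := by exact_mod_cast Nat.totient_pos.2 hn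
  unfold LC LE
  rw [lo_expand]
  have hset : n.divisors.filter (fun f => f ≤ R) = (Icc 1 R).filter (fun f => f ∣ n) := by
    ext f
    rw [mem_filter, mem_filter, Nat.mem_divisors, mem_Icc]
    constructor
    · rintro ⟨⟨h1, h2⟩, h3⟩
      exact ⟨⟨Nat.pos_of_dvd_of_pos h1 (by omega), h3⟩, h1⟩
    · rintro ⟨⟨h1, h2⟩, h3⟩
      exact ⟨⟨h3, by omega⟩, h2⟩
  rw [hset, ← mul_sub, ← sum_sub_distrib, norm_mul]
  have e1 : ‖(1 / (Nat.totient n : ℂ))‖ = 1 / (Nat.totient n : ℝ) := by
    rw [norm_div, norm_one, Complex.norm_natCast]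
  rw [e1]
  have h1 : ‖∑ f ∈ (Icc 1 R).filter (fun f => f ∣ n),
      (∑ ψ ∈ Prim f, lift n (fun χ => χ⁻¹ (a : ZMod n) * PSS S n χ) f ψ -
        ∑ ψ ∈ Prim f, ψ⁻¹ (a : ZMod f) * PSS S f ψ)‖ ≤ (R : ℝ) ^ 2 * n.primeFactors.card := by
    refine (norm_sum_le _ _).trans ?_
    calc ∑ f ∈ (Icc 1 R).filter (fun f => f ∣ n),
        ‖∑ ψ ∈ Prim f, lift n (fun χ => χ⁻¹ (a : ZMod n) * PSS S n χ) f ψ -
        ∑ ψ ∈ Prim f, ψ⁻¹ (a : ZMod f) * PSS S f ψ‖ ≤
        ∑ f ∈ (Icc 1 R).filter (fun f => f ∣ n), (R : ℝ) * n.primeFactors.card := by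
          apply sum_le_sum
          intro f hf
          rw [mem_filter, mem_Icc] at hf
          rw [← sum_sub_distrib]
          refine (norm_sum_le _ _).trans ?_
          calc ∑ ψ ∈ Prim f, ‖lift n (fun χ => χ⁻¹ (a : ZMod n) * PSS S n χ) f ψ -
              ψ⁻¹ (a : ZMod f) * PSS S f ψ‖ ≤ ∑ _ψ ∈ Prim f, (n.primeFactors.card : ℝ) := by
                apply sum_le_sum
                intro ψ _
                unfold lift
                rw [dif_pos hf.2]
                beta_reduce
                rw [inv_change hf.2 ψ ha, ← mul_sub, norm_mul]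
                have g1 := (ψ⁻¹).norm_le_one (a : ZMod f)
                have g2 : ‖PSS S n (changeLevel hf.2 ψ) - PSS S f ψ‖ ≤ n.primeFactors.card := by
                  unfold PSS
                  rw [← sum_sub_distrib]
                  refine (norm_sum_le _ _).trans ?_
                  calc ∑ p ∈ S, ‖((pr p : ℝ) : ℂ) * (changeLevel hf.2 ψ) (p : ZMod n) -
                        ((pr p : ℝ) : ℂ) * ψ (p : ZMod f)‖ ≤
                      ∑ p ∈ S, (if p.Prime ∧ ¬ p.Coprime n then (1:ℝ) else 0) := by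
                        apply sum_le_sum
                        intro p _
                        rw [change_val]
                        unfold pr
                        have g3 := ψ.norm_le_one (p : ZMod f)
                        by_cases hp : p.Prime
                        · by_cases hc : p.Coprime n
                          · rw [if_pos hp, if_pos hc, sub_self, norm_zero]
                            split_ifs <;> norm_num
                          · rw [if_pos hp, if_neg hc, if_pos ⟨hp, hc⟩]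
                            simpa using g3
                        · simp [hp]
                    _ = ((S.filter (fun p => p.Prime ∧ ¬ p.Coprime n)).card : ℝ) := by
                        rw [sum_boole]
                    _ ≤ _ := by
                        have : S.filter (fun p => p.Prime ∧ ¬ p.Coprime n) ⊆ n.primeFactors := by
                          intro p hp
                          rw [mem_filter] at hp
                          rw [Nat.mem_primeFactors]
                          refine ⟨hp.2.1, ?_, by omega⟩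
                          by_contra hcon
                          exact hp.2.2 ((Nat.Prime.coprime_iff_not_dvd hp.2.1).2 hcon)
                        exact_mod_cast card_le_card this
                calc ‖ψ⁻¹ (a : ZMod f)‖ * ‖PSS S n (changeLevel hf.2 ψ) - PSS S f ψ‖ ≤
                    1 * n.primeFactors.card := by gcongr
                  _ = _ := one_mul _
            _ = ((Prim f).card : ℝ) * n.primeFactors.card := by rw [sum_const, nsmul_eq_mul]
            _ ≤ (R : ℝ) * n.primeFactors.card := by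
                have g1 := card_prim_le (f := f) hf.1.1
                have g2 : (Nat.totient f : ℝ) ≤ R := by
                  exact_mod_cast (Nat.totient_le f).trans hf.1.2
                have g3 : ((Prim f).card : ℝ) ≤ R := g1.trans g2
                gcongr
      _ = (((Icc 1 R).filter (fun f => f ∣ n)).card : ℝ) * ((R : ℝ) * n.primeFactors.card) := by
          rw [sum_const, nsmul_eq_mul]
      _ ≤ (R : ℝ) * ((R : ℝ) * n.primeFactors.card) := by
          have : (((Icc 1 R).filter (fun f => f ∣ n)).card : ℝ) ≤ R := by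
            have h := card_filter_le (Icc 1 R) (fun f => f ∣ n)
            rw [Nat.card_Icc, Nat.add_sub_cancel] at h
            exact_mod_cast h
          gcongr
      _ = _ := by ring
  have h2 : 0 ≤ (R : ℝ) ^ 2 * n.primeFactors.card := by positivity
  calc 1 / (Nat.totient n : ℝ) * _ ≤ 1 * ((R : ℝ) ^ 2 * n.primeFactors.card) := by
        apply mul_le_mul _ h1 (norm_nonneg _) (by norm_num)
        rw [div_le_one hφ]
        exact hφ1
    _ = _ := one_mul _

end Run7.h905.SM
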