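import Pool.Agent.Run7.h905.SM.Low1

/-!
The contribution of the small conductors: the sum over the complementary variable.
-/

set_option autoImplicit false

open Finset

namespace Run7.h905.SM

open Pool.Agent.H398R2.BV (Prim card_prim_le prim_ne_one)
open Pool.Agent.H441R3.BV (kap PS MX le_MX MX_nonneg)

/-- the primes in question lie in this set -/
def blk (x H j n : ℕ) (a : ℤ) : Finset ℕ :=
  (Icc 1 x).filter (fun p : ℕ => a + (n * j * H : ℕ) < p ∧ (p : ℤ) ≤ a + (n * (j + 1) * H : ℕ))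

lemma dvd_iff_g (f d m : ℕ) (hf : 1 ≤ f) : f ∣ d * m ↔ f / Nat.gcd f d ∣ m := by
  have hc : 0 < Nat.gcd f d := Nat.gcd_pos_of_pos_left _ hf
  rw [Nat.div_dvd_iff_dvd_mul (Nat.gcd_dvd_left f d) hc]
  exact Nat.dvd_gcd_mul_iff_dvd_mul.symm

/-- the weight of a prime -/
noncomputable def WW (d j H M f : ℕ) (a : ℤ) (p : ℕ) : ℝ :=
  ∑ m ∈ Icc 1 M, if (m.Coprime a.natAbs ∧ f ∣ d * m ∧ a + (d * m * j * H : ℕ) < p ∧
    (p : ℤ) ≤ a + (d * m * (j + 1) * H : ℕ)) then 1 / (Nat.totient (d * m) : ℝ) else 0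

lemma WW_zero {d j H M f p : ℕ} {a : ℤ} (hp : (p : ℤ) ≤ a) : WW d j H M f a p = 0 := by
  unfold WW
  apply sum_eq_zero
  intro m _
  rw [if_neg]
  rintro ⟨_, _, h, _⟩
  have : (0 : ℤ) ≤ (d * m * j * H : ℕ) := Int.natCast_nonneg _
  omega

/-- the weights are almost constant -/
theorem WW_est {d j H M E f p : ℕ} {a : ℤ} (hd : 1 ≤ d) (hj : 1 ≤ j) (hH : 1 ≤ H) (hf : 1 ≤ f)
    (ha : a ≠ 0) (hfa : f.Coprime a.natAbs) (hM : M ≤ E) (hp : a < p)
    (hpM : ((p : ℝ) - a) / (d * j * H) ≤ M + 1) :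
    |WW d j H M f a p - cst E (d * (f / Nat.gcd f d)) a.natAbs * Real.log ((j + 1) / j)| ≤
      (2 * f * ta a.natAbs * (1 + Real.log E) ^ 2 / (Nat.totient d : ℝ)) *
        (d * (j + 1) * H / ((p : ℝ) - a)) := by
  set g := f / Nat.gcd f d with hg
  have hc : 0 < Nat.gcd f d := Nat.gcd_pos_of_pos_left _ hf
  have hg1 : 1 ≤ g := by
    rw [hg, Nat.one_le_div_iff hc]
    exact Nat.gcd_le_left _ hf
  have hgf : g ∣ f := Nat.div_dvd_of_dvd (Nat.gcd_dvd_left f d)
  have hga : g.Coprime a.natAbs := Nat.Coprime.coprime_dvd_left hgf hfa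
  have ha1 : 1 ≤ a.natAbs := Int.natAbs_pos.2 ha
  have hd0 : (0:ℝ) < d := by exact_mod_cast hd
  have hj0 : (0:ℝ) < j := by exact_mod_cast hj
  have hH0 : (0:ℝ) < H := by exact_mod_cast hH
  have hpa : (0:ℝ) < (p : ℝ) - a := by
    have : (a:ℝ) < p := by exact_mod_cast hp
    linarith
  set y1 : ℝ := ((p : ℝ) - a) / (d * (j + 1) * H) with hy1
  set y2 : ℝ := ((p : ℝ) - a) / (d * j * H) with hy2
  have h0 : 0 < y1 := by positivity
  have h12 : y1 ≤ y2 := by
    rw [hy1, hy2]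
    apply div_le_div_of_nonneg_left hpa.le (by positivity)
    gcongr
    linarith
  have hq : y2 / y1 = ((j:ℝ) + 1) / j := by
    rw [hy1, hy2]
    field_simp
  have hW : WW d j H M f a p = ∑ m ∈ Icc 1 M, (if g ∣ m ∧ m.Coprime a.natAbs ∧ y1 ≤ m ∧ (m : ℝ) < y2 then
        1 / (Nat.totient (d * m) : ℝ) else 0) := by
    unfold WW
    apply sum_congr rfl
    intro m _
    have c1 : f ∣ d * m ↔ g ∣ m := dvd_iff_g f d m hf
    have c2 : (a + (d * m * j * H : ℕ) < (p:ℤ)) ↔ (m : ℝ) < y2 := by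
      rw [hy2, lt_div_iff₀ (by positivity)]
      constructor
      · intro h
        have : ((a + (d * m * j * H : ℕ) : ℤ) : ℝ) < ((p : ℤ) : ℝ) := by exact_mod_cast h
        push_cast at this
        linarith
      · intro h
        have : ((a + (d * m * j * H : ℕ) : ℤ) : ℝ) < ((p : ℤ) : ℝ) := by
          push_cast
          linarith
        exact_mod_cast this
    have c3 : ((p:ℤ) ≤ a + (d * m * (j + 1) * H : ℕ)) ↔ y1 ≤ (m : ℝ) := by
      rw [hy1, div_le_iff₀ (by positivity)]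
      constructor
      · intro h
        have : ((p : ℤ) : ℝ) ≤ ((a + (d * m * (j + 1) * H : ℕ) : ℤ) : ℝ) := by exact_mod_cast h
        push_cast at this
        linarith
      · intro h
        have : ((p : ℤ) : ℝ) ≤ ((a + (d * m * (j + 1) * H : ℕ) : ℤ) : ℝ) := by
          push_cast
          linarith
        exact_mod_cast this
    have c4 : (m.Coprime a.natAbs ∧ f ∣ d * m ∧ a + (d * m * j * H : ℕ) < (p:ℤ) ∧
        (p : ℤ) ≤ a + (d * m * (j + 1) * H : ℕ)) ↔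
        (g ∣ m ∧ m.Coprime a.natAbs ∧ y1 ≤ m ∧ (m : ℝ) < y2) := by
      rw [c1, c2, c3]
      tauto
    simp only [c4]
  rw [hW]
  have h := dens hd hg1 ha1 hga hM h0 h12 hpM
  rw [hq] at h
  refine h.trans ?_
  have hφ : (0:ℝ) < Nat.totient d := by exact_mod_cast Nat.totient_pos.2 hd
  have hφ2 : (Nat.totient d : ℝ) ≤ Nat.totient (d * g) := by
    exact_mod_cast Nat.le_of_dvd (Nat.totient_pos.2 (Nat.mul_pos hd hg1))
      (Nat.totient_dvd_of_dvd (dvd_mul_right d g))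
  have hgf' : (g:ℝ) ≤ f := by exact_mod_cast Nat.le_of_dvd hf hgf
  have ht := ta_nonneg a.natAbs
  have e1 : (2 * g * ta a.natAbs * (1 + Real.log E) ^ 2 / (Nat.totient (d * g) : ℝ)) / y1 =
      (2 * g * ta a.natAbs * (1 + Real.log E) ^ 2 / (Nat.totient (d * g) : ℝ)) *
        (d * (j + 1) * H / ((p : ℝ) - a)) := by
    rw [hy1]
    field_simp
  rw [e1]
  have h5 : 0 ≤ (d * (j + 1) * H / ((p : ℝ) - a)) := by positivity
  apply mul_le_mul_of_nonneg_right _ h5
  gcongr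

/-- exchange of the sums -/
theorem LE_swap (x H j d M R : ℕ) (a : ℤ) :
    ∑ m ∈ (Icc 1 M).filter (fun m => m.Coprime a.natAbs), LE (d * m) R a (blk x H j (d * m) a) =
    ∑ f ∈ Icc 1 R, ∑ ψ ∈ Prim f, ψ⁻¹ (a : ZMod f) *
      ∑ p ∈ Icc 1 x, ((pr p : ℝ) : ℂ) * ψ (p : ZMod f) * ((WW d j H M f a p : ℝ) : ℂ) := by
  have h1 : ∀ m ∈ (Icc 1 M).filter (fun m => m.Coprime a.natAbs),
      LE (d * m) R a (blk x H j (d * m) a) =
      ∑ f ∈ Icc 1 R, ∑ ψ ∈ Prim f, ψ⁻¹ (a : ZMod f) *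
        ∑ p ∈ Icc 1 x, ((pr p : ℝ) : ℂ) * ψ (p : ZMod f) *
        (if f ∣ d * m ∧ a + (d * m * j * H : ℕ) < p ∧
          (p : ℤ) ≤ a + (d * m * (j + 1) * H : ℕ) then (1 / (Nat.totient (d * m) : ℂ)) else 0) := by
    intro m _
    unfold LE
    rw [sum_filter, mul_sum]
    apply sum_congr rfl
    intro f _
    split_ifs with hf
    · rw [mul_sum]
      apply sum_congr rfl
      intro ψ _
      unfold PSS blk
      rw [sum_filter, mul_left_comm, mul_sum]
      congr 1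
      apply sum_congr rfl
      intro p _
      by_cases hb : (a + (d * m * j * H : ℕ) < (p:ℤ) ∧ (p : ℤ) ≤ a + (d * m * (j + 1) * H : ℕ))
      · rw [if_pos hb, if_pos ⟨hf, hb⟩]
        ring
      · rw [if_neg hb, if_neg (fun h => hb h.2)]
        simp
    · rw [mul_zero]
      symm
      apply sum_eq_zero
      intro ψ _
      rw [sum_eq_zero, mul_zero]
      intro p _
      rw [if_neg (fun h => hf h.1), mul_zero]
  rw [sum_congr rfl h1, sum_comm]
  apply sum_congr rfl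
  intro f _
  rw [sum_comm]
  apply sum_congr rfl
  intro ψ _
  rw [← mul_sum, sum_comm]
  congr 1
  apply sum_congr rfl
  intro p _
  rw [← mul_sum]
  congr 1
  unfold WW
  rw [Complex.ofReal_sum, sum_filter]
  apply sum_congr rfl
  intro m _
  by_cases hm : m.Coprime a.natAbs
  · rw [if_pos hm]
    by_cases hb : (f ∣ d * m ∧ a + (d * m * j * H : ℕ) < (p:ℤ) ∧ (p : ℤ) ≤ a + (d * m * (j + 1) * H : ℕ))
    · rw [if_pos hb, if_pos ⟨hm, hb⟩]
      push_cast
      rfl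
    · rw [if_neg hb, if_neg (fun h => hb h.2)]
      simp
  · rw [if_neg hm, if_neg (fun h => hm h.1)]
    simp

end Run7.h905.SM
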