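import Pool.Agent.Run7.h905.SM.Low2

/-!
The contribution of the small conductors: bounds.
-/

set_option autoImplicit false

open Finset

namespace Run7.h905.SM

open Pool.Agent.H398R2.BV (Prim card_prim_le prim_ne_one)
open Pool.Agent.H441R3.BV (kap PS MX le_MX MX_nonneg inv_tot_le)

/-- the harmonic sum over the shifted integers -/
lemma harm_shift (x : ℕ) (a : ℤ) (y : ℕ) (hy1 : 1 ≤ y) (hy : (x : ℤ) - a ≤ y) :
    ∑ p ∈ (Icc 1 x).filter (fun p : ℕ => a < p), 1 / ((p : ℝ) - a) ≤ 1 + Real.log y := by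
  refine le_trans ?_ (Pool.Agent.Helper112.harm_le y hy1)
  have h1 : ∑ p ∈ (Icc 1 x).filter (fun p : ℕ => a < p), 1 / ((p : ℝ) - a) =
      ∑ n ∈ ((Icc 1 x).filter (fun p : ℕ => a < p)).image (fun p : ℕ => ((p : ℤ) - a).toNat),
        1 / (n : ℝ) := by
    rw [sum_image]
    · apply sum_congr rfl
      intro p hp
      rw [mem_filter] at hp
      congr 1
      have : (0:ℤ) ≤ (p : ℤ) - a := by omega
      have h2 : ((((p : ℤ) - a).toNat : ℤ) : ℝ) = (((p : ℤ) - a : ℤ) : ℝ) := by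
        rw [Int.toNat_of_nonneg this]
      push_cast at h2
      rw [← h2]
    · intro p hp q hq hpq
      rw [mem_coe, mem_filter] at hp hq
      have h3 : ((p : ℤ) - a).toNat = ((q : ℤ) - a).toNat := hpq
      omega
  rw [h1]
  apply sum_le_sum_of_subset_of_nonneg
  · intro n hn
    rw [mem_image] at hn
    obtain ⟨p, hp, rfl⟩ := hn
    rw [mem_filter, mem_Icc] at hp
    rw [mem_Icc]
    omega
  · intro _ _ _
    positivity

lemma log_quot_le {j : ℝ} (hj : 0 < j) : 0 ≤ Real.log ((j + 1) / j) ∧ Real.log ((j + 1) / j) ≤ 1 / j := by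
  constructor
  · apply Real.log_nonneg
    rw [le_div_iff₀ hj]
    linarith
  · have : Real.log ((j + 1) / j) ≤ (j + 1) / j - 1 := Real.log_le_sub_one_of_pos (by positivity)
    have e : (j + 1) / j - 1 = 1 / j := by field_simp; ring
    linarith

/-- the sum over the primes for one character -/
theorem char_main {x d j H M E f : ℕ} {a : ℤ} {L s : ℝ} (hd : 1 ≤ d) (hj : 1 ≤ j) (hH : 1 ≤ H)
    (hf : 1 ≤ f) (ha : a ≠ 0) (hfa : f.Coprime a.natAbs) (hM : M ≤ E) (hE : 1 + Real.log E ≤ 2 * L)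
    (hx : 1 ≤ x) (hax : (a.natAbs : ℝ) ≤ x)
    (hs : ta a.natAbs ≤ s) (hxL : 1 + Real.log (2 * x : ℕ) ≤ 3 * L) (hE1 : 1 ≤ E)
    (hpM : (2 * x : ℝ) / (d * j * H) ≤ M + 1) (ψ : DirichletCharacter ℂ f) :
    ‖∑ p ∈ Icc 1 x, ((pr p : ℝ) : ℂ) * ψ (p : ZMod f) * ((WW d j H M f a p : ℝ) : ℂ) -
      ((cst E (d * (f / Nat.gcd f d)) a.natAbs * Real.log ((j + 1) / j) : ℝ) : ℂ) *
        ∑ p ∈ (Icc 1 x).filter (fun p : ℕ => a < p), ((pr p : ℝ) : ℂ) * ψ (p : ZMod f)‖ ≤
      (8 * f * s * L ^ 2 / (Nat.totient d : ℝ)) * (d * (j + 1) * H) * (3 * L) := by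
  have hL0 : 0 ≤ L := by
    have : 0 ≤ Real.log E := Real.log_natCast_nonneg E
    linarith
  have hs0 : 0 ≤ s := (ta_nonneg _).trans hs
  have hlE : 0 ≤ Real.log E := Real.log_natCast_nonneg E
  have e1 : ∑ p ∈ Icc 1 x, ((pr p : ℝ) : ℂ) * ψ (p : ZMod f) * ((WW d j H M f a p : ℝ) : ℂ) =
      ∑ p ∈ (Icc 1 x).filter (fun p : ℕ => a < p),
        ((pr p : ℝ) : ℂ) * ψ (p : ZMod f) * ((WW d j H M f a p : ℝ) : ℂ) := by
    rw [sum_filter]
    apply sum_congr rfl
    intro p _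
    split_ifs with h
    · rfl
    · rw [WW_zero (by omega)]
      simp
  rw [e1, mul_sum, ← sum_sub_distrib]
  refine (norm_sum_le _ _).trans ?_
  have h2 : ∀ p ∈ (Icc 1 x).filter (fun p : ℕ => a < p),
      ‖((pr p : ℝ) : ℂ) * ψ (p : ZMod f) * ((WW d j H M f a p : ℝ) : ℂ) -
      ((cst E (d * (f / Nat.gcd f d)) a.natAbs * Real.log ((j + 1) / j) : ℝ) : ℂ) *
        (((pr p : ℝ) : ℂ) * ψ (p : ZMod f))‖ ≤
      (8 * f * s * L ^ 2 / (Nat.totient d : ℝ)) * (d * (j + 1) * H) * (1 / ((p : ℝ) - a)) := by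
    intro p hp
    rw [mem_filter, mem_Icc] at hp
    have hpa : (0:ℝ) < (p : ℝ) - a := by
      have : (a:ℝ) < p := by exact_mod_cast hp.2
      linarith
    have hd0 : (0:ℝ) < d := by exact_mod_cast hd
    have hj0 : (0:ℝ) < j := by exact_mod_cast hj
    have hH0 : (0:ℝ) < H := by exact_mod_cast hH
    have h3 : ((p : ℝ) - a) / (d * j * H) ≤ M + 1 := by
      refine le_trans ?_ hpM
      gcongr
      have g1 : (p:ℝ) ≤ x := by exact_mod_cast hp.1.2
      have g2 : -(a:ℝ) ≤ a.natAbs := by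
        have : -a ≤ (a.natAbs : ℤ) := by omega
        have h := (Int.cast_le (R := ℝ)).2 this
        rw [Int.cast_neg, Int.cast_natCast] at h
        exact h
      linarith
    have h4 := WW_est (E := E) hd hj hH hf ha hfa hM hp.2 h3
    have e2 : ((pr p : ℝ) : ℂ) * ψ (p : ZMod f) * ((WW d j H M f a p : ℝ) : ℂ) -
        ((cst E (d * (f / Nat.gcd f d)) a.natAbs * Real.log ((j + 1) / j) : ℝ) : ℂ) *
        (((pr p : ℝ) : ℂ) * ψ (p : ZMod f)) = ((pr p : ℝ) : ℂ) * ψ (p : ZMod f) *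
        (((WW d j H M f a p - cst E (d * (f / Nat.gcd f d)) a.natAbs * Real.log ((j + 1) / j) : ℝ)) : ℂ) := by
      push_cast
      ring
    rw [e2, norm_mul, norm_mul, Complex.norm_real, Complex.norm_real, Real.norm_eq_abs,
      Real.norm_eq_abs, abs_of_nonneg (pr_nonneg p)]
    have g3 := pr_le_one p
    have g4 := pr_nonneg p
    have g5 := ψ.norm_le_one (p : ZMod f)
    have g6 := norm_nonneg (ψ (p : ZMod f))
    have g7 : pr p * ‖ψ (p : ZMod f)‖ ≤ 1 := by nlinarith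
    have hφ : (0:ℝ) < Nat.totient d := by exact_mod_cast Nat.totient_pos.2 hd
    have ht0 := ta_nonneg a.natAbs
    calc pr p * ‖ψ (p : ZMod f)‖ * _ ≤ 1 * ((2 * f * ta a.natAbs * (1 + Real.log E) ^ 2 / (Nat.totient d : ℝ)) *
        (d * (j + 1) * H / ((p : ℝ) - a))) := by
          apply mul_le_mul g7 h4 (abs_nonneg _) (by norm_num)
      _ ≤ 1 * ((2 * f * s * (2 * L) ^ 2 / (Nat.totient d : ℝ)) * (d * (j + 1) * H / ((p : ℝ) - a))) := by
          gcongr
      _ = _ := by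
          ring
  refine (sum_le_sum h2).trans ?_
  rw [← mul_sum]
  have hφ : (0:ℝ) < Nat.totient d := by exact_mod_cast Nat.totient_pos.2 hd
  apply mul_le_mul_of_nonneg_left _ (by positivity)
  refine (harm_shift x a (2 * x) (by omega) ?_).trans hxL
  have : a.natAbs ≤ x := by exact_mod_cast hax
  push_cast
  omega

/-- characters of conductor at least two -/
theorem char_sum {x f : ℕ} {a : ℤ} (hx : 2 ≤ x) (hax : a.natAbs ≤ x)
    (ψ : DirichletCharacter ℂ f) (hne : (Icc 2 x).Nonempty) :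
    ‖∑ p ∈ (Icc 1 x).filter (fun p : ℕ => a < p), ((pr p : ℝ) : ℂ) * ψ (p : ZMod f)‖ ≤
      2 * MX (Icc 2 x) hne f ψ := by
  have hM0 := MX_nonneg (Icc 2 x) hne f ψ
  have hPS : ∀ N : ℕ, N ≤ x → ‖PS N f ψ‖ ≤ MX (Icc 2 x) hne f ψ := by
    intro N hN
    by_cases h2 : 2 ≤ N
    · exact le_MX _ hne f ψ (mem_Icc.2 ⟨h2, hN⟩)
    · have : PS N f ψ = 0 := by
        unfold PS
        apply sum_eq_zero
        intro n hn
        rw [mem_Icc] at hn
        have hn1 : n = 1 := by omega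
        subst hn1
        simp [Nat.not_prime_one]
      rw [this, norm_zero]
      exact hM0
  have hpr : ∀ p, pr p = if p.Prime then (1:ℝ) else 0 := fun p => rfl
  have e1 : ∑ p ∈ (Icc 1 x).filter (fun p : ℕ => a < p), ((pr p : ℝ) : ℂ) * ψ (p : ZMod f) =
      PS x f ψ - PS a.toNat f ψ := by
    have e2 : PS x f ψ = ∑ p ∈ (Icc 1 x).filter (fun p : ℕ => a < p), ((pr p : ℝ) : ℂ) * ψ (p : ZMod f) +
        PS a.toNat f ψ := by
      unfold PS
      rw [← sum_filter_add_sum_filter_not (Icc 1 x) (fun p : ℕ => a < p)]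
      simp only [hpr]
      congr 1
      apply sum_congr _ fun _ _ => rfl
      ext p
      rw [mem_filter, mem_Icc, mem_Icc]
      omega
    rw [e2]
    ring
  rw [e1]
  have h1 := hPS x le_rfl
  have h2 := hPS a.toNat (by omega)
  have h3 := norm_sub_le (PS x f ψ) (PS a.toNat f ψ)
  linarith

/-- the number of the primes up to `x` -/
noncomputable def piN (x : ℕ) : ℝ := ∑ p ∈ Icc 1 x, pr p

lemma piN_le (x : ℕ) : piN x ≤ x := by
  unfold piN
  calc ∑ p ∈ Icc 1 x, pr p ≤ ∑ _p ∈ Icc 1 x, (1:ℝ) := sum_le_sum fun p _ => pr_le_one p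
    _ = x := by simp

lemma piN_nonneg (x : ℕ) : 0 ≤ piN x := sum_nonneg fun p _ => pr_nonneg p

lemma pi_diff {x : ℕ} {a : ℤ} :
    |piN x - ∑ p ∈ (Icc 1 x).filter (fun p : ℕ => a < p), pr p| ≤ a.natAbs := by
  unfold piN
  rw [← sum_filter_add_sum_filter_not (Icc 1 x) (fun p : ℕ => a < p), add_sub_cancel_left,
    abs_of_nonneg (sum_nonneg fun p _ => pr_nonneg p)]
  calc ∑ p ∈ (Icc 1 x).filter (fun p : ℕ => ¬ a < p), pr p ≤
      ∑ _p ∈ (Icc 1 x).filter (fun p : ℕ => ¬ a < p), (1:ℝ) := sum_le_sum fun p _ => pr_le_one p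
    _ = (((Icc 1 x).filter (fun p : ℕ => ¬ a < p)).card : ℝ) := by simp
    _ ≤ a.natAbs := by
        have : (Icc 1 x).filter (fun p : ℕ => ¬ a < p) ⊆ Icc 1 a.natAbs := by
          intro p hp
          rw [mem_filter, mem_Icc] at hp
          rw [mem_Icc]
          omega
        have h := card_le_card this
        rw [Nat.card_Icc, Nat.add_sub_cancel] at h
        exact_mod_cast h

/-- the main term -/
noncomputable def MT (H j d : ℕ) (a : ℤ) : ℝ :=
  ∑ q ∈ (Ioc (j * H) ((j + 1) * H)).filter (fun q => q.Coprime a.natAbs), 1 / (Nat.totient (d * q) : ℝ)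

theorem MT_est {x d j H E : ℕ} {a : ℤ} {L s : ℝ} (hd : 1 ≤ d) (hj : 1 ≤ j) (hH : 1 ≤ H)
    (ha : a ≠ 0) (hE : 1 + Real.log E ≤ 2 * L) (hL1 : 1 ≤ L)
    (hs : ta a.natAbs ≤ s) (hs1 : 1 ≤ s) (hjE : (j + 1) * H ≤ E) (hla : 1 + Real.log a.natAbs ≤ 2 * L) :
    |piN x * MT H j d a - cst E d a.natAbs * Real.log ((j + 1) / j) * piN x| ≤
      16 * x * s * L ^ 3 / (j * H) := by
  have ha1 : 1 ≤ a.natAbs := Int.natAbs_pos.2 ha
  have hd0 : (0:ℝ) < d := by exact_mod_cast hd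
  have hj0 : (0:ℝ) < j := by exact_mod_cast hj
  have hH0 : (0:ℝ) < H := by exact_mod_cast hH
  have hs0 : 0 ≤ s := (ta_nonneg _).trans hs
  have hlE : 0 ≤ Real.log E := Real.log_natCast_nonneg E
  have hla0 : 0 ≤ Real.log a.natAbs := Real.log_natCast_nonneg _
  have hφ1 : (1:ℝ) ≤ Nat.totient d := by exact_mod_cast Nat.totient_pos.2 hd
  have e1 : MT H j d a = ∑ m ∈ Icc 1 ((j + 1) * H), (if 1 ∣ m ∧ m.Coprime a.natAbs ∧
      ((j * H + 1 : ℕ) : ℝ) ≤ m ∧ (m : ℝ) < (((j + 1) * H + 1 : ℕ) : ℝ) then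
        1 / (Nat.totient (d * m) : ℝ) else 0) := by
    unfold MT
    rw [← sum_filter]
    apply sum_congr _ fun _ _ => rfl
    ext m
    rw [mem_filter, mem_filter, mem_Ioc, mem_Icc, Nat.cast_le, Nat.cast_lt]
    constructor
    · rintro ⟨⟨h1, h2⟩, h3⟩
      exact ⟨⟨by omega, h2⟩, one_dvd m, h3, by omega, by omega⟩
    · rintro ⟨⟨h1, h2⟩, _, h3, h4, h5⟩
      exact ⟨⟨by omega, h2⟩, h3⟩
  have h12 : ((j * H + 1 : ℕ) : ℝ) ≤ (((j + 1) * H + 1 : ℕ) : ℝ) := by
    have : j * H + 1 ≤ (j + 1) * H + 1 := by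
      have : j * H ≤ (j + 1) * H := Nat.mul_le_mul_right _ (by omega)
      omega
    exact_mod_cast this
  have h := dens (d := d) (g := 1) (a := a.natAbs) (M := (j + 1) * H) (E := E) hd le_rfl ha1
    (Nat.coprime_one_left _) hjE (y1 := ((j * H + 1 : ℕ) : ℝ)) (y2 := (((j + 1) * H + 1 : ℕ) : ℝ))
    (by positivity) h12 (by push_cast; linarith)
  rw [← e1, mul_one] at h
  have hc := cst_abs E d a.natAbs ha1
  have hc2 : |cst E d a.natAbs| ≤ 8 * L ^ 3 := by
    refine hc.trans ?_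
    calc 1 / (Nat.totient d : ℝ) * (1 + Real.log E) ^ 2 * (1 + Real.log a.natAbs) ≤
        1 * (2 * L) ^ 2 * (2 * L) := by
          have : 1 / (Nat.totient d : ℝ) ≤ 1 := by
            rw [div_le_one (by linarith)]
            exact hφ1
          gcongr
      _ = _ := by ring
  -- the two logarithms
  have hlog : |Real.log ((((j + 1) * H + 1 : ℕ) : ℝ) / ((j * H + 1 : ℕ) : ℝ)) - Real.log ((j + 1) / j)| ≤
      1 / (j * H) := by
    set A : ℝ := (((j + 1) * H + 1 : ℕ) : ℝ) / ((j * H + 1 : ℕ) : ℝ) with hA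
    set B : ℝ := ((j:ℝ) + 1) / j with hB
    have hA0 : 0 < A := by positivity
    have hB0 : 0 < B := by positivity
    have hAB : A ≤ B := by
      rw [hA, hB, div_le_div_iff₀ (by positivity) hj0]
      push_cast
      nlinarith
    have h1 : Real.log A ≤ Real.log B := Real.log_le_log hA0 hAB
    have h2 : Real.log (B / A) ≤ B / A - 1 := Real.log_le_sub_one_of_pos (by positivity)
    rw [Real.log_div hB0.ne' hA0.ne'] at h2
    have h3 : B / A - 1 ≤ 1 / (j * H) := by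
      have e : B / A - 1 = 1 / (j * ((j + 1) * H + 1)) := by
        rw [hA, hB]
        push_cast
        field_simp
        ring
      rw [e]
      apply one_div_le_one_div_of_le (by positivity)
      have : (0:ℝ) ≤ j * H := by positivity
      nlinarith
    rw [abs_sub_comm, abs_of_nonneg (by linarith)]
    linarith
  set A := Real.log ((((j + 1) * H + 1 : ℕ) : ℝ) / ((j * H + 1 : ℕ) : ℝ)) with hA
  set B := Real.log (((j:ℝ) + 1) / j) with hB
  have e3 : piN x * MT H j d a - cst E d a.natAbs * B * piN x =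
      piN x * ((MT H j d a - cst E d a.natAbs * A) + cst E d a.natAbs * (A - B)) := by ring
  rw [e3, abs_mul, abs_of_nonneg (piN_nonneg x)]
  have h6 : |MT H j d a - cst E d a.natAbs * A| ≤ 8 * s * L ^ 2 / (j * H) := by
    refine h.trans ?_
    have ht0 := ta_nonneg a.natAbs
    calc (2 * ((1:ℕ):ℝ) * ta a.natAbs * (1 + Real.log E) ^ 2 / (Nat.totient d : ℝ)) / ((j * H + 1 : ℕ) : ℝ) ≤
        (2 * ((1:ℕ):ℝ) * s * (2 * L) ^ 2 / 1) / (j * H) := by
          gcongr
          push_cast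
          linarith
      _ = _ := by push_cast; ring
  have h7 : |cst E d a.natAbs * (A - B)| ≤ 8 * L ^ 3 / (j * H) := by
    rw [abs_mul]
    calc |cst E d a.natAbs| * |A - B| ≤ 8 * L ^ 3 * (1 / (j * H)) := by gcongr
      _ = _ := by ring
  have h8 := abs_add_le (MT H j d a - cst E d a.natAbs * A) (cst E d a.natAbs * (A - B))
  have hx := piN_le x
  have hx0 := piN_nonneg x
  calc piN x * |MT H j d a - cst E d a.natAbs * A + cst E d a.natAbs * (A - B)| ≤
      x * (8 * s * L ^ 2 / (j * H) + 8 * L ^ 3 / (j * H)) := by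
        gcongr
        linarith
    _ ≤ x * (8 * s * L ^ 3 / (j * H) + 8 * s * L ^ 3 / (j * H)) := by
        have g1 : L ^ 2 ≤ L ^ 3 := pow_le_pow_right₀ hL1 (by norm_num)
        have g2 : 8 * L ^ 3 ≤ 8 * s * L ^ 3 := by
          have : 0 ≤ L ^ 3 := by positivity
          nlinarith
        gcongr
    _ = _ := by ring

end Run7.h905.SM
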