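import Pool.Agent.Run7.h905.SM.Low3

/-!
The contribution of the small conductors: total.
-/

set_option autoImplicit false

open Finset

namespace Run7.h905.SM

open Pool.Agent.H398R2.BV (Prim card_prim_le prim_ne_one)
open Pool.Agent.H441R3.BV (kap PS MX le_MX MX_nonneg inv_tot_le)

/-- the assumptions on the parameters for the small conductors -/
structure LP (x d j H M R : ℕ) (a : ℤ) (L s : ℝ) : Prop where
  hd : 1 ≤ d
  hj : 1 ≤ j
  hH : 1 ≤ H
  hR : 1 ≤ R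
  ha : a ≠ 0
  hda : d.Coprime a.natAbs
  hx : 2 ≤ x
  hjH : (j + 1) * H ≤ x
  haj : a.natAbs ≤ j * H
  hdM : d * M ≤ x
  hL : 1 ≤ L
  hLx : 1 + Real.log x ≤ 2 * L
  hLx2 : 1 + Real.log (2 * x : ℕ) ≤ 3 * L
  hT : ∀ n : ℕ, 1 ≤ n → n ≤ x → (n.divisors.card : ℝ) ≤ s
  hpM : (2 * x : ℝ) / (d * j * H) ≤ M + 1

namespace LP

variable {x d j H M R : ℕ} {a : ℤ} {L s : ℝ}

lemma hM (h : LP x d j H M R a L s) : M ≤ x := by
  refine le_trans ?_ h.hdM
  exact Nat.le_mul_of_pos_left _ h.hd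

lemma ha1 (h : LP x d j H M R a L s) : 1 ≤ a.natAbs := Int.natAbs_pos.2 h.ha

lemma hax (h : LP x d j H M R a L s) : a.natAbs ≤ x := by
  refine h.haj.trans (le_trans ?_ h.hjH)
  exact Nat.mul_le_mul_right _ (by omega)

lemma hta (h : LP x d j H M R a L s) : ta a.natAbs ≤ s := h.hT _ h.ha1 h.hax

lemma hs1 (h : LP x d j H M R a L s) : 1 ≤ s := by
  have h1 := h.hT 1 le_rfl (by have := h.hx; omega)
  simpa using h1

lemma hla (h : LP x d j H M R a L s) : 1 + Real.log a.natAbs ≤ 2 * L := by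
  refine le_trans ?_ h.hLx
  have : Real.log a.natAbs ≤ Real.log x := by
    apply Real.log_le_log
    · exact_mod_cast h.ha1
    · exact_mod_cast h.hax
  linarith

lemma hdx (h : LP x d j H M R a L s) (hM1 : 1 ≤ M) : d ≤ x :=
  (Nat.le_mul_of_pos_right _ hM1).trans h.hdM

lemma cst_le (h : LP x d j H M R a L s) (g : ℕ) (hg : 1 ≤ g) :
    |cst x (d * g) a.natAbs| ≤ 8 * L ^ 3 / Nat.totient d := by
  have hφ : (0:ℝ) < Nat.totient d := by exact_mod_cast Nat.totient_pos.2 h.hd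
  have hφ2 : (Nat.totient d : ℝ) ≤ Nat.totient (d * g) := by
    exact_mod_cast Nat.le_of_dvd (Nat.totient_pos.2 (Nat.mul_pos h.hd hg))
      (Nat.totient_dvd_of_dvd (dvd_mul_right d g))
  have hlE : 0 ≤ Real.log x := Real.log_natCast_nonneg x
  have hla0 : 0 ≤ Real.log a.natAbs := Real.log_natCast_nonneg _
  refine (cst_abs x (d * g) a.natAbs h.ha1).trans ?_
  have h1 := h.hLx
  have h2 := h.hla
  have h3 := h.hL
  calc 1 / (Nat.totient (d * g) : ℝ) * (1 + Real.log x) ^ 2 * (1 + Real.log a.natAbs) ≤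
      1 / (Nat.totient d : ℝ) * (2 * L) ^ 2 * (2 * L) := by gcongr
    _ = _ := by ring

lemma dphi (h : LP x d j H M R a L s) (hdx : d ≤ x) : (d : ℝ) / Nat.totient d ≤ s := by
  have h1 := inv_tot_le d h.hd
  have hd0 : (0:ℝ) < d := by exact_mod_cast h.hd
  have h2 := h.hT d h.hd hdx
  calc (d : ℝ) / Nat.totient d = d * (1 / (Nat.totient d : ℝ)) := by ring
    _ ≤ d * ((d.divisors.card : ℝ) / d) := by gcongr
    _ = d.divisors.card := by field_simp
    _ ≤ s := h2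

/-- the error term for one character -/
lemma err_f (h : LP x d j H M R a L s) (hdx : d ≤ x) (f : ℕ) (hf : f ≤ R) :
    (8 * f * s * L ^ 2 / (Nat.totient d : ℝ)) * (d * (j + 1) * H) * (3 * L) ≤
      24 * R * s ^ 2 * L ^ 3 * ((j + 1) * H) := by
  have h1 := h.dphi hdx
  have h2 := h.hL
  have h3 := h.hs1
  have hfR : (f:ℝ) ≤ R := by exact_mod_cast hf
  calc (8 * f * s * L ^ 2 / (Nat.totient d : ℝ)) * (d * (j + 1) * H) * (3 * L) =
      24 * f * s * L ^ 3 * ((d : ℝ) / Nat.totient d) * ((j + 1) * H) := by ring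
    _ ≤ 24 * R * s * L ^ 3 * s * ((j + 1) * H) := by gcongr
    _ = _ := by ring

/-- conductors at least two -/
lemma big_f (h : LP x d j H M R a L s) (hdx : d ≤ x) (hne : (Icc 2 x).Nonempty) (f : ℕ)
    (hf : f ∈ Icc 2 R) :
    ‖∑ ψ ∈ Prim f, ψ⁻¹ (a : ZMod f) *
      ∑ p ∈ Icc 1 x, ((pr p : ℝ) : ℂ) * ψ (p : ZMod f) * ((WW d j H M f a p : ℝ) : ℂ)‖ ≤
    (16 * L ^ 3 / (Nat.totient d * j)) * ∑ ψ ∈ Prim f, MX (Icc 2 x) hne f ψ +
      24 * R ^ 2 * s ^ 2 * L ^ 3 * ((j + 1) * H) := by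
  rw [mem_Icc] at hf
  have hL := h.hL
  have hs1 := h.hs1
  have hj0 : (0:ℝ) < j := by exact_mod_cast h.hj
  have hφ : (0:ℝ) < Nat.totient d := by exact_mod_cast Nat.totient_pos.2 h.hd
  have h0 : ∀ ψ ∈ Prim f, ‖ψ⁻¹ (a : ZMod f) *
      ∑ p ∈ Icc 1 x, ((pr p : ℝ) : ℂ) * ψ (p : ZMod f) * ((WW d j H M f a p : ℝ) : ℂ)‖ ≤
      (16 * L ^ 3 / (Nat.totient d * j)) * MX (Icc 2 x) hne f ψ +
        24 * R * s ^ 2 * L ^ 3 * ((j + 1) * H) := by
    intro ψ _
    have hMX0 := MX_nonneg (Icc 2 x) hne f ψ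
    have hrhs : 0 ≤ (16 * L ^ 3 / (Nat.totient d * j)) * MX (Icc 2 x) hne f ψ +
        24 * R * s ^ 2 * L ^ 3 * ((j + 1) * H) := by positivity
    by_cases hfa : f.Coprime a.natAbs
    · rw [norm_mul]
      have g1 := (ψ⁻¹).norm_le_one (a : ZMod f)
      have g2 := char_main (E := x) (L := L) (s := s) h.hd h.hj h.hH (by omega : 1 ≤ f) h.ha hfa h.hM
        h.hLx (by have := h.hx; omega) (by exact_mod_cast h.hax) h.hta h.hLx2
        (by have := h.hx; omega) h.hpM ψ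
      have g3 := char_sum h.hx h.hax ψ hne
      have g4 := h.err_f hdx f hf.2
      have hg1 : 1 ≤ f / Nat.gcd f d := by
        rw [Nat.one_le_div_iff (Nat.gcd_pos_of_pos_left _ (by omega))]
        exact Nat.gcd_le_left _ (by omega)
      have g5 := h.cst_le (f / Nat.gcd f d) hg1
      have g6 := log_quot_le hj0
      have g60 := g6.1
      have g61 := g6.2
      set C := cst x (d * (f / Nat.gcd f d)) a.natAbs with hC
      set S1 := ∑ p ∈ Icc 1 x, ((pr p : ℝ) : ℂ) * ψ (p : ZMod f) * ((WW d j H M f a p : ℝ) : ℂ) with hS1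
      set S2 := ∑ p ∈ (Icc 1 x).filter (fun p : ℕ => a < p), ((pr p : ℝ) : ℂ) * ψ (p : ZMod f) with hS2
      have g7 : ‖((C * Real.log ((j + 1) / j) : ℝ) : ℂ) * S2‖ ≤
          (16 * L ^ 3 / (Nat.totient d * j)) * MX (Icc 2 x) hne f ψ := by
        rw [norm_mul, Complex.norm_real, Real.norm_eq_abs, abs_mul, abs_of_nonneg g6.1]
        calc |C| * Real.log ((j + 1) / j) * ‖S2‖ ≤
            (8 * L ^ 3 / Nat.totient d) * (1 / j) * (2 * MX (Icc 2 x) hne f ψ) := by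
              gcongr
          _ = _ := by field_simp; ring
      have g8 : ‖S1‖ ≤ (16 * L ^ 3 / (Nat.totient d * j)) * MX (Icc 2 x) hne f ψ +
          24 * R * s ^ 2 * L ^ 3 * ((j + 1) * H) := by
        have e1 : S1 = ((C * Real.log ((j + 1) / j) : ℝ) : ℂ) * S2 +
            (S1 - ((C * Real.log ((j + 1) / j) : ℝ) : ℂ) * S2) := by ring
        rw [e1]
        exact (norm_add_le _ _).trans (add_le_add g7 (g2.trans g4))
      calc ‖ψ⁻¹ (a : ZMod f)‖ * ‖S1‖ ≤ 1 * ‖S1‖ := by gcongr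
        _ = ‖S1‖ := one_mul _
        _ ≤ _ := g8
    · have : ψ⁻¹ (a : ZMod f) = 0 := by
        apply MulChar.map_nonunit
        intro hu
        apply hfa
        rw [ZMod.coe_int_isUnit_iff_isCoprime] at hu
        rw [Nat.coprime_comm]
        have := Int.isCoprime_iff_gcd_eq_one.1 hu
        rw [Int.gcd_comm] at this
        simpa [Int.gcd] using this
      rw [this, zero_mul, norm_zero]
      exact hrhs
  refine (norm_sum_le _ _).trans ((sum_le_sum h0).trans ?_)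
  rw [sum_add_distrib, ← mul_sum, sum_const, nsmul_eq_mul]
  have g1 := card_prim_le (f := f) (by omega)
  have g2 : (Nat.totient f : ℝ) ≤ R := by exact_mod_cast (Nat.totient_le f).trans hf.2
  have g3 : ((Prim f).card : ℝ) ≤ R := g1.trans g2
  apply add_le_add_right
  calc ((Prim f).card : ℝ) * (24 * R * s ^ 2 * L ^ 3 * ((j + 1) * H)) ≤
      R * (24 * R * s ^ 2 * L ^ 3 * ((j + 1) * H)) := by gcongr
    _ = _ := by ring

end LP

end Run7.h905.SM
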