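import Pool.Agent.Run7.h905.SM.Low4

/-!
The contribution of the small conductors: the main term and the total.
-/

set_option autoImplicit false

open Finset

namespace Run7.h905.SM

open Pool.Agent.H398R2.BV (Prim card_prim_le prim_ne_one)
open Pool.Agent.H441R3.BV (kap PS MX le_MX MX_nonneg inv_tot_le)

namespace LP

variable {x d j H M R : ℕ} {a : ℤ} {L s : ℝ}

lemma prim_one : Prim 1 = {1} := by
  ext ψ
  rw [mem_prim, mem_singleton]
  constructor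
  · intro _
    exact Subsingleton.elim _ _
  · rintro rfl
    exact DirichletCharacter.conductor_one

/-- conductor one -/
lemma one_f (h : LP x d j H M R a L s) (hdx : d ≤ x) :
    ‖∑ ψ ∈ Prim 1, ψ⁻¹ (a : ZMod 1) *
      ∑ p ∈ Icc 1 x, ((pr p : ℝ) : ℂ) * ψ (p : ZMod 1) * ((WW d j H M 1 a p : ℝ) : ℂ) -
      ((piN x * MT H j d a : ℝ) : ℂ)‖ ≤
    32 * R * s ^ 2 * L ^ 3 * ((j + 1) * H) + 16 * x * s * L ^ 3 / (j * H) := by
  have hL := h.hL
  have hs1 := h.hs1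
  have hj0 : (0:ℝ) < j := by exact_mod_cast h.hj
  have hR1 : (1:ℝ) ≤ R := by exact_mod_cast h.hR
  have hφ : (0:ℝ) < Nat.totient d := by exact_mod_cast Nat.totient_pos.2 h.hd
  have hφ1 : (1:ℝ) ≤ Nat.totient d := by exact_mod_cast Nat.totient_pos.2 h.hd
  rw [prim_one, sum_singleton]
  have hun : ∀ u : ZMod 1, (1 : DirichletCharacter ℂ 1) u = 1 := by
    intro u
    rw [show u = 1 from Subsingleton.elim _ _]
    simp
  have e0 : ((1 : DirichletCharacter ℂ 1)⁻¹) (a : ZMod 1) = 1 := by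
    rw [inv_one]
    exact hun _
  rw [e0, one_mul]
  have g2 := char_main (E := x) (L := L) (s := s) h.hd h.hj h.hH (le_refl 1) h.ha
    (Nat.coprime_one_left _) h.hM
    h.hLx (by have := h.hx; omega) (by exact_mod_cast h.hax) h.hta h.hLx2
    (by have := h.hx; omega) h.hpM (1 : DirichletCharacter ℂ 1)
  have g4 := h.err_f hdx 1 h.hR
  have g5 := h.cst_le 1 le_rfl
  have g6 := log_quot_le hj0
  have g60 := g6.1
  have g61 := g6.2
  have hg : 1 / Nat.gcd 1 d = 1 := by simp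
  rw [hg] at g2
  simp only [hun, mul_one] at g2 ⊢
  rw [mul_one] at g5
  have g7 := MT_est (x := x) (E := x) h.hd h.hj h.hH h.ha h.hLx hL h.hta hs1 h.hjH h.hla
  set C := cst x d a.natAbs with hC
  set B := Real.log (((j:ℝ) + 1) / j) with hB
  set S1 := ∑ p ∈ Icc 1 x, ((pr p : ℝ) : ℂ) * ((WW d j H M 1 a p : ℝ) : ℂ) with hS1
  have e2 : ∑ p ∈ (Icc 1 x).filter (fun p : ℕ => a < p), ((pr p : ℝ) : ℂ) =
      ((∑ p ∈ (Icc 1 x).filter (fun p : ℕ => a < p), pr p : ℝ) : ℂ) := by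
    rw [Complex.ofReal_sum]
  rw [e2] at g2
  set P := ∑ p ∈ (Icc 1 x).filter (fun p : ℕ => a < p), pr p with hP
  have g8 : |piN x - P| ≤ a.natAbs := pi_diff
  have g9 : (a.natAbs : ℝ) ≤ j * H := by exact_mod_cast h.haj
  have e3 : S1 - ((piN x * MT H j d a : ℝ) : ℂ) = (S1 - ((C * B : ℝ) : ℂ) * ((P : ℝ) : ℂ)) -
      ((C * B * (piN x - P) : ℝ) : ℂ) - ((piN x * MT H j d a - C * B * piN x : ℝ) : ℂ) := by
    push_cast
    ring
  rw [e3]
  have t1 : ‖((C * B * (piN x - P) : ℝ) : ℂ)‖ ≤ 8 * L ^ 3 * H := by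
    rw [Complex.norm_real, Real.norm_eq_abs, abs_mul, abs_mul, abs_of_nonneg g60]
    calc |C| * B * |piN x - P| ≤ (8 * L ^ 3 / Nat.totient d) * (1 / j) * (j * H) := by
          gcongr
          exact g8.trans g9
      _ = 8 * L ^ 3 * H / Nat.totient d := by field_simp
      _ ≤ 8 * L ^ 3 * H / 1 := by gcongr
      _ = _ := by ring
  have t2 : ‖((piN x * MT H j d a - C * B * piN x : ℝ) : ℂ)‖ ≤ 16 * x * s * L ^ 3 / (j * H) := by
    rw [Complex.norm_real, Real.norm_eq_abs]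
    exact g7
  have t3 := norm_sub_le (S1 - ((C * B : ℝ) : ℂ) * ((P : ℝ) : ℂ)) ((C * B * (piN x - P) : ℝ) : ℂ)
  have t4 := norm_sub_le ((S1 - ((C * B : ℝ) : ℂ) * ((P : ℝ) : ℂ)) - ((C * B * (piN x - P) : ℝ) : ℂ))
    ((piN x * MT H j d a - C * B * piN x : ℝ) : ℂ)
  have t5 := g2.trans g4
  have t6 : 8 * L ^ 3 * H ≤ 8 * R * s ^ 2 * L ^ 3 * ((j + 1) * H) := by
    have b1 : (1:ℝ) ≤ s ^ 2 := one_le_pow₀ hs1
    have b2 : (H:ℝ) ≤ (j + 1) * H := by
      have : (0:ℝ) ≤ H := Nat.cast_nonneg _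
      nlinarith
    calc 8 * L ^ 3 * H = 8 * 1 * 1 * L ^ 3 * H := by ring
      _ ≤ 8 * R * s ^ 2 * L ^ 3 * ((j + 1) * H) := by gcongr
  have t7 : 32 * R * s ^ 2 * L ^ 3 * ((j + 1) * H) = 24 * R * s ^ 2 * L ^ 3 * ((j + 1) * H) +
      8 * R * s ^ 2 * L ^ 3 * ((j + 1) * H) := by ring
  rw [t7]
  linarith

/-- **the contribution of the small conductors** -/
theorem low_total (h : LP x d j H M R a L s) (hdx : d ≤ x) (hne : (Icc 2 x).Nonempty) :
    ‖∑ m ∈ (Icc 1 M).filter (fun m => m.Coprime a.natAbs), LC (d * m) R a (blk x H j (d * m) a) -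
      ((piN x * MT H j d a : ℝ) : ℂ)‖ ≤
    M * (R ^ 2 * s) + (16 * L ^ 3 / (Nat.totient d * j)) *
      ∑ f ∈ Icc 2 R, ∑ ψ ∈ Prim f, MX (Icc 2 x) hne f ψ +
      56 * R ^ 3 * s ^ 2 * L ^ 3 * ((j + 1) * H) + 16 * x * s * L ^ 3 / (j * H) := by
  have hL := h.hL
  have hs1 := h.hs1
  have hR1 : (1:ℝ) ≤ R := by exact_mod_cast h.hR
  -- first step
  have s1 : ‖∑ m ∈ (Icc 1 M).filter (fun m => m.Coprime a.natAbs), LC (d * m) R a (blk x H j (d * m) a) -
      ∑ m ∈ (Icc 1 M).filter (fun m => m.Coprime a.natAbs), LE (d * m) R a (blk x H j (d * m) a)‖ ≤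
      M * (R ^ 2 * s) := by
    rw [← sum_sub_distrib]
    refine (norm_sum_le _ _).trans ?_
    calc ∑ m ∈ (Icc 1 M).filter (fun m => m.Coprime a.natAbs),
        ‖LC (d * m) R a (blk x H j (d * m) a) - LE (d * m) R a (blk x H j (d * m) a)‖ ≤
        ∑ _m ∈ (Icc 1 M).filter (fun m => m.Coprime a.natAbs), ((R:ℝ) ^ 2 * s) := by
          apply sum_le_sum
          intro m hm
          rw [mem_filter, mem_Icc] at hm
          have hdm : 1 ≤ d * m := Nat.mul_pos h.hd hm.1.1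
          have hdmx : d * m ≤ x := (Nat.mul_le_mul_left d hm.1.2).trans h.hdM
          have hcop : IsCoprime a ((d * m : ℕ) : ℤ) := by
            rw [Int.isCoprime_iff_gcd_eq_one]
            have : Nat.Coprime (d * m) a.natAbs := Nat.Coprime.mul_left h.hda hm.2
            rw [Int.gcd, Int.natAbs_natCast, Nat.gcd_comm]
            exact this
          refine (LC_LE (d * m) R hdm hcop _).trans ?_
          have := (om_le_ta (d * m)).trans (h.hT _ hdm hdmx)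
          gcongr
      _ ≤ _ := by
          rw [sum_const, nsmul_eq_mul]
          have h1 := card_filter_le (Icc 1 M) (fun m => m.Coprime a.natAbs)
          rw [Nat.card_Icc, Nat.add_sub_cancel] at h1
          have h2 : (((Icc 1 M).filter (fun m => m.Coprime a.natAbs)).card : ℝ) ≤ M := by
            exact_mod_cast h1
          gcongr
  rw [LE_swap] at s1
  have hIcc : Icc 1 R = insert 1 (Icc 2 R) := by
    ext f
    rw [mem_insert, mem_Icc, mem_Icc]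
    have := h.hR
    omega
  rw [hIcc, sum_insert (by rw [mem_Icc]; omega)] at s1
  set T1 := ∑ ψ ∈ Prim 1, ψ⁻¹ (a : ZMod 1) *
      ∑ p ∈ Icc 1 x, ((pr p : ℝ) : ℂ) * ψ (p : ZMod 1) * ((WW d j H M 1 a p : ℝ) : ℂ) with hT1
  set T2 := ∑ f ∈ Icc 2 R, ∑ ψ ∈ Prim f, ψ⁻¹ (a : ZMod f) *
      ∑ p ∈ Icc 1 x, ((pr p : ℝ) : ℂ) * ψ (p : ZMod f) * ((WW d j H M f a p : ℝ) : ℂ) with hT2
  set T0 := ∑ m ∈ (Icc 1 M).filter (fun m => m.Coprime a.natAbs), LC (d * m) R a (blk x H j (d * m) a) with hT0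
  have s2 : ‖T2‖ ≤ (16 * L ^ 3 / (Nat.totient d * j)) *
      ∑ f ∈ Icc 2 R, ∑ ψ ∈ Prim f, MX (Icc 2 x) hne f ψ +
      24 * R ^ 3 * s ^ 2 * L ^ 3 * ((j + 1) * H) := by
    rw [hT2]
    refine (norm_sum_le _ _).trans ?_
    refine (sum_le_sum fun f hf => h.big_f hdx hne f hf).trans ?_
    rw [sum_add_distrib, ← mul_sum, sum_const, nsmul_eq_mul]
    apply add_le_add_right
    have h2 : ((Icc 2 R).card : ℝ) ≤ R := by
      have h1 : (Icc 2 R).card ≤ R := by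
        rw [Nat.card_Icc]
        omega
      exact_mod_cast h1
    calc ((Icc 2 R).card : ℝ) * (24 * R ^ 2 * s ^ 2 * L ^ 3 * ((j + 1) * H)) ≤
        R * (24 * R ^ 2 * s ^ 2 * L ^ 3 * ((j + 1) * H)) := by gcongr
      _ = _ := by ring
  have s3 := h.one_f hdx
  rw [← hT1] at s3
  have e1 : T0 - ((piN x * MT H j d a : ℝ) : ℂ) = (T0 - (T1 + T2)) + T2 +
      (T1 - ((piN x * MT H j d a : ℝ) : ℂ)) := by ring
  rw [e1]
  have t1 := norm_add_le ((T0 - (T1 + T2)) + T2) (T1 - ((piN x * MT H j d a : ℝ) : ℂ))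
  have t2 := norm_add_le (T0 - (T1 + T2)) T2
  have t3 : 32 * R * s ^ 2 * L ^ 3 * ((j + 1) * H) ≤ 32 * R ^ 3 * s ^ 2 * L ^ 3 * ((j + 1) * H) := by
    have : (R:ℝ) ≤ R ^ 3 := le_self_pow₀ hR1 (by norm_num)
    gcongr
  have t4 : 56 * R ^ 3 * s ^ 2 * L ^ 3 * ((j + 1) * H) = 24 * R ^ 3 * s ^ 2 * L ^ 3 * ((j + 1) * H) +
      32 * R ^ 3 * s ^ 2 * L ^ 3 * ((j + 1) * H) := by ring
  rw [t4]
  linarith

end LP

end Run7.h905.SM
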