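import Pool.Agent.Run7.h905.SM.Lam

/-!
The same for the primes.
-/

set_option autoImplicit false

open Finset

namespace Run7.h905.SM

open Pool.Agent.H398R2.BV (Prim card_prim_le prim_ne_one)
open Pool.Agent.H441R3.BV (kap GS)

/-- the indicator function of the primes -/
noncomputable def pr (n : ℕ) : ℝ := if n.Prime then 1 else 0

lemma pr_nonneg (n : ℕ) : 0 ≤ pr n := by unfold pr; split_ifs <;> norm_num

lemma pr_le_one (n : ℕ) : pr n ≤ 1 := by unfold pr; split_ifs <;> norm_num

/-- the difference of the primes and the normalised von Mangoldt function -/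
noncomputable def er (K n : ℕ) : ℝ :=
  if K ≤ kap K n then pr n - (K / kap K n : ℝ) * ArithmeticFunction.vonMangoldt n else 0

lemma er_sq (K n : ℕ) (hK : 0 < K) :
    er K n ^ 2 ≤ 1 / (K : ℝ) ^ 2 + if n.Prime then 0 else Real.log n * ArithmeticFunction.vonMangoldt n := by
  have hK0 : (0:ℝ) < K := by exact_mod_cast hK
  have hv := ArithmeticFunction.vonMangoldt_nonneg (n := n)
  have hl : 0 ≤ Real.log n := Real.log_natCast_nonneg n
  unfold er
  split_ifs with h1 h2 h2
  · have hk0 : (0:ℝ) < kap K n := by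
      have : 0 < kap K n := by omega
      exact_mod_cast this
    have hkK : (K:ℝ) ≤ kap K n := by exact_mod_cast h1
    have a1 : (kap K n : ℝ) ≤ K * Real.log n := Nat.floor_le (mul_nonneg hK0.le hl)
    have a2 : (K:ℝ) * Real.log n < kap K n + 1 := Nat.lt_floor_add_one _
    have e1 : pr n = 1 := by unfold pr; rw [if_pos h2]
    rw [e1, ArithmeticFunction.vonMangoldt_apply_prime h2, add_zero]
    have e2 : (1:ℝ) - K / kap K n * Real.log n = -((K * Real.log n - kap K n) / kap K n) := by
      field_simp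
      ring
    rw [e2, neg_sq, one_div, ← inv_pow, ← one_div]
    apply pow_le_pow_left₀
    · apply div_nonneg _ hk0.le
      linarith
    · rw [div_le_div_iff₀ hk0 hK0]
      nlinarith
  · have hk0 : (0:ℝ) < kap K n := by
      have : 0 < kap K n := by omega
      exact_mod_cast this
    have hkK : (K:ℝ) ≤ kap K n := by exact_mod_cast h1
    have e1 : pr n = 0 := by unfold pr; rw [if_neg h2]
    have e3 : (K:ℝ) / kap K n ≤ 1 := by rw [div_le_one hk0]; exact hkK
    have e4 : 0 ≤ (K:ℝ) / kap K n := by positivity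
    have hvl := ArithmeticFunction.vonMangoldt_le_log (n := n)
    have e5 : ((K:ℝ) / kap K n * ArithmeticFunction.vonMangoldt n) ^ 2 ≤
        ArithmeticFunction.vonMangoldt n ^ 2 := by
      apply pow_le_pow_left₀ (by positivity)
      exact mul_le_of_le_one_left hv e3
    rw [e1, zero_sub, neg_sq]
    have : 0 ≤ 1 / (K:ℝ) ^ 2 := by positivity
    nlinarith
  · have : 0 ≤ 1 / (K:ℝ) ^ 2 := by positivity
    simpa using this
  · have : 0 ≤ 1 / (K:ℝ) ^ 2 := by positivity
    have := mul_nonneg hl hv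
    simp only [ne_eq, OfNat.ofNat_ne_zero, not_false_eq_true, zero_pow]
    positivity

theorem er_sum {x K I : ℕ} (hK : 0 < K) (hx : 1 ≤ x) (hI : I ≤ kap K x) :
    ∑ n ∈ Icc 1 (gg K I), er K n ^ 2 ≤ x / (K : ℝ) ^ 2 + 2 * Real.sqrt x * Real.log x ^ 2 := by
  have hexp := exp_I_le hK hx hI
  have hgx : (gg K I : ℝ) ≤ x := (gg_lt K I).le.trans hexp
  have hgx' : gg K I ≤ x := by exact_mod_cast hgx
  have hx1 : (1:ℝ) ≤ x := by exact_mod_cast hx
  have hL0 : 0 ≤ Real.log x := Real.log_natCast_nonneg x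
  have h1 : ∑ n ∈ Icc 1 (gg K I), er K n ^ 2 ≤ ∑ n ∈ Ioc 0 x, (1 / (K : ℝ) ^ 2 +
      Real.log x * if ¬ n.Prime then ArithmeticFunction.vonMangoldt n else 0) := by
    have hsub : Icc 1 (gg K I) ⊆ Ioc 0 x := by
      intro n hn
      rw [mem_Icc] at hn
      rw [mem_Ioc]
      omega
    refine (sum_le_sum (fun n hn => ?_)).trans (sum_le_sum_of_subset_of_nonneg hsub ?_)
    · refine (er_sq K n hK).trans ?_
      rw [mem_Icc] at hn
      have hn0 : (0:ℝ) < n := by exact_mod_cast hn.1
      by_cases h : n.Prime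
      · simp [h]
      · simp only [h, if_false, not_false_eq_true, if_true]
        have h7 : Real.log n ≤ Real.log x := by
          apply Real.log_le_log hn0
          have : n ≤ x := by omega
          exact_mod_cast this
        have h8 := ArithmeticFunction.vonMangoldt_nonneg (n := n)
        have h9 := mul_le_mul_of_nonneg_right h7 h8
        linarith
    · intro n _ _
      have h8 := ArithmeticFunction.vonMangoldt_nonneg (n := n)
      have : 0 ≤ (if ¬ n.Prime then ArithmeticFunction.vonMangoldt n else 0 : ℝ) := by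
        by_cases h : n.Prime
        · simp [h]
        · simp only [h, not_false_eq_true, if_true]
          exact h8
      positivity
  refine h1.trans ?_
  rw [sum_add_distrib, sum_const, Nat.card_Ioc, nsmul_eq_mul, ← mul_sum, ← sum_filter]
  have h2 := Chebyshev.psi_sub_theta_eq_sum_not_prime (x : ℝ)
  rw [Nat.floor_natCast] at h2
  have h3 := Chebyshev.psi_sub_theta_le hx1
  rw [h2] at h3
  have h4 : Real.log x * ∑ n ∈ Ioc 0 x with ¬ n.Prime, ArithmeticFunction.vonMangoldt n ≤
      Real.log x * (2 * Real.sqrt x * Real.log x) := by gcongr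
  have h5 : (((x - 0 : ℕ) : ℝ)) * (1 / (K:ℝ) ^ 2) = x / (K:ℝ) ^ 2 := by
    rw [Nat.sub_zero]
    ring
  rw [h5]
  linarith

theorem pr_cell {x K I : ℕ} (hK : 0 < K) (f : ℕ) (ψ : DirichletCharacter ℂ f) :
    ∑ k ∈ range I, ‖CS pr K k f ψ‖ ≤
    ∑ k ∈ range I, ‖CS (fun n => ArithmeticFunction.vonMangoldt n) K k f ψ‖ +
      ∑ k ∈ range I, ‖CS (er K) K k f ψ‖ + 3 := by
  have hK0 : (0:ℝ) < K := by exact_mod_cast hK
  have h1 : ∀ k ∈ range I, ‖CS pr K k f ψ‖ ≤
      ‖CS (fun n => ArithmeticFunction.vonMangoldt n) K k f ψ‖ + ‖CS (er K) K k f ψ‖ +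
      (if k < K then ∑ n ∈ cell K k, |pr n| else 0) := by
    intro k _
    split_ifs with h
    · have : ‖CS pr K k f ψ‖ ≤ ∑ n ∈ cell K k, |pr n| := by
        unfold CS
        refine (norm_sum_le _ _).trans (sum_le_sum ?_)
        intro n _
        rw [norm_mul, Complex.norm_real, Real.norm_eq_abs]
        exact mul_le_of_le_one_right (abs_nonneg _) (ψ.norm_le_one _)
      have h2 := norm_nonneg (CS (fun n => ArithmeticFunction.vonMangoldt n) K k f ψ)
      have h3 := norm_nonneg (CS (er K) K k f ψ)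
      linarith
    · rw [add_zero]
      have hk0 : (0:ℝ) < k := by
        have : 0 < k := by omega
        exact_mod_cast this
      have hkK : (K:ℝ) ≤ k := by
        have : K ≤ k := by omega
        exact_mod_cast this
      have e1 : CS pr K k f ψ = (((K:ℝ) / k : ℝ) : ℂ) *
          CS (fun n => ArithmeticFunction.vonMangoldt n) K k f ψ + CS (er K) K k f ψ := by
        unfold CS
        rw [mul_sum, ← sum_add_distrib]
        apply sum_congr rfl
        intro n hn
        rw [mem_cell hK] at hn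
        have e2 : er K n = pr n - (K / k : ℝ) * ArithmeticFunction.vonMangoldt n := by
          unfold er
          rw [hn.2, if_pos (by omega)]
        rw [e2]
        push_cast
        ring
      rw [e1]
      refine (norm_add_le _ _).trans ?_
      gcongr
      rw [norm_mul, Complex.norm_real, Real.norm_eq_abs, abs_of_nonneg (by positivity)]
      apply mul_le_of_le_one_left (norm_nonneg _)
      rw [div_le_one hk0]
      exact hkK
  refine (sum_le_sum h1).trans ?_
  rw [sum_add_distrib, sum_add_distrib]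
  gcongr
  calc ∑ k ∈ range I, (if k < K then ∑ n ∈ cell K k, |pr n| else 0)
      = ∑ k ∈ (range I).filter (fun k => k < K), ∑ n ∈ cell K k, |pr n| := by rw [sum_filter]
    _ ≤ ∑ k ∈ range K, ∑ n ∈ cell K k, |pr n| := by
        apply sum_le_sum_of_subset_of_nonneg
        · intro k hk
          rw [mem_filter] at hk
          exact mem_range.2 hk.2
        · intro k _ _
          exact sum_nonneg fun _ _ => abs_nonneg _
    _ = ∑ n ∈ Icc 1 (gg K K), |pr n| := by rw [sum_cells]
    _ ≤ ∑ _n ∈ Icc 1 (gg K K), (1:ℝ) := by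
        apply sum_le_sum
        intro n _
        rw [abs_of_nonneg (pr_nonneg n)]
        exact pr_le_one n
    _ = gg K K := by
        rw [sum_const, Nat.card_Icc, nsmul_eq_mul]
        simp
    _ ≤ 3 := by
        have := gg_lt K K
        rw [div_self hK0.ne'] at this
        have h2 := Real.exp_one_lt_d9
        linarith

/-- the error term from the prime powers -/
noncomputable def ZZ (x K F I : ℕ) : ℝ :=
  5 * (Real.sqrt (x + 4 * (F : ℝ) ^ 2 * I) *
    Real.sqrt (x / (K : ℝ) ^ 2 + 2 * Real.sqrt x * Real.log x ^ 2))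

theorem pr_av {x K W U F I : ℕ} {T : ℝ} (hF : 0 < F) (hK : 0 < K) (hW : 2 ≤ W) (hx : 1 ≤ x)
    (hL : 1 ≤ Real.log x) (hKU : 3 * (K * W) ≤ U) (hUx : U ^ 3 ≤ x) (hI : I ≤ kap K x)
    (hT : ∀ n : ℕ, 1 ≤ n → n ≤ x → (n.divisors.card : ℝ) ≤ T) :
    Av F (fun f ψ => ∑ k ∈ range I, ‖CS pr K k f ψ‖) ≤
      F * (U * Real.log x) + F * (12 * F * I * U * Real.log x) +
      60 * Real.log x ^ 4 * XX x K W U F + 2 * YY x W F I T + ZZ x K F I + 3 * F := by
  have h1 : Av F (fun f ψ => ∑ k ∈ range I, ‖CS pr K k f ψ‖) ≤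
      Av F (fun f ψ => ∑ k ∈ range I, ‖CS (fun n => ArithmeticFunction.vonMangoldt n) K k f ψ‖) +
      Av F (fun f ψ => ∑ k ∈ range I, ‖CS (er K) K k f ψ‖) + Av F (fun _ _ => 3) := by
    rw [← Av_add, ← Av_add]
    apply Av_mono
    intro f _ ψ _
    exact pr_cell (x := x) hK f ψ
  have h2 := lam_av hF hK hW hx hL hKU hUx hI hT
  have h3 := edg F K I hF (er K)
  have h4 := er_sum hK hx hI
  have hexp := exp_I_le hK hx hI
  have hgx : (gg K I : ℝ) ≤ x := (gg_lt K I).le.trans hexp
  have h5 : Av F (fun f ψ => ∑ k ∈ range I, ‖CS (er K) K k f ψ‖) ≤ ZZ x K F I := by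
    refine h3.trans ?_
    unfold ZZ
    gcongr
  have h6 := Av_const F 3 (by norm_num)
  linarith

end Run7.h905.SM
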