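import Pool.Agent.Run7.h905.SM.TypeII
import Pool.Agent.H441R3.BV.Char
import Pool.Agent.H398R2.BV3
import Pool.Agent.Helper112.TypeI
import Pool.Agent.Helper112.TypeII

/-!
Vaughan's identity in cells: the average over the primitive characters of conductor in `(F, 2 F]` of
the sum over the cells of the character sums over the primes.
-/

set_option autoImplicit false

open Finset

namespace Run7.h905.SM

open Pool.Agent.H398R2.BV (Prim card_prim_le prim_ne_one norm_Icc_le abel_mono mono_log)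
open Pool.Agent.H441R3.BV (kap GS)
open Pool.Agent.Helper112
open Pool.Agent.Helper112.TI
open Pool.Agent.Helper112.TII (L2 L2_nonneg L2_le betaV_abs betaV_zero)

lemma hyperM {M : Type*} [AddCommMonoid M] (x : ℕ) (g : ℕ → ℕ → M) :
    ∑ n ∈ Icc 1 x, ∑ i ∈ n.divisorsAntidiagonal, g i.1 i.2 =
      ∑ b ∈ Icc 1 x, ∑ c ∈ Icc 1 (x / b), g b c := by
  rw [sum_sigma', sum_sigma']
  apply sum_nbij' (fun p => (⟨p.2.1, p.2.2⟩ : (_ : ℕ) × ℕ))
    (fun q => (⟨q.1 * q.2, (q.1, q.2)⟩ : (_ : ℕ) × (ℕ × ℕ)))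
  · rintro ⟨n, b, c⟩ hp
    simp only [mem_sigma, mem_Icc, Nat.mem_divisorsAntidiagonal] at hp ⊢
    obtain ⟨⟨h1, h2⟩, h3, h4⟩ := hp
    have hb : 0 < b := Nat.pos_of_ne_zero (by rintro rfl; simp at h3; omega)
    have hc : 0 < c := Nat.pos_of_ne_zero (by rintro rfl; simp at h3; omega)
    refine ⟨⟨hb, ?_⟩, hc, ?_⟩
    · have : b ≤ b * c := Nat.le_mul_of_pos_right b hc
      omega
    · rw [Nat.le_div_iff_mul_le hb, mul_comm]; omega
  · rintro ⟨b, c⟩ hp
    simp only [mem_sigma, mem_Icc, Nat.mem_divisorsAntidiagonal] at hp ⊢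
    obtain ⟨⟨h1, h2⟩, h3, h4⟩ := hp
    rw [Nat.le_div_iff_mul_le h1, mul_comm] at h4
    have : 0 < b * c := Nat.mul_pos h1 h3
    exact ⟨⟨this, h4⟩, trivial, this.ne'⟩
  · rintro ⟨n, b, c⟩ hp
    simp only [mem_sigma, mem_Icc, Nat.mem_divisorsAntidiagonal] at hp ⊢
    obtain ⟨⟨h1, h2⟩, h3, h4⟩ := hp
    subst h3
    rfl
  · rintro ⟨b, c⟩ hp
    rfl
  · rintro ⟨n, b, c⟩ hp
    rfl

lemma cs_triv (h : ℕ → ℝ) (K I f : ℕ) (ψ : DirichletCharacter ℂ f) :
    ∑ k ∈ range I, ‖CS h K k f ψ‖ ≤ ∑ n ∈ Icc 1 (gg K I), |h n| := by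
  rw [sum_cells]
  apply sum_le_sum
  intro k _
  unfold CS
  refine (norm_sum_le _ _).trans (sum_le_sum ?_)
  intro n _
  rw [norm_mul, Complex.norm_real, Real.norm_eq_abs]
  exact mul_le_of_le_one_right (abs_nonneg _) (ψ.norm_le_one _)

lemma cs_gs (h : ℕ → ℝ) (K I f : ℕ) (ψ : DirichletCharacter ℂ f) (B : ℝ)
    (hB : ∀ N ≤ gg K I, ‖GS h N f ψ‖ ≤ B) : ∑ k ∈ range I, ‖CS h K k f ψ‖ ≤ 2 * I * B := by
  calc ∑ k ∈ range I, ‖CS h K k f ψ‖ ≤ ∑ _k ∈ range I, 2 * B := by
        apply sum_le_sum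
        intro k hk
        rw [mem_range] at hk
        unfold CS
        rw [sum_cell_eq_sub]
        refine (norm_sub_le _ _).trans ?_
        have h1 := hB _ (gg_mono K (show k + 1 ≤ I by omega))
        have h2 := hB _ (gg_mono K hk.le)
        unfold GS at h1 h2
        linarith
    _ = 2 * I * B := by
        rw [sum_const, card_range, nsmul_eq_mul]
        ring

lemma gs_conv (c w : ℕ → ℝ) (N f : ℕ) (ψ : DirichletCharacter ℂ f) (B : ℝ)
    (hB : ∀ M ≤ N, ‖∑ b ∈ Icc 1 M, ((w b : ℝ) : ℂ) * ψ (b : ZMod f)‖ ≤ B) :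
    ‖GS (cv c w) N f ψ‖ ≤ (∑ d ∈ Icc 1 N, |c d|) * B := by
  have e1 : GS (cv c w) N f ψ = ∑ d ∈ Icc 1 N, ((c d : ℝ) : ℂ) * ψ (d : ZMod f) *
      ∑ b ∈ Icc 1 (N / d), ((w b : ℝ) : ℂ) * ψ (b : ZMod f) := by
    have := hyperM N (fun d b => ((c d : ℝ) : ℂ) * ψ (d : ZMod f) * (((w b : ℝ) : ℂ) * ψ (b : ZMod f)))
    simp_rw [mul_sum]
    rw [← this]
    unfold GS cv
    apply sum_congr rfl
    intro n _
    rw [Complex.ofReal_sum, sum_mul]
    apply sum_congr rfl
    intro p hp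
    rw [Nat.mem_divisorsAntidiagonal] at hp
    rw [← hp.1]
    push_cast
    rw [map_mul]
    ring
  rw [e1, sum_mul]
  refine (norm_sum_le _ _).trans (sum_le_sum ?_)
  intro d _
  rw [norm_mul, norm_mul, Complex.norm_real, Real.norm_eq_abs]
  have h1 := hB (N / d) (Nat.div_le_self N d)
  calc |c d| * ‖ψ (d : ZMod f)‖ * ‖∑ b ∈ Icc 1 (N / d), ((w b : ℝ) : ℂ) * ψ (b : ZMod f)‖ ≤
      |c d| * 1 * B := by
        gcongr
        exact ψ.norm_le_one _
    _ = _ := by ring

lemma one_sum {f : ℕ} (hf : 2 ≤ f) {ψ : DirichletCharacter ℂ f} (hψ : ψ ≠ 1) (M : ℕ) :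
    ‖∑ b ∈ Icc 1 M, (((fun _ => 1 : ℕ → ℝ) b : ℝ) : ℂ) * ψ (b : ZMod f)‖ ≤ f := by
  have := norm_Icc_le hf ψ hψ M
  simpa using this

lemma log_sum {f : ℕ} (hf : 2 ≤ f) {ψ : DirichletCharacter ℂ f} (hψ : ψ ≠ 1) (M : ℕ) :
    ‖∑ b ∈ Icc 1 M, ((Real.log b : ℝ) : ℂ) * ψ (b : ZMod f)‖ ≤ 2 * f * Real.log M := by
  have := abel_mono (fun i => ψ (i : ZMod f)) f (norm_Icc_le hf ψ hψ) (fun n : ℕ => Real.log n)
    mono_log (by simp) M
  simp_rw [mul_comm] at this ⊢
  simpa [mul_comm, mul_left_comm, mul_assoc] using this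

/-- the second factor in Vaughan's identity -/
noncomputable def cc (U n : ℕ) : ℝ := (mu1 U * l1 U) n

lemma cc_eq (U n : ℕ) : cc U n = cv (mu1 U) (l1 U) n := by
  unfold cc cv
  rw [ArithmeticFunction.mul_apply]

lemma cc_le (U n : ℕ) : |cc U n| ≤ Real.log n := by
  rw [cc_eq]
  unfold cv
  refine (abs_sum_le_sum_abs _ _).trans ?_
  have h1 : ∀ p ∈ n.divisorsAntidiagonal, |mu1 U p.1 * l1 U p.2| ≤
      ArithmeticFunction.vonMangoldt p.2 := by
    intro p _
    rw [abs_mul, mu1_apply, l1_apply]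
    have h2 : |if p.1 ≤ U then ((ArithmeticFunction.moebius p.1 : ℤ) : ℝ) else 0| ≤ 1 := by
      split_ifs
      · exact_mod_cast ArithmeticFunction.abs_moebius_le_one
      · simp
    have h3 : |if p.2 ≤ U then ArithmeticFunction.vonMangoldt p.2 else 0| ≤
        ArithmeticFunction.vonMangoldt p.2 := by
      split_ifs
      · rw [abs_of_nonneg ArithmeticFunction.vonMangoldt_nonneg]
      · simp [ArithmeticFunction.vonMangoldt_nonneg]
    calc _ ≤ 1 * ArithmeticFunction.vonMangoldt p.2 := by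
          apply mul_le_mul h2 h3 (abs_nonneg _) zero_le_one
      _ = _ := one_mul _
  refine (sum_le_sum h1).trans ?_
  have h4 := Nat.sum_divisorsAntidiagonal' (n := n) (fun _ b => ArithmeticFunction.vonMangoldt b)
  rw [h4, ArithmeticFunction.vonMangoldt_sum]

lemma cc_zero (U n : ℕ) (h : U * U < n) : cc U n = 0 := by
  rw [cc_eq]
  unfold cv
  apply sum_eq_zero
  intro p hp
  rw [Nat.mem_divisorsAntidiagonal] at hp
  rw [mu1_apply, l1_apply]
  by_cases h1 : p.1 ≤ U
  · by_cases h2 : p.2 ≤ U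
    · have := Nat.mul_le_mul h1 h2
      omega
    · rw [if_neg h2, mul_zero]
  · rw [if_neg h1, zero_mul]

/-- the small part -/
noncomputable def cs1 (U n : ℕ) : ℝ := if n ≤ U then cc U n else 0

/-- the large part -/
noncomputable def cs2 (U n : ℕ) : ℝ := if U < n then cc U n else 0

/-- the large part of the von Mangoldt function -/
noncomputable def la (U : ℕ) (x : ℝ) (n : ℕ) : ℝ := if (n : ℝ) * U ≤ x then L2 U n else 0

lemma cv_comm (α β : ℕ → ℝ) (n : ℕ) : cv α β n = cv β α n := by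
  unfold cv
  apply sum_equiv (Equiv.prodComm ℕ ℕ)
  · intro p
    simp [Nat.mem_divisorsAntidiagonal, mul_comm]
  · intro p _
    simp [mul_comm]

lemma decomp (U : ℕ) (x : ℝ) (n : ℕ) (hn : 1 ≤ n) (hnx : (n : ℝ) ≤ x) :
    ArithmeticFunction.vonMangoldt n = l1 U n + cv (mu1 U) (fun b => Real.log b) n -
      cv (cs1 U) (fun _ => 1) n - cv (cs2 U) (fun _ => 1) n + cv (la U x) (betaV U) n := by
  have h1 := vaughan U U n
  have h2 : (ArithmeticFunction.log * mu1 U) n = cv (mu1 U) (fun b => Real.log b) n := by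
    rw [mul_comm, ArithmeticFunction.mul_apply]
    rfl
  have h3 : (((ArithmeticFunction.zeta : ArithmeticFunction ℕ) : ArithmeticFunction ℝ) *
        (mu1 U * l1 U)) n = cv (cs1 U) (fun _ => 1) n + cv (cs2 U) (fun _ => 1) n := by
    rw [mul_comm, ArithmeticFunction.mul_apply]
    unfold cv
    rw [← sum_add_distrib]
    apply sum_congr rfl
    intro p hp
    rw [Nat.mem_divisorsAntidiagonal] at hp
    have h4 : p.2 ≠ 0 := fun h => hp.2 (by rw [← hp.1, h, mul_zero])
    have h5 : ((ArithmeticFunction.zeta : ArithmeticFunction ℕ) : ArithmeticFunction ℝ) p.2 = 1 := by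
      rw [ArithmeticFunction.natCoe_apply, ArithmeticFunction.zeta_apply, if_neg h4]
      simp
    rw [h5]
    unfold cs1 cs2 cc
    by_cases h : p.1 ≤ U
    · rw [if_pos h, if_neg (by omega)]
      ring
    · rw [if_neg h, if_pos (by omega)]
      ring
  have h6 : LamII U U n = cv (la U x) (betaV U) n := by
    rw [cv_comm]
    unfold LamII cv
    apply sum_congr rfl
    intro p hp
    rw [Nat.mem_divisorsAntidiagonal] at hp
    by_cases hb : p.1 ≤ U
    · rw [betaV_zero U p.1 hb]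
      ring
    · have h7 : (p.2 : ℝ) * U ≤ x := by
        refine le_trans ?_ hnx
        have : p.2 * U ≤ n := by
          rw [← hp.1, mul_comm p.1]
          apply Nat.mul_le_mul_left
          omega
        exact_mod_cast this
      unfold la L2
      rw [if_pos h7]
  rw [h2, h3, h6] at h1
  linarith

/-- number of integers in the edge cells -/
theorem edge_count (K W I : ℕ) (hK : 0 < K) (hW : 2 ≤ W) (x L : ℝ)
    (hx : Real.exp ((I : ℝ) / K) ≤ x) (hI : (I : ℝ) ≤ 2 * K * L) :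
    ((((Icc 1 (gg K I)).filter (fun n => kap (K * W) n % W = 0 ∨ kap (K * W) n % W = W - 1)).card : ℕ)
      : ℝ) ≤ 8 * x * L / W + 2 * I := by
  have hKW : 0 < K * W := Nat.mul_pos hK (by omega)
  have hK0 : (0:ℝ) < K := by exact_mod_cast hK
  have hW0 : (0:ℝ) < W := by
    have : 0 < W := by omega
    exact_mod_cast this
  have hx0 : 0 < x := lt_of_lt_of_le (Real.exp_pos _) hx
  have h1 : (Icc 1 (gg K I)).filter (fun n => kap (K * W) n % W = 0 ∨ kap (K * W) n % W = W - 1) ⊆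
      (range I).biUnion (fun k => cell (K * W) (k * W) ∪ cell (K * W) (k * W + (W - 1))) := by
    intro n hn
    rw [mem_filter, mem_Icc] at hn
    obtain ⟨⟨hn1, hn2⟩, hn3⟩ := hn
    rw [mem_biUnion]
    have hk : kap (K * W) n / W < I := by
      rw [kap_mul K W n (by omega)]
      by_contra hcon
      rw [not_lt, le_kap' hK hn1] at hcon
      omega
    refine ⟨kap (K * W) n / W, mem_range.2 hk, ?_⟩
    rw [mem_union, mem_cell hKW, mem_cell hKW]
    have hdm := Nat.div_add_mod (kap (K * W) n) W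
    rw [mul_comm] at hdm
    rcases hn3 with h | h
    · left
      exact ⟨hn1, by omega⟩
    · right
      exact ⟨hn1, by omega⟩
  have h2 : ∀ k ∈ range I, (((cell (K * W) (k * W) ∪ cell (K * W) (k * W + (W - 1))).card : ℕ) : ℝ) ≤
      4 * x / (K * W) + 2 := by
    intro k hk
    rw [mem_range] at hk
    have h3 : ∀ i : ℕ, i ≤ I * W → (((cell (K * W) i).card : ℕ) : ℝ) ≤ 2 * x / (K * W) + 1 := by
      intro i hi
      have h4 : (cell (K * W) i).card = len (K * W) i := by
        unfold cell len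
        rw [Nat.card_Ioc]
      rw [h4]
      refine (len_le (K * W) i hKW).trans ?_
      push_cast
      gcongr
      refine le_trans ?_ hx
      apply Real.exp_le_exp.2
      rw [div_le_div_iff₀ (by positivity) hK0]
      have : (i:ℝ) ≤ I * W := by exact_mod_cast hi
      calc (i:ℝ) * K ≤ (I * W) * K := by gcongr
        _ = I * (K * W) := by ring
    have h5 : k * W + W ≤ I * W := by
      calc k * W + W = (k + 1) * W := by ring
        _ ≤ I * W := Nat.mul_le_mul_right W hk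
    have h6 := h3 (k * W) (by omega)
    have h7 := h3 (k * W + (W - 1)) (by omega)
    have h8 : (((cell (K * W) (k * W) ∪ cell (K * W) (k * W + (W - 1))).card : ℕ) : ℝ) ≤
        ((cell (K * W) (k * W)).card : ℝ) + ((cell (K * W) (k * W + (W - 1))).card : ℝ) := by
      exact_mod_cast card_union_le _ _
    calc _ ≤ _ := h8
      _ ≤ (2 * x / (K * W) + 1) + (2 * x / (K * W) + 1) := add_le_add h6 h7
      _ = _ := by ring
  calc ((((Icc 1 (gg K I)).filter (fun n => kap (K * W) n % W = 0 ∨ kap (K * W) n % W = W - 1)).card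
        : ℕ) : ℝ)
      ≤ ((((range I).biUnion
          (fun k => cell (K * W) (k * W) ∪ cell (K * W) (k * W + (W - 1)))).card : ℕ) : ℝ) := by
        exact_mod_cast card_le_card h1
    _ ≤ ∑ k ∈ range I, (((cell (K * W) (k * W) ∪ cell (K * W) (k * W + (W - 1))).card : ℕ) : ℝ) := by
        exact_mod_cast card_biUnion_le
    _ ≤ ∑ _k ∈ range I, (4 * x / (K * W) + 2) := sum_le_sum h2
    _ = I * (4 * x / (K * W)) + 2 * I := by
        rw [sum_const, card_range, nsmul_eq_mul]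
        ring
    _ ≤ (2 * K * L) * (4 * x / (K * W)) + 2 * I := by gcongr
    _ = 8 * x * L / W + 2 * I := by
        field_simp
        ring

lemma bd_zero (K W : ℕ) (hW : 0 < W) (α β : ℕ → ℝ) (n : ℕ)
    (h : ¬ (kap (K * W) n % W = 0 ∨ kap (K * W) n % W = W - 1)) : bd K W α β n = 0 := by
  classical
  unfold bd
  apply sum_eq_zero
  intro p hp
  exfalso
  rw [mem_filter, Nat.mem_divisorsAntidiagonal] at hp
  obtain ⟨⟨h1, h2⟩, h3⟩ := hp
  have hp1 : 1 ≤ p.1 := Nat.pos_of_ne_zero fun h => h2 (by rw [← h1, h, zero_mul])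
  have hp2 : 1 ≤ p.2 := Nat.pos_of_ne_zero fun h => h2 (by rw [← h1, h, mul_zero])
  obtain ⟨g1, g2⟩ := kap_prod (K := K * W) hp1 hp2
  rw [h1] at g1 g2
  unfold Bad at h3
  set s := kap (K * W) p.1 + kap (K * W) p.2 with hs
  apply h
  rcases Nat.lt_or_ge s (kap (K * W) n) with h4 | h4
  · have h5 : kap (K * W) n = s + 1 := by omega
    left
    rw [h5, Nat.add_mod, h3]
    rcases Nat.lt_or_ge 1 W with hW1 | hW1
    · rw [Nat.mod_eq_of_lt hW1, Nat.sub_add_cancel hW, Nat.mod_self]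
    · have : W = 1 := by omega
      subst this
      simp
  · have h5 : kap (K * W) n = s := by omega
    right
    rw [h5, h3]

/-- mean square of the bad part -/
theorem bd_sq (K W I : ℕ) (hK : 0 < K) (hW : 2 ≤ W) (x L T : ℝ)
    (hx : Real.exp ((I : ℝ) / K) ≤ x) (hI : (I : ℝ) ≤ 2 * K * L) (α β : ℕ → ℝ)
    (hT : ∀ n : ℕ, 1 ≤ n → (n : ℝ) ≤ x → ∑ p ∈ n.divisorsAntidiagonal, |α p.1| * |β p.2| ≤ T) :
    ∑ n ∈ Icc 1 (gg K I), bd K W α β n ^ 2 ≤ T ^ 2 * (8 * x * L / W + 2 * I) := by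
  classical
  have hW' : 0 < W := by omega
  calc ∑ n ∈ Icc 1 (gg K I), bd K W α β n ^ 2
      ≤ ∑ n ∈ Icc 1 (gg K I), (if kap (K * W) n % W = 0 ∨ kap (K * W) n % W = W - 1 then T ^ 2 else 0) := by
        apply sum_le_sum
        intro n hn
        rw [mem_Icc] at hn
        split_ifs with h
        · rw [← sq_abs]
          apply pow_le_pow_left₀ (abs_nonneg _)
          unfold bd
          refine (abs_sum_le_sum_abs _ _).trans ?_
          have hnx : (n:ℝ) ≤ x := by
            refine le_trans ?_ hx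
            refine le_trans ?_ (gg_lt K I).le
            exact_mod_cast hn.2
          refine le_trans ?_ (hT n hn.1 hnx)
          simp_rw [abs_mul]
          apply sum_le_sum_of_subset_of_nonneg (filter_subset _ _)
          intro _ _ _
          positivity
        · rw [bd_zero K W hW' α β n h]
          simp
    _ = T ^ 2 * ((((Icc 1 (gg K I)).filter
        (fun n => kap (K * W) n % W = 0 ∨ kap (K * W) n % W = W - 1)).card : ℕ) : ℝ) := by
        rw [← sum_filter, sum_const, nsmul_eq_mul]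
        ring
    _ ≤ T ^ 2 * (8 * x * L / W + 2 * I) := by
        apply mul_le_mul_of_nonneg_left (edge_count K W I hK hW x L hx hI) (sq_nonneg T)

end Run7.h905.SM
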