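import Pool.Agent.Run7.h905.SM.Cells

/-!
Bilinear sums in cells.
-/

set_option autoImplicit false

open Finset

namespace Run7.h905.SM

open Pool.Agent.H398R2.BV (Prim card_prim_le)
open Pool.Agent.H441R3.BV (kap)

/-- character sum over a cell -/
noncomputable def CS (h : ℕ → ℝ) (K k f : ℕ) (ψ : DirichletCharacter ℂ f) : ℂ :=
  ∑ n ∈ cell K k, ((h n : ℝ) : ℂ) * ψ (n : ZMod f)

/-- mean square bound for the cells -/
theorem edg (F K I : ℕ) (hF : 0 < F) (e : ℕ → ℝ) :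
    Av F (fun f ψ => ∑ k ∈ range I, ‖CS e K k f ψ‖) ≤
    5 * (Real.sqrt (gg K I + 4 * (F : ℝ) ^ 2 * I) *
      Real.sqrt (∑ n ∈ Icc 1 (gg K I), e n ^ 2)) := by
  rw [Av_sum]
  have h1 : ∀ k ∈ range I, Av F (fun f ψ => ‖CS e K k f ψ‖) ≤
      5 * (Real.sqrt (len K k + 4 * (F : ℝ) ^ 2) * Real.sqrt (∑ n ∈ cell K k, e n ^ 2)) := by
    intro k _
    have := ms_set F hF (gg K k) (len K k) (cell K k) (cell_sub K k) e
    rw [Real.sqrt_mul (by positivity)] at this
    exact this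
  refine (sum_le_sum h1).trans ?_
  rw [← mul_sum]
  apply mul_le_mul_of_nonneg_left _ (by norm_num)
  refine (Real.sum_sqrt_mul_sqrt_le (range I) (fun k => by positivity)
    (fun k => sum_nonneg fun _ _ => sq_nonneg _)).trans ?_
  rw [sum_cells, sum_add_distrib, sum_len, sum_const, card_range, nsmul_eq_mul]
  apply le_of_eq
  ring_nf

/-- arithmetic of the bound for one cell -/
lemma P_bound (K U I : ℕ) (F x y z L : ℝ) (hK : 0 < K) (hKU : 3 * K ≤ U) (hF : 0 < F) (hy : 0 < y)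
    (hxy : y * z = x) (hyU : y * U ≤ x) (hUy : (U : ℝ) ≤ 3 * y) (hL : 1 ≤ L)
    (hI : (I : ℝ) ≤ 2 * K * L) :
    Real.sqrt ((3 * y / K + 4 * F ^ 2) * (3 * y / K) * ((z + 4 * F ^ 2 * I) * z)) ≤
      3 * x / K + 11 * F * x * Real.sqrt (L / (U * K)) + 10 * F ^ 2 * Real.sqrt (L * x) := by
  have hK0 : (0:ℝ) < K := by exact_mod_cast hK
  have hU0 : (0:ℝ) < U := by
    have : (3:ℝ) * K ≤ U := by exact_mod_cast hKU
    linarith
  have hx0 : 0 < x := lt_of_lt_of_le (by positivity) hyU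
  have hz0 : 0 < z := by
    by_contra h
    rw [not_lt] at h
    nlinarith
  have hI0 : (0:ℝ) ≤ I := Nat.cast_nonneg I
  set s := Real.sqrt (L / (U * K)) with hs
  set t := Real.sqrt (L * x) with ht
  have hs2 : s ^ 2 = L / (U * K) := Real.sq_sqrt (by positivity)
  have ht2 : t ^ 2 = L * x := Real.sq_sqrt (by positivity)
  have hs0 : 0 ≤ s := Real.sqrt_nonneg _
  have ht0 : 0 ≤ t := Real.sqrt_nonneg _
  rw [Real.sqrt_le_left (by positivity)]
  have hyb : y ≤ x / U := by rwa [le_div_iff₀ hU0]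
  have hzb : z ≤ 3 * x / U := by
    rw [le_div_iff₀ hU0]
    calc z * U ≤ z * (3 * y) := by gcongr
      _ = 3 * x := by rw [← hxy]; ring
  have e1 : (3 * y / K + 4 * F ^ 2) * (3 * y / K) * ((z + 4 * F ^ 2 * I) * z) =
      9 * (y * z) ^ 2 / K ^ 2 + 36 * F ^ 2 * I * (y * z) * y / K ^ 2 +
      12 * F ^ 2 * (y * z) * z / K + 48 * F ^ 4 * I * (y * z) / K := by
    field_simp
    ring
  rw [e1, hxy]
  have b1 : 36 * F ^ 2 * I * x * y / K ^ 2 ≤ 72 * F ^ 2 * x ^ 2 * s ^ 2 := by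
    rw [hs2]
    calc 36 * F ^ 2 * I * x * y / K ^ 2 ≤ 36 * F ^ 2 * (2 * K * L) * x * (x / U) / K ^ 2 := by gcongr
      _ = 72 * F ^ 2 * x ^ 2 * (L / (U * K)) := by field_simp; ring
  have b2 : 12 * F ^ 2 * x * z / K ≤ 36 * F ^ 2 * x ^ 2 * s ^ 2 := by
    rw [hs2]
    calc 12 * F ^ 2 * x * z / K ≤ 12 * F ^ 2 * x * (3 * x / U) / K := by gcongr
      _ = 36 * F ^ 2 * x ^ 2 * (1 / (U * K)) := by field_simp; ring
      _ ≤ 36 * F ^ 2 * x ^ 2 * (L / (U * K)) := by gcongr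
  have b3 : 48 * F ^ 4 * I * x / K ≤ 96 * F ^ 4 * t ^ 2 := by
    rw [ht2]
    calc 48 * F ^ 4 * I * x / K ≤ 48 * F ^ 4 * (2 * K * L) * x / K := by gcongr
      _ = 96 * F ^ 4 * (L * x) := by field_simp; ring
  have e2 : 9 * x ^ 2 / K ^ 2 = (3 * x / K) ^ 2 := by ring
  have hA : 0 ≤ 3 * x / K := by positivity
  have hB : 0 ≤ 11 * F * x * s := by positivity
  have hC : 0 ≤ 10 * F ^ 2 * t := by positivity
  have hAB := mul_nonneg hA hB
  have hAC := mul_nonneg hA hC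
  have hBC := mul_nonneg hB hC
  have hx2 : 0 ≤ F ^ 2 * x ^ 2 * s ^ 2 := by positivity
  have hx3 : 0 ≤ F ^ 4 * t ^ 2 := by positivity
  rw [e2]
  have e3 : (3 * x / K + 11 * F * x * s + 10 * F ^ 2 * t) ^ 2 =
      (3 * x / K) ^ 2 + 121 * (F ^ 2 * x ^ 2 * s ^ 2) + 100 * (F ^ 4 * t ^ 2) +
      2 * (3 * x / K * (11 * F * x * s)) + 2 * (3 * x / K * (10 * F ^ 2 * t)) +
      2 * (11 * F * x * s * (10 * F ^ 2 * t)) := by ring
  rw [e3]
  nlinarith

/-- the bilinear large sieve in cells -/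
theorem pairs (F K U I : ℕ) (hF : 0 < F) (hK : 0 < K) (hKU : 3 * K ≤ U) (x L A1 A2 : ℝ)
    (hx : Real.exp ((I : ℝ) / K) ≤ x) (hL : 1 ≤ L) (hI : (I : ℝ) ≤ 2 * K * L)
    (α β : ℕ → ℝ) (hA1 : 0 ≤ A1) (hA2 : 0 ≤ A2) (hα : ∀ n, |α n| ≤ A1)
    (hs : ∀ n, α n ≠ 0 → (U : ℝ) ≤ n ∧ (n : ℝ) * U ≤ x)
    (hβ : ∀ y : ℕ, (y : ℝ) ≤ x → ∑ n ∈ Icc 1 y, β n ^ 2 ≤ A2 * y) :
    Av F (fun f ψ => ∑ i ∈ range I, ∑ j ∈ range (I - i), ‖CS α K i f ψ‖ * ‖CS β K j f ψ‖) ≤
    12 * A1 * Real.sqrt A2 * L *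
      (3 * x / F + 11 * x * Real.sqrt (L * K / U) + 10 * F * K * Real.sqrt (L * x)) := by
  have hK0 : (0:ℝ) < K := by exact_mod_cast hK
  have hF0 : (0:ℝ) < F := by exact_mod_cast hF
  have hK1 : (1:ℝ) ≤ K := by exact_mod_cast hK
  have hU3 : (3:ℝ) * K ≤ U := by exact_mod_cast hKU
  have hU0 : (0:ℝ) < U := by linarith
  have hx1 : 1 ≤ x := le_trans (Real.one_le_exp (by positivity)) hx
  set R : ℝ := 3 * x / K + 11 * F * x * Real.sqrt (L / (U * K)) + 10 * (F:ℝ) ^ 2 * Real.sqrt (L * x)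
    with hR
  have hR0 : 0 ≤ R := by positivity
  have key : ∀ i ∈ range I, Av F (fun f ψ => ∑ j ∈ range (I - i),
      ‖CS α K i f ψ‖ * ‖CS β K j f ψ‖) ≤ 6 / F * (A1 * Real.sqrt A2 * R) := by
    intro i hi
    rw [mem_range] at hi
    by_cases hz : ∀ n ∈ cell K i, α n = 0
    · have h0 : ∀ f (ψ : DirichletCharacter ℂ f), CS α K i f ψ = 0 := by
        intro f ψ
        unfold CS
        apply sum_eq_zero
        intro n hn
        rw [hz n hn]
        simp
      have : Av F (fun f ψ => ∑ j ∈ range (I - i), ‖CS α K i f ψ‖ * ‖CS β K j f ψ‖) = 0 := by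
        unfold Av
        simp only [h0, norm_zero, zero_mul, sum_const_zero, mul_zero]
      rw [this]
      positivity
    · push Not at hz
      obtain ⟨n, hn, hn0⟩ := hz
      obtain ⟨hs1, hs2⟩ := hs n hn0
      set y : ℝ := Real.exp ((i : ℝ) / K) with hy
      have hy0 : 0 < y := Real.exp_pos _
      have hny : y ≤ n := cell_lower hn
      have hny2 : (n:ℝ) ≤ 3 * y := by
        have h1 := cell_upper hn
        have h2 : Real.exp (((i + 1 : ℕ) : ℝ) / K) = y * Real.exp (1 / (K:ℝ)) := by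
          rw [hy, ← Real.exp_add]
          congr 1
          push_cast
          ring
        have h3 : Real.exp (1 / (K:ℝ)) ≤ 3 := by
          have h4 : Real.exp (1 / (K:ℝ)) ≤ Real.exp 1 := by
            apply Real.exp_le_exp.2
            rw [div_le_one hK0]
            exact hK1
          have := Real.exp_one_lt_d9
          linarith
        rw [h2] at h1
        nlinarith
      have hUy : (U:ℝ) ≤ 3 * y := hs1.trans hny2
      have hyU : y * U ≤ x := le_trans (by gcongr) hs2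
      set z : ℝ := x / y with hz
      have hyz : y * z = x := by rw [hz]; field_simp
      have hgz : (gg K (I - i) : ℝ) ≤ z := by
        refine (gg_lt K (I - i)).le.trans ?_
        rw [hz, le_div_iff₀ hy0, hy, ← Real.exp_add]
        refine le_trans (le_of_eq ?_) hx
        congr 1
        rw [Nat.cast_sub hi.le]
        ring
      have hgx : (gg K (I - i) : ℝ) ≤ x := by
        refine hgz.trans ?_
        rw [hz]
        apply div_le_self (by linarith)
        rw [hy]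
        exact Real.one_le_exp (by positivity)
      have hlen : (len K i : ℝ) ≤ 3 * y / K := by
        have h1 := len_le K i hK
        have h2 : 1 ≤ y / K := by
          rw [le_div_iff₀ hK0]
          linarith
        have h3 : 3 * y / K = 2 * y / K + y / K := by ring
        rw [h3]
        linarith
      have hP := P_bound K U I F x y z L hK hKU hF0 hy0 hyz hyU hUy hL hI
      rw [Av_sum]
      have h1 : ∀ j ∈ range (I - i), Av F (fun f ψ => ‖CS α K i f ψ‖ * ‖CS β K j f ψ‖) ≤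
          6 / F * Real.sqrt ((len K i + 4 * (F : ℝ) ^ 2) * ∑ n ∈ cell K i, α n ^ 2) *
          (Real.sqrt (len K j + 4 * (F : ℝ) ^ 2) * Real.sqrt (∑ n ∈ cell K j, β n ^ 2)) := by
        intro j _
        have := pair_ls F hF _ _ _ _ (cell K i) (cell K j) (cell_sub K i) (cell_sub K j) α β
        rw [Real.sqrt_mul (x := (len K j : ℝ) + 4 * (F : ℝ) ^ 2) (by positivity)] at this
        rw [mul_assoc]
        exact this
      refine (sum_le_sum h1).trans ?_
      rw [← mul_sum, mul_assoc]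
      apply mul_le_mul_of_nonneg_left _ (by positivity)
      have h2 : ∑ j ∈ range (I - i), Real.sqrt (len K j + 4 * (F : ℝ) ^ 2) *
          Real.sqrt (∑ n ∈ cell K j, β n ^ 2) ≤
          Real.sqrt (z + 4 * (F:ℝ) ^ 2 * I) * Real.sqrt (A2 * z) := by
        refine (Real.sum_sqrt_mul_sqrt_le (range (I - i)) (fun k => by positivity)
          (fun k => sum_nonneg fun _ _ => sq_nonneg _)).trans ?_
        rw [← sum_cells, sum_add_distrib, sum_len, sum_const, card_range, nsmul_eq_mul]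
        have h3 : ((I - i : ℕ) : ℝ) ≤ I := by exact_mod_cast Nat.sub_le I i
        apply mul_le_mul
        · apply Real.sqrt_le_sqrt
          have : ((I - i : ℕ) : ℝ) * (4 * (F:ℝ) ^ 2) ≤ 4 * (F:ℝ) ^ 2 * I := by
            rw [mul_comm]
            gcongr
          linarith
        · apply Real.sqrt_le_sqrt
          refine (hβ _ hgx).trans ?_
          gcongr
        · positivity
        · positivity
      have h3 : Real.sqrt ((len K i + 4 * (F : ℝ) ^ 2) * ∑ n ∈ cell K i, α n ^ 2) ≤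
          A1 * Real.sqrt ((3 * y / K + 4 * (F:ℝ) ^ 2) * (3 * y / K)) := by
        have h4 : ∑ n ∈ cell K i, α n ^ 2 ≤ A1 ^ 2 * (3 * y / K) := by
          calc ∑ n ∈ cell K i, α n ^ 2 ≤ ∑ _n ∈ cell K i, A1 ^ 2 := by
                apply sum_le_sum
                intro n _
                rw [← sq_abs]
                exact pow_le_pow_left₀ (abs_nonneg _) (hα n) 2
            _ = (len K i : ℝ) * A1 ^ 2 := by
                rw [sum_const, nsmul_eq_mul]
                unfold cell len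
                rw [Nat.card_Ioc]
            _ ≤ (3 * y / K) * A1 ^ 2 := by gcongr
            _ = _ := by ring
        calc Real.sqrt ((len K i + 4 * (F : ℝ) ^ 2) * ∑ n ∈ cell K i, α n ^ 2) ≤
            Real.sqrt ((3 * y / K + 4 * (F : ℝ) ^ 2) * (A1 ^ 2 * (3 * y / K))) := by
              apply Real.sqrt_le_sqrt
              apply mul_le_mul _ h4 (sum_nonneg fun _ _ => sq_nonneg _) (by positivity)
              linarith
          _ = Real.sqrt (A1 ^ 2 * ((3 * y / K + 4 * (F : ℝ) ^ 2) * (3 * y / K))) := by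
              congr 1
              ring
          _ = _ := by
              rw [Real.sqrt_mul (sq_nonneg A1), Real.sqrt_sq hA1]
      have hz0 : 0 < z := by positivity
      calc Real.sqrt ((len K i + 4 * (F : ℝ) ^ 2) * ∑ n ∈ cell K i, α n ^ 2) *
          ∑ j ∈ range (I - i), Real.sqrt (len K j + 4 * (F : ℝ) ^ 2) *
          Real.sqrt (∑ n ∈ cell K j, β n ^ 2) ≤
          (A1 * Real.sqrt ((3 * y / K + 4 * (F:ℝ) ^ 2) * (3 * y / K))) *
          (Real.sqrt (z + 4 * (F:ℝ) ^ 2 * I) * Real.sqrt (A2 * z)) := by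
            apply mul_le_mul h3 h2 (sum_nonneg fun _ _ => by positivity) (by positivity)
        _ = A1 * Real.sqrt A2 * Real.sqrt ((3 * y / K + 4 * (F:ℝ) ^ 2) * (3 * y / K) *
            ((z + 4 * (F:ℝ) ^ 2 * I) * z)) := by
            rw [Real.sqrt_mul hA2, Real.sqrt_mul (x := (3 * y / K + 4 * (F:ℝ) ^ 2) * (3 * y / K))
              (by positivity), Real.sqrt_mul (x := z + 4 * (F:ℝ) ^ 2 * I) (by positivity)]
            ring
        _ ≤ A1 * Real.sqrt A2 * R := by gcongr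
  rw [Av_sum]
  refine (sum_le_sum key).trans ?_
  rw [sum_const, card_range, nsmul_eq_mul]
  have hAA : 0 ≤ A1 * Real.sqrt A2 * R := by positivity
  have e1 : (K:ℝ) * Real.sqrt (L / (U * K)) = Real.sqrt (L * K / U) := by
    have : L * K / U = (K:ℝ) ^ 2 * (L / (U * K)) := by field_simp
    rw [this, Real.sqrt_mul (by positivity), Real.sqrt_sq hK0.le]
  calc (I:ℝ) * (6 / F * (A1 * Real.sqrt A2 * R)) ≤
      (2 * K * L) * (6 / F * (A1 * Real.sqrt A2 * R)) := by gcongr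
    _ = 12 * A1 * Real.sqrt A2 * L * (3 * x / F * (K / K) +
        11 * x * (K * Real.sqrt (L / (U * K))) * (F / F) + 10 * F * K * Real.sqrt (L * x) * (F / F)) := by
        rw [hR]
        field_simp
        ring
    _ = _ := by
        rw [e1, div_self hK0.ne', div_self hF0.ne']
        ring

/-- Dirichlet convolution -/
noncomputable def cv (α β : ℕ → ℝ) (n : ℕ) : ℝ := ∑ p ∈ n.divisorsAntidiagonal, α p.1 * β p.2

/-- the pairs whose product is near the boundary of a coarse cell -/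
def Bad (K W : ℕ) (p : ℕ × ℕ) : Prop := (kap (K * W) p.1 + kap (K * W) p.2) % W = W - 1

open Classical in
/-- the part of the convolution from the bad pairs -/
noncomputable def bd (K W : ℕ) (α β : ℕ → ℝ) (n : ℕ) : ℝ :=
  ∑ p ∈ n.divisorsAntidiagonal with Bad K W p, α p.1 * β p.2

lemma gg_mul (K W k : ℕ) (hW : 0 < W) : gg (K * W) (k * W) = gg K k := by
  unfold gg
  congr 3
  have hW0 : (W:ℝ) ≠ 0 := by exact_mod_cast hW.ne'
  push_cast
  field_simp

lemma div_succ {s W : ℕ} (hW : 0 < W) (h : s % W ≠ W - 1) : (s + 1) / W = s / W := by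
  rw [Nat.succ_div, if_neg, add_zero]
  intro hd
  apply h
  obtain ⟨c, hc⟩ := hd
  have hc1 : 1 ≤ c := by
    by_contra h0
    have : c = 0 := by omega
    rw [this] at hc
    omega
  obtain ⟨c', rfl⟩ : ∃ c', c = c' + 1 := ⟨c - 1, by omega⟩
  have : s = W * c' + (W - 1) := by
    rw [mul_add, mul_one] at hc
    omega
  rw [this, Nat.mul_add_mod, Nat.mod_eq_of_lt (by omega)]

lemma good_kap {K W n m : ℕ} (hW : 0 < W) (hn : 1 ≤ n) (hm : 1 ≤ m) (h : ¬ Bad K W (n, m)) :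
    kap K (n * m) = (kap (K * W) n + kap (K * W) m) / W := by
  rw [← kap_mul K W (n * m) hW]
  obtain ⟨h1, h2⟩ := kap_prod (K := K * W) hn hm
  unfold Bad at h
  simp only at h
  have h3 := div_succ hW h
  apply le_antisymm
  · rw [← h3]
    exact Nat.div_le_div_right h2
  · exact Nat.div_le_div_right h1

open Classical in
lemma sum_antidiag (K k : ℕ) (hK : 0 < K) (g : ℕ × ℕ → ℂ) :
    ∑ n ∈ cell K k, ∑ p ∈ n.divisorsAntidiagonal, g p =
    ∑ p ∈ (Icc 1 (gg K (k + 1)) ×ˢ Icc 1 (gg K (k + 1))).filter (fun p => kap K (p.1 * p.2) = k),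
      g p := by
  have hmaps : ∀ p ∈ (Icc 1 (gg K (k + 1)) ×ˢ Icc 1 (gg K (k + 1))).filter
      (fun p => kap K (p.1 * p.2) = k), p.1 * p.2 ∈ cell K k := by
    intro p hp
    rw [mem_filter, mem_product, mem_Icc, mem_Icc] at hp
    rw [mem_cell hK]
    exact ⟨Nat.mul_pos hp.1.1.1 hp.1.2.1, hp.2⟩
  rw [← sum_fiberwise_of_maps_to hmaps]
  apply sum_congr rfl
  intro n hn
  apply sum_congr _ fun _ _ => rfl
  ext p
  have hn2 := hn
  rw [mem_cell hK] at hn2
  unfold cell at hn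
  rw [mem_Ioc] at hn
  rw [Nat.mem_divisorsAntidiagonal, mem_filter, mem_filter, mem_product, mem_Icc, mem_Icc]
  constructor
  · rintro ⟨rfl, h0⟩
    have h1 : 1 ≤ p.1 := Nat.pos_of_ne_zero fun h => h0 (by rw [h, zero_mul])
    have h2 : 1 ≤ p.2 := Nat.pos_of_ne_zero fun h => h0 (by rw [h, mul_zero])
    refine ⟨⟨⟨⟨h1, ?_⟩, ⟨h2, ?_⟩⟩, hn2.2⟩, rfl⟩
    · exact le_trans (Nat.le_mul_of_pos_right _ h2) hn.2
    · exact le_trans (Nat.le_mul_of_pos_left _ h1) hn.2
  · rintro ⟨-, rfl⟩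
    exact ⟨rfl, by omega⟩

open Classical in
lemma good_sum (K W k : ℕ) (hK : 0 < K) (hW : 0 < W) (α β : ℕ → ℝ) (f : ℕ)
    (ψ : DirichletCharacter ℂ f) :
    ∑ p ∈ (Icc 1 (gg K (k + 1)) ×ˢ Icc 1 (gg K (k + 1))).filter
        (fun p => kap K (p.1 * p.2) = k ∧ ¬ Bad K W p),
      ((α p.1 : ℝ) : ℂ) * ψ (p.1 : ZMod f) * (((β p.2 : ℝ) : ℂ) * ψ (p.2 : ZMod f)) =
    ∑ q ∈ (range ((k + 1) * W) ×ˢ range ((k + 1) * W)).filter
        (fun q => (q.1 + q.2) / W = k ∧ (q.1 + q.2) % W ≠ W - 1),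
      CS α (K * W) q.1 f ψ * CS β (K * W) q.2 f ψ := by
  have hKW : 0 < K * W := Nat.mul_pos hK hW
  have hset : (Icc 1 (gg K (k + 1)) ×ˢ Icc 1 (gg K (k + 1))).filter
        (fun p => kap K (p.1 * p.2) = k ∧ ¬ Bad K W p) =
      (Icc 1 (gg K (k + 1)) ×ˢ Icc 1 (gg K (k + 1))).filter
        (fun p => (kap (K * W) p.1 + kap (K * W) p.2) / W = k ∧
          (kap (K * W) p.1 + kap (K * W) p.2) % W ≠ W - 1) := by
    apply filter_congr
    rintro ⟨n, m⟩ hp
    rw [mem_product, mem_Icc, mem_Icc] at hp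
    constructor
    · rintro ⟨h1, h2⟩
      rw [good_kap hW hp.1.1 hp.2.1 h2] at h1
      exact ⟨h1, h2⟩
    · rintro ⟨h1, h2⟩
      refine ⟨?_, h2⟩
      have h3 : ¬ Bad K W (n, m) := h2
      simp only
      rw [good_kap hW hp.1.1 hp.2.1 h3]
      exact h1
  rw [hset]
  have hlt : ∀ s : ℕ, s / W = k → s < (k + 1) * W := by
    intro s hs
    rw [← hs]
    exact (Nat.div_lt_iff_lt_mul hW).1 (Nat.lt_succ_self _)
  have hmaps : ∀ p ∈ (Icc 1 (gg K (k + 1)) ×ˢ Icc 1 (gg K (k + 1))).filter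
        (fun p => (kap (K * W) p.1 + kap (K * W) p.2) / W = k ∧
          (kap (K * W) p.1 + kap (K * W) p.2) % W ≠ W - 1),
      ((kap (K * W) p.1, kap (K * W) p.2) : ℕ × ℕ) ∈
        (range ((k + 1) * W) ×ˢ range ((k + 1) * W)).filter
        (fun q => (q.1 + q.2) / W = k ∧ (q.1 + q.2) % W ≠ W - 1) := by
    intro p hp
    rw [mem_filter] at hp
    rw [mem_filter, mem_product, mem_range, mem_range]
    have h1 := hlt _ hp.2.1
    exact ⟨⟨by simp only; omega, by simp only; omega⟩, hp.2⟩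
  rw [← sum_fiberwise_of_maps_to hmaps]
  apply sum_congr rfl
  rintro ⟨i, j⟩ hq
  rw [mem_filter, mem_product, mem_range, mem_range] at hq
  simp only at hq
  obtain ⟨⟨hi, hj⟩, hq1, hq2⟩ := hq
  unfold CS
  rw [sum_mul_sum, ← sum_product']
  apply sum_congr _ fun _ _ => rfl
  ext ⟨n, m⟩
  rw [mem_filter, mem_filter, mem_product, mem_Icc, mem_Icc, mem_product, mem_cell hKW,
    mem_cell hKW]
  simp only [Prod.mk.injEq]
  constructor
  · rintro ⟨⟨⟨h1, h2⟩, -⟩, h3, h4⟩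
    exact ⟨⟨h1.1, h3⟩, h2.1, h4⟩
  · rintro ⟨⟨h1, h3⟩, h2, h4⟩
    have hb : ∀ l c : ℕ, 1 ≤ l → kap (K * W) l = c → c < (k + 1) * W → l ≤ gg K (k + 1) := by
      intro l c hl hc hcl
      rw [← gg_mul K W (k + 1) hW]
      by_contra hcon
      rw [not_le, ← le_kap' hKW hl] at hcon
      omega
    exact ⟨⟨⟨⟨h1, hb n i h1 h3 hi⟩, ⟨h2, hb m j h2 h4 hj⟩⟩, by rw [h3, h4]; exact ⟨hq1, hq2⟩⟩, h3, h4⟩

lemma conv_cell (K W k : ℕ) (hK : 0 < K) (hW : 0 < W) (α β : ℕ → ℝ) (f : ℕ)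
    (ψ : DirichletCharacter ℂ f) :
    ‖CS (cv α β) K k f ψ‖ ≤
    ∑ q ∈ (range ((k + 1) * W) ×ˢ range ((k + 1) * W)).filter
        (fun q => (q.1 + q.2) / W = k),
      ‖CS α (K * W) q.1 f ψ‖ * ‖CS β (K * W) q.2 f ψ‖ + ‖CS (bd K W α β) K k f ψ‖ := by
  classical
  have e1 : CS (cv α β) K k f ψ = ∑ n ∈ cell K k, ∑ p ∈ n.divisorsAntidiagonal,
      ((α p.1 : ℝ) : ℂ) * ψ (p.1 : ZMod f) * (((β p.2 : ℝ) : ℂ) * ψ (p.2 : ZMod f)) := by
    unfold CS cv
    apply sum_congr rfl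
    intro n _
    rw [Complex.ofReal_sum, sum_mul]
    apply sum_congr rfl
    intro p hp
    rw [Nat.mem_divisorsAntidiagonal] at hp
    rw [← hp.1]
    push_cast
    rw [map_mul]
    ring
  have e2 : CS (bd K W α β) K k f ψ = ∑ n ∈ cell K k, ∑ p ∈ n.divisorsAntidiagonal,
      if Bad K W p then
      ((α p.1 : ℝ) : ℂ) * ψ (p.1 : ZMod f) * (((β p.2 : ℝ) : ℂ) * ψ (p.2 : ZMod f)) else 0 := by
    unfold CS bd
    apply sum_congr rfl
    intro n _
    rw [Complex.ofReal_sum, sum_mul, sum_filter]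
    apply sum_congr rfl
    intro p hp
    rw [Nat.mem_divisorsAntidiagonal] at hp
    split_ifs
    · rw [← hp.1]
      push_cast
      rw [map_mul]
      ring
    · rfl
  have e3 : CS (cv α β) K k f ψ = (∑ q ∈ (range ((k + 1) * W) ×ˢ range ((k + 1) * W)).filter
        (fun q => (q.1 + q.2) / W = k ∧ (q.1 + q.2) % W ≠ W - 1),
      CS α (K * W) q.1 f ψ * CS β (K * W) q.2 f ψ) + CS (bd K W α β) K k f ψ := by
    rw [e1, e2, sum_antidiag K k hK, sum_antidiag K k hK, ← good_sum K W k hK hW, ← filter_filter,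
      ← sum_filter_add_sum_filter_not ((Icc 1 (gg K (k + 1)) ×ˢ Icc 1 (gg K (k + 1))).filter
      (fun p => kap K (p.1 * p.2) = k)) (fun p => ¬ Bad K W p)]
    congr 1
    rw [← sum_filter]
    apply sum_congr _ fun _ _ => rfl
    simp only [not_not]
  rw [e3]
  refine (norm_add_le _ _).trans ?_
  gcongr
  refine (norm_sum_le _ _).trans ?_
  simp_rw [norm_mul]
  apply sum_le_sum_of_subset_of_nonneg
  · intro q hq
    rw [mem_filter] at hq ⊢
    exact ⟨hq.1, hq.2.1⟩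
  · intro _ _ _
    positivity

/-- sum over all the cells -/
theorem tc_conv (K W I : ℕ) (hK : 0 < K) (hW : 0 < W) (α β : ℕ → ℝ) (f : ℕ)
    (ψ : DirichletCharacter ℂ f) :
    ∑ k ∈ range I, ‖CS (cv α β) K k f ψ‖ ≤
    ∑ i ∈ range (I * W), ∑ j ∈ range (I * W - i), ‖CS α (K * W) i f ψ‖ * ‖CS β (K * W) j f ψ‖ +
      ∑ k ∈ range I, ‖CS (bd K W α β) K k f ψ‖ := by
  classical
  refine (sum_le_sum fun k _ => conv_cell K W k hK hW α β f ψ).trans ?_
  rw [sum_add_distrib]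
  gcongr
  set g : ℕ × ℕ → ℝ := fun q => ‖CS α (K * W) q.1 f ψ‖ * ‖CS β (K * W) q.2 f ψ‖ with hg
  have e1 : ∑ i ∈ range (I * W), ∑ j ∈ range (I * W - i),
      ‖CS α (K * W) i f ψ‖ * ‖CS β (K * W) j f ψ‖ =
      ∑ q ∈ (range (I * W) ×ˢ range (I * W)).filter (fun q => q.1 + q.2 < I * W), g q := by
    rw [sum_filter, sum_product]
    apply sum_congr rfl
    intro i hi
    rw [← sum_filter]
    apply sum_congr _ fun _ _ => rfl
    ext j
    rw [mem_filter, mem_range, mem_range]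
    omega
  rw [e1]
  have hmaps : ∀ q ∈ (range (I * W) ×ˢ range (I * W)).filter (fun q => q.1 + q.2 < I * W),
      (q.1 + q.2) / W ∈ range I := by
    intro q hq
    rw [mem_filter] at hq
    rw [mem_range]
    exact (Nat.div_lt_iff_lt_mul hW).2 hq.2
  rw [← sum_fiberwise_of_maps_to hmaps]
  apply le_of_eq
  apply sum_congr rfl
  intro k hk
  rw [mem_range] at hk
  apply sum_congr _ fun _ _ => rfl
  ext ⟨i, j⟩
  have hkI : (k + 1) * W ≤ I * W := Nat.mul_le_mul_right W hk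
  have hlt : (i + j) / W = k → i + j < (k + 1) * W := by
    intro hs
    rw [← hs]
    exact (Nat.div_lt_iff_lt_mul hW).1 (Nat.lt_succ_self _)
  simp only [mem_filter, mem_product, mem_range]
  constructor
  · rintro ⟨⟨h1, h2⟩, h3⟩
    have := hlt h3
    exact ⟨⟨⟨by omega, by omega⟩, by omega⟩, h3⟩
  · rintro ⟨⟨⟨h1, h2⟩, h4⟩, h3⟩
    have := hlt h3
    exact ⟨⟨by omega, by omega⟩, h3⟩

end Run7.h905.SM
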